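import Pool.Agent.Q211.AM.Alm
import Pool.Agent.Q211.TP.Ppp

/-!
# Almost preserved sets: filterbases and weak Dedekind-finiteness
-/

set_option autoImplicit false
set_option linter.unusedSectionVars false
set_option linter.unreachableTactic false
set_option linter.unusedTactic false

namespace Pool.Agent.Q211.AM

open Pool.Agent.W868 Pool.Agent.W868.PName Pool.Agent.Q211.SY Pool.Agent.Q211.FS
open Pool.Agent.Q211.PA Pool.Agent.Q211.TP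
open ZFSet (pair)

/-- The model for the family `T`. -/
abbrev AlmM {Y : Type} (T : ℕ → Set Y) (cd : ℕ → ZFSet.{0}) (M : Set ZFSet.{0})
    (at' : Y → ZFSet.{0}) (st : Set Y → ZFSet.{0}) : Prop :=
  PMd (NA T) (DA T) cd (fun _ n D => AE D (T n)) M at' st

namespace AlmM

variable {Y : Type} {T : ℕ → Set Y} {cd : ℕ → ZFSet.{0}} {M : Set ZFSet.{0}}
  {at' : Y → ZFSet.{0}} {st : Set Y → ZFSet.{0}} (h : AlmM T cd M at' st)

include h

theorem mem_st {D : Set Y} (hD : D ∈ DA T) {x : Y} : at' x ∈ st D ↔ x ∈ D := by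
  rw [h.mst D hD]
  constructor
  · rintro ⟨y, hy, h1⟩
    rw [h.inj h1]
    exact hy
  · intro hx
    exact ⟨x, hx, rfl⟩

theorem st_ext {D : Set Y} (hD : D ∈ DA T) {S : ZFSet.{0}} (hS : ∀ z ∈ S, ∃ x, z = at' x)
    (h1 : ∀ x, at' x ∈ S ↔ x ∈ D) : S = st D := by
  ext z
  rw [h.mst D hD]
  constructor
  · intro hz
    obtain ⟨x, rfl⟩ := hS z hz
    exact ⟨x, (h1 x).1 hz, rfl⟩
  · rintro ⟨x, hx, rfl⟩
    exact (h1 x).2 hx

theorem atoms {D : Set Y} (hD : D ∈ DA T) : ∀ z ∈ st D, ∃ x, z = at' x := by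
  intro z hz
  obtain ⟨x, -, rfl⟩ := (h.mst D hD z).1 hz
  exact ⟨x, rfl⟩

theorem fin_iff {S : ZFSet.{0}} (hS : ∀ z ∈ S, ∃ x, z = at' x) (hSM : S ∈ M) :
    FinIn M S ↔ {x | at' x ∈ S}.Finite := by
  unfold FinIn
  rw [← finite_iff h.zf hSM]
  constructor
  · intro h1
    exact Set.Finite.preimage (f := at') h.inj.injOn h1
  · intro h1
    refine (h1.image at').subset fun z hz => ?_
    obtain ⟨x, rfl⟩ := hS z hz
    exact ⟨x, hz, rfl⟩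

/-- Symmetry of the elements of the model. -/
theorem support {f : ZFSet.{0}} (hf : f ∈ M) : ∃ (E : Finset Y) (I : Finset ℕ),
    ∀ x y, x ∉ E → y ∉ E → (∀ i ∈ I, (x ∈ T i ↔ y ∈ T i)) → ∀ r, Cd r →
    ∀ Q : Set ZFSet.{0} → (Fin 3 → ZFSet.{0}) → Prop, UD Q →
      Q M ![f, at' x, r] → Q M ![f, at' y, r] := by
  classical
  obtain ⟨H, ⟨E, I, rfl⟩, e, h1⟩ := h.inv f hf
  refine ⟨E ∪ e, I, fun x y hx hy hxy r hr Q hQ hq => ?_⟩
  obtain ⟨γ, hγ, h2⟩ := exists_swap hx hy hxy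
  have h3 := (h1 γ ⟨fun z hz => hγ.1 z (Finset.mem_union_left _ hz), hγ.2⟩
    (fun z hz => hγ.1 z (Finset.mem_union_right _ hz)) r hr Q hQ).1 x hq
  rwa [h2] at h3

theorem sub_support {S : ZFSet.{0}} (hS : S ∈ M) : ∃ (E : Finset Y) (I : Finset ℕ),
    ∀ x y, x ∉ E → y ∉ E → (∀ i ∈ I, (x ∈ T i ↔ y ∈ T i)) → (at' x ∈ S ↔ at' y ∈ S) := by
  obtain ⟨E, I, h1⟩ := h.support hS
  exact ⟨E, I, fun x y hx hy hxy => ⟨fun h2 => h1 x y hx hy hxy (nat 0) (.nat 0) _ ud_mem3 h2,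
    fun h2 => h1 y x hy hx (fun i hi => (hxy i hi).symm) (nat 0) (.nat 0) _ ud_mem3 h2⟩⟩

/-- The set of the atoms is weakly Dedekind-finite. -/
theorem wdFin (hu : Set.univ ∈ DA T) : WDFin M (st Set.univ) := by
  classical
  rintro ⟨f, hf, hinj⟩
  obtain ⟨E, I, h1⟩ := h.support hf
  have hv : ∀ n : ℕ, ∃ S, pair (nat n) S ∈ f ∧ S ∈ M ∧ S ⊆ st Set.univ ∧
      ∀ S', pair (nat n) S' ∈ f → S' = S := by
    intro n
    obtain ⟨S, hS, hS'⟩ := hinj.1.2 (nat n) (mem_omega_iff.2 ⟨n, rfl⟩)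
    have h2 := (ZFSet.pair_mem_prod.1 (hinj.1.1 hS)).2
    exact ⟨S, hS, (mem_PM.1 h2).1, (mem_PM.1 h2).2, hS'⟩
  choose S hS hSM hSA hSu using hv
  have hinv : ∀ n x y, x ∉ E → y ∉ E → (∀ i ∈ I, (x ∈ T i ↔ y ∈ T i)) → at' x ∈ S n →
      at' y ∈ S n := by
    intro n x y hx hy hxy h2
    obtain ⟨S', -, h3, h4⟩ := h1 x y hx hy hxy (nat n) (.nat n) _ ud_seq3
      ⟨S n, hSM n, hS n, h2⟩
    rwa [hSu n S' h3] at h4
  let φ : ℕ → Set (↥E ⊕ (↥I → Prop)) := fun n => {v | (∃ x : ↥E, v = Sum.inl x ∧ at' x.1 ∈ S n) ∨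
    ∃ x, x ∉ E ∧ v = Sum.inr (fun i : ↥I => x ∈ T i.1) ∧ at' x ∈ S n}
  have hφ : ∀ n m, φ n = φ m → S n ⊆ S m := by
    intro n m hnm z hz
    obtain ⟨x, -, rfl⟩ := (h.mst _ hu z).1 (hSA n hz)
    by_cases hx : x ∈ E
    · have h2 : (Sum.inl ⟨x, hx⟩ : ↥E ⊕ (↥I → Prop)) ∈ φ n := Or.inl ⟨⟨x, hx⟩, rfl, hz⟩
      rw [hnm] at h2
      rcases h2 with ⟨y, h3, h4⟩ | ⟨y, -, h3, -⟩
      · have h5 := Sum.inl.inj h3
        rw [← h5] at h4
        exact h4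
      · exact absurd h3 (by simp)
    · have h2 : (Sum.inr (fun i : ↥I => x ∈ T i.1) : ↥E ⊕ (↥I → Prop)) ∈ φ n :=
        Or.inr ⟨x, hx, rfl, hz⟩
      rw [hnm] at h2
      rcases h2 with ⟨y, h3, h4⟩ | ⟨y, hy, h3, h4⟩
      · exact absurd h3 (by simp)
      · have h5 := Sum.inr.inj h3
        refine hinv m y x hy hx (fun i hi => ?_) h4
        have h6 := congrFun h5 ⟨i, hi⟩
        exact (iff_of_eq h6).symm
  obtain ⟨n, m, hne, hnm⟩ := Finite.exists_ne_map_eq_of_infinite φ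
  have h2 : S n = S m := by
    ext z
    exact ⟨fun hz => hφ n m hnm hz, fun hz => hφ m n hnm.symm hz⟩
  have h3 := hinj.2 _ _ _ (h2 ▸ hS n) (hS m)
  exact hne (nat_injective h3)

/-- The class of an infinite set `T m` is a filterbase. -/
theorem isFB (hu : Set.univ ∈ DA T) {m : ℕ} (hm : (T m).Infinite) {𝒱 : ZFSet.{0}}
    (h𝒱 : ∀ S, S ∈ 𝒱 ↔ ∃ D, AE D (T m) ∧ S = st D) : IsFB' M (st Set.univ) 𝒱 := by
  have hM := h.zf
  have hB := hM.base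
  have hinf : ∀ D, AE D (T m) → D.Infinite := fun D hD hf => hm (hD.symm.finite hf)
  have hDA : ∀ {D}, AE D (T m) → D ∈ DA T := fun hD => ⟨m, hD⟩
  have hun : ∀ D D', AE D (T m) → AE D' (T m) → st D ∪ st D' = st (D ∪ D') := by
    intro D D' hD hD'
    refine h.st_ext (hDA (Set.union_self (T m) ▸ hD.union hD')) (fun z hz => ?_) fun x => ?_
    · rcases ZFSet.mem_union.1 hz with hz | hz
      · exact h.atoms (hDA hD) z hz
      · exact h.atoms (hDA hD') z hz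
    · rw [ZFSet.mem_union, h.mem_st (hDA hD), h.mem_st (hDA hD')]
      exact Iff.rfl
  have hin : ∀ D D', AE D (T m) → AE D' (T m) → st D ∩ st D' = st (D ∩ D') := by
    intro D D' hD hD'
    refine h.st_ext (hDA (Set.inter_self (T m) ▸ hD.inter hD')) (fun z hz => ?_) fun x => ?_
    · exact h.atoms (hDA hD) z (ZFSet.mem_inter.1 hz).1
    · rw [ZFSet.mem_inter, h.mem_st (hDA hD), h.mem_st (hDA hD')]
      exact Iff.rfl
  refine ⟨⟨⟨_, (h𝒱 _).2 ⟨T m, AE.refl _, rfl⟩⟩, fun U hU => ?_, fun U hU V hV => ?_⟩,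
    fun U hU V hV => ?_, fun U hU V hV => ?_, fun U hU => ?_, fun U hU V hV => ?_⟩
  · obtain ⟨D, hD, rfl⟩ := (h𝒱 U).1 hU
    refine ⟨fun z hz => ?_, ?_⟩
    · obtain ⟨x, -, rfl⟩ := (h.mst D (hDA hD) z).1 hz
      exact (h.mem_st hu).2 trivial
    · obtain ⟨x, hx⟩ := (hinf D hD).nonempty
      exact ⟨at' x, (h.mem_st (hDA hD)).2 hx⟩
  · obtain ⟨D, hD, rfl⟩ := (h𝒱 U).1 hU
    obtain ⟨D', hD', rfl⟩ := (h𝒱 V).1 hV
    exact ⟨_, (h𝒱 _).2 ⟨D ∩ D', Set.inter_self (T m) ▸ hD.inter hD', rfl⟩, by rw [hin D D' hD hD']⟩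
  · obtain ⟨D, hD, rfl⟩ := (h𝒱 U).1 hU
    obtain ⟨D', hD', rfl⟩ := (h𝒱 V).1 hV
    exact (h𝒱 _).2 ⟨D ∪ D', Set.union_self (T m) ▸ hD.union hD', hun D D' hD hD'⟩
  · obtain ⟨D, hD, rfl⟩ := (h𝒱 U).1 hU
    obtain ⟨D', hD', rfl⟩ := (h𝒱 V).1 hV
    exact (h𝒱 _).2 ⟨D ∩ D', Set.inter_self (T m) ▸ hD.inter hD', hin D D' hD hD'⟩
  · obtain ⟨D, hD, rfl⟩ := (h𝒱 U).1 hU
    rw [h.fin_iff (h.atoms (hDA hD)) (h.stM D (hDA hD))]
    intro h1
    refine hinf D hD (h1.subset fun x hx => ?_)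
    exact (h.mem_st (hDA hD)).2 hx
  · obtain ⟨D, hD, rfl⟩ := (h𝒱 U).1 hU
    obtain ⟨D', hD', rfl⟩ := (h𝒱 V).1 hV
    have hUM := h.stM D (hDA hD)
    have hVM := h.stM D' (hDA hD')
    have h8 : st D \ st D' = ZFSet.sep (fun z => z ∉ st D') (st D) := by
      ext z
      rw [ZFSet.mem_sdiff, ZFSet.mem_sep]
    have h9 : st D \ st D' ∈ M := by
      rw [h8]
      exact hM.sep_mem (Q := fun z => z ∉ st D')
        (Dfn.not (Dfn.mem (DfnF.proj 0) (DfnF.const hVM))) hUM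
    rw [h.fin_iff (fun z hz => h.atoms (hDA hD) z (ZFSet.mem_sdiff.1 hz).1) h9]
    refine ((hD.trans hD'.symm).diff).subset fun x hx => ?_
    obtain ⟨h1, h2⟩ := ZFSet.mem_sdiff.1 hx
    rw [h.mem_st (hDA hD)] at h1
    rw [h.mem_st (hDA hD')] at h2
    exact ⟨h1, h2⟩

end AlmM

end Pool.Agent.Q211.AM
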