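import Pool.Agent.Q211.AM.Md3
import Pool.Agent.Q211.AM.Fb

/-!
# General facts about the models with three levels
-/

set_option autoImplicit false
set_option linter.unusedSectionVars false
set_option linter.unreachableTactic false
set_option linter.unusedTactic false

namespace Pool.Agent.Q211.AM

open Pool.Agent.W868 Pool.Agent.W868.PName Pool.Agent.Q211.SY Pool.Agent.Q211.FS
open Pool.Agent.Q211.PA Pool.Agent.Q211.TP
open ZFSet (pair)

namespace PM3

variable {X : Type} {Γ : Type} [Group Γ] [MulAction Γ X] {N : NFil Γ} {𝓓 : Set (Set X)}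
  {𝔉 : Set (Set (Set X))} {cd : ℕ → ZFSet.{0}} {Rl : ℕ → ℕ → Set X → Prop}
  {M : Set ZFSet.{0}} {at' : X → ZFSet.{0}} {st : Set X → ZFSet.{0}}
  {fam : Set (Set X) → ZFSet.{0}} (h : PM3 N 𝓓 𝔉 cd Rl M at' st fam)

include h

theorem mem_st {D : Set X} (hD : D ∈ 𝓓) {x : X} : at' x ∈ st D ↔ x ∈ D := by
  rw [h.mst D hD]
  constructor
  · rintro ⟨y, hy, h1⟩
    rw [h.inj h1]
    exact hy
  · intro hx
    exact ⟨x, hx, rfl⟩

theorem st_ext {D : Set X} (hD : D ∈ 𝓓) {S : ZFSet.{0}} (hS : ∀ z ∈ S, ∃ x, z = at' x)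
    (h1 : ∀ x, at' x ∈ S ↔ x ∈ D) : S = st D := by
  ext z
  rw [h.mst D hD]
  constructor
  · intro hz
    obtain ⟨x, rfl⟩ := hS z hz
    exact ⟨x, (h1 x).1 hz, rfl⟩
  · rintro ⟨x, hx, rfl⟩
    exact (h1 x).2 hx

theorem atoms {D : Set X} (hD : D ∈ 𝓓) : ∀ z ∈ st D, ∃ x, z = at' x := by
  intro z hz
  obtain ⟨x, -, rfl⟩ := (h.mst D hD z).1 hz
  exact ⟨x, rfl⟩

theorem fin_iff {S : ZFSet.{0}} (hS : ∀ z ∈ S, ∃ x, z = at' x) (hSM : S ∈ M) :
    FinIn M S ↔ {x | at' x ∈ S}.Finite := by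
  unfold FinIn
  rw [← finite_iff h.zf hSM]
  constructor
  · intro h1
    exact Set.Finite.preimage (f := at') h.inj.injOn h1
  · intro h1
    refine (h1.image at').subset fun z hz => ?_
    obtain ⟨x, rfl⟩ := hS z hz
    exact ⟨x, hz, rfl⟩

/-- Symmetry for one object. -/
theorem inv1 {f : ZFSet.{0}} (hf : f ∈ M) : ∃ H ∈ N.F, ∃ e : Finset X, ∀ γ ∈ H,
    (∀ x ∈ e, γ • x = x) → ∀ r, Cd r → ∀ Q : Set ZFSet.{0} → (Fin 3 → ZFSet.{0}) → Prop, UD Q →
      ∀ o : Ob X, okO 𝓓 𝔉 o → Q M ![f, r, vO at' st fam o] →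
        Q M ![f, r, vO at' st fam (acO γ o)] := by
  obtain ⟨H, hH, e, h1⟩ := h.inv f hf
  refine ⟨H, hH, e, fun γ hγ hγe r hr Q hQ o ho hq => ?_⟩
  have h2 := h1 γ hγ hγe r hr 1 Q hQ ![o] (fun i => by
    refine Fin.cases ho (fun i => i.elim0) i)
  have h3 : ∀ o : Ob X, (Fin.cons f (Fin.cons r fun i => vO at' st fam ((![o] : Fin 1 → Ob X) i)) :
      Fin 3 → ZFSet.{0}) = ![f, r, vO at' st fam o] := by
    intro o
    funext i
    refine Fin.cases rfl (fun i => Fin.cases rfl (fun i => Fin.cases rfl (fun i => i.elim0) i)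
      i) i
  have h4 : (fun i => vO at' st fam (acO γ ((![o] : Fin 1 → Ob X) i))) =
      fun i => vO at' st fam ((![acO γ o] : Fin 1 → Ob X) i) := by
    funext i
    refine Fin.cases rfl (fun i => i.elim0) i
  rw [h4, h3, h3] at h2
  exact h2 hq

/-- Symmetry for two objects. -/
theorem inv2 {f : ZFSet.{0}} (hf : f ∈ M) : ∃ H ∈ N.F, ∃ e : Finset X, ∀ γ ∈ H,
    (∀ x ∈ e, γ • x = x) → ∀ r, Cd r → ∀ Q : Set ZFSet.{0} → (Fin 4 → ZFSet.{0}) → Prop, UD Q →
      ∀ o o' : Ob X, okO 𝓓 𝔉 o → okO 𝓓 𝔉 o' → Q M ![f, r, vO at' st fam o, vO at' st fam o'] →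
        Q M ![f, r, vO at' st fam (acO γ o), vO at' st fam (acO γ o')] := by
  obtain ⟨H, hH, e, h1⟩ := h.inv f hf
  refine ⟨H, hH, e, fun γ hγ hγe r hr Q hQ o o' ho ho' hq => ?_⟩
  have h2 := h1 γ hγ hγe r hr 2 Q hQ ![o, o'] (fun i => by
    refine Fin.cases ho (fun i => Fin.cases ho' (fun i => i.elim0) i) i)
  have h3 : ∀ o o' : Ob X, (Fin.cons f (Fin.cons r fun i =>
      vO at' st fam ((![o, o'] : Fin 2 → Ob X) i)) :
      Fin 4 → ZFSet.{0}) = ![f, r, vO at' st fam o, vO at' st fam o'] := by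
    intro o o'
    funext i
    refine Fin.cases rfl (fun i => Fin.cases rfl (fun i => Fin.cases rfl
      (fun i => Fin.cases rfl (fun i => i.elim0) i) i) i) i
  have h4 : (fun i => vO at' st fam (acO γ ((![o, o'] : Fin 2 → Ob X) i))) =
      fun i => vO at' st fam ((![acO γ o, acO γ o'] : Fin 2 → Ob X) i) := by
    funext i
    refine Fin.cases rfl (fun i => Fin.cases rfl (fun i => i.elim0) i) i
  rw [h4, h3, h3] at h2
  exact h2 hq

/-- Symmetry for three objects. -/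
theorem inv3 {f : ZFSet.{0}} (hf : f ∈ M) : ∃ H ∈ N.F, ∃ e : Finset X, ∀ γ ∈ H,
    (∀ x ∈ e, γ • x = x) → ∀ r, Cd r → ∀ Q : Set ZFSet.{0} → (Fin 5 → ZFSet.{0}) → Prop, UD Q →
      ∀ o o' o'' : Ob X, okO 𝓓 𝔉 o → okO 𝓓 𝔉 o' → okO 𝓓 𝔉 o'' →
        Q M ![f, r, vO at' st fam o, vO at' st fam o', vO at' st fam o''] →
        Q M ![f, r, vO at' st fam (acO γ o), vO at' st fam (acO γ o'),
          vO at' st fam (acO γ o'')] := by
  obtain ⟨H, hH, e, h1⟩ := h.inv f hf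
  refine ⟨H, hH, e, fun γ hγ hγe r hr Q hQ o o' o'' ho ho' ho'' hq => ?_⟩
  have h2 := h1 γ hγ hγe r hr 3 Q hQ ![o, o', o''] (fun i => by
    refine Fin.cases ho (fun i => Fin.cases ho' (fun i => Fin.cases ho'' (fun i => i.elim0) i)
      i) i)
  have h3 : ∀ o o' o'' : Ob X, (Fin.cons f (Fin.cons r fun i =>
      vO at' st fam ((![o, o', o''] : Fin 3 → Ob X) i)) :
      Fin 5 → ZFSet.{0}) = ![f, r, vO at' st fam o, vO at' st fam o', vO at' st fam o''] := by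
    intro o o' o''
    funext i
    refine Fin.cases rfl (fun i => Fin.cases rfl (fun i => Fin.cases rfl
      (fun i => Fin.cases rfl (fun i => Fin.cases rfl (fun i => i.elim0) i) i) i) i) i
  have h4 : (fun i => vO at' st fam (acO γ ((![o, o', o''] : Fin 3 → Ob X) i))) =
      fun i => vO at' st fam ((![acO γ o, acO γ o', acO γ o''] : Fin 3 → Ob X) i) := by
    funext i
    refine Fin.cases rfl (fun i => Fin.cases rfl (fun i => Fin.cases rfl (fun i => i.elim0)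
      i) i) i
  rw [h4, h3, h3] at h2
  exact h2 hq

end PM3

end Pool.Agent.Q211.AM
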