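import Pool.Agent.Q211.TP.Defs

/-!
# Filterbase infinite sets in transitive models
-/

set_option autoImplicit false
set_option linter.unusedSectionVars false
set_option linter.unreachableTactic false
set_option linter.unusedTactic false

namespace Pool.Agent.Q211.AM

open Pool.Agent.W868 Pool.Agent.W868.PName Pool.Agent.Q211.SY Pool.Agent.Q211.FS
open Pool.Agent.Q211.TP
open ZFSet (pair)

/-- In `M`, the set `U` is finite: there is a bijection from a natural number to `U`. -/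
def FinIn (M : Set ZFSet.{0}) (U : ZFSet.{0}) : Prop := ∃ n ∈ ZFSet.omega, ∃ g ∈ M, IsBij n U g

/-- In `M`, the family `𝒱` is a filterbase in the set `A`. -/
structure IsFB (M : Set ZFSet.{0}) (A 𝒱 : ZFSet.{0}) : Prop where
  ne : ∃ U, U ∈ 𝒱
  sub : ∀ U ∈ 𝒱, U ⊆ A ∧ ∃ x, x ∈ U
  base : ∀ U ∈ 𝒱, ∀ V ∈ 𝒱, ∃ W ∈ 𝒱, W ⊆ U ∩ V

/-- In `M`, the family `𝒱` is a filterbase in `A` that is closed under finite unions and finite
intersections, all of whose members are infinite, and any two of whose members differ by finite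
sets. -/
structure IsFB' (M : Set ZFSet.{0}) (A 𝒱 : ZFSet.{0}) : Prop extends IsFB M A 𝒱 where
  union : ∀ U ∈ 𝒱, ∀ V ∈ 𝒱, U ∪ V ∈ 𝒱
  inter : ∀ U ∈ 𝒱, ∀ V ∈ 𝒱, U ∩ V ∈ 𝒱
  inf : ∀ U ∈ 𝒱, ¬ FinIn M U
  fin : ∀ U ∈ 𝒱, ∀ V ∈ 𝒱, FinIn M (U \ V)

/-- The set `F` is the sequence of the sets `V n`. -/
def IsSeqF (F : ZFSet.{0}) (V : ℕ → ZFSet.{0}) : Prop :=
  ∀ z, z ∈ F ↔ ∃ n : ℕ, z = pair (nat n) (V n)

/-- The set `F` is the double sequence of the sets `V n i`. -/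
def IsSeqF2 (F : ZFSet.{0}) (V : ℕ → ℕ → ZFSet.{0}) : Prop :=
  ∀ z, z ∈ F ↔ ∃ n i : ℕ, z = pair (pair (nat n) (nat i)) (V n i)

/-- In `M`, the set `A` is filterbase infinite. -/
def FbInf (M : Set ZFSet.{0}) (A : ZFSet.{0}) : Prop :=
  ∃ F ∈ M, ∃ V : ℕ → ZFSet.{0}, IsSeqF F V ∧
    (∀ i, IsFB M A (V i) ∧ ¬ ∃ x, ∀ U ∈ V i, x ∈ U) ∧
    ∀ i j, i ≠ j → ∃ U ∈ V i, ∃ W ∈ V j, ∀ x ∈ U, x ∉ W

/-- In `M`, the set `A` is strongly filterbase infinite. -/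
def StrongInf (M : Set ZFSet.{0}) (A : ZFSet.{0}) : Prop :=
  ∃ F ∈ M, ∃ V : ℕ → ZFSet.{0}, IsSeqF F V ∧ (∀ i, IsFB' M A (V i)) ∧
    (∀ i j, i ≠ j → ∃ U ∈ V i, ∃ W ∈ V j, FinIn M (U ∩ W)) ∧
    ∀ n, ∀ w : ℕ → ZFSet.{0}, (∀ i < n, w i ∈ V i) →
      ¬ FinIn M (ZFSet.sep (fun a => ∀ i < n, a ∉ w i) A)

/-- In `M`, the set `A` is dyadically filterbase infinite: there is a family of families `V n i`
(only the indices with `1 ≤ n` and `1 ≤ i ≤ 2 ^ n` matter) with the following properties. -/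
def DyadInf (M : Set ZFSet.{0}) (A : ZFSet.{0}) : Prop :=
  ∃ F ∈ M, ∃ V : ℕ → ℕ → ZFSet.{0}, IsSeqF2 F V ∧ ∀ n, 1 ≤ n →
    (∀ i, 1 ≤ i → i ≤ 2 ^ n → IsFB' M A (V n i)) ∧
    (∀ i j, 1 ≤ i → i ≤ 2 ^ n → 1 ≤ j → j ≤ 2 ^ n → i ≠ j → ∀ W ∈ V n i, ∀ G ∈ V n j,
      ∃ U ∈ V (n + 1) (2 * i - 1), ∃ U' ∈ V (n + 1) (2 * i),
        FinIn M ((U ∪ U') \ W) ∧ FinIn M ((U ∪ U') ∩ G)) ∧
    ∀ w : ℕ → ZFSet.{0}, (∀ i, 1 ≤ i → i ≤ 2 ^ n → w i ∈ V n i) →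
      FinIn M (ZFSet.sep (fun a => ∀ i, 1 ≤ i → i ≤ 2 ^ n → a ∉ w i) A)

/-- In `M`, the set `A` is weakly Dedekind-finite: there is no injection from the set of the
natural numbers to the power set of `A`. -/
def WDFin (M : Set ZFSet.{0}) (A : ZFSet.{0}) : Prop :=
  ¬ ∃ f ∈ M, IsInj ZFSet.omega (PM M A) f

end Pool.Agent.Q211.AM
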