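import Pool.Agent.Q211.AM.Mod
import Pool.Agent.Q211.AM.Defs

/-!
# The group of the permutations that almost preserve a family of sets
-/

set_option autoImplicit false
set_option linter.unusedSectionVars false
set_option linter.unreachableTactic false
set_option linter.unusedTactic false

namespace Pool.Agent.Q211.AM

open Pool.Agent.W868 Pool.Agent.W868.PName Pool.Agent.Q211.SY Pool.Agent.Q211.FS
open Pool.Agent.Q211.PA Pool.Agent.Q211.TP
open ZFSet (pair)

variable {Y : Type}

/-- Equality up to a finite set. -/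
def AE (D E : Set Y) : Prop := {y | ¬ (y ∈ D ↔ y ∈ E)}.Finite

theorem AE.refl (D : Set Y) : AE D D := by
  unfold AE
  convert Set.finite_empty (α := Y)
  simp

theorem AE.symm {D E : Set Y} (h : AE D E) : AE E D := by
  refine Set.Finite.subset h fun y hy h1 => hy h1.symm

theorem AE.trans {D E F : Set Y} (h : AE D E) (h' : AE E F) : AE D F := by
  refine Set.Finite.subset (Set.Finite.union h h') fun y hy => ?_
  by_contra h1
  rw [Set.mem_union, not_or] at h1
  exact hy ((not_not.1 h1.1).trans (not_not.1 h1.2))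

theorem AE.union {D E D' E' : Set Y} (h : AE D E) (h' : AE D' E') : AE (D ∪ D') (E ∪ E') := by
  refine Set.Finite.subset (Set.Finite.union h h') fun y hy => ?_
  by_contra h1
  rw [Set.mem_union, not_or] at h1
  refine hy ?_
  rw [Set.mem_union, Set.mem_union, not_not.1 h1.1, not_not.1 h1.2]

theorem AE.inter {D E D' E' : Set Y} (h : AE D E) (h' : AE D' E') : AE (D ∩ D') (E ∩ E') := by
  refine Set.Finite.subset (Set.Finite.union h h') fun y hy => ?_
  by_contra h1
  rw [Set.mem_union, not_or] at h1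
  refine hy ?_
  rw [Set.mem_inter_iff, Set.mem_inter_iff, not_not.1 h1.1, not_not.1 h1.2]

theorem AE.diff {D E : Set Y} (h : AE D E) : (D \ E).Finite :=
  Set.Finite.subset h fun _ hy h1 => hy.2 (h1.1 hy.1)

theorem AE.finite {D E : Set Y} (h : AE D E) (hE : E.Finite) : D.Finite := by
  refine Set.Finite.subset (Set.Finite.union h hE) fun y hy => ?_
  by_cases h1 : y ∈ E
  · exact Or.inr h1
  · exact Or.inl fun h2 => h1 (h2.1 hy)

theorem ae_countable [Countable Y] (E : Set Y) : {D | AE D E}.Countable := by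
  classical
  have h : {D | AE D E} ⊆ Set.range fun F : Finset Y => {y | y ∈ F ↔ y ∉ E} := by
    intro D hD
    refine ⟨(show Set.Finite {y | ¬ (y ∈ D ↔ y ∈ E)} from hD).toFinset, ?_⟩
    ext y
    change (y ∈ (show Set.Finite {y | ¬ (y ∈ D ↔ y ∈ E)} from hD).toFinset ↔ y ∉ E) ↔ y ∈ D
    rw [Set.Finite.mem_toFinset, Set.mem_setOf_eq]
    tauto
  exact (Set.countable_range _).mono h

variable (T : ℕ → Set Y)

/-- The group of the permutations that preserve all sets `T i` up to finite sets. -/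
def GA : Subgroup (Equiv.Perm Y) where
  carrier := {σ | ∀ i, {y | ¬ (σ y ∈ T i ↔ y ∈ T i)}.Finite}
  one_mem' := fun i => by
    convert Set.finite_empty (α := Y)
    simp
  mul_mem' := by
    intro σ τ hσ hτ i
    refine Set.Finite.subset (((hσ i).preimage τ.injective.injOn).union (hτ i)) fun y hy => ?_
    by_contra h1
    rw [Set.mem_union, not_or] at h1
    refine hy ?_
    have h2 := not_not.1 h1.1
    have h3 := not_not.1 h1.2
    exact h2.trans h3
  inv_mem' := by
    intro σ hσ i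
    refine Set.Finite.subset ((hσ i).preimage (σ⁻¹).injective.injOn) fun y hy => ?_
    intro h1
    refine hy ?_
    rw [perm_self_inv] at h1
    exact h1.symm

variable {T}

theorem ga_smul (γ : GA T) (y : Y) : γ • y = γ.1 y := rfl

theorem ga_fin (γ : GA T) (i : ℕ) : {y | ¬ (γ • y ∈ T i ↔ y ∈ T i)}.Finite := γ.2 i

variable (T) in
/-- The basic subgroups. -/
def stA (E : Finset Y) (I : Finset ℕ) : Subgroup (GA T) where
  carrier := {γ | (∀ y ∈ E, γ • y = y) ∧ ∀ i ∈ I, ∀ y, γ • y ∈ T i ↔ y ∈ T i}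
  one_mem' := ⟨fun y _ => one_smul _ y, fun i _ y => by rw [one_smul]⟩
  mul_mem' := by
    intro a b ha hb
    refine ⟨fun y hy => ?_, fun i hi y => ?_⟩
    · rw [mul_smul, hb.1 y hy, ha.1 y hy]
    · rw [mul_smul, ha.2 i hi, hb.2 i hi]
  inv_mem' := by
    intro a ha
    refine ⟨fun y hy => ?_, fun i hi y => ?_⟩
    · rw [inv_smul_eq_iff, ha.1 y hy]
    · rw [← ha.2 i hi (a⁻¹ • y), smul_inv_smul]

theorem mem_stA {E : Finset Y} {I : Finset ℕ} {γ : GA T} :
    γ ∈ stA T E I ↔ (∀ y ∈ E, γ • y = y) ∧ ∀ i ∈ I, ∀ y, γ • y ∈ T i ↔ y ∈ T i := Iff.rfl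

open Classical in
variable (T) in
/-- The normal filter. -/
noncomputable def NA : NFil (GA T) where
  F := {H | ∃ E I, H = stA T E I}
  ne := ⟨_, ∅, ∅, rfl⟩
  conj := by
    rintro _ ⟨E, I, rfl⟩ g
    have hfin : ∀ i, {z | ¬ (z ∈ T i ↔ g⁻¹ • z ∈ T i)}.Finite := by
      intro i
      refine Set.Finite.subset (ga_fin g⁻¹ i) fun z hz h1 => hz h1.symm
    refine ⟨_, ⟨E.image (fun y => g • y) ∪ I.biUnion fun i => (hfin i).toFinset, I, rfl⟩,
      fun k hk => ⟨fun y hy => ?_, fun i hi y => ?_⟩⟩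
    · have h1 := hk.1 (g • y) (Finset.mem_union_left _ (Finset.mem_image_of_mem _ hy))
      rw [mul_smul, mul_smul, h1, inv_smul_smul]
    · rw [mul_smul, mul_smul]
      have h0 : (g⁻¹ • g • y ∈ T i) ↔ y ∈ T i := by rw [inv_smul_smul]
      rw [← h0]
      generalize g • y = z
      by_cases hz : (z ∈ T i ↔ g⁻¹ • z ∈ T i)
      · have hkz : (k • z ∈ T i ↔ g⁻¹ • k • z ∈ T i) := by
          by_contra h1
          have h2 : k • k • z = k • z := hk.1 _ (Finset.mem_union_right _
            (Finset.mem_biUnion.2 ⟨i, hi, (Set.Finite.mem_toFinset _).2 h1⟩))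
          have h3 : k • z = z := smul_left_cancel k h2
          rw [h3] at h1
          exact h1 hz
        rw [← hkz, ← hz]
        exact hk.2 i hi z
      · have h2 : k • z = z := hk.1 _ (Finset.mem_union_right _
          (Finset.mem_biUnion.2 ⟨i, hi, (Set.Finite.mem_toFinset _).2 hz⟩))
        rw [h2]
  dir := by
    rintro _ ⟨E, I, rfl⟩ _ ⟨E', I', rfl⟩
    exact ⟨_, ⟨E ∪ E', I ∪ I', rfl⟩, fun a ha => ⟨fun y hy => ha.1 y (Finset.mem_union_left _ hy),
      fun i hi => ha.2 i (Finset.mem_union_left _ hi)⟩, fun a ha =>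
      ⟨fun y hy => ha.1 y (Finset.mem_union_right _ hy),
      fun i hi => ha.2 i (Finset.mem_union_right _ hi)⟩⟩

theorem NA_Pt : (NA T).Pt Y := fun y =>
  ⟨_, ⟨{y}, ∅, rfl⟩, fun _ hg => hg.1 y (Finset.mem_singleton_self _)⟩

/-- Permutations of the group preserve the classes of the sets `T i`. -/
theorem ae_im (γ : GA T) {D : Set Y} {i : ℕ} : AE (im' γ D) (T i) ↔ AE D (T i) := by
  have key : ∀ (γ : GA T) (D : Set Y), AE D (T i) → AE (im' γ D) (T i) := by
    intro γ D hD
    refine Set.Finite.subset ((Set.Finite.preimage (f := fun y => γ⁻¹ • y)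
      (fun a _ b _ h => smul_left_cancel γ⁻¹ h) hD).union (ga_fin γ⁻¹ i)) fun y hy => ?_
    by_contra h1
    rw [Set.mem_union, not_or] at h1
    refine hy ?_
    have h2 := not_not.1 h1.1
    have h3 := not_not.1 h1.2
    exact h2.trans h3
  refine ⟨fun h => ?_, key γ D⟩
  have h1 := key γ⁻¹ _ h
  rwa [im'_inv] at h1

/-- The sets that are almost equal to some `T i` are symmetric. -/
theorem ae_sym {D : Set Y} {i : ℕ} (h : AE D (T i)) :
    ∃ H ∈ (NA T).F, ∀ g ∈ H, im' g D = D := by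
  classical
  have hf : Set.Finite {y | ¬ (y ∈ D ↔ y ∈ T i)} := h
  refine ⟨_, ⟨hf.toFinset, {i}, rfl⟩, fun g hg => ?_⟩
  ext y
  rw [mem_im']
  have h1 : ∀ z, ¬ (z ∈ D ↔ z ∈ T i) → g • z = z := fun z hz => hg.1 z (hf.mem_toFinset.2 hz)
  by_cases hy : (y ∈ D ↔ y ∈ T i)
  · have h2 : (g⁻¹ • y ∈ D ↔ g⁻¹ • y ∈ T i) := by
      by_contra h3
      have h4 := h1 _ h3
      rw [smul_inv_smul] at h4
      rw [← h4] at h3
      exact h3 hy
    rw [h2, hy, ← hg.2 i (Finset.mem_singleton_self _) (g⁻¹ • y), smul_inv_smul]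
  · have h2 := h1 y hy
    have h3 : g⁻¹ • y = y := by
      rw [inv_smul_eq_iff, h2]
    rw [h3]

variable (T) in
/-- The family of the sets that are almost equal to some `T i`. -/
def DA : Set (Set Y) := {D | ∃ i, AE D (T i)}

theorem DA_countable [Countable Y] : (DA T).Countable := by
  have h : DA T = ⋃ i, {D | AE D (T i)} := by
    ext D
    simp [DA]
  rw [h]
  exact Set.countable_iUnion fun i => ae_countable _

theorem exists_alm [Countable Y] (cd : ℕ → ZFSet.{0}) (hcd : ∀ n, Cd (cd n)) :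
    ∃ M at' st, PMd (NA T) (DA T) cd (fun _ n D => AE D (T n)) M at' st :=
  exists_pmd NA_Pt (DA T) DA_countable (fun γ _ ⟨i, hi⟩ => ⟨i, (ae_im γ).2 hi⟩)
    (fun _ ⟨_, hi⟩ => ae_sym hi) cd hcd _ fun _ _ γ _ _ => ae_im γ

/-- Points with the same relation to finitely many sets can be exchanged. -/
theorem exists_swap {E : Finset Y} {I : Finset ℕ} {x y : Y} (hx : x ∉ E) (hy : y ∉ E)
    (h : ∀ i ∈ I, (x ∈ T i ↔ y ∈ T i)) : ∃ γ ∈ stA T E I, γ • x = y := by
  classical
  refine ⟨⟨Equiv.swap x y, fun i => ?_⟩, ⟨fun z hz => ?_, fun i hi z => ?_⟩, ?_⟩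
  · refine Set.Finite.subset (Set.toFinite ({x, y} : Set Y)) fun z hz => ?_
    by_contra h1
    rw [Set.mem_insert_iff, Set.mem_singleton_iff, not_or] at h1
    refine hz ?_
    rw [Equiv.swap_apply_of_ne_of_ne h1.1 h1.2]
  · rw [ga_smul]
    refine Equiv.swap_apply_of_ne_of_ne ?_ ?_
    · rintro rfl
      exact hx hz
    · rintro rfl
      exact hy hz
  · rw [ga_smul]
    change Equiv.swap x y z ∈ T i ↔ z ∈ T i
    by_cases h1 : z = x
    · rw [h1, Equiv.swap_apply_left]
      exact (h i hi).symm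
    · by_cases h2 : z = y
      · rw [h2, Equiv.swap_apply_right]
        exact h i hi
      · rw [Equiv.swap_apply_of_ne_of_ne h1 h2]
  · rw [ga_smul]
    exact Equiv.swap_apply_left x y

end Pool.Agent.Q211.AM
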