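import Pool.Agent.Q211.AM.Rem

/-!
# Compact Hausdorff spaces in transitive models; clopen subsets of remainders
-/

set_option autoImplicit false
set_option linter.unusedSectionVars false
set_option linter.unreachableTactic false
set_option linter.unusedTactic false

namespace Pool.Agent.Q211.AM

open Pool.Agent.W868 Pool.Agent.W868.PName Pool.Agent.Q211.SY Pool.Agent.Q211.FS
open Pool.Agent.Q211.PA Pool.Agent.Q211.TP
open ZFSet (pair)

section

variable {M : Set ZFSet.{0}} (hM : IsZF M) {Y τ : ZFSet.{0}} (hYM : Y ∈ M) (hτM : τ ∈ M)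
  (htop : IsTopIn M Y τ) (hcpt : CompactIn M Y τ)

include hM in
theorem union_open (htop : IsTopIn M Y τ) (hτM : τ ∈ M) {U V : ZFSet.{0}} (hU : U ∈ τ)
    (hV : V ∈ τ) : U ∪ V ∈ τ := by
  have h1 : U ∪ V = (ZFSet.sUnion {U, V} : ZFSet.{0}) := by
    ext z
    rw [ZFSet.mem_union, ZFSet.mem_sUnion]
    constructor
    · rintro (h1 | h1)
      · exact ⟨U, ZFSet.mem_pair.2 (Or.inl rfl), h1⟩
      · exact ⟨V, ZFSet.mem_pair.2 (Or.inr rfl), h1⟩
    · rintro ⟨W, hW, h1⟩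
      rcases ZFSet.mem_pair.1 hW with rfl | rfl
      · exact Or.inl h1
      · exact Or.inr h1
  rw [h1]
  refine htop.union _ (hM.insert_mem (hM.trans _ hτM _ hU) (hM.single_mem (hM.trans _ hτM _ hV)))
    fun z hz => ?_
  rcases ZFSet.mem_pair.1 hz with rfl | rfl
  · exact hU
  · exact hV

include hM in
theorem empty_open (htop : IsTopIn M Y τ) : (∅ : ZFSet.{0}) ∈ τ := by
  have h1 : (ZFSet.sUnion ∅ : ZFSet.{0}) = ∅ := by
    ext z
    rw [ZFSet.mem_sUnion]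
    constructor
    · rintro ⟨y, hy, -⟩
      exact absurd hy (ZFSet.notMem_empty _)
    · intro h
      exact absurd h (ZFSet.notMem_empty _)
  have h2 := htop.union ∅ hM.empty_mem fun y hy => absurd hy (ZFSet.notMem_empty _)
  rwa [h1] at h2

include hM hYM hτM htop hcpt

/-- A form of compactness. -/
theorem cpt_ind {P : ZFSet.{0} → Prop} (hP : Dfn M M fun w : Fin 1 → ZFSet.{0} => P (w 0))
    (h0 : P ∅) (hu : ∀ U ∈ τ, ∀ V ∈ τ, P U → P V → P (U ∪ V)) {O : ZFSet.{0}} (hO : O ∈ τ)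
    (hq : ∀ q ∈ Y, q ∉ O → ∃ G ∈ τ, q ∈ G ∧ P G) :
    ∃ G ∈ τ, P G ∧ ∀ q ∈ Y, q ∉ O → q ∈ G := by
  classical
  have hB := hM.base
  have hOM := hM.trans _ hτM _ hO
  have hCM : ZFSet.sep (fun G => G = O ∨ P G) τ ∈ M := by
    refine hM.sep_mem (Q := fun G => G = O ∨ P G) ?_ hτM
    (repeat' first
      | first | apply Dfn.comp1 (Q := fun a => P a) hP
      | assumption
      | exact DfnF.proj _
      | exact DfnF.const (by assumption)
      | exact DfnF.const' (by first | assumption | trivial) (by first | assumption | trivial)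
      | exact Dfn.prop _
      | apply hB.isFunc' | apply hB.isInj' | apply hB.isBij' | apply hB.isOrdinal'
      | apply hB.subset' | apply hB.pair' | apply hB.insert'
      | apply Dfn.not | apply Dfn.and | apply Dfn.or | apply Dfn.imp | apply Dfn.iff
      | apply hB.bex | apply hB.ball | apply Dfn.ex | apply Dfn.all
      | apply Dfn.eq | apply Dfn.mem)
  obtain ⟨F, hF, hF'⟩ := hcpt _ hCM (fun z hz => (ZFSet.mem_sep.1 hz).1) (by
    intro q hqY
    by_cases hqO : q ∈ O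
    · exact ⟨O, ZFSet.mem_sep.2 ⟨hO, Or.inl rfl⟩, hqO⟩
    · obtain ⟨G, hG, h1, h2⟩ := hq q hqY hqO
      exact ⟨G, ZFSet.mem_sep.2 ⟨hG, Or.inr h2⟩, h1⟩)
  have key : ∀ F : Finset ZFSet.{0}, (∀ U ∈ F, U ∈ ZFSet.sep (fun G => G = O ∨ P G) τ) →
      ∃ G ∈ τ, P G ∧ ∀ q, (∃ U ∈ F, q ∈ U) → q ∉ O → q ∈ G := by
    intro F
    refine Finset.induction_on F (fun _ => ⟨∅, empty_open hM htop, h0, fun q hq' _ => ?_⟩) ?_
    · obtain ⟨U, hU, -⟩ := hq'
      exact absurd hU (Finset.notMem_empty _)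
    · intro U F _ ih hF
      obtain ⟨G, hG, h1, h2⟩ := ih fun V hV => hF V (Finset.mem_insert_of_mem hV)
      obtain ⟨hU, hU'⟩ := ZFSet.mem_sep.1 (hF U (Finset.mem_insert_self _ _))
      rcases hU' with rfl | hU'
      · refine ⟨G, hG, h1, fun q hq' hqO => ?_⟩
        obtain ⟨V, hV, h3⟩ := hq'
        rcases Finset.mem_insert.1 hV with rfl | hV
        · exact absurd h3 hqO
        · exact h2 q ⟨V, hV, h3⟩ hqO
      · refine ⟨U ∪ G, union_open hM htop hτM hU hG, hu _ hU _ hG hU' h1, fun q hq' hqO => ?_⟩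
        obtain ⟨V, hV, h3⟩ := hq'
        rcases Finset.mem_insert.1 hV with rfl | hV
        · exact ZFSet.mem_union.2 (Or.inl h3)
        · exact ZFSet.mem_union.2 (Or.inr (h2 q ⟨V, hV, h3⟩ hqO))
  obtain ⟨G, hG, h1, h2⟩ := key F hF
  exact ⟨G, hG, h1, fun q hqY hqO => h2 q (hF' q hqY) hqO⟩

/-- Closed sets in compact Hausdorff spaces can be separated. -/
theorem cpt_sep (hhaus : ∀ a ∈ Y, ∀ b ∈ Y, a ≠ b → ∃ V ∈ τ, ∃ W ∈ τ, a ∈ V ∧ b ∈ W ∧
    ∀ c ∈ V, c ∉ W) {O O' : ZFSet.{0}} (hO : O ∈ τ) (hO' : O' ∈ τ)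
    (hOO : ∀ z ∈ Y, z ∈ O ∨ z ∈ O') :
    ∃ W ∈ τ, ∃ W' ∈ τ, (∀ z ∈ W, z ∉ W') ∧ (∀ z ∈ Y, z ∉ O → z ∈ W) ∧
      ∀ z ∈ Y, z ∉ O' → z ∈ W' := by
  have hB := hM.base
  have hOM := hM.trans _ hτM _ hO
  have hO'M := hM.trans _ hτM _ hO'
  -- separate a point and a closed set
  have h1 : ∀ p ∈ Y, p ∉ O → ∃ G ∈ τ, p ∈ G ∧ ∃ W' ∈ τ, (∀ z ∈ G, z ∉ W') ∧
      ∀ z ∈ Y, z ∉ O' → z ∈ W' := by
    intro p hp hpO
    have hpM := hM.trans _ hYM _ hp
    obtain ⟨W', hW', ⟨G, hG, hpG, h2⟩, h3⟩ := cpt_ind hM hYM hτM htop hcpt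
      (P := fun V => ∃ G ∈ τ, p ∈ G ∧ ∀ z ∈ G, z ∉ V) (by
        (repeat' first
          | assumption
          | exact DfnF.proj _
          | exact DfnF.const (by assumption)
          | exact DfnF.const' (by first | assumption | trivial) (by first | assumption | trivial)
          | exact Dfn.prop _
          | apply hB.isFunc' | apply hB.isInj' | apply hB.isBij' | apply hB.isOrdinal'
          | apply hB.subset' | apply hB.pair' | apply hB.insert'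
          | apply Dfn.not | apply Dfn.and | apply Dfn.or | apply Dfn.imp | apply Dfn.iff
          | apply hB.bex | apply hB.ball | apply Dfn.ex | apply Dfn.all
          | apply Dfn.eq | apply Dfn.mem)) ⟨Y, htop.univ, hp, fun z _ => ZFSet.notMem_empty _⟩ (by
        rintro U - V - ⟨G, hG, h2, h3⟩ ⟨G', hG', h4, h5⟩
        refine ⟨G ∩ G', htop.inter _ hG _ hG', ZFSet.mem_inter.2 ⟨h2, h4⟩, fun z hz h6 => ?_⟩
        obtain ⟨h7, h8⟩ := ZFSet.mem_inter.1 hz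
        rcases ZFSet.mem_union.1 h6 with h6 | h6
        · exact h3 z h7 h6
        · exact h5 z h8 h6) hO' (by
        intro q hq hqO'
        have hne : p ≠ q := by
          rintro rfl
          rcases hOO p hp with h2 | h2
          · exact hpO h2
          · exact hqO' h2
        obtain ⟨V, hV, W, hW, h2, h3, h4⟩ := hhaus p hp q hq hne
        exact ⟨W, hW, h3, V, hV, h2, h4⟩)
    exact ⟨G, hG, hpG, W', hW', h2, h3⟩
  obtain ⟨W, hW, ⟨W', hW', h2, h3⟩, h4⟩ := cpt_ind hM hYM hτM htop hcpt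
    (P := fun G => ∃ W' ∈ τ, (∀ z ∈ G, z ∉ W') ∧ ∀ z ∈ Y, z ∉ O' → z ∈ W') (by
      (repeat' first
        | assumption
        | exact DfnF.proj _
        | exact DfnF.const (by assumption)
        | exact DfnF.const' (by first | assumption | trivial) (by first | assumption | trivial)
        | exact Dfn.prop _
        | apply hB.isFunc' | apply hB.isInj' | apply hB.isBij' | apply hB.isOrdinal'
        | apply hB.subset' | apply hB.pair' | apply hB.insert'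
        | apply Dfn.not | apply Dfn.and | apply Dfn.or | apply Dfn.imp | apply Dfn.iff
        | apply hB.bex | apply hB.ball | apply Dfn.ex | apply Dfn.all
        | apply Dfn.eq | apply Dfn.mem)) ⟨Y, htop.univ, fun z hz => absurd hz (ZFSet.notMem_empty _), fun z hz _ => hz⟩ (by
      rintro U - V - ⟨G, hG, h2, h3⟩ ⟨G', hG', h4, h5⟩
      refine ⟨G ∩ G', htop.inter _ hG _ hG', fun z hz h6 => ?_, fun z hz h6 =>
        ZFSet.mem_inter.2 ⟨h3 z hz h6, h5 z hz h6⟩⟩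
      obtain ⟨h7, h8⟩ := ZFSet.mem_inter.1 h6
      rcases ZFSet.mem_union.1 hz with hz | hz
      · exact h2 z hz h7
      · exact h4 z hz h8) hO (by
      intro q hq hqO
      obtain ⟨G, hG, h2, h3⟩ := h1 q hq hqO
      exact ⟨G, hG, h2, h3⟩)
  exact ⟨W, hW, W', hW', h2, h4, h3⟩

end

/-- The data of a remainder, with the index function. -/
structure RemD (M : Set ZFSet.{0}) (A K κ Y τ i B h : ZFSet.{0}) : Prop where
  YM : Y ∈ M
  τM : τ ∈ M
  iM : i ∈ M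
  BM : B ∈ M
  hM : h ∈ M
  top : IsTopIn M Y τ
  cpt : CompactIn M Y τ
  haus : ∀ a ∈ Y, ∀ b ∈ Y, a ≠ b → ∃ V ∈ τ, ∃ W ∈ τ, a ∈ V ∧ b ∈ W ∧ ∀ c ∈ V, c ∉ W
  inj : IsInj A Y i
  mB : ∀ y, y ∈ B ↔ ∃ a ∈ A, pair a y ∈ i
  disc : ∀ S ∈ M, S ⊆ B → S ∈ subTop τ B
  dense : ∀ U ∈ τ, (∃ y, y ∈ U) → ∃ y ∈ U, y ∈ B
  homeo : IsHomeo (Y \ B) (subTop τ (Y \ B)) K κ h

namespace RemD

variable {M : Set ZFSet.{0}} (hZ : IsZF M) {A K κ Y τ i B h : ZFSet.{0}}
  (d : RemD M A K κ Y τ i B h)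

include hZ d

theorem BY : B ⊆ Y := by
  intro y hy
  obtain ⟨a, -, h1⟩ := (d.mB y).1 hy
  exact (ZFSet.pair_mem_prod.1 (d.inj.1.1 h1)).2

theorem sdM {S : ZFSet.{0}} (hS : S ∈ M) : Y \ S ∈ M := by
  have h8 : Y \ S = ZFSet.sep (fun z => z ∉ S) Y := by
    ext z
    rw [ZFSet.mem_sep, ZFSet.mem_sdiff]
  rw [h8]
  exact hZ.sep_mem (Q := fun z => z ∉ S)
    (Dfn.not (Dfn.mem (DfnF.proj 0) (DfnF.const hS))) d.YM

theorem closed_pt {b : ZFSet.{0}} (hb : b ∈ Y) : Y \ {b} ∈ τ := by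
  have hB := hZ.base
  have hτM := d.τM
  have hbM := hZ.trans _ d.YM _ hb
  have h1 : Y \ {b} = (ZFSet.sUnion (ZFSet.sep (fun G => b ∉ G) τ) : ZFSet.{0}) := by
    ext z
    rw [ZFSet.mem_sdiff, ZFSet.mem_singleton, ZFSet.mem_sUnion]
    constructor
    · rintro ⟨h1, h2⟩
      obtain ⟨V, hV, W, hW, h3, h4, h5⟩ := d.haus z h1 b hb h2
      exact ⟨V, ZFSet.mem_sep.2 ⟨hV, fun h6 => h5 b h6 h4⟩, h3⟩
    · rintro ⟨G, hG, h1⟩
      obtain ⟨h2, h3⟩ := ZFSet.mem_sep.1 hG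
      exact ⟨d.top.sub _ h2 h1, fun h4 => h3 (h4 ▸ h1)⟩
  rw [h1]
  refine d.top.union _ ?_ fun z hz => (ZFSet.mem_sep.1 hz).1
  exact hZ.sep_mem (Q := fun G => b ∉ G)
    (Dfn.not (Dfn.mem (DfnF.const hbM) (DfnF.proj 0))) hτM

theorem isolated {b : ZFSet.{0}} (hb : b ∈ B) : ({b} : ZFSet.{0}) ∈ τ := by
  have hbM := hZ.trans _ d.BM _ hb
  obtain ⟨U, hU, h1⟩ := mem_subTop.1 (d.disc {b} (hZ.single_mem hbM) fun z hz => by
    rw [ZFSet.mem_singleton.1 hz]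
    exact hb)
  have h2 : ∀ z, z ∈ U ∧ z ∈ B ↔ z = b := by
    intro z
    rw [← ZFSet.mem_inter, ← h1, ZFSet.mem_singleton]
  have h3 : U = {b} := by
    ext z
    rw [ZFSet.mem_singleton]
    constructor
    · intro hz
      by_contra hzb
      obtain ⟨y, hy, hyB⟩ := d.dense (U ∩ (Y \ {b})) (d.top.inter _ hU _
        (d.closed_pt hZ (d.BY hZ hb))) ⟨z, ZFSet.mem_inter.2 ⟨hz, ZFSet.mem_sdiff.2
        ⟨d.top.sub _ hU hz, fun h4 => hzb (ZFSet.mem_singleton.1 h4)⟩⟩⟩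
      obtain ⟨h4, h5⟩ := ZFSet.mem_inter.1 hy
      have h6 := (h2 y).1 ⟨h4, hyB⟩
      exact (ZFSet.mem_sdiff.1 h5).2 (ZFSet.mem_singleton.2 h6)
    · rintro rfl
      exact ((h2 z).2 rfl).1
  rw [← h3]
  exact hU

theorem B_open : B ∈ τ := by
  have hB := hZ.base
  have hτM := d.τM
  have hBM := d.BM
  have h1 : B = (ZFSet.sUnion (ZFSet.sep (fun G => G ⊆ B) τ) : ZFSet.{0}) := by
    ext z
    rw [ZFSet.mem_sUnion]
    constructor
    · intro hz
      exact ⟨{z}, ZFSet.mem_sep.2 ⟨d.isolated hZ hz, fun y hy => by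
        rw [ZFSet.mem_singleton.1 hy]
        exact hz⟩, ZFSet.mem_singleton.2 rfl⟩
    · rintro ⟨G, hG, h1⟩
      exact (ZFSet.mem_sep.1 hG).2 h1
  have h2 : ZFSet.sep (fun G => G ⊆ B) τ ∈ M := by
    refine hZ.sep_mem (Q := fun G => G ⊆ B) ?_ hτM
    (repeat' first
      | assumption
      | exact DfnF.proj _
      | exact DfnF.const (by assumption)
      | exact DfnF.const' (by first | assumption | trivial) (by first | assumption | trivial)
      | exact Dfn.prop _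
      | apply hB.isFunc' | apply hB.isInj' | apply hB.isBij' | apply hB.isOrdinal'
      | apply hB.subset' | apply hB.pair' | apply hB.insert'
      | apply Dfn.not | apply Dfn.and | apply Dfn.or | apply Dfn.imp | apply Dfn.iff
      | apply hB.bex | apply hB.ball | apply Dfn.ex | apply Dfn.all
      | apply Dfn.eq | apply Dfn.mem)
  have h3 := d.top.union _ h2 fun z hz => (ZFSet.mem_sep.1 hz).1
  rwa [← h1] at h3

/-- Open sets that cover the remainder contain all points of `B` except finitely many. -/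
theorem cover2 {G G' : ZFSet.{0}} (hG : G ∈ τ) (hG' : G' ∈ τ)
    (hR : ∀ z ∈ Y, z ∉ B → z ∈ G ∨ z ∈ G') : {b | b ∈ B ∧ b ∉ G ∧ b ∉ G'}.Finite := by
  classical
  have hB := hZ.base
  have hτM := d.τM
  have hBM := d.BM
  have hGM := hZ.trans _ hτM _ hG
  have hG'M := hZ.trans _ hτM _ hG'
  have hCM : ZFSet.sep (fun U => U = G ∨ U = G' ∨ ∃ b ∈ B, ∀ z ∈ U, z = b) τ ∈ M := by
    refine hZ.sep_mem (Q := fun U => U = G ∨ U = G' ∨ ∃ b ∈ B, ∀ z ∈ U, z = b) ?_ hτM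
    (repeat' first
      | assumption
      | exact DfnF.proj _
      | exact DfnF.const (by assumption)
      | exact DfnF.const' (by first | assumption | trivial) (by first | assumption | trivial)
      | exact Dfn.prop _
      | apply hB.isFunc' | apply hB.isInj' | apply hB.isBij' | apply hB.isOrdinal'
      | apply hB.subset' | apply hB.pair' | apply hB.insert'
      | apply Dfn.not | apply Dfn.and | apply Dfn.or | apply Dfn.imp | apply Dfn.iff
      | apply hB.bex | apply hB.ball | apply Dfn.ex | apply Dfn.all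
      | apply Dfn.eq | apply Dfn.mem)
  obtain ⟨F, hF, hF'⟩ := d.cpt _ hCM (fun z hz => (ZFSet.mem_sep.1 hz).1) (by
    intro z hz
    by_cases hzB : z ∈ B
    · exact ⟨{z}, ZFSet.mem_sep.2 ⟨d.isolated hZ hzB, Or.inr (Or.inr ⟨z, hzB, fun y hy =>
        ZFSet.mem_singleton.1 hy⟩)⟩, ZFSet.mem_singleton.2 rfl⟩
    · rcases hR z hz hzB with h1 | h1
      · exact ⟨G, ZFSet.mem_sep.2 ⟨hG, Or.inl rfl⟩, h1⟩
      · exact ⟨G', ZFSet.mem_sep.2 ⟨hG', Or.inr (Or.inl rfl)⟩, h1⟩)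
  refine Set.Finite.subset (Set.Finite.biUnion (s := {U | U ∈ F ∧ ∃ b, ∀ z ∈ U, z = b})
    (F.finite_toSet.subset fun U hU => hU.1) (t := fun U => {z | z ∈ U}) fun U hU => ?_)
    fun b hb => ?_
  · obtain ⟨b, hb⟩ := hU.2
    exact (Set.finite_singleton b).subset fun z hz => hb z hz
  · obtain ⟨U, hU, h1⟩ := hF' b (d.BY hZ hb.1)
    rcases (ZFSet.mem_sep.1 (hF U hU)).2 with rfl | rfl | ⟨c, -, h2⟩
    · exact absurd h1 hb.2.1
    · exact absurd h1 hb.2.2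
    · exact Set.mem_biUnion (show U ∈ {U | U ∈ F ∧ ∃ b, ∀ z ∈ U, z = b} from ⟨hU, c, h2⟩) h1

/-- Open sets that meet the remainder contain infinitely many points of `B`. -/
theorem infinite_of {G : ZFSet.{0}} (hG : G ∈ τ) {r : ZFSet.{0}} (hr : r ∈ G) (hrB : r ∉ B) :
    {b | b ∈ B ∧ b ∈ G}.Infinite := by
  classical
  intro hf
  have key : ∀ F : Finset ZFSet.{0}, (∀ b ∈ F, b ∈ B) → ∃ G' ∈ τ, ∀ z, z ∈ G' ↔ z ∈ G ∧ z ∉ F := by
    intro F
    refine Finset.induction_on F (fun _ => ⟨G, hG, fun z => by simp⟩) ?_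
    intro b F _ ih hF
    obtain ⟨G', hG', h1⟩ := ih fun c hc => hF c (Finset.mem_insert_of_mem hc)
    refine ⟨G' ∩ (Y \ {b}), d.top.inter _ hG' _ (d.closed_pt hZ (d.BY hZ
      (hF b (Finset.mem_insert_self _ _)))), fun z => ?_⟩
    rw [ZFSet.mem_inter, h1, ZFSet.mem_sdiff, ZFSet.mem_singleton, Finset.mem_insert, not_or]
    constructor
    · rintro ⟨⟨h2, h3⟩, h4, h5⟩
      exact ⟨h2, h5, h3⟩
    · rintro ⟨h2, h3, h4⟩
      exact ⟨⟨h2, h4⟩, d.top.sub _ hG h2, h3⟩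
  obtain ⟨G', hG', h1⟩ := key hf.toFinset fun b hb => (hf.mem_toFinset.1 hb).1
  obtain ⟨y, hy, hyB⟩ := d.dense G' hG' ⟨r, (h1 r).2 ⟨hr, fun h2 => hrB
    (hf.mem_toFinset.1 h2).1⟩⟩
  obtain ⟨h2, h3⟩ := (h1 y).1 hy
  exact h3 (hf.mem_toFinset.2 ⟨hyB, h2⟩)

/-- Clopen subsets of the remainder. -/
theorem clopen {D : ZFSet.{0}} (hDM : D ∈ M) (hDK : D ⊆ K) (hD : D ∈ κ) (hD' : K \ D ∈ κ)
    (hKM : K ∈ M) : ∃ W ∈ τ, ∃ W' ∈ τ, (∀ z ∈ W, z ∉ W') ∧ ∀ r z, pair r z ∈ h →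
      (z ∈ D → r ∈ W) ∧ (z ∉ D → r ∈ W') := by
  have hB := hZ.base
  have hhM := d.hM
  have hYB := d.sdM hZ d.BM
  have hhp : ∀ r z, pair r z ∈ h → r ∈ Y \ B ∧ z ∈ K := fun r z h1 =>
    ZFSet.pair_mem_prod.1 (d.homeo.1.1.1.1 h1)
  have himg : ∀ D : ZFSet.{0}, D ∈ M → D ⊆ K → D ∈ κ → ∃ U ∈ τ, ∀ r z, pair r z ∈ h →
      (r ∈ U ↔ z ∈ D) := by
    intro D hDM hDK hD
    have h2 := (d.homeo.2 (ZFSet.sep (fun r => ∃ z ∈ D, pair r z ∈ h) (Y \ B))
      (fun z hz => (ZFSet.mem_sep.1 hz).1)).2 (by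
      have h3 : ZFSet.sep (fun y => ∃ x ∈ ZFSet.sep (fun r => ∃ z ∈ D, pair r z ∈ h) (Y \ B),
          pair x y ∈ h) K = D := by
        ext y
        rw [ZFSet.mem_sep]
        constructor
        · rintro ⟨hy, x, hx, h3⟩
          obtain ⟨hx, z, hz, h4⟩ := ZFSet.mem_sep.1 hx
          have h5 := (d.homeo.1.1.1.2 x hx).unique h3 h4
          rw [h5]
          exact hz
        · intro hy
          obtain ⟨x, hx, h3⟩ := d.homeo.1.2 y (hDK hy)
          exact ⟨hDK hy, x, ZFSet.mem_sep.2 ⟨hx, y, hy, h3⟩, h3⟩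
      rw [h3]
      exact hD)
    obtain ⟨U, hU, h3⟩ := mem_subTop.1 h2
    refine ⟨U, hU, fun r z hrz => ?_⟩
    have hr := (hhp r z hrz).1
    have h4 : r ∈ U ↔ r ∈ ZFSet.sep (fun r => ∃ z ∈ D, pair r z ∈ h) (Y \ B) := by
      rw [h3, ZFSet.mem_inter]
      exact ⟨fun h5 => ⟨h5, hr⟩, fun h5 => h5.1⟩
    rw [h4, ZFSet.mem_sep]
    constructor
    · rintro ⟨-, z', hz', h5⟩
      rw [(d.homeo.1.1.1.2 r hr).unique hrz h5]
      exact hz'
    · intro hz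
      exact ⟨hr, z, hz, hrz⟩
  have hKD : K \ D ∈ M := by
    have h8 : K \ D = ZFSet.sep (fun z => z ∉ D) K := by
      ext z
      rw [ZFSet.mem_sep, ZFSet.mem_sdiff]
    rw [h8]
    exact hZ.sep_mem (Q := fun z => z ∉ D)
      (Dfn.not (Dfn.mem (DfnF.proj 0) (DfnF.const hDM))) hKM
  obtain ⟨U, hU, h1⟩ := himg D hDM hDK hD
  obtain ⟨U', hU', h2⟩ := himg (K \ D) hKD (fun z hz => (ZFSet.mem_sdiff.1 hz).1) hD'
  obtain ⟨W, hW, W', hW', h3, h4, h5⟩ := cpt_sep hZ d.YM d.τM d.top d.cpt d.haus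
    (union_open hZ d.top d.τM hU' (d.B_open hZ)) (union_open hZ d.top d.τM hU (d.B_open hZ)) (by
      intro z hz
      by_cases hzB : z ∈ B
      · exact Or.inl (ZFSet.mem_union.2 (Or.inr hzB))
      · obtain ⟨y, hy, -⟩ := d.homeo.1.1.1.2 z (ZFSet.mem_sdiff.2 ⟨hz, hzB⟩)
        by_cases hyD : y ∈ D
        · exact Or.inr (ZFSet.mem_union.2 (Or.inl ((h1 z y hy).2 hyD)))
        · exact Or.inl (ZFSet.mem_union.2 (Or.inl ((h2 z y hy).2 (ZFSet.mem_sdiff.2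
            ⟨(hhp z y hy).2, hyD⟩)))))
  refine ⟨W, hW, W', hW', h3, fun r z hrz => ?_⟩
  obtain ⟨hr, hz⟩ := hhp r z hrz
  obtain ⟨hrY, hrB⟩ := ZFSet.mem_sdiff.1 hr
  constructor
  · intro hzD
    refine h4 r hrY fun h6 => ?_
    rcases ZFSet.mem_union.1 h6 with h6 | h6
    · exact (ZFSet.mem_sdiff.1 ((h2 r z hrz).1 h6)).2 hzD
    · exact hrB h6
  · intro hzD
    refine h5 r hrY fun h6 => ?_
    rcases ZFSet.mem_union.1 h6 with h6 | h6
    · exact hzD ((h1 r z hrz).1 h6)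
    · exact hrB h6

end RemD

end Pool.Agent.Q211.AM
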