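import Pool.Agent.Q211.AM.Cpt

/-!
# The Cantor cube is not a remainder of the discrete space of the atoms
-/

set_option autoImplicit false
set_option linter.unusedSectionVars false
set_option linter.unreachableTactic false
set_option linter.unusedTactic false

namespace Pool.Agent.Q211.AM

open Pool.Agent.W868 Pool.Agent.W868.PName Pool.Agent.Q211.SY Pool.Agent.Q211.FS
open Pool.Agent.Q211.PA Pool.Agent.Q211.TP
open ZFSet (pair)

/-! ### Sets of pairs that depend on the columns -/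

/-- Up to a finite set, membership depends on the column only, and it is the same for all
sufficiently late columns. -/
def Nice (S : Set (ℕ × ℕ)) : Prop := ∃ (E : Finset (ℕ × ℕ)) (n0 : ℕ), ∀ x y, x ∉ E → y ∉ E →
  (x.1 = y.1 ∨ (n0 ≤ x.1 ∧ n0 ≤ y.1)) → x ∈ S → y ∈ S

theorem no_dyad {D : ℕ → Set (ℕ × ℕ)} {S : ℕ → ℕ → Set (ℕ × ℕ)} (hD : ∀ j, Nice (D j))
    (hS : ∀ j k, Nice (S j k)) (hdis : (D 0 ∩ D 1).Finite)
    (hinf : ∀ j < 2, ∀ k, (S j k).Infinite)
    (hSd : ∀ j < 2, ∀ k l, k ≠ l → (S j k ∩ S j l).Finite)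
    (hsub : ∀ j < 2, ∀ k, (S j k \ D j).Finite) : False := by
  classical
  choose ED nD hDn using hD
  choose ES nS hSn using hS
  have hlate : ∀ (E : Finset (ℕ × ℕ)) (n : ℕ), ∃ m, n ≤ m ∧ ∀ x : ℕ × ℕ, m ≤ x.1 → x ∉ E := by
    intro E n
    refine ⟨max n (E.sup fun x => x.1 + 1), le_max_left _ _, fun x hx hxE => ?_⟩
    have h1 : x.1 + 1 ≤ E.sup fun x => x.1 + 1 := Finset.le_sup (f := fun x : ℕ × ℕ => x.1 + 1) hxE
    have h2 := (le_max_right n (E.sup fun x => x.1 + 1)).trans hx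
    omega
  -- one of the two sets is contained in the first columns
  obtain ⟨j, hj, hj'⟩ : ∃ j < 2, ∀ x, x ∉ ED j → nD j ≤ x.1 → x ∉ D j := by
    by_contra hno
    push Not at hno
    obtain ⟨x, hx, hxn, hxD⟩ := hno 0 (by norm_num)
    obtain ⟨y, hy, hyn, hyD⟩ := hno 1 (by norm_num)
    obtain ⟨m0, h0, h0'⟩ := hlate (ED 0) (nD 0)
    obtain ⟨m1, h1, h1'⟩ := hlate (ED 1) (nD 1)
    refine (col_infinite (max m0 m1)).mono ?_ hdis
    intro z hz
    have hz1 : z.1 = max m0 m1 := hz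
    have hzm0 : m0 ≤ z.1 := hz1 ▸ le_max_left _ _
    have hzm1 : m1 ≤ z.1 := hz1 ▸ le_max_right _ _
    exact ⟨hDn 0 x z hx (h0' z hzm0) (Or.inr ⟨hxn, h0.trans hzm0⟩) hxD,
      hDn 1 y z hy (h1' z hzm1) (Or.inr ⟨hyn, h1.trans hzm1⟩) hyD⟩
  have hex : ∀ k, ∃ x ∈ S j k, x.1 < nD j ∧ x ∉ ES j k := by
    intro k
    obtain ⟨x, hx, hx'⟩ := (hinf j hj k).exists_notMem_finite
      (((hsub j hj k).union (ED j).finite_toSet).union (ES j k).finite_toSet)
    rw [Set.mem_union, Set.mem_union, not_or, not_or] at hx'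
    obtain ⟨⟨h1, h2⟩, h3⟩ := hx'
    have hxD : x ∈ D j := by
      by_contra h4
      exact h1 ⟨hx, h4⟩
    refine ⟨x, hx, ?_, h3⟩
    by_contra h4
    exact hj' x h2 (not_lt.1 h4) hxD
  choose c hc1 hc2 hc3 using hex
  obtain ⟨k, l, hkl, hcol⟩ := Finite.exists_ne_map_eq_of_infinite
    fun k : ℕ => (⟨(c k).1, hc2 k⟩ : Fin (nD j))
  have hcol' : (c k).1 = (c l).1 := Fin.mk.inj_iff.1 hcol
  have hfin : ({x : ℕ × ℕ | x.1 = (c k).1}).Finite := by
    refine (((hSd j hj k l hkl).union (ES j k).finite_toSet).union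
      (ES j l).finite_toSet).subset fun x hx => ?_
    by_cases h1 : x ∈ ES j k
    · exact Or.inl (Or.inr h1)
    · by_cases h2 : x ∈ ES j l
      · exact Or.inr h2
      · exact Or.inl (Or.inl ⟨hSn j k _ x (hc3 k) h1 (Or.inl hx.symm) (hc1 k),
          hSn j l _ x (hc3 l) h2 (Or.inl (hcol'.symm.trans hx.symm)) (hc1 l)⟩)
  exact col_infinite _ hfin

theorem nice_ext {M : Set ZFSet.{0}} {at' : ℕ × ℕ → ZFSet.{0}} {st : Set (ℕ × ℕ) → ZFSet.{0}}
    (h : AlmM CT cd2 M at' st) {S : ZFSet.{0}} (hS : S ∈ M) : Nice {x | at' x ∈ S} := by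
  classical
  obtain ⟨E, I, h1⟩ := AlmM.sub_support h hS
  choose n0 hn0 using CT_nice
  refine ⟨E, I.sup n0, fun x y hx hy hxy hxS => ?_⟩
  refine (h1 x y hx hy fun i hi => hn0 i x y ?_).1 hxS
  rcases hxy with h2 | ⟨h2, h3⟩
  · exact Or.inl h2
  · have h4 : n0 i ≤ I.sup n0 := Finset.le_sup hi
    exact Or.inr ⟨h4.trans h2, h4.trans h3⟩

/-! ### Clopen subsets of the cube -/

section

variable {M : Set ZFSet.{0}} (hM : IsZF M) {N ν : ZFSet.{0}} (hNM : N ∈ M) (hN : IsCube M N ν)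

include hM hNM hN

theorem cube_open {D : ZFSet.{0}} (hDM : D ∈ M) (hDN : D ⊆ N) (m : ℕ)
    (hD : ∀ g ∈ D, ∀ g' ∈ N, (∀ l < m, ∀ e, pair (nat l) e ∈ g → pair (nat l) e ∈ g') →
      g' ∈ D) : D ∈ ν := by
  classical
  have h2M := hM.nat_mem 2
  refine (hN.2 D).2 ⟨hDM, hDN, fun g hg => ?_⟩
  have hgf := ((hN.1 g).1 (hDN hg)).2
  have hval : ∀ l : ℕ, ∃ e, pair (nat l) e ∈ g ∧ e ∈ nat 2 := by
    intro l
    obtain ⟨e, he, -⟩ := hgf.2 (nat l) (mem_omega_iff.2 ⟨l, rfl⟩)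
    exact ⟨e, he, (ZFSet.pair_mem_prod.1 (hgf.1 he)).2⟩
  choose e he he2 using hval
  refine ⟨(Finset.range m).image fun l => (nat l, ({e l} : ZFSet.{0})), fun c hc => ?_,
    fun g' hg' h1 => hD g hg g' hg' fun l hl e' he' => ?_⟩
  · obtain ⟨l, -, rfl⟩ := Finset.mem_image.1 hc
    refine ⟨mem_omega_iff.2 ⟨l, rfl⟩, mem_PM.2 ⟨hM.single_mem (hM.trans _ h2M _ (he2 l)),
      fun z hz => ?_⟩, e l, ZFSet.mem_singleton.2 rfl, he l⟩
    rw [ZFSet.mem_singleton.1 hz]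
    exact he2 l
  · obtain ⟨y, hy, h2⟩ := h1 _ (Finset.mem_image_of_mem _ (Finset.mem_range.2 hl))
    dsimp only at hy h2
    rw [ZFSet.mem_singleton.1 hy] at h2
    rw [(hgf.2 (nat l) (mem_omega_iff.2 ⟨l, rfl⟩)).unique he' (he l)]
    exact h2

/-- Sets that depend on finitely many coordinates are clopen. -/
theorem cube_clopen {P : ZFSet.{0} → Prop} (hP : Dfn M M fun w : Fin 1 → ZFSet.{0} => P (w 0))
    (m : ℕ) (hm : ∀ g ∈ N, ∀ g' ∈ N, (∀ l < m, ∀ e, pair (nat l) e ∈ g → pair (nat l) e ∈ g') →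
      (P g ↔ P g')) : ZFSet.sep P N ∈ M ∧ ZFSet.sep P N ∈ ν ∧ N \ ZFSet.sep P N ∈ ν := by
  have h1 : ZFSet.sep P N ∈ M := hM.sep_mem (Q := P) hP hNM
  have h8 : N \ ZFSet.sep P N = ZFSet.sep (fun z => ¬ P z) N := by
    ext z
    rw [ZFSet.mem_sep, ZFSet.mem_sdiff, ZFSet.mem_sep]
    constructor
    · rintro ⟨h2, h3⟩
      exact ⟨h2, fun h4 => h3 ⟨h2, h4⟩⟩
    · rintro ⟨h2, h3⟩
      exact ⟨h2, fun h4 => h3 h4.2⟩
  refine ⟨h1, cube_open hM hNM hN h1 (fun z hz => (ZFSet.mem_sep.1 hz).1) m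
    fun g hg g' hg' h2 => ?_, ?_⟩
  · obtain ⟨h3, h4⟩ := ZFSet.mem_sep.1 hg
    exact ZFSet.mem_sep.2 ⟨hg', (hm g h3 g' hg' h2).1 h4⟩
  · rw [h8]
    refine cube_open hM hNM hN (hM.sep_mem (Q := fun z => ¬ P z) (Dfn.not hP) hNM)
      (fun z hz => (ZFSet.mem_sep.1 hz).1) m fun g hg g' hg' h2 => ?_
    obtain ⟨h3, h4⟩ := ZFSet.mem_sep.1 hg
    exact ZFSet.mem_sep.2 ⟨hg', fun h5 => h4 ((hm g h3 g' hg' h2).2 h5)⟩

end

/-- The Cantor cube is not a remainder of the discrete space of the atoms. -/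
theorem not_rem {M : Set ZFSet.{0}} {at' : ℕ × ℕ → ZFSet.{0}} {st : Set (ℕ × ℕ) → ZFSet.{0}}
    (h : AlmM CT cd2 M at' st) {N ν : ZFSet.{0}} (hNM : N ∈ M) (hN : IsCube M N ν) :
    ¬ RemIn M (st Set.univ) N ν := by
  classical
  rintro ⟨Y, hYM, τ, hτM, i, hiM, B, hBM, h', hh'M, d1, d2, d3, d4, d5, d6, d7, d8⟩
  have d : RemD M (st Set.univ) N ν Y τ i B h' :=
    ⟨hYM, hτM, hiM, hBM, hh'M, d1, d2, d3, d4, d5, d6, d7, d8⟩
  have hM := h.zf
  have hB := hM.base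
  have hom : ZFSet.omega ∈ M := hM.infinity
  have hu := univ_DA
  have hAM := h.stM _ hu
  have h0 := hM.nat_mem 0
  have h1 := hM.nat_mem 1
  have hatA : ∀ x, at' x ∈ st Set.univ := fun x => (AlmM.mem_st h hu).2 trivial
  have hmA : ∀ z ∈ st Set.univ, ∃ x, z = at' x := AlmM.atoms h hu
  have hix : ∀ x, ∃ y ∈ B, pair (at' x) y ∈ i := by
    intro x
    obtain ⟨y, hy, -⟩ := d.inj.1.2 (at' x) (hatA x)
    exact ⟨y, (d.mB y).2 ⟨_, hatA x, hy⟩, hy⟩
  choose ix hixB hixi using hix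
  have hix_inj : Function.Injective ix := by
    intro x y hxy
    have h2 := hixi y
    rw [← hxy] at h2
    exact h.inj (d.inj.2 _ _ _ (hixi x) h2)
  have hix_surj : ∀ b ∈ B, ∃ x, b = ix x := by
    intro b hb
    obtain ⟨a, ha, h2⟩ := (d.mB b).1 hb
    obtain ⟨x, rfl⟩ := hmA a ha
    exact ⟨x, (d.inj.1.2 (at' x) (hatA x)).unique h2 (hixi x)⟩
  -- the trace of an open set
  have hnice : ∀ G ∈ τ, Nice {x | ix x ∈ G} := by
    intro G hG
    have hGM := hM.trans _ hτM _ hG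
    have h2 : ZFSet.sep (fun a => ∃ y ∈ G, pair a y ∈ i) (st Set.univ) ∈ M := by
      refine hM.sep_mem (Q := fun a => ∃ y ∈ G, pair a y ∈ i) ?_ hAM
      (repeat' first
        | assumption
        | exact DfnF.proj _
        | exact DfnF.const (by assumption)
        | exact DfnF.const' (by first | assumption | trivial) (by first | assumption | trivial)
        | exact Dfn.prop _
        | apply hB.isFunc' | apply hB.isInj' | apply hB.isBij' | apply hB.isOrdinal'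
        | apply hB.subset' | apply hB.pair' | apply hB.insert'
        | apply Dfn.not | apply Dfn.and | apply Dfn.or | apply Dfn.imp | apply Dfn.iff
        | apply hB.bex | apply hB.ball | apply Dfn.ex | apply Dfn.all
        | apply Dfn.eq | apply Dfn.mem)
    have h3 := nice_ext h h2
    have h4 : {x | at' x ∈ ZFSet.sep (fun a => ∃ y ∈ G, pair a y ∈ i) (st Set.univ)} =
        {x | ix x ∈ G} := by
      ext x
      rw [Set.mem_setOf_eq, Set.mem_setOf_eq, ZFSet.mem_sep]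
      constructor
      · rintro ⟨-, y, hy, h5⟩
        rw [← (d.inj.1.2 (at' x) (hatA x)).unique h5 (hixi x)]
        exact hy
      · intro h5
        exact ⟨hatA x, _, h5, hixi x⟩
    rwa [h4] at h3
  -- the clopen sets
  have hR : ∀ r ∈ Y, r ∉ B → ∃ z, pair r z ∈ h' := by
    intro r hr hrB
    obtain ⟨z, hz, -⟩ := d.homeo.1.1.1.2 r (ZFSet.mem_sdiff.2 ⟨hr, hrB⟩)
    exact ⟨z, hz⟩
  have hRN : ∀ z ∈ N, ∃ r, r ∈ Y ∧ r ∉ B ∧ pair r z ∈ h' := by
    intro z hz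
    obtain ⟨r, hr, h2⟩ := d.homeo.1.2 z hz
    exact ⟨r, (ZFSet.mem_sdiff.1 hr).1, (ZFSet.mem_sdiff.1 hr).2, h2⟩
  let PD : ℕ → ZFSet.{0} → Prop := fun j g => pair (nat 0) (nat j) ∈ g
  let PS : ℕ → ℕ → ZFSet.{0} → Prop := fun j k g => pair (nat 0) (nat j) ∈ g ∧
    pair (nat (k + 1)) (nat 1) ∈ g ∧ ∀ l ∈ nat k, pair (insert l l) (nat 0) ∈ g
  have hPD : ∀ j, ZFSet.sep (PD j) N ∈ M ∧ ZFSet.sep (PD j) N ∈ ν ∧
      N \ ZFSet.sep (PD j) N ∈ ν := by
    intro j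
    have hj := hM.nat_mem j
    refine cube_clopen hM hNM hN ?_ 1 fun g hg g' hg' h2 => ?_
    · simp only [PD]
      generalize nat 0 = n0 at h0
      generalize nat j = nj at hj
      (repeat' first
        | assumption
        | exact DfnF.proj _
        | exact DfnF.const (by assumption)
        | exact DfnF.const' (by first | assumption | trivial) (by first | assumption | trivial)
        | exact Dfn.prop _
        | apply hB.isFunc' | apply hB.isInj' | apply hB.isBij' | apply hB.isOrdinal'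
        | apply hB.subset' | apply hB.pair' | apply hB.insert'
        | apply Dfn.not | apply Dfn.and | apply Dfn.or | apply Dfn.imp | apply Dfn.iff
        | apply hB.bex | apply hB.ball | apply Dfn.ex | apply Dfn.all
        | apply Dfn.eq | apply Dfn.mem)
    · have h3 : ∀ e e', pair (nat 0) e ∈ g → pair (nat 0) e' ∈ g' → e = e' := fun e e' h4 h5 =>
        (((hN.1 g').1 hg').2.2 (nat 0) (mem_omega_iff.2 ⟨0, rfl⟩)).unique
          (h2 0 (by norm_num) e h4) h5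
      constructor
      · exact fun h4 => h2 0 (by norm_num) _ h4
      · intro h4
        obtain ⟨e, he, -⟩ := ((hN.1 g).1 hg).2.2 (nat 0) (mem_omega_iff.2 ⟨0, rfl⟩)
        have h5 := h3 _ _ he h4
        rw [h5] at he
        exact he
  have hPS : ∀ j k, ZFSet.sep (PS j k) N ∈ M ∧ ZFSet.sep (PS j k) N ∈ ν ∧
      N \ ZFSet.sep (PS j k) N ∈ ν := by
    intro j k
    have hj := hM.nat_mem j
    have hk := hM.nat_mem k
    have hk1 := hM.nat_mem (k + 1)
    refine cube_clopen hM hNM hN ?_ (k + 2) fun g hg g' hg' h2 => ?_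
    · simp only [PS]
      generalize nat 0 = n0 at h0
      generalize nat 1 = n1 at h1
      generalize nat (k + 1) = nk1 at hk1
      generalize nat j = nj at hj
      generalize nat k = nk at hk
      (repeat' first
        | assumption
        | exact DfnF.proj _
        | exact DfnF.const (by assumption)
        | exact DfnF.const' (by first | assumption | trivial) (by first | assumption | trivial)
        | exact Dfn.prop _
        | apply hB.isFunc' | apply hB.isInj' | apply hB.isBij' | apply hB.isOrdinal'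
        | apply hB.subset' | apply hB.pair' | apply hB.insert'
        | apply Dfn.not | apply Dfn.and | apply Dfn.or | apply Dfn.imp | apply Dfn.iff
        | apply hB.bex | apply hB.ball | apply Dfn.ex | apply Dfn.all
        | apply Dfn.eq | apply Dfn.mem)
    · have h3 : ∀ l < k + 2, ∀ e, (pair (nat l) e ∈ g ↔ pair (nat l) e ∈ g') := by
        intro l hl e
        refine ⟨h2 l hl e, fun h4 => ?_⟩
        obtain ⟨e', he', -⟩ := ((hN.1 g).1 hg).2.2 (nat l) (mem_omega_iff.2 ⟨l, rfl⟩)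
        have h5 := (((hN.1 g').1 hg').2.2 (nat l) (mem_omega_iff.2 ⟨l, rfl⟩)).unique
          (h2 l hl e' he') h4
        rw [h5] at he'
        exact he'
      simp only [PS]
      rw [h3 0 (by omega), h3 (k + 1) (by omega)]
      refine and_congr_right fun _ => and_congr_right fun _ => forall_congr' fun l =>
        forall_congr' fun hl => ?_
      obtain ⟨l, hl', rfl⟩ := mem_nat_iff.1 hl
      have h4 : insert (nat l) (nat l) = nat (l + 1) := rfl
      rw [h4]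
      exact h3 (l + 1) (by omega) _
  have hsubN : ∀ P : ZFSet.{0} → Prop, ZFSet.sep P N ⊆ N := fun P z hz => (ZFSet.mem_sep.1 hz).1
  have hWD : ∀ j, ∃ W ∈ τ, ∃ W' ∈ τ, (∀ z ∈ W, z ∉ W') ∧ ∀ r z, pair r z ∈ h' →
      (PD j z → r ∈ W) ∧ (¬ PD j z → r ∈ W') := by
    intro j
    obtain ⟨W, hW, W', hW', h2, h3⟩ := d.clopen hM (hPD j).1 (hsubN _) (hPD j).2.1 (hPD j).2.2 hNM
    refine ⟨W, hW, W', hW', h2, fun r z hrz => ?_⟩
    have hz := (ZFSet.pair_mem_prod.1 (d.homeo.1.1.1.1 hrz)).2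
    exact ⟨fun h4 => (h3 r z hrz).1 (ZFSet.mem_sep.2 ⟨hz, h4⟩), fun h4 => (h3 r z hrz).2
      fun h5 => h4 (ZFSet.mem_sep.1 h5).2⟩
  have hWS : ∀ j k, ∃ W ∈ τ, ∃ W' ∈ τ, (∀ z ∈ W, z ∉ W') ∧ ∀ r z, pair r z ∈ h' →
      (PS j k z → r ∈ W) ∧ (¬ PS j k z → r ∈ W') := by
    intro j k
    obtain ⟨W, hW, W', hW', h2, h3⟩ := d.clopen hM (hPS j k).1 (hsubN _) (hPS j k).2.1
      (hPS j k).2.2 hNM
    refine ⟨W, hW, W', hW', h2, fun r z hrz => ?_⟩
    have hz := (ZFSet.pair_mem_prod.1 (d.homeo.1.1.1.1 hrz)).2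
    exact ⟨fun h4 => (h3 r z hrz).1 (ZFSet.mem_sep.2 ⟨hz, h4⟩), fun h4 => (h3 r z hrz).2
      fun h5 => h4 (ZFSet.mem_sep.1 h5).2⟩
  choose WD hWD1 WD' hWD2 hWD3 hWD4 using hWD
  choose WS hWS1 WS' hWS2 hWS3 hWS4 using hWS
  -- finiteness from covers of the remainder
  have hfin : ∀ G ∈ τ, ∀ G' ∈ τ, (∀ r z, pair r z ∈ h' → r ∈ G ∨ r ∈ G') →
      {x | ix x ∉ G ∧ ix x ∉ G'}.Finite := by
    intro G hG G' hG' h2
    have h3 := d.cover2 hM hG hG' fun r hr hrB => by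
      obtain ⟨z, hz⟩ := hR r hr hrB
      exact h2 r z hz
    exact (h3.preimage hix_inj.injOn).subset fun x hx => ⟨hixB x, hx.1, hx.2⟩
  have hPDu : ∀ z ∈ N, PD 0 z ∨ PD 1 z := by
    intro z hz
    obtain ⟨e, he, -⟩ := ((hN.1 z).1 hz).2.2 (nat 0) (mem_omega_iff.2 ⟨0, rfl⟩)
    obtain ⟨j, hj, rfl⟩ := mem_nat_iff.1 (ZFSet.pair_mem_prod.1 (((hN.1 z).1 hz).2.1 he)).2
    interval_cases j
    · exact Or.inl he
    · exact Or.inr he
  have huniq : ∀ z ∈ N, ∀ l i j : ℕ, pair (nat l) (nat i) ∈ z → pair (nat l) (nat j) ∈ z →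
      i = j := by
    intro z hz l i j h2 h3
    exact nat_injective ((((hN.1 z).1 hz).2.2 (nat l) (mem_omega_iff.2 ⟨l, rfl⟩)).unique h2 h3)
  have hzN : ∀ r z, pair r z ∈ h' → z ∈ N := fun r z hrz =>
    (ZFSet.pair_mem_prod.1 (d.homeo.1.1.1.1 hrz)).2
  refine no_dyad (D := fun j => {x | ix x ∈ WD j}) (S := fun j k => {x | ix x ∈ WS j k})
    (fun j => hnice _ (hWD1 j)) (fun j k => hnice _ (hWS1 j k)) ?_ ?_ ?_ ?_
  · refine (hfin _ (hWD2 0) _ (hWD2 1) fun r z hrz => ?_).subset fun x hx =>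
      ⟨hWD3 0 _ hx.1, hWD3 1 _ hx.2⟩
    by_cases h2 : PD 0 z
    · refine Or.inr ((hWD4 1 r z hrz).2 fun h3 => ?_)
      have := huniq z (hzN r z hrz) 0 0 1 h2 h3
      omega
    · exact Or.inl ((hWD4 0 r z hrz).2 h2)
  · intro j hj k
    -- a point of the cube
    have hjM := hM.nat_mem j
    have hk1 := hM.nat_mem (k + 1)
    have h2M := hM.nat_mem 2
    have hgM : ZFSet.sep (fun p => ∃ n ∈ ZFSet.omega, ∃ b ∈ nat 2, p = pair n b ∧
        ((n = nat 0 ∧ b = nat j) ∨ (n = nat (k + 1) ∧ b = nat 1) ∨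
        (n ≠ nat 0 ∧ n ≠ nat (k + 1) ∧ b = nat 0))) (ZFSet.prod ZFSet.omega (nat 2)) ∈ M := by
      have hpr := hM.prod_mem hom h2M
      generalize nat 0 = n0 at h0
      generalize nat 1 = n1 at h1
      generalize nat 2 = n2 at h2M hpr
      generalize nat (k + 1) = nk1 at hk1
      generalize nat j = nj at hjM
      refine hM.sep_mem (Q := fun p => ∃ n ∈ ZFSet.omega, ∃ b ∈ n2, p = pair n b ∧
        ((n = n0 ∧ b = nj) ∨ (n = nk1 ∧ b = n1) ∨
        (n ≠ n0 ∧ n ≠ nk1 ∧ b = n0))) ?_ hpr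
      (repeat' first
        | assumption
        | exact DfnF.proj _
        | exact DfnF.const (by assumption)
        | exact DfnF.const' (by first | assumption | trivial) (by first | assumption | trivial)
        | exact Dfn.prop _
        | apply hB.isFunc' | apply hB.isInj' | apply hB.isBij' | apply hB.isOrdinal'
        | apply hB.subset' | apply hB.pair' | apply hB.insert'
        | apply Dfn.not | apply Dfn.and | apply Dfn.or | apply Dfn.imp | apply Dfn.iff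
        | apply hB.bex | apply hB.ball | apply Dfn.ex | apply Dfn.all
        | apply Dfn.eq | apply Dfn.mem)
    obtain ⟨g, hg⟩ : ∃ g, g = ZFSet.sep (fun p => ∃ n ∈ ZFSet.omega, ∃ b ∈ nat 2, p = pair n b ∧
        ((n = nat 0 ∧ b = nat j) ∨ (n = nat (k + 1) ∧ b = nat 1) ∨
        (n ≠ nat 0 ∧ n ≠ nat (k + 1) ∧ b = nat 0))) (ZFSet.prod ZFSet.omega (nat 2)) := ⟨_, rfl⟩
    rw [← hg] at hgM
    have hmg : ∀ n b : ℕ, b < 2 → (pair (nat n) (nat b) ∈ g ↔ (n = 0 ∧ b = j) ∨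
        (n = k + 1 ∧ b = 1) ∨ (n ≠ 0 ∧ n ≠ k + 1 ∧ b = 0)) := by
      intro n b hb
      rw [hg, ZFSet.mem_sep, ZFSet.pair_mem_prod]
      have hbe : nat b ∈ nat 2 := nat_mem_nat.2 hb
      have hno : nat n ∈ ZFSet.omega := mem_omega_iff.2 ⟨n, rfl⟩
      constructor
      · rintro ⟨-, n', -, b', -, hp, h3⟩
        obtain ⟨h4, h5⟩ := ZFSet.pair_inj.1 hp
        rw [← h4, ← h5] at h3
        simp only [ne_eq, nat_injective.eq_iff] at h3
        exact h3
      · intro h3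
        refine ⟨⟨hno, hbe⟩, _, hno, _, hbe, rfl, ?_⟩
        simp only [ne_eq, nat_injective.eq_iff]
        exact h3
    have hgsub : ∀ q ∈ g, ∃ n b : ℕ, b < 2 ∧ q = pair (nat n) (nat b) := by
      intro q hq
      rw [hg] at hq
      obtain ⟨n, hn, b, hb, rfl⟩ := ZFSet.mem_prod.1 (ZFSet.mem_sep.1 hq).1
      obtain ⟨n, rfl⟩ := mem_omega_iff.1 hn
      obtain ⟨b, hb2, rfl⟩ := mem_nat_iff.1 hb
      exact ⟨n, b, hb2, rfl⟩
    have hgN : g ∈ N := by
      refine (hN.1 g).2 ⟨hgM, fun q hq => ?_, fun n hn => ?_⟩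
      · obtain ⟨n, b, hb, rfl⟩ := hgsub q hq
        exact ZFSet.pair_mem_prod.2 ⟨mem_omega_iff.2 ⟨n, rfl⟩, nat_mem_nat.2 hb⟩
      · obtain ⟨n, rfl⟩ := mem_omega_iff.1 hn
        obtain ⟨b, hb, hnb⟩ : ∃ b < 2, (n = 0 ∧ b = j) ∨ (n = k + 1 ∧ b = 1) ∨
            (n ≠ 0 ∧ n ≠ k + 1 ∧ b = 0) := by
          by_cases h3 : n = 0
          · exact ⟨j, hj, Or.inl ⟨h3, rfl⟩⟩
          · by_cases h4 : n = k + 1
            · exact ⟨1, by norm_num, Or.inr (Or.inl ⟨h4, rfl⟩)⟩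
            · exact ⟨0, by norm_num, Or.inr (Or.inr ⟨h3, h4, rfl⟩)⟩
        refine ⟨nat b, (hmg n b hb).2 hnb, fun y hy => ?_⟩
        obtain ⟨n', b', hb', h3⟩ := hgsub _ hy
        obtain ⟨h4, h5⟩ := ZFSet.pair_inj.1 h3
        rw [h5] at hy ⊢
        have h6 := (hmg n b' hb').1 hy
        congr 1
        omega
    have hPg : PS j k g := by
      refine ⟨(hmg 0 j hj).2 (Or.inl ⟨rfl, rfl⟩), (hmg (k + 1) 1 (by norm_num)).2
        (Or.inr (Or.inl ⟨rfl, rfl⟩)), fun l hl => ?_⟩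
      obtain ⟨l, hl, rfl⟩ := mem_nat_iff.1 hl
      exact (hmg (l + 1) 0 (by norm_num)).2 (Or.inr (Or.inr ⟨by omega, by omega, rfl⟩))
    obtain ⟨r, hr, hrB, hrg⟩ := hRN g hgN
    have h3 := d.infinite_of hM (hWS1 j k) ((hWS4 j k r g hrg).1 hPg) hrB
    intro h4
    refine h3 ((h4.image ix).subset fun b hb => ?_)
    obtain ⟨x, rfl⟩ := hix_surj b hb.1
    exact ⟨x, hb.2, rfl⟩
  · intro j hj k l hkl
    refine (hfin _ (hWS2 j k) _ (hWS2 j l) fun r z hrz => ?_).subset fun x hx =>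
      ⟨hWS3 j k _ hx.1, hWS3 j l _ hx.2⟩
    by_cases h2 : PS j k z
    · refine Or.inr ((hWS4 j l r z hrz).2 fun h3 => ?_)
      rcases lt_trichotomy k l with h4 | h4 | h4
      · have h5 := h3.2.2 (nat k) (nat_mem_nat.2 h4)
        have := huniq z (hzN r z hrz) (k + 1) 1 0 h2.2.1 h5
        omega
      · exact hkl h4
      · have h5 := h2.2.2 (nat l) (nat_mem_nat.2 h4)
        have := huniq z (hzN r z hrz) (l + 1) 1 0 h3.2.1 h5
        omega
    · exact Or.inl ((hWS4 j k r z hrz).2 h2)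
  · intro j hj k
    have h2 : (({x | ix x ∈ WS j k} : Set (ℕ × ℕ)) ∩ {x | ix x ∈ WD (1 - j)}).Finite := by
      refine (hfin _ (hWS2 j k) _ (hWD2 (1 - j)) fun r z hrz => ?_).subset fun x hx =>
        ⟨hWS3 j k _ hx.1, hWD3 (1 - j) _ hx.2⟩
      by_cases h3 : PS j k z
      · refine Or.inr ((hWD4 (1 - j) r z hrz).2 fun h4 => ?_)
        have := huniq z (hzN r z hrz) 0 _ _ h3.1 h4
        omega
      · exact Or.inl ((hWS4 j k r z hrz).2 h3)
    have h3 : {x | ix x ∉ WD 0 ∧ ix x ∉ WD 1}.Finite := by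
      refine hfin _ (hWD1 0) _ (hWD1 1) fun r z hrz => ?_
      rcases hPDu z (hzN r z hrz) with h4 | h4
      · exact Or.inl ((hWD4 0 r z hrz).1 h4)
      · exact Or.inr ((hWD4 1 r z hrz).1 h4)
    refine (h2.union h3).subset fun x hx => ?_
    by_cases h4 : ix x ∈ WD (1 - j)
    · exact Or.inl ⟨hx.1, h4⟩
    · refine Or.inr ?_
      have h5 := hx.2
      interval_cases j
      · exact ⟨h5, h4⟩
      · exact ⟨h4, h5⟩

end Pool.Agent.Q211.AM
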