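import Pool.Agent.Q211.AM.Fb

/-!
# A dyadically filterbase infinite set
-/

set_option autoImplicit false
set_option linter.unusedSectionVars false
set_option linter.unreachableTactic false
set_option linter.unusedTactic false

namespace Pool.Agent.Q211.AM

open Pool.Agent.W868 Pool.Agent.W868.PName Pool.Agent.Q211.SY Pool.Agent.Q211.FS
open Pool.Agent.Q211.PA Pool.Agent.Q211.TP
open ZFSet (pair)

theorem finIn_of_finite {M : Set ZFSet.{0}} (hM : IsZF M) {S : ZFSet.{0}}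
    (hf : {z | z ∈ S}.Finite) (hS : ∀ z ∈ S, z ∈ M) : FinIn M S := by
  obtain ⟨c, hc, hc'⟩ := exists_fin_mem hM hf.toFinset fun z hz => hS z (hf.mem_toFinset.1 hz)
  have h1 : S = c := by
    ext z
    rw [hc', hf.mem_toFinset]
    exact Iff.rfl
  rw [h1] at hf ⊢
  exact (finite_iff hM hc).1 hf

/-- The rational numbers in `[0, 1)`. -/
abbrev QI : Type := {q : ℚ // 0 ≤ q ∧ q < 1}

/-- The dyadic intervals. -/
def DI (n i : ℕ) : Set QI := {x | ⌊(2 : ℚ) ^ n * x.1⌋ + 1 = (i : ℤ)}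

/-- The dyadic intervals as a sequence. -/
def DT (m : ℕ) : Set QI := DI m.unpair.1 m.unpair.2

theorem DT_pair (n i : ℕ) : DT (Nat.pair n i) = DI n i := by
  unfold DT
  rw [Nat.unpair_pair]

theorem mem_DI {n i : ℕ} {x : QI} : x ∈ DI n i ↔
    (i : ℚ) - 1 ≤ 2 ^ n * x.1 ∧ (2 : ℚ) ^ n * x.1 < i := by
  have h : x ∈ DI n i ↔ ⌊(2 : ℚ) ^ n * x.1⌋ = (i : ℤ) - 1 := by
    change ⌊(2 : ℚ) ^ n * x.1⌋ + 1 = (i : ℤ) ↔ _
    omega
  rw [h, Int.floor_eq_iff]
  push_cast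
  constructor
  · rintro ⟨h1, h2⟩
    exact ⟨h1, by linarith⟩
  · rintro ⟨h1, h2⟩
    exact ⟨h1, by linarith⟩

theorem DI_univ : DI 0 1 = Set.univ := by
  ext x
  rw [mem_DI]
  simp only [pow_zero, one_mul, Nat.cast_one, sub_self, Set.mem_univ, iff_true]
  exact x.2

theorem DI_disj {n i j : ℕ} (h : i ≠ j) {x : QI} (hi : x ∈ DI n i) : x ∉ DI n j := by
  intro hj
  have h1 : ⌊(2 : ℚ) ^ n * x.1⌋ + 1 = (i : ℤ) := hi
  have h2 : ⌊(2 : ℚ) ^ n * x.1⌋ + 1 = (j : ℤ) := hj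
  rw [h1] at h2
  exact h (by exact_mod_cast h2)

theorem DI_left {n i : ℕ} (hi : 1 ≤ i) : DI (n + 1) (2 * i - 1) ⊆ DI n i := by
  intro x hx
  rw [mem_DI] at hx ⊢
  have h1 : ((2 * i - 1 : ℕ) : ℚ) = 2 * i - 1 := by
    rw [Nat.cast_sub (by omega)]
    push_cast
    ring
  rw [h1, pow_succ] at hx
  constructor
  · linarith [hx.1]
  · linarith [hx.2]

theorem DI_right {n i : ℕ} : DI (n + 1) (2 * i) ⊆ DI n i := by
  intro x hx
  rw [mem_DI] at hx ⊢
  push_cast at hx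
  rw [pow_succ] at hx
  constructor
  · linarith [hx.1]
  · linarith [hx.2]

theorem DI_cover (n : ℕ) (x : QI) : ∃ i, 1 ≤ i ∧ i ≤ 2 ^ n ∧ x ∈ DI n i := by
  have h0 : (0 : ℚ) < 2 ^ n := by positivity
  have h1 : 0 ≤ ⌊(2 : ℚ) ^ n * x.1⌋ := Int.floor_nonneg.2 (mul_nonneg h0.le x.2.1)
  have h2 : ⌊(2 : ℚ) ^ n * x.1⌋ < 2 ^ n := by
    rw [Int.floor_lt]
    push_cast
    calc (2 : ℚ) ^ n * x.1 < 2 ^ n * 1 := mul_lt_mul_of_pos_left x.2.2 h0
      _ = 2 ^ n := mul_one _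
  obtain ⟨k, hk⟩ := Int.eq_ofNat_of_zero_le h1
  refine ⟨k + 1, by omega, ?_, ?_⟩
  · rw [hk] at h2
    have h3 : k < 2 ^ n := by exact_mod_cast h2
    omega
  · change ⌊(2 : ℚ) ^ n * x.1⌋ + 1 = ((k + 1 : ℕ) : ℤ)
    rw [hk]
    push_cast
    rfl

theorem DI_infinite {n i : ℕ} (hi : 1 ≤ i) (hin : i ≤ 2 ^ n) : (DI n i).Infinite := by
  have h0 : (0 : ℚ) < 2 ^ n := by positivity
  have hi1 : (1 : ℚ) ≤ i := by exact_mod_cast hi
  have hi2 : (i : ℚ) ≤ 2 ^ n := by exact_mod_cast hin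
  have hb : ∀ k : ℕ, (0 : ℚ) < 1 / (k + 2) ∧ (1 : ℚ) / (k + 2) < 1 := by
    intro k
    have h1 : (0 : ℚ) < k + 2 := by positivity
    refine ⟨by positivity, ?_⟩
    rw [div_lt_one h1]
    have h2 : (0 : ℚ) ≤ k := Nat.cast_nonneg k
    linarith
  have hmul : ∀ k : ℕ, (2 : ℚ) ^ n * ((i - 1 + 1 / (k + 2)) / 2 ^ n) = i - 1 + 1 / (k + 2) := by
    intro k
    field_simp
  refine Set.infinite_of_injective_forall_mem (f := fun k : ℕ =>
    (⟨((i : ℚ) - 1 + 1 / (k + 2)) / 2 ^ n, ?_, ?_⟩ : QI)) ?_ fun k => ?_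
  · exact div_nonneg (by linarith [(hb k).1]) h0.le
  · rw [div_lt_one h0]
    linarith [(hb k).2]
  · intro k l hkl
    have h1 := congrArg (fun x : QI => (2 : ℚ) ^ n * x.1) hkl
    dsimp only at h1
    rw [hmul, hmul] at h1
    have h2 : (1 : ℚ) / (k + 2) = 1 / (l + 2) := by linarith
    have h3 : (0 : ℚ) < k + 2 := by positivity
    have h4 : (0 : ℚ) < l + 2 := by positivity
    rw [div_eq_div_iff h3.ne' h4.ne'] at h2
    have h5 : (k : ℚ) = l := by linarith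
    exact_mod_cast h5
  · rw [mem_DI]
    dsimp only
    rw [hmul]
    exact ⟨by linarith [(hb k).1], by linarith [(hb k).2]⟩

/-- The codes of the indices. -/
noncomputable def cd2 (m : ℕ) : ZFSet.{0} := pair (nat m.unpair.1) (nat m.unpair.2)

theorem cd2_Cd (m : ℕ) : Cd (cd2 m) := .pair (.nat _) (.nat _)

theorem cd2_pair (n i : ℕ) : cd2 (Nat.pair n i) = pair (nat n) (nat i) := by
  unfold cd2
  rw [Nat.unpair_pair]

theorem cd2_injective : Function.Injective cd2 := by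
  intro m k hmk
  obtain ⟨h1, h2⟩ := ZFSet.pair_inj.1 hmk
  rw [← Nat.pair_unpair m, ← Nat.pair_unpair k, nat_injective h1, nat_injective h2]

/-- The set of the atoms is dyadically filterbase infinite. -/
theorem dyadInf {M : Set ZFSet.{0}} {at' : QI → ZFSet.{0}} {st : Set QI → ZFSet.{0}}
    (h : AlmM DT cd2 M at' st) : DyadInf M (st Set.univ) := by
  classical
  have hM := h.zf
  have hB := hM.base
  have hom : ZFSet.omega ∈ M := hM.infinity
  have hu : Set.univ ∈ DA DT := ⟨Nat.pair 0 1, by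
    rw [DT_pair, DI_univ]
    exact AE.refl _⟩
  have hAM := h.stM _ hu
  have hPM := PM_mem hM hAM
  obtain ⟨F, hFM, hF⟩ := h.rl 0
  have hmF : ∀ n i : ℕ, ∀ S, pair (pair (nat n) (nat i)) S ∈ F ↔
      ∃ D, AE D (DT (Nat.pair n i)) ∧ S = st D := by
    intro n i S
    rw [hF]
    constructor
    · rintro ⟨m, D, -, hD, h1⟩
      obtain ⟨h2, h3⟩ := ZFSet.pair_inj.1 h1
      rw [← cd2_pair] at h2
      have h4 := cd2_injective h2
      rw [h4]
      exact ⟨D, hD, h3⟩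
    · rintro ⟨D, hD, rfl⟩
      exact ⟨Nat.pair n i, D, ⟨_, hD⟩, hD, by rw [cd2_pair]⟩
  have hst : ∀ {D m}, AE D (DT m) → st D ∈ PM M (st Set.univ) := by
    intro D m hD
    refine mem_PM.2 ⟨h.stM D ⟨_, hD⟩, fun z hz => ?_⟩
    obtain ⟨x, rfl⟩ := h.atoms ⟨_, hD⟩ z hz
    exact (h.mem_st hu).2 trivial
  obtain ⟨V, hV⟩ : ∃ V : ℕ → ℕ → ZFSet.{0}, ∀ n i, V n i =
      ZFSet.sep (fun S => pair (pair (nat n) (nat i)) S ∈ F) (PM M (st Set.univ)) :=
    ⟨_, fun _ _ => rfl⟩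
  have hmV : ∀ n i S, S ∈ V n i ↔ ∃ D, AE D (DT (Nat.pair n i)) ∧ S = st D := by
    intro n i S
    rw [hV, ZFSet.mem_sep, hmF]
    constructor
    · exact fun h1 => h1.2
    · rintro ⟨D, hD, rfl⟩
      exact ⟨hst hD, D, hD, rfl⟩
  have hVM : ∀ n i, V n i ∈ PM M (PM M (st Set.univ)) := by
    intro n i
    refine mem_PM.2 ⟨?_, fun z hz => ?_⟩
    · rw [hV]
      have hn := hM.nat_mem n
      have hi := hM.nat_mem i
      generalize nat n = a at hn
      generalize nat i = b at hi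
      refine hM.sep_mem (Q := fun S => pair (pair a b) S ∈ F) ?_ hPM
      (repeat' first
        | assumption
        | exact DfnF.proj _
        | exact DfnF.const (by assumption)
        | exact DfnF.const' (by first | assumption | trivial) (by first | assumption | trivial)
        | exact Dfn.prop _
        | apply hB.isFunc' | apply hB.isInj' | apply hB.isBij' | apply hB.isOrdinal'
        | apply hB.subset' | apply hB.pair' | apply hB.insert'
        | apply Dfn.not | apply Dfn.and | apply Dfn.or | apply Dfn.imp | apply Dfn.iff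
        | apply hB.bex | apply hB.ball | apply Dfn.ex | apply Dfn.all
        | apply Dfn.eq | apply Dfn.mem)
    · rw [hV] at hz
      exact (ZFSet.mem_sep.1 hz).1
  have hmA : ∀ z ∈ st Set.univ, z ∈ M := fun z hz => hM.trans _ hAM _ hz
  -- finite sets of atoms
  have hfin : ∀ S : ZFSet.{0}, (∀ z ∈ S, z ∈ st Set.univ) → {x | at' x ∈ S}.Finite →
      FinIn M S := by
    intro S hS hf
    refine finIn_of_finite hM ((hf.image at').subset fun z hz => ?_) fun z hz => hmA z (hS z hz)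
    obtain ⟨x, rfl⟩ := h.atoms hu z (hS z hz)
    exact ⟨x, hz, rfl⟩
  have hsub : ∀ {D m}, AE D (DT m) → ∀ z ∈ st D, z ∈ st Set.univ := fun hD =>
    (mem_PM.1 (hst hD)).2
  refine ⟨ZFSet.sep (fun q => ∃ a ∈ ZFSet.prod ZFSet.omega ZFSet.omega,
    ∃ W ∈ PM M (PM M (st Set.univ)), q = pair a W ∧ ∀ S ∈ PM M (st Set.univ),
      (S ∈ W ↔ pair a S ∈ F)) (ZFSet.prod (ZFSet.prod ZFSet.omega ZFSet.omega)
      (PM M (PM M (st Set.univ)))), ?_, V, fun q => ?_, fun n hn => ⟨fun i hi1 hi2 => ?_,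
      fun i j hi1 hi2 hj1 hj2 hij W hW G hG => ?_, fun w hw => ?_⟩⟩
  · have hPP := PM_mem hM hPM
    have hoo := hM.prod_mem hom hom
    have hpr := hM.prod_mem hoo hPP
    generalize PM M (PM M (st Set.univ)) = P2 at hPP hpr
    generalize PM M (st Set.univ) = P1 at hPM
    generalize ZFSet.prod ZFSet.omega ZFSet.omega = O2 at hoo hpr
    refine hM.sep_mem (Q := fun q => ∃ a ∈ O2, ∃ W ∈ P2, q = pair a W ∧ ∀ S ∈ P1,
      (S ∈ W ↔ pair a S ∈ F)) ?_ hpr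
    (repeat' first
      | assumption
      | exact DfnF.proj _
      | exact DfnF.const (by assumption)
      | exact DfnF.const' (by first | assumption | trivial) (by first | assumption | trivial)
      | exact Dfn.prop _
      | apply hB.isFunc' | apply hB.isInj' | apply hB.isBij' | apply hB.isOrdinal'
      | apply hB.subset' | apply hB.pair' | apply hB.insert'
      | apply Dfn.not | apply Dfn.and | apply Dfn.or | apply Dfn.imp | apply Dfn.iff
      | apply hB.bex | apply hB.ball | apply Dfn.ex | apply Dfn.all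
      | apply Dfn.eq | apply Dfn.mem)
  · rw [ZFSet.mem_sep]
    constructor
    · rintro ⟨-, a, ha, W, hW, rfl, h1⟩
      obtain ⟨n, hn, i, hi, rfl⟩ := ZFSet.mem_prod.1 ha
      obtain ⟨n, rfl⟩ := mem_omega_iff.1 hn
      obtain ⟨i, rfl⟩ := mem_omega_iff.1 hi
      refine ⟨n, i, ?_⟩
      have h2 : W = V n i := by
        ext S
        rw [hV, ZFSet.mem_sep]
        constructor
        · intro hS
          have h3 := (mem_PM.1 hW).2 hS
          exact ⟨h3, (h1 S h3).1 hS⟩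
        · rintro ⟨h3, h4⟩
          exact (h1 S h3).2 h4
      rw [h2]
    · rintro ⟨n, i, rfl⟩
      have h1 : pair (nat n) (nat i) ∈ ZFSet.prod ZFSet.omega ZFSet.omega :=
        ZFSet.pair_mem_prod.2 ⟨mem_omega_iff.2 ⟨n, rfl⟩, mem_omega_iff.2 ⟨i, rfl⟩⟩
      refine ⟨ZFSet.pair_mem_prod.2 ⟨h1, hVM n i⟩, _, h1, _, hVM n i, rfl, fun S hS => ?_⟩
      rw [hV, ZFSet.mem_sep]
      exact ⟨fun h2 => h2.2, fun h2 => ⟨hS, h2⟩⟩
  · refine AlmM.isFB h hu (m := Nat.pair n i) ?_ (hmV n i)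
    rw [DT_pair]
    exact DI_infinite hi1 hi2
  · obtain ⟨D, hD, rfl⟩ := (hmV n i W).1 hW
    obtain ⟨D', hD', rfl⟩ := (hmV n j G).1 hG
    have h1 : AE (DT (Nat.pair (n + 1) (2 * i - 1))) (DT (Nat.pair (n + 1) (2 * i - 1))) :=
      AE.refl _
    have h2 : AE (DT (Nat.pair (n + 1) (2 * i))) (DT (Nat.pair (n + 1) (2 * i))) := AE.refl _
    have h3 : ∀ x, (x ∈ DT (Nat.pair (n + 1) (2 * i - 1)) ∨ x ∈ DT (Nat.pair (n + 1) (2 * i))) →
        x ∈ DI n i := by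
      intro x hx
      rw [DT_pair, DT_pair] at hx
      rcases hx with hx | hx
      · exact DI_left hi1 hx
      · exact DI_right hx
    rw [DT_pair] at hD hD'
    refine ⟨_, (hmV _ _ _).2 ⟨_, h1, rfl⟩, _, (hmV _ _ _).2 ⟨_, h2, rfl⟩, hfin _ (fun z hz => ?_)
      ?_, hfin _ (fun z hz => ?_) ?_⟩
    · rcases ZFSet.mem_union.1 (ZFSet.mem_sdiff.1 hz).1 with hz | hz
      · exact hsub h1 z hz
      · exact hsub h2 z hz
    · refine hD.symm.diff.subset fun x hx => ?_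
      obtain ⟨h4, h5⟩ := ZFSet.mem_sdiff.1 hx
      rw [ZFSet.mem_union, AlmM.mem_st h ⟨_, h1⟩, AlmM.mem_st h ⟨_, h2⟩] at h4
      rw [AlmM.mem_st h ⟨Nat.pair n i, by rw [DT_pair]; exact hD⟩] at h5
      exact ⟨h3 x h4, h5⟩
    · exact hsub (m := Nat.pair n j) (by rw [DT_pair]; exact hD') z (ZFSet.mem_inter.1 hz).2
    · refine hD'.diff.subset fun x hx => ?_
      obtain ⟨h4, h5⟩ := ZFSet.mem_inter.1 hx
      rw [ZFSet.mem_union, AlmM.mem_st h ⟨_, h1⟩, AlmM.mem_st h ⟨_, h2⟩] at h4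
      rw [AlmM.mem_st h ⟨Nat.pair n j, by rw [DT_pair]; exact hD'⟩] at h5
      exact ⟨h5, DI_disj hij (h3 x h4)⟩
  · refine hfin _ (fun z hz => (ZFSet.mem_sep.1 hz).1) ?_
    have h1 : ∀ i, ∃ D, 1 ≤ i → i ≤ 2 ^ n → AE D (DI n i) ∧ w i = st D := by
      intro i
      by_cases hi : 1 ≤ i ∧ i ≤ 2 ^ n
      · obtain ⟨D, hD, h2⟩ := (hmV n i _).1 (hw i hi.1 hi.2)
        rw [DT_pair] at hD
        exact ⟨D, fun _ _ => ⟨hD, h2⟩⟩
      · exact ⟨∅, fun h3 h4 => absurd ⟨h3, h4⟩ hi⟩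
    choose D hD using h1
    refine Set.Finite.subset (Set.Finite.biUnion (Set.finite_Icc 1 (2 ^ n))
      (t := fun i => DI n i \ D i) fun i hi => (hD i hi.1 hi.2).1.symm.diff) fun x hx => ?_
    obtain ⟨i, hi1, hi2, h2⟩ := DI_cover n x
    refine Set.mem_biUnion (Set.mem_Icc.2 ⟨hi1, hi2⟩) ⟨h2, fun h3 => ?_⟩
    have h4 := (ZFSet.mem_sep.1 hx).2 i hi1 hi2
    rw [(hD i hi1 hi2).2, AlmM.mem_st h ⟨Nat.pair n i, by
      rw [DT_pair]
      exact (hD i hi1 hi2).1⟩] at h4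
    exact h4 h3

end Pool.Agent.Q211.AM
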