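import Pool.Agent.Q211.AM.Cub

/-!
# A model with lines of atoms
-/

set_option autoImplicit false
set_option linter.unusedSectionVars false
set_option linter.unreachableTactic false
set_option linter.unusedTactic false

namespace Pool.Agent.Q211.AM

open Pool.Agent.W868 Pool.Agent.W868.PName Pool.Agent.Q211.SY Pool.Agent.Q211.FS
open Pool.Agent.Q211.PA Pool.Agent.Q211.TP
open ZFSet (pair)

section

variable {Y Γ : Type} [Group Γ] [MulAction Γ Y]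

instance actC : MulAction (PA.GG Y Γ) (Y × ℕ) where
  smul g c := g.1.2 c
  one_smul _ := rfl
  mul_smul _ _ _ := rfl

theorem gg_smul (g : PA.GG Y Γ) (c : Y × ℕ) : g • c = g.1.2 c := rfl

open Classical in
variable (Y) in
/-- The normal filter for the lines. -/
noncomputable def NC (N : NFil Γ) : NFil (PA.GG Y Γ) where
  F := {L | ∃ H ∈ N.F, ∃ e, Hx H e = L}
  ne := by
    obtain ⟨H, hH⟩ := N.ne
    exact ⟨_, H, hH, ∅, rfl⟩
  conj := by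
    rintro _ ⟨H, hH, e, rfl⟩ g
    obtain ⟨K, hK, h1⟩ := N.conj H hH g.1.1
    refine ⟨_, ⟨K, hK, e.image g.1.2, rfl⟩, fun k hk => ⟨h1 _ hk.1, fun c hc => ?_⟩⟩
    change g.1.2⁻¹ (k.1.2 (g.1.2 c)) = c
    rw [hk.2 _ (Finset.mem_image_of_mem _ hc), perm_inv_self]
  dir := by
    rintro _ ⟨H, hH, e, rfl⟩ _ ⟨K, hK, f, rfl⟩
    obtain ⟨L, hL, h1, h2⟩ := N.dir H hH K hK
    exact ⟨_, ⟨L, hL, e ∪ f, rfl⟩, Hx_mono h1 Finset.subset_union_left,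
      Hx_mono h2 Finset.subset_union_right⟩

theorem NC_Pt {N : NFil Γ} : (NC Y N).Pt (Y × ℕ) := by
  intro c
  obtain ⟨H, hH⟩ := N.ne
  exact ⟨_, ⟨H, hH, {c}, rfl⟩, fun g hg => hg.2 c (Finset.mem_singleton_self _)⟩

/-- The union of the lines with index in `D`. -/
def cyl (D : Set Y) : Set (Y × ℕ) := {c | c.1 ∈ D}

theorem im'_cyl (g : PA.GG Y Γ) (D : Set Y) : im' g (cyl D) = cyl (im' g.1.1 D) := by
  ext c
  rw [mem_im']
  change (g⁻¹ • c).1 ∈ D ↔ g.1.1⁻¹ • c.1 ∈ D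
  have h1 : (g⁻¹ • c).1 = g.1.1⁻¹ • c.1 := gg_fst g⁻¹ c
  rw [h1]

end

/-! ### The family -/

/-- The sets that are almost equal to some `T i`, and the sets with one element. -/
def DL (T : ℕ → Set (ℕ × ℕ)) : Set (Set ((ℕ × ℕ) × ℕ)) :=
  {C | (∃ D ∈ DA T, C = cyl D) ∨ ∃ y, C = cyl {y}}

theorem DL_countable (T : ℕ → Set (ℕ × ℕ)) : (DL T).Countable := by
  have h : DL T = cyl '' DA T ∪ Set.range fun y => cyl {y} := by
    ext C
    constructor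
    · rintro (⟨D, hD, rfl⟩ | ⟨y, rfl⟩)
      · exact Or.inl ⟨D, hD, rfl⟩
      · exact Or.inr ⟨y, rfl⟩
    · rintro (⟨D, hD, rfl⟩ | ⟨y, rfl⟩)
      · exact Or.inl ⟨D, hD, rfl⟩
      · exact Or.inr ⟨y, rfl⟩
  rw [h]
  exact (DA_countable.image _).union (Set.countable_range _)

theorem im'_single {T : ℕ → Set (ℕ × ℕ)} (γ : GA T) (y : ℕ × ℕ) :
    im' γ ({y} : Set (ℕ × ℕ)) = {γ • y} := by
  ext x
  rw [mem_im', Set.mem_singleton_iff, Set.mem_singleton_iff, inv_smul_eq_iff]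

theorem cyl_injective : Function.Injective (cyl : Set (ℕ × ℕ) → Set ((ℕ × ℕ) × ℕ)) := by
  intro D E h
  ext y
  have h1 : ((y, 0) : (ℕ × ℕ) × ℕ) ∈ cyl D ↔ ((y, 0) : (ℕ × ℕ) × ℕ) ∈ cyl E := by rw [h]
  exact h1

/-- The model. -/
abbrev LinM (T : ℕ → Set (ℕ × ℕ)) (M : Set ZFSet.{0}) (at' : (ℕ × ℕ) × ℕ → ZFSet.{0})
    (st : Set ((ℕ × ℕ) × ℕ) → ZFSet.{0}) : Prop :=
  PMd (X := (ℕ × ℕ) × ℕ) (NC (ℕ × ℕ) (NA T)) (DL T) nat (fun _ n C => ∃ D, C = cyl D ∧ AE D (T n)) M at' st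

theorem exists_lin (T : ℕ → Set (ℕ × ℕ)) : ∃ M at' st, LinM T M at' st := by
  refine exists_pmd NC_Pt (DL T) (DL_countable T) (fun γ C hC => ?_) (fun C hC => ?_) nat
    (fun n => .nat n) _ fun k n γ C _ => ?_
  · rcases hC with ⟨D, ⟨i, hi⟩, rfl⟩ | ⟨y, rfl⟩
    · rw [im'_cyl]
      exact Or.inl ⟨_, ⟨i, (ae_im _).2 hi⟩, rfl⟩
    · rw [im'_cyl, im'_single]
      exact Or.inr ⟨_, rfl⟩
  · rcases hC with ⟨D, ⟨i, hi⟩, rfl⟩ | ⟨y, rfl⟩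
    · obtain ⟨H, hH, h1⟩ := ae_sym hi
      refine ⟨_, ⟨H, hH, ∅, rfl⟩, fun g hg => ?_⟩
      rw [im'_cyl, h1 _ hg.1]
    · refine ⟨_, ⟨_, ⟨{y}, ∅, rfl⟩, ∅, rfl⟩, fun g hg => ?_⟩
      rw [im'_cyl, im'_single, hg.1.1 y (Finset.mem_singleton_self _)]
  · constructor
    · rintro ⟨D, hD, h1⟩
      refine ⟨im' (γ.1.1)⁻¹ D, ?_, ?_⟩
      · have h2 := im'_cyl γ⁻¹ D
        have h3 : (γ⁻¹).1.1 = (γ.1.1)⁻¹ := rfl
        rw [h3] at h2
        rw [← h2, ← hD, im'_inv]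
      · exact (ae_im _).2 h1
    · rintro ⟨D, rfl, h1⟩
      exact ⟨_, im'_cyl γ D, (ae_im _).2 h1⟩

namespace LinM

variable {T : ℕ → Set (ℕ × ℕ)} {M : Set ZFSet.{0}} {at' : (ℕ × ℕ) × ℕ → ZFSet.{0}}
    {st : Set ((ℕ × ℕ) × ℕ) → ZFSet.{0}} (h : LinM T M at' st)

include h

theorem mem_st {D : Set ((ℕ × ℕ) × ℕ)} (hD : D ∈ DL T) {x : (ℕ × ℕ) × ℕ} :
    at' x ∈ st D ↔ x ∈ D := by
  rw [h.mst D hD]
  constructor
  · rintro ⟨y, hy, h1⟩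
    rw [h.inj h1]
    exact hy
  · intro hx
    exact ⟨x, hx, rfl⟩

theorem atoms {D : Set ((ℕ × ℕ) × ℕ)} (hD : D ∈ DL T) : ∀ z ∈ st D, ∃ x, z = at' x := by
  intro z hz
  obtain ⟨x, -, rfl⟩ := (h.mst D hD z).1 hz
  exact ⟨x, rfl⟩

/-- Elements of the model do not distinguish the points of a line, except finitely many. -/
theorem line_support {f : ZFSet.{0}} (hf : f ∈ M) : ∃ e : Finset ((ℕ × ℕ) × ℕ), ∀ c c', c ∉ e →
    c' ∉ e → c.1 = c'.1 → at' c ∈ f → at' c' ∈ f := by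
  classical
  obtain ⟨_, ⟨H, hH, e, rfl⟩, e', h1⟩ := h.inv f hf
  refine ⟨e ∪ e', fun c c' hc hc' hcc h2 => ?_⟩
  have h3 : (((1 : GA T), Equiv.swap c c') : GA T × Equiv.Perm ((ℕ × ℕ) × ℕ)) ∈
      PA.GG (ℕ × ℕ) (GA T) := by
    intro d
    change (Equiv.swap c c' d).1 = (1 : GA T) • d.1
    rw [one_smul]
    by_cases h4 : d = c
    · rw [h4, Equiv.swap_apply_left, hcc]
    · by_cases h5 : d = c'
      · rw [h5, Equiv.swap_apply_right, hcc]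
      · rw [Equiv.swap_apply_of_ne_of_ne h4 h5]
  have h4 : ∀ d ∈ e ∪ e', Equiv.swap c c' d = d := by
    intro d hd
    refine Equiv.swap_apply_of_ne_of_ne ?_ ?_
    · rintro rfl
      exact hc hd
    · rintro rfl
      exact hc' hd
  have h5 := (h1 ⟨_, h3⟩ ⟨H.one_mem, fun d hd => h4 d (Finset.mem_union_left _ hd)⟩
    (fun d hd => h4 d (Finset.mem_union_right _ hd)) (nat 0) (.nat 0) _ ud_mem3).1 c h2
  have h6 : ((⟨_, h3⟩ : PA.GG (ℕ × ℕ) (GA T)) • c : (ℕ × ℕ) × ℕ) = c' :=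
    Equiv.swap_apply_left c c'
  rw [h6] at h5
  exact h5

/-- Elements of the model do not distinguish lines. -/
theorem lines_support {f : ZFSet.{0}} (hf : f ∈ M) : ∃ (E : Finset (ℕ × ℕ)) (I : Finset ℕ),
    ∀ x y, x ∉ E → y ∉ E → (∀ i ∈ I, (x ∈ T i ↔ y ∈ T i)) → ∀ r, Cd r →
    ∀ Q : Set ZFSet.{0} → (Fin 3 → ZFSet.{0}) → Prop, UD Q →
      Q M ![f, st (cyl {x}), r] → Q M ![f, st (cyl {y}), r] := by
  classical
  obtain ⟨_, ⟨_, ⟨E, I, rfl⟩, e, rfl⟩, e', h1⟩ := h.inv f hf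
  refine ⟨E ∪ (e ∪ e').image Prod.fst, I, fun x y hx hy hxy r hr Q hQ hq => ?_⟩
  obtain ⟨γ, hγ, h2⟩ := exists_swap hx hy hxy
  obtain ⟨g, hg1, hg2⟩ := exists_gg_fix γ (e ∪ e') fun c hc =>
    hγ.1 c.1 (Finset.mem_union_right _ (Finset.mem_image_of_mem _ hc))
  have h3 := (h1 g ⟨by
      rw [hg1]
      exact ⟨fun z hz => hγ.1 z (Finset.mem_union_left _ hz), hγ.2⟩,
    fun c hc => hg2 c (Finset.mem_union_left _ hc)⟩
    (fun c hc => hg2 c (Finset.mem_union_right _ hc)) r hr Q hQ).2 (cyl {x})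
    (Or.inr ⟨x, rfl⟩) hq
  rw [im'_cyl, hg1, im'_single, h2] at h3
  exact h3

end LinM

/-! ### Finite intersections with lines -/

/-- The intersection of `P` and `l` is the image of a natural number. -/
def FinI (M : Set ZFSet.{0}) (P l : ZFSet.{0}) : Prop :=
  ∃ n ∈ ZFSet.omega, ∃ g ∈ M, (∀ m ∈ M, ∀ a ∈ M, ∀ b ∈ M, pair m a ∈ g → pair m b ∈ g → a = b) ∧
    ∀ a ∈ l, a ∈ P → ∃ m ∈ n, pair m a ∈ g

theorem finI_iff {M : Set ZFSet.{0}} (hM : IsZF M) {P l : ZFSet.{0}} (hP : P ∈ M) (hl : l ∈ M) :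
    FinI M P l ↔ {z | z ∈ l ∧ z ∈ P}.Finite := by
  constructor
  · rintro ⟨n, hn, g, hg, h1, h2⟩
    obtain ⟨n, rfl⟩ := mem_omega_iff.1 hn
    refine Set.Finite.subset (Set.Finite.biUnion (Set.finite_Iio n)
      (t := fun m => {a | a ∈ M ∧ pair (nat m) a ∈ g}) fun m _ => ?_) fun a ha => ?_
    · exact Set.Subsingleton.finite fun a ha b hb =>
        h1 _ (hM.nat_mem m) a ha.1 b hb.1 ha.2 hb.2
    · obtain ⟨m, hm, h3⟩ := h2 a ha.1 ha.2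
      obtain ⟨m, hm2, rfl⟩ := mem_nat_iff.1 hm
      exact Set.mem_biUnion (Set.mem_Iio.2 hm2) ⟨hM.trans _ hl _ ha.1, h3⟩
  · intro hf
    obtain ⟨c, hc, hc'⟩ := exists_fin_mem hM hf.toFinset fun z hz =>
      hM.trans _ hl _ (hf.mem_toFinset.1 hz).1
    have h1 : {z | z ∈ c}.Finite := hf.subset fun z hz => hf.mem_toFinset.1 ((hc' z).1 hz)
    obtain ⟨n, hn, g, hg, h2⟩ := (finite_iff hM hc).1 h1
    refine ⟨n, hn, g, hg, fun m _ a _ b _ h3 h4 => ?_, fun a hal haP => ?_⟩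
    · exact (h2.1.1.2 m (ZFSet.pair_mem_prod.1 (h2.1.1.1 h3)).1).unique h3 h4
    · obtain ⟨m, hm, h3⟩ := h2.2 a ((hc' a).2 (hf.mem_toFinset.2 ⟨hal, haP⟩))
      exact ⟨m, hm, h3⟩

/-- Some member of the family with index `v 2` has an infinite intersection with the line. -/
theorem ud_line : UD fun M (v : Fin 3 → ZFSet.{0}) => ∃ W ∈ M, pair (v 2) W ∈ v 0 ∧ ∃ P ∈ W,
    ¬ ∃ n ∈ ZFSet.omega, ∃ g ∈ M, (∀ m ∈ M, ∀ a ∈ M, ∀ b ∈ M, pair m a ∈ g → pair m b ∈ g →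
      a = b) ∧ ∀ a ∈ v 1, a ∈ P → ∃ m ∈ n, pair m a ∈ g := by
  (repeat' first
    | assumption
    | exact UF.proj _
    | exact UF.om
    | exact UD.prop _
    | apply UD.not | apply UD.and | apply UD.or | apply UD.imp | apply UD.iff
    | apply UD.bex | apply UD.ball | apply UD.ex | apply UD.all
    | apply UD.eq | apply UD.mem | apply UF.pair)

end Pool.Agent.Q211.AM
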