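import Pool.Agent.Q211.AM.Lin

/-!
# A filterbase infinite set that is strongly filterbase finite
-/

set_option autoImplicit false
set_option linter.unusedSectionVars false
set_option linter.unreachableTactic false
set_option linter.unusedTactic false

namespace Pool.Agent.Q211.AM

open Pool.Agent.W868 Pool.Agent.W868.PName Pool.Agent.Q211.SY Pool.Agent.Q211.FS
open Pool.Agent.Q211.PA Pool.Agent.Q211.TP
open ZFSet (pair)

/-- The set of all indices of lines, and the columns. -/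
def LT (m : ℕ) : Set (ℕ × ℕ) := if m = 0 then Set.univ else {y | y.1 + 1 = m}

theorem LT_zero : LT 0 = Set.univ := if_pos rfl

theorem LT_succ (n : ℕ) : LT (n + 1) = {y | y.1 = n} := by
  unfold LT
  rw [if_neg (Nat.succ_ne_zero n)]
  ext y
  simp

theorem cyl_univ : (cyl Set.univ : Set ((ℕ × ℕ) × ℕ)) = Set.univ := by
  ext c
  simp [cyl]

theorem univ_DL : Set.univ ∈ DL LT :=
  Or.inl ⟨Set.univ, ⟨0, by rw [LT_zero]; exact AE.refl _⟩, cyl_univ.symm⟩

theorem inter_mem' {M : Set ZFSet.{0}} (hM : IsZF M) {U V : ZFSet.{0}} (hU : U ∈ M)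
    (hV : V ∈ M) : U ∩ V ∈ M := by
  have h8 : U ∩ V = ZFSet.sep (fun z => z ∈ V) U := by
    ext z
    rw [ZFSet.mem_inter, ZFSet.mem_sep]
  rw [h8]
  exact hM.sep_mem (Q := fun z => z ∈ V) (Dfn.mem (DfnF.proj 0) (DfnF.const hV)) hU

theorem sdiff_mem' {M : Set ZFSet.{0}} (hM : IsZF M) {U V : ZFSet.{0}} (hU : U ∈ M)
    (hV : V ∈ M) : U \ V ∈ M := by
  have h8 : U \ V = ZFSet.sep (fun z => z ∉ V) U := by
    ext z
    rw [ZFSet.mem_sdiff, ZFSet.mem_sep]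
  rw [h8]
  exact hM.sep_mem (Q := fun z => z ∉ V)
    (Dfn.not (Dfn.mem (DfnF.proj 0) (DfnF.const hV))) hU

section

variable {M : Set ZFSet.{0}} {at' : (ℕ × ℕ) × ℕ → ZFSet.{0}}
    {st : Set ((ℕ × ℕ) × ℕ) → ZFSet.{0}} (h : LinM LT M at' st)

include h

/-- The set of the atoms is filterbase infinite. -/
theorem fbInf : FbInf M (st Set.univ) := by
  classical
  have hM := h.zf
  have hB := hM.base
  have hom : ZFSet.omega ∈ M := hM.infinity
  have hu := univ_DL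
  have hAM := h.stM _ hu
  have hPM := PM_mem hM hAM
  obtain ⟨F, hFM, hF⟩ := h.rl 0
  have hDL : ∀ {n D}, AE D (LT n) → cyl D ∈ DL LT := fun {n} {D} hD => Or.inl ⟨D, ⟨n, hD⟩, rfl⟩
  have hmF : ∀ n : ℕ, ∀ S, pair (nat n) S ∈ F ↔ ∃ D, AE D (LT n) ∧ S = st (cyl D) := by
    intro n S
    rw [hF]
    constructor
    · rintro ⟨m, C, -, ⟨D, rfl, hD⟩, h1⟩
      obtain ⟨h2, h3⟩ := ZFSet.pair_inj.1 h1
      rw [nat_injective h2]
      exact ⟨D, hD, h3⟩
    · rintro ⟨D, hD, rfl⟩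
      exact ⟨n, cyl D, hDL hD, ⟨D, rfl, hD⟩, rfl⟩
  have hst : ∀ {n D}, AE D (LT n) → st (cyl D) ∈ PM M (st Set.univ) := by
    intro n D hD
    refine mem_PM.2 ⟨h.stM _ (hDL hD), fun z hz => ?_⟩
    obtain ⟨x, rfl⟩ := LinM.atoms h (hDL hD) z hz
    exact (LinM.mem_st h hu).2 trivial
  obtain ⟨V, hV⟩ : ∃ V : ℕ → ZFSet.{0}, ∀ n, V n =
      ZFSet.sep (fun S => pair (insert (nat n) (nat n)) S ∈ F) (PM M (st Set.univ)) :=
    ⟨_, fun _ => rfl⟩
  have hmV : ∀ n S, S ∈ V n ↔ ∃ D, AE D {y : ℕ × ℕ | y.1 = n} ∧ S = st (cyl D) := by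
    intro n S
    have h1 : insert (nat n) (nat n) = nat (n + 1) := rfl
    rw [hV, ZFSet.mem_sep, h1, hmF, LT_succ]
    constructor
    · exact fun h1 => h1.2
    · rintro ⟨D, hD, rfl⟩
      refine ⟨hst (n := n + 1) ?_, D, hD, rfl⟩
      rw [LT_succ]
      exact hD
  have hDL' : ∀ {n D}, AE D {y : ℕ × ℕ | y.1 = n} → cyl D ∈ DL LT := fun {n} {D} hD =>
    hDL (n := n + 1) (by rw [LT_succ]; exact hD)
  have hVM : ∀ n, V n ∈ PM M (PM M (st Set.univ)) := by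
    intro n
    refine mem_PM.2 ⟨?_, fun z hz => ?_⟩
    · rw [hV]
      have hn := hM.nat_mem n
      generalize nat n = a at hn
      refine hM.sep_mem (Q := fun S => pair (insert a a) S ∈ F) ?_ hPM
      (repeat' first
        | assumption
        | exact DfnF.proj _
        | exact DfnF.const (by assumption)
        | exact DfnF.const' (by first | assumption | trivial) (by first | assumption | trivial)
        | exact Dfn.prop _
        | apply hB.isFunc' | apply hB.isInj' | apply hB.isBij' | apply hB.isOrdinal'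
        | apply hB.subset' | apply hB.pair' | apply hB.insert'
        | apply Dfn.not | apply Dfn.and | apply Dfn.or | apply Dfn.imp | apply Dfn.iff
        | apply hB.bex | apply hB.ball | apply Dfn.ex | apply Dfn.all
        | apply Dfn.eq | apply Dfn.mem)
    · rw [hV] at hz
      exact (ZFSet.mem_sep.1 hz).1
  refine ⟨ZFSet.sep (fun q => ∃ a ∈ ZFSet.omega, ∃ W ∈ PM M (PM M (st Set.univ)),
    q = pair a W ∧ ∀ S ∈ PM M (st Set.univ), (S ∈ W ↔ pair (insert a a) S ∈ F))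
    (ZFSet.prod ZFSet.omega (PM M (PM M (st Set.univ)))), ?_, V, fun q => ?_,
    fun n => ⟨⟨?_, fun U hU => ?_, fun U hU W hW => ?_⟩, ?_⟩, fun n m hnm => ?_⟩
  · have hPP := PM_mem hM hPM
    have hpr := hM.prod_mem hom hPP
    generalize PM M (PM M (st Set.univ)) = P2 at hPP hpr
    generalize PM M (st Set.univ) = P1 at hPM
    refine hM.sep_mem (Q := fun q => ∃ a ∈ ZFSet.omega, ∃ W ∈ P2, q = pair a W ∧ ∀ S ∈ P1,
      (S ∈ W ↔ pair (insert a a) S ∈ F)) ?_ hpr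
    (repeat' first
      | assumption
      | exact DfnF.proj _
      | exact DfnF.const (by assumption)
      | exact DfnF.const' (by first | assumption | trivial) (by first | assumption | trivial)
      | exact Dfn.prop _
      | apply hB.isFunc' | apply hB.isInj' | apply hB.isBij' | apply hB.isOrdinal'
      | apply hB.subset' | apply hB.pair' | apply hB.insert'
      | apply Dfn.not | apply Dfn.and | apply Dfn.or | apply Dfn.imp | apply Dfn.iff
      | apply hB.bex | apply hB.ball | apply Dfn.ex | apply Dfn.all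
      | apply Dfn.eq | apply Dfn.mem)
  · rw [ZFSet.mem_sep]
    constructor
    · rintro ⟨-, a, ha, W, hW, rfl, h1⟩
      obtain ⟨n, rfl⟩ := mem_omega_iff.1 ha
      refine ⟨n, ?_⟩
      have h2 : W = V n := by
        ext S
        rw [hV, ZFSet.mem_sep]
        constructor
        · intro hS
          have h3 := (mem_PM.1 hW).2 hS
          exact ⟨h3, (h1 S h3).1 hS⟩
        · rintro ⟨h3, h4⟩
          exact (h1 S h3).2 h4
      rw [h2]
    · rintro ⟨n, rfl⟩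
      have h1 : nat n ∈ ZFSet.omega := mem_omega_iff.2 ⟨n, rfl⟩
      refine ⟨ZFSet.pair_mem_prod.2 ⟨h1, hVM n⟩, _, h1, _, hVM n, rfl, fun S hS => ?_⟩
      rw [hV, ZFSet.mem_sep]
      exact ⟨fun h2 => h2.2, fun h2 => ⟨hS, h2⟩⟩
  · exact ⟨_, (hmV n _).2 ⟨_, AE.refl _, rfl⟩⟩
  · obtain ⟨D, hD, rfl⟩ := (hmV n U).1 hU
    refine ⟨fun z hz => ?_, ?_⟩
    · obtain ⟨x, rfl⟩ := LinM.atoms h (hDL' hD) z hz
      exact (LinM.mem_st h hu).2 trivial
    · have hinf : D.Infinite := fun hf => col_infinite n (hD.symm.finite hf)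
      obtain ⟨y, hy⟩ := hinf.nonempty
      exact ⟨at' (y, 0), (LinM.mem_st h (hDL' hD)).2 hy⟩
  · obtain ⟨D, hD, rfl⟩ := (hmV n U).1 hU
    obtain ⟨D', hD', rfl⟩ := (hmV n W).1 hW
    have h1 : AE (D ∩ D') {y : ℕ × ℕ | y.1 = n} := by
      have h2 := hD.inter hD'
      rwa [Set.inter_self] at h2
    refine ⟨_, (hmV n _).2 ⟨D ∩ D', h1, rfl⟩, fun z hz => ?_⟩
    obtain ⟨x, rfl⟩ := LinM.atoms h (hDL' h1) z hz
    rw [LinM.mem_st h (hDL' h1)] at hz
    rw [ZFSet.mem_inter, LinM.mem_st h (hDL' hD), LinM.mem_st h (hDL' hD')]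
    exact hz
  · rintro ⟨x, hx⟩
    obtain ⟨c, rfl⟩ := LinM.atoms h (hDL' (AE.refl _)) x (hx _ ((hmV n _).2 ⟨_, AE.refl _, rfl⟩))
    have h1 : AE ({y : ℕ × ℕ | y.1 = n} \ {c.1}) {y : ℕ × ℕ | y.1 = n} := by
      refine (Set.finite_singleton c.1).subset fun y hy => ?_
      by_contra h2
      exact hy ⟨fun h3 => h3.1, fun h3 => ⟨h3, h2⟩⟩
    have h2 := hx _ ((hmV n _).2 ⟨_, h1, rfl⟩)
    rw [LinM.mem_st h (hDL' h1)] at h2
    exact h2.2 rfl
  · refine ⟨_, (hmV n _).2 ⟨_, AE.refl _, rfl⟩, _, (hmV m _).2 ⟨_, AE.refl _, rfl⟩,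
      fun x hx hx' => ?_⟩
    obtain ⟨c, rfl⟩ := LinM.atoms h (hDL' (AE.refl _)) x hx
    rw [LinM.mem_st h (hDL' (AE.refl _))] at hx
    rw [LinM.mem_st h (hDL' (AE.refl _))] at hx'
    have h1 : c.1.1 = n := hx
    have h2 : c.1.1 = m := hx'
    exact hnm (h1.symm.trans h2)

/-- The set of the atoms is not strongly filterbase infinite. -/
theorem not_strong : ¬ StrongInf M (st Set.univ) := by
  classical
  rintro ⟨F, hFM, V, hF, hV, hdis, -⟩
  have hM := h.zf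
  have hu := univ_DL
  have hAM := h.stM _ hu
  obtain ⟨E, I, hEI⟩ := LinM.lines_support h hFM
  have hVM : ∀ i, V i ∈ M := fun i =>
    (hM.of_pair_mem (hM.trans _ hFM _ ((hF _).2 ⟨i, rfl⟩))).2
  have hlM : ∀ y, st (cyl {y}) ∈ M := fun y => h.stM _ (Or.inr ⟨y, rfl⟩)
  have hml : ∀ y c, at' c ∈ st (cyl {y}) ↔ c.1 = y := fun y c =>
    LinM.mem_st h (Or.inr ⟨y, rfl⟩)
  let Q : ℕ → ℕ × ℕ → Prop := fun i y => ∃ P ∈ V i, {z | z ∈ st (cyl {y}) ∧ z ∈ P}.Infinite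
  have hQ : ∀ i y, Q i y ↔ ∃ W ∈ M, pair (nat i) W ∈ F ∧ ∃ P ∈ W, ¬ FinI M P (st (cyl {y})) := by
    intro i y
    constructor
    · rintro ⟨P, hP, h1⟩
      refine ⟨V i, hVM i, (hF _).2 ⟨i, rfl⟩, P, hP, ?_⟩
      rw [finI_iff hM (hM.trans _ (hVM i) _ hP) (hlM y)]
      exact h1
    · rintro ⟨W, hW, h1, P, hP, h2⟩
      obtain ⟨j, hj⟩ := (hF _).1 h1
      obtain ⟨h3, rfl⟩ := ZFSet.pair_inj.1 hj
      have h4 := nat_injective h3
      subst h4
      refine ⟨P, hP, ?_⟩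
      rw [finI_iff hM (hM.trans _ (hVM i) _ hP) (hlM y)] at h2
      exact h2
  have hinv : ∀ i x y, x ∉ E → y ∉ E → (∀ j ∈ I, (x ∈ LT j ↔ y ∈ LT j)) → Q i x → Q i y := by
    intro i x y hx hy hxy hq
    rw [hQ] at hq ⊢
    exact hEI x y hx hy hxy (nat i) (.nat i) _ ud_line hq
  let φ : ℕ → Set (↥E ⊕ (↥I → Prop)) := fun n => {v | (∃ x : ↥E, v = Sum.inl x ∧ Q n x.1) ∨
    ∃ x, x ∉ E ∧ v = Sum.inr (fun i : ↥I => x ∈ LT i.1) ∧ Q n x}
  have hφ : ∀ n m, φ n = φ m → ∀ x, Q n x → Q m x := by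
    intro n m hnm x hz
    by_cases hx : x ∈ E
    · have h2 : (Sum.inl ⟨x, hx⟩ : ↥E ⊕ (↥I → Prop)) ∈ φ n := Or.inl ⟨⟨x, hx⟩, rfl, hz⟩
      rw [hnm] at h2
      rcases h2 with ⟨y, h3, h4⟩ | ⟨y, -, h3, -⟩
      · have h5 := Sum.inl.inj h3
        rw [← h5] at h4
        exact h4
      · exact absurd h3 (by simp)
    · have h2 : (Sum.inr (fun i : ↥I => x ∈ LT i.1) : ↥E ⊕ (↥I → Prop)) ∈ φ n :=
        Or.inr ⟨x, hx, rfl, hz⟩
      rw [hnm] at h2
      rcases h2 with ⟨y, h3, h4⟩ | ⟨y, hy, h3, h4⟩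
      · exact absurd h3 (by simp)
      · have h5 := Sum.inr.inj h3
        refine hinv m y x hy hx (fun i hi => ?_) h4
        have h6 := congrFun h5 ⟨i, hi⟩
        exact (iff_of_eq h6).symm
  obtain ⟨i, j, hne, hij⟩ := Finite.exists_ne_map_eq_of_infinite φ
  obtain ⟨P, hP⟩ := (hV i).ne
  have hPM : P ∈ M := hM.trans _ (hVM i) _ hP
  obtain ⟨e, he⟩ := LinM.line_support h hPM
  have hPA : ∀ z ∈ P, ∃ c, z = at' c := fun z hz =>
    LinM.atoms h hu z (((hV i).sub P hP).1 hz)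
  -- a line with an infinite intersection
  obtain ⟨y, hy⟩ : ∃ y, {z | z ∈ st (cyl {y}) ∧ z ∈ P}.Infinite := by
    by_contra hno
    push Not at hno
    refine (hV i).inf P hP (finIn_of_finite hM ?_ fun z hz => hM.trans _ hPM _ hz)
    refine (e.finite_toSet.image at').subset fun z hz => ?_
    obtain ⟨c, rfl⟩ := hPA z hz
    refine ⟨c, ?_, rfl⟩
    by_contra hc
    have h1 : ¬ {z | z ∈ st (cyl {c.1}) ∧ z ∈ P}.Infinite := fun h2 => h2 (hno c.1)
    refine h1 (Set.Infinite.mono (s := at' '' ({d | d.1 = c.1} \ ↑e)) ?_ ?_)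
    · rintro _ ⟨d, ⟨hd, hde⟩, rfl⟩
      exact ⟨(hml _ _).2 hd, he c d hc hde (show c.1 = d.1 from (show d.1 = c.1 from hd).symm) hz⟩
    · refine Set.Infinite.image h.inj.injOn (Set.Infinite.diff ?_ e.finite_toSet)
      refine Set.infinite_of_injective_forall_mem (f := fun k : ℕ => (c.1, k)) ?_ fun k => rfl
      intro a b hab
      exact (Prod.ext_iff.1 hab).2
  obtain ⟨P', hP', hy'⟩ := hφ i j hij y ⟨P, hP, hy⟩
  have hP'M : P' ∈ M := hM.trans _ (hVM j) _ hP'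
  obtain ⟨e', he'⟩ := LinM.line_support h hP'M
  have hgen : ∀ (P : ZFSet.{0}) (e : Finset ((ℕ × ℕ) × ℕ)), (∀ z ∈ P, ∃ c, z = at' c) →
      (∀ c c', c ∉ e → c' ∉ e → c.1 = c'.1 → at' c ∈ P → at' c' ∈ P) →
      {z | z ∈ st (cyl {y}) ∧ z ∈ P}.Infinite → ∀ c, c ∉ e → c.1 = y → at' c ∈ P := by
    intro P e hPA he hinf c hc hcy
    obtain ⟨z, ⟨hz1, hz2⟩, hz3⟩ := hinf.exists_notMem_finite (e.finite_toSet.image at')
    obtain ⟨d, rfl⟩ := hPA z hz2
    have hde : d ∉ e := fun h1 => hz3 ⟨d, h1, rfl⟩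
    exact he d c hde hc (((hml _ _).1 hz1).trans hcy.symm) hz2
  have hP'A : ∀ z ∈ P', ∃ c, z = at' c := fun z hz =>
    LinM.atoms h hu z (((hV j).sub P' hP').1 hz)
  have hinf : {z | z ∈ P ∧ z ∈ P'}.Infinite := by
    refine Set.Infinite.mono (s := at' '' ({d | d.1 = y} \ ↑(e ∪ e'))) ?_ ?_
    · rintro _ ⟨d, ⟨hd, hde⟩, rfl⟩
      rw [Finset.mem_coe, Finset.mem_union, not_or] at hde
      exact ⟨hgen P e hPA he hy d hde.1 hd, hgen P' e' hP'A he' hy' d hde.2 hd⟩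
    · refine Set.Infinite.image h.inj.injOn (Set.Infinite.diff ?_ (e ∪ e').finite_toSet)
      refine Set.infinite_of_injective_forall_mem (f := fun k : ℕ => (y, k)) ?_ fun k => rfl
      intro a b hab
      exact (Prod.ext_iff.1 hab).2
  obtain ⟨U, hU, W, hW, h1⟩ := hdis i j hne
  have hUM : U ∈ M := hM.trans _ (hVM i) _ hU
  have hWM : W ∈ M := hM.trans _ (hVM j) _ hW
  have h2 := (finite_iff hM (inter_mem' hM hUM hWM)).2 h1
  have h3 := (finite_iff hM (sdiff_mem' hM hPM hUM)).2 ((hV i).fin P hP U hU)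
  have h4 := (finite_iff hM (sdiff_mem' hM hP'M hWM)).2 ((hV j).fin P' hP' W hW)
  refine hinf (((h2.union h3).union h4).subset fun z hz => ?_)
  by_cases h5 : z ∈ U
  · by_cases h6 : z ∈ W
    · exact Or.inl (Or.inl (ZFSet.mem_inter.2 ⟨h5, h6⟩))
    · exact Or.inr (ZFSet.mem_sdiff.2 ⟨hz.2, h6⟩)
  · exact Or.inl (Or.inr (ZFSet.mem_sdiff.2 ⟨hz.1, h5⟩))

end

end Pool.Agent.Q211.AM
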