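import Pool.Agent.Q211.AM.Mod

/-!
# Symmetric models of permutation type with atoms, sets of atoms and families of sets of atoms

The same as before, with a third level, and with the invariance for tuples of objects.
-/

set_option autoImplicit false
set_option linter.unusedSectionVars false
set_option linter.unreachableTactic false
set_option linter.unusedTactic false

namespace Pool.Agent.Q211.AM

open Pool.Agent.W868 Pool.Agent.W868.PName Pool.Agent.Q211.SY Pool.Agent.Q211.FS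
open Pool.Agent.Q211.PA Pool.Agent.Q211.TP
open ZFSet (pair)

variable {X : Type} {Γ : Type} [Group Γ] [MulAction Γ X] {N : NFil Γ}

/-- The image of a family of sets of points. -/
def imF (γ : Γ) (φ : Set (Set X)) : Set (Set X) := {D | im' γ⁻¹ D ∈ φ}

theorem mem_imF {γ : Γ} {φ : Set (Set X)} {D : Set X} : D ∈ imF γ φ ↔ im' γ⁻¹ D ∈ φ := Iff.rfl

theorem im'_inv' (γ : Γ) (D : Set X) : im' γ (im' γ⁻¹ D) = D := by
  have h := im'_inv γ⁻¹ D
  rwa [inv_inv] at h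

theorem im'_mem_imF {γ : Γ} {φ : Set (Set X)} {D : Set X} : im' γ D ∈ imF γ φ ↔ D ∈ φ := by
  rw [mem_imF, im'_inv]

/-- The name of the family. -/
noncomputable def setF (φ : Set (Set X)) : PName (PX X) := mkN {D // D ∈ φ} fun D => setN D.1

theorem ax_setF (g : PA.GG X Γ) (φ : Set (Set X)) :
    Eqv (axg g (setF φ)) (setF (imF g.1.1 φ)) := by
  unfold axg setF
  rw [act_mkN]
  refine eqv_mkN (fun i => ⟨⟨im' g.1.1 i.1, im'_mem_imF.2 i.2⟩, ax_setN g i.1⟩)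
    fun j => ⟨⟨im' g.1.1⁻¹ j.1, j.2⟩, ?_⟩
  have h := ax_setN g (im' g.1.1⁻¹ j.1)
  rwa [im'_inv'] at h

theorem fx_setF {φ : Set (Set X)} {H : Subgroup Γ} (h : ∀ g ∈ H, imF g φ = φ)
    (e : Finset (X × ℕ)) : FxX H e (setF φ) := by
  intro g hg _
  have h1 := ax_setF g φ
  rwa [h _ hg] at h1

theorem im'_one (D : Set X) : im' (1 : Γ) D = D := by
  ext x
  rw [mem_im', inv_one, one_smul]

theorem imF_one (φ : Set (Set X)) : imF (1 : Γ) φ = φ := by
  ext D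
  rw [mem_imF, inv_one, im'_one]

theorem fxC_setF (φ : Set (Set X)) (e : Finset (X × ℕ)) : FxC Γ e (setF φ) := by
  intro σ _
  have h1 := ax_setF (emb Γ σ) φ
  have h2 : imF (emb Γ σ).1.1 φ = φ := imF_one φ
  rwa [h2] at h1

theorem hs_setF (hN : N.Pt X) {φ : Set (Set X)} (hD : ∀ D ∈ φ, ∃ H ∈ N.F, ∀ g ∈ H, im' g D = D)
    (hφ : ∃ H ∈ N.F, ∀ g ∈ H, imF g φ = φ) : (SX X N).HS (setF φ) := by
  obtain ⟨H, hH, h⟩ := hφ
  exact hs_mkN hH (fx_setF h ∅) fun i => hs_setN hN (hD _ i.2)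

/-- Objects. -/
abbrev Ob (X : Type) := X ⊕ (Set X ⊕ Set (Set X))

/-- The action on the objects. -/
def acO (γ : Γ) : Ob X → Ob X
  | .inl x => .inl (γ • x)
  | .inr (.inl D) => .inr (.inl (im' γ D))
  | .inr (.inr φ) => .inr (.inr (imF γ φ))

/-- The admissible objects. -/
def okO (𝓓 : Set (Set X)) (𝔉 : Set (Set (Set X))) : Ob X → Prop
  | .inl _ => True
  | .inr (.inl D) => D ∈ 𝓓
  | .inr (.inr φ) => φ ∈ 𝔉

/-- The values of the objects. -/
def vO (at' : X → ZFSet.{0}) (st : Set X → ZFSet.{0}) (fam : Set (Set X) → ZFSet.{0}) :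
    Ob X → ZFSet.{0}
  | .inl x => at' x
  | .inr (.inl D) => st D
  | .inr (.inr φ) => fam φ

/-- The names of the objects. -/
noncomputable def nO : Ob X → PName (PX X)
  | .inl x => An x
  | .inr (.inl D) => setN D
  | .inr (.inr φ) => setF φ

/-- The properties of the model. -/
structure PM3 (N : NFil Γ) (𝓓 : Set (Set X)) (𝔉 : Set (Set (Set X))) (cd : ℕ → ZFSet.{0})
    (Rl : ℕ → ℕ → Set X → Prop) (M : Set ZFSet.{0}) (at' : X → ZFSet.{0}) (st : Set X → ZFSet.{0})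
    (fam : Set (Set X) → ZFSet.{0}) : Prop where
  zf : IsZF M
  cnt : M.Countable
  qc : Qc ∈ M
  lq : LQ ∈ M
  inj : Function.Injective at'
  atM : ∀ x, at' x ∈ M
  mst : ∀ D ∈ 𝓓, ∀ z, z ∈ st D ↔ ∃ x ∈ D, z = at' x
  stM : ∀ D ∈ 𝓓, st D ∈ M
  mfam : ∀ φ ∈ 𝔉, ∀ z, z ∈ fam φ ↔ ∃ D ∈ φ, z = st D
  famM : ∀ φ ∈ 𝔉, fam φ ∈ M
  rl : ∀ k, ∃ F ∈ M, ∀ z, z ∈ F ↔ ∃ n : ℕ, ∃ D ∈ 𝓓, Rl k n D ∧ z = pair (cd n) (st D)
  inv : ∀ f ∈ M, ∃ H ∈ N.F, ∃ e : Finset X, ∀ γ ∈ H, (∀ x ∈ e, γ • x = x) → ∀ r, Cd r →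
    ∀ (k : ℕ) (Q : Set ZFSet.{0} → (Fin (k + 2) → ZFSet.{0}) → Prop), UD Q →
      ∀ o : Fin k → Ob X, (∀ i, okO 𝓓 𝔉 (o i)) →
      Q M (Fin.cons f (Fin.cons r fun i => vO at' st fam (o i))) →
      Q M (Fin.cons f (Fin.cons r fun i => vO at' st fam (acO γ (o i))))

theorem exists_pm3 [Countable X] (hN : N.Pt X) (𝓓 : Set (Set X)) (h𝓓 : 𝓓.Countable)
    (hinv : ∀ γ : Γ, ∀ D ∈ 𝓓, im' γ D ∈ 𝓓) (hsym : ∀ D ∈ 𝓓, ∃ H ∈ N.F, ∀ g ∈ H, im' g D = D)
    (𝔉 : Set (Set (Set X))) (h𝔉 : 𝔉.Countable) (hsub : ∀ φ ∈ 𝔉, φ ⊆ 𝓓)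
    (hinvF : ∀ γ : Γ, ∀ φ ∈ 𝔉, imF γ φ ∈ 𝔉) (hsymF : ∀ φ ∈ 𝔉, ∃ H ∈ N.F, ∀ g ∈ H, imF g φ = φ)
    (cd : ℕ → ZFSet.{0}) (hcd : ∀ n, Cd (cd n))
    (Rl : ℕ → ℕ → Set X → Prop) (hRl : ∀ k n, ∀ γ : Γ, ∀ D ∈ 𝓓, Rl k n (im' γ D) ↔ Rl k n D) :
    ∃ M at' st fam, PM3 N 𝓓 𝔉 cd Rl M at' st fam := by
  classical
  have : Countable {D // D ∈ 𝓓} := h𝓓.to_subtype
  have : Countable {φ // φ ∈ 𝔉} := h𝔉.to_subtype
  obtain ⟨π, h⟩ := exists_PX N ((Set.range (fun D : {D // D ∈ 𝓓} => (setN D.1 : PName (PX X))) ∪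
    Set.range (fun φ : {φ // φ ∈ 𝔉} => (setF φ.1 : PName (PX X)))) ∪
    Set.range fun k : ℕ => (relN (fun (n : ℕ) (D : {D // D ∈ 𝓓}) => Rl k n D.1)
      (fun n => check (cd n)) (fun D => setN D.1) : PName (PX X)))
    (((Set.countable_range _).union (Set.countable_range _)).union (Set.countable_range _))
  have hM := h.isZF
  have hat : ∀ z, Cd z → π.val (check z) = z := fun z hz => (hz.hat π).2
  have hset : ∀ D ∈ 𝓓, (setN D : PName (PX X)) ∈ π.N :=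
    fun D hD => h.sub (Or.inl (Or.inl ⟨⟨D, hD⟩, rfl⟩))
  have hfam : ∀ φ ∈ 𝔉, (setF φ : PName (PX X)) ∈ π.N :=
    fun φ hφ => h.sub (Or.inl (Or.inr ⟨⟨φ, hφ⟩, rfl⟩))
  have hnat : ∀ n, (check (cd n) : PName (PX X)) ∈ π.N := fun n => ((hcd n).hat π).1
  have hvn : ∀ n, π.val (check (cd n)) = cd n := fun n => hat _ (hcd n)
  have hsF : ∀ φ ∈ 𝔉, (SX X N).HS (setF φ) := fun φ hφ =>
    hs_setF hN (fun D hD => hsym D (hsub φ hφ hD)) (hsymF φ hφ)
  refine ⟨(SX X N).Ms π, fun x => π.val (An x), fun D => π.val (setN D),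
    fun φ => π.val (setF φ), hM, h.countable,
    h.Qc_mem, h.LQ_mem, fun x y hxy => h.An_injective hxy, fun x => h.An_mem hN x,
    fun D hD z => ?_, fun D hD => Sys.mem_Ms (hset D hD) (hs_setN hN (hsym D hD)),
    fun φ hφ z => ?_, fun φ hφ => Sys.mem_Ms (hfam φ hφ) (hsF φ hφ),
    fun k => ?_, ?_⟩
  · unfold setN
    rw [mem_mkN]
    constructor
    · rintro ⟨i, -, h1⟩
      exact ⟨i.1, i.2, h1⟩
    · rintro ⟨x, hx, h1⟩
      exact ⟨⟨x, hx⟩, h.an x, h1⟩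
  · unfold setF
    rw [mem_mkN]
    constructor
    · rintro ⟨i, -, h1⟩
      exact ⟨i.1, i.2, h1⟩
    · rintro ⟨x, hx, h1⟩
      exact ⟨⟨x, hx⟩, hset x (hsub φ hφ hx), h1⟩
  · have h1 : (relN (fun (n : ℕ) (D : {D // D ∈ 𝓓}) => Rl k n D.1)
      (fun n => check (cd n)) (fun D => setN D.1) : PName (PX X)) ∈ π.N :=
      h.sub (Or.inr ⟨k, rfl⟩)
    obtain ⟨H, hH⟩ := N.ne
    refine ⟨_, Sys.mem_Ms h1 (hs_relN hH (fun _ => Sys.hs_check _ _)
      (fun D => hs_setN hN (hsym _ D.2)) fun g _ => ⟨1, fperm hinv g.1.1, fun n => by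
        rw [ax_check]
        exact Eqv.refl _, fun D => ax_setN g D.1, fun n D => hRl k n _ _ D.2⟩), fun z => ?_⟩
    rw [mem_relN (fun n => hnat n) (fun D => hset _ D.2)]
    constructor
    · rintro ⟨n, D, h2, h3⟩
      refine ⟨n, D.1, D.2, h2, ?_⟩
      rw [h3, hvn]
    · rintro ⟨n, D, hD, h2, h3⟩
      refine ⟨n, ⟨D, hD⟩, h2, ?_⟩
      rw [h3, hvn]
  · rintro _ ⟨x, ⟨hx, hxS⟩, rfl⟩
    obtain ⟨H, hH, e, hfx⟩ := sym_iffX.1 hxS.sym
    refine ⟨H, hH, e.image Prod.fst, fun γ hγ hγe r hr k Q hQ o ho hq => ?_⟩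
    have hγe' : ∀ d ∈ e, γ • d.1 = d.1 := fun d hd => hγe d.1 (Finset.mem_image_of_mem _ hd)
    obtain ⟨g, hg1, hg2⟩ := exists_gg_fix γ e hγe'
    have s1 : ∀ o : Ob X, FxC Γ e (nO o) := by
      intro o
      rcases o with x | D | φ
      · exact fxC_An _ _
      · exact fxC_setN _ _
      · exact fxC_setF _ _
    have s2 : ∀ o : Ob X, okO 𝓓 𝔉 o → nO o ∈ π.N ∧ (SX X N).HS (nO o) := by
      intro o ho
      rcases o with x | D | φ
      · exact ⟨h.an x, hs_An hN _⟩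
      · exact ⟨hset D ho, hs_setN hN (hsym D ho)⟩
      · exact ⟨hfam φ ho, hsF φ ho⟩
    have s3 : ∀ o : Ob X, okO 𝓓 𝔉 o → okO 𝓓 𝔉 (acO γ o) := by
      intro o ho
      rcases o with x | D | φ
      · exact trivial
      · exact hinv γ D ho
      · exact hinvF γ φ ho
    have s4 : ∀ o : Ob X, Eqv (axg g (nO o)) (nO (acO γ o)) := by
      intro o
      rcases o with x | D | φ
      · have h2 := ax_An g x
        rwa [hg1] at h2
      · have h2 := ax_setN g D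
        rwa [hg1] at h2
      · have h2 := ax_setF g φ
        rwa [hg1] at h2
    have s5 : ∀ o : Ob X, π.val (nO o) = vO (fun x => π.val (An x)) (fun D => π.val (setN D))
        (fun φ => π.val (setF φ)) o := by
      intro o
      rcases o with x | D | φ <;> rfl
    let tu : (Fin k → Ob X) → Fin (k + 2) → PName (PX X) := fun o =>
      Fin.cons x (Fin.cons (check r) fun i => nO (o i))
    have t1 : ∀ i, FxC Γ e (tu o i) := by
      intro i
      refine Fin.cases hfx.fxC (fun i => Fin.cases (fxC_check _ _) (fun i => s1 _) i) i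
    have t2 : ∀ o : Fin k → Ob X, (∀ i, okO 𝓓 𝔉 (o i)) → ∀ i,
        tu o i ∈ π.N ∧ (SX X N).HS (tu o i) := by
      intro o ho i
      refine Fin.cases ⟨hx, hxS⟩ (fun i => Fin.cases ⟨(hr.hat π).1, Sys.hs_check _ _⟩
        (fun i => s2 _ (ho i)) i) i
    have t3 : ∀ i, Eqv (axg g (tu o i)) (tu (fun i => acO γ (o i)) i) := by
      intro i
      refine Fin.cases ?_ (fun i => Fin.cases ?_ (fun i => s4 _) i) i
      · exact hfx g (by rw [hg1]; exact hγ) hg2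
      · change Eqv (axg g (check r)) (check r)
        rw [ax_check]
        exact Eqv.refl _
    have t4 : ∀ o : Fin k → Ob X, π.val ∘ tu o =
        Fin.cons (π.val x) (Fin.cons r fun i => vO (fun x => π.val (An x))
          (fun D => π.val (setN D)) (fun φ => π.val (setF φ)) (o i)) := by
      intro o
      funext i
      refine Fin.cases rfl (fun i => Fin.cases ?_ (fun i => ?_) i) i
      · exact hat r hr
      · exact s5 (o i)
    have h1 := transfer (N := N) h.cl hQ t1 (t2 o ho) (t2 _ fun i => s3 _ (ho i)) g hg2 t3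
      (by rw [t4]; exact hq)
    rw [t4] at h1
    exact h1

/-- The filter of the stabilizers of the finite sets. -/
def NFin (X Γ : Type) [Group Γ] [MulAction Γ X] : NFil Γ where
  F := {H | ∃ E : Finset X, ∀ g : Γ, g ∈ H ↔ ∀ x ∈ E, g • x = x}
  ne := ⟨⊤, ∅, fun g => by simp⟩
  conj := by
    classical
    rintro H ⟨E, hE⟩ g
    refine ⟨fixingSubgroup Γ ((E.image fun x => g • x : Finset X) : Set X),
      ⟨E.image fun x => g • x, fun k => ?_⟩, fun k hk => ?_⟩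
    · rw [mem_fixingSubgroup_iff]
      rfl
    · rw [hE]
      intro x hx
      rw [mem_fixingSubgroup_iff] at hk
      have h1 : k • g • x = g • x := hk _ (Finset.mem_coe.2 (Finset.mem_image_of_mem _ hx))
      rw [mul_smul, mul_smul, h1, inv_smul_smul]
  dir := by
    classical
    rintro H ⟨E, hE⟩ K ⟨E', hE'⟩
    refine ⟨fixingSubgroup Γ ((E ∪ E' : Finset X) : Set X), ⟨E ∪ E', fun k => ?_⟩,
      fun k hk => ?_, fun k hk => ?_⟩
    · rw [mem_fixingSubgroup_iff]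
      rfl
    · rw [mem_fixingSubgroup_iff] at hk
      exact (hE k).2 fun x hx => hk x (Finset.mem_coe.2 (Finset.mem_union_left _ hx))
    · rw [mem_fixingSubgroup_iff] at hk
      exact (hE' k).2 fun x hx => hk x (Finset.mem_coe.2 (Finset.mem_union_right _ hx))

theorem pt_NFin {X Γ : Type} [Group Γ] [MulAction Γ X] : (NFin X Γ).Pt X := by
  intro x
  refine ⟨fixingSubgroup Γ ({x} : Set X), ⟨{x}, fun k => ?_⟩, fun k hk => ?_⟩
  · rw [mem_fixingSubgroup_iff]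
    simp
  · rw [mem_fixingSubgroup_iff] at hk
    exact hk x rfl

end Pool.Agent.Q211.AM
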