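import Pool.Agent.Q211.TP.Chf

/-!
# Symmetric models of permutation type with sets of atoms

A general existence theorem: given a group `Γ` that acts on a countable set `X`, a normal filter,
and a countable invariant family `𝓓` of symmetric subsets of `X`, there is a countable transitive
model of ZF that contains a set `st D` of atoms for every `D` in `𝓓`, and the given invariant
relations between natural numbers and members of `𝓓`.
-/

set_option autoImplicit false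
set_option linter.unusedSectionVars false
set_option linter.unreachableTactic false
set_option linter.unusedTactic false

namespace Pool.Agent.Q211.AM

open Pool.Agent.W868 Pool.Agent.W868.PName Pool.Agent.Q211.SY Pool.Agent.Q211.FS
open Pool.Agent.Q211.PA Pool.Agent.Q211.TP
open ZFSet (pair)

variable {X : Type} {Γ : Type} [Group Γ] [MulAction Γ X] {N : NFil Γ}

/-- The image of a set of points. -/
def im' (γ : Γ) (D : Set X) : Set X := {x | γ⁻¹ • x ∈ D}

theorem mem_im' {γ : Γ} {D : Set X} {x : X} : x ∈ im' γ D ↔ γ⁻¹ • x ∈ D := Iff.rfl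

theorem smul_mem_im' {γ : Γ} {D : Set X} {x : X} : γ • x ∈ im' γ D ↔ x ∈ D := by
  rw [mem_im', inv_smul_smul]

theorem im'_inv (γ : Γ) (D : Set X) : im' γ⁻¹ (im' γ D) = D := by
  ext x
  rw [mem_im', mem_im', inv_inv, inv_smul_smul]

/-- The name of the set of the atoms in `D`. -/
noncomputable def setN (D : Set X) : PName (PX X) := mkN {x // x ∈ D} fun x => An x.1

theorem ax_setN (g : PA.GG X Γ) (D : Set X) : Eqv (axg g (setN D)) (setN (im' g.1.1 D)) := by
  unfold axg setN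
  rw [act_mkN]
  refine eqv_mkN (fun i => ⟨⟨g.1.1 • i.1, smul_mem_im'.2 i.2⟩, ax_An g i.1⟩)
    fun j => ⟨⟨g.1.1⁻¹ • j.1, j.2⟩, ?_⟩
  have h := ax_An g (g.1.1⁻¹ • j.1)
  rwa [smul_inv_smul] at h

theorem fx_setN {D : Set X} {H : Subgroup Γ} (h : ∀ g ∈ H, im' g D = D)
    (e : Finset (X × ℕ)) : FxX H e (setN D) := by
  intro g hg _
  have h1 := ax_setN g D
  rwa [h _ hg] at h1

theorem fxC_setN (D : Set X) (e : Finset (X × ℕ)) : FxC Γ e (setN D) := by
  intro σ _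
  have h1 := ax_setN (emb Γ σ) D
  have h2 : im' (emb Γ σ).1.1 D = D := by
    ext x
    rw [mem_im']
    have h3 : ((emb Γ σ).1.1)⁻¹ = 1 := inv_one
    rw [h3, one_smul]
  rwa [h2] at h1

theorem hs_setN (hN : N.Pt X) {D : Set X} (hD : ∃ H ∈ N.F, ∀ g ∈ H, im' g D = D) :
    (SX X N).HS (setN D) := by
  obtain ⟨H, hH, h⟩ := hD
  exact hs_mkN hH (fx_setN h ∅) fun i => hs_An hN _

/-- The permutation of an invariant family of sets. -/
def fperm {𝓓 : Set (Set X)} (h : ∀ γ : Γ, ∀ D ∈ 𝓓, im' γ D ∈ 𝓓) (γ : Γ) :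
    Equiv.Perm {D // D ∈ 𝓓} where
  toFun D := ⟨im' γ D.1, h γ _ D.2⟩
  invFun D := ⟨im' γ⁻¹ D.1, h γ⁻¹ _ D.2⟩
  left_inv D := Subtype.ext (im'_inv γ D.1)
  right_inv D := Subtype.ext (by
    have h := im'_inv γ⁻¹ D.1
    rwa [inv_inv] at h)

/-- The properties of the model. -/
structure PMd (N : NFil Γ) (𝓓 : Set (Set X)) (cd : ℕ → ZFSet.{0})
    (Rl : ℕ → ℕ → Set X → Prop) (M : Set ZFSet.{0}) (at' : X → ZFSet.{0}) (st : Set X → ZFSet.{0}) : Prop where
  zf : IsZF M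
  cnt : M.Countable
  qc : Qc ∈ M
  lq : LQ ∈ M
  inj : Function.Injective at'
  atM : ∀ x, at' x ∈ M
  mst : ∀ D ∈ 𝓓, ∀ z, z ∈ st D ↔ ∃ x ∈ D, z = at' x
  stM : ∀ D ∈ 𝓓, st D ∈ M
  rl : ∀ k, ∃ F ∈ M, ∀ z, z ∈ F ↔ ∃ n : ℕ, ∃ D ∈ 𝓓, Rl k n D ∧ z = pair (cd n) (st D)
  inv : ∀ f ∈ M, ∃ H ∈ N.F, ∃ e : Finset X, ∀ γ ∈ H, (∀ x ∈ e, γ • x = x) → ∀ r, Cd r →
    ∀ Q : Set ZFSet.{0} → (Fin 3 → ZFSet.{0}) → Prop, UD Q →
      (∀ x, Q M ![f, at' x, r] → Q M ![f, at' (γ • x), r]) ∧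
      ∀ D ∈ 𝓓, Q M ![f, st D, r] → Q M ![f, st (im' γ D), r]

theorem exists_pmd [Countable X] (hN : N.Pt X) (𝓓 : Set (Set X)) (h𝓓 : 𝓓.Countable)
    (hinv : ∀ γ : Γ, ∀ D ∈ 𝓓, im' γ D ∈ 𝓓) (hsym : ∀ D ∈ 𝓓, ∃ H ∈ N.F, ∀ g ∈ H, im' g D = D)
    (cd : ℕ → ZFSet.{0}) (hcd : ∀ n, Cd (cd n))
    (Rl : ℕ → ℕ → Set X → Prop) (hRl : ∀ k n, ∀ γ : Γ, ∀ D ∈ 𝓓, Rl k n (im' γ D) ↔ Rl k n D) :
    ∃ M at' st, PMd N 𝓓 cd Rl M at' st := by
  classical
  have : Countable {D // D ∈ 𝓓} := h𝓓.to_subtype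
  obtain ⟨π, h⟩ := exists_PX N (Set.range (fun D : {D // D ∈ 𝓓} => (setN D.1 : PName (PX X))) ∪
    Set.range fun k : ℕ => (relN (fun (n : ℕ) (D : {D // D ∈ 𝓓}) => Rl k n D.1)
      (fun n => check (cd n)) (fun D => setN D.1) : PName (PX X)))
    ((Set.countable_range _).union (Set.countable_range _))
  have hM := h.isZF
  have hat : ∀ z, Cd z → π.val (check z) = z := fun z hz => (hz.hat π).2
  have hset : ∀ D ∈ 𝓓, (setN D : PName (PX X)) ∈ π.N := fun D hD => h.sub (Or.inl ⟨⟨D, hD⟩, rfl⟩)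
  have hnat : ∀ n, (check (cd n) : PName (PX X)) ∈ π.N := fun n => ((hcd n).hat π).1
  have hvn : ∀ n, π.val (check (cd n)) = cd n := fun n => hat _ (hcd n)
  refine ⟨(SX X N).Ms π, fun x => π.val (An x), fun D => π.val (setN D), hM, h.countable,
    h.Qc_mem, h.LQ_mem, fun x y hxy => h.An_injective hxy, fun x => h.An_mem hN x,
    fun D hD z => ?_, fun D hD => Sys.mem_Ms (hset D hD) (hs_setN hN (hsym D hD)),
    fun k => ?_, ?_⟩
  · unfold setN
    rw [mem_mkN]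
    constructor
    · rintro ⟨i, -, h1⟩
      exact ⟨i.1, i.2, h1⟩
    · rintro ⟨x, hx, h1⟩
      exact ⟨⟨x, hx⟩, h.an x, h1⟩
  · have h1 : (relN (fun (n : ℕ) (D : {D // D ∈ 𝓓}) => Rl k n D.1)
      (fun n => check (cd n)) (fun D => setN D.1) : PName (PX X)) ∈ π.N :=
      h.sub (Or.inr ⟨k, rfl⟩)
    obtain ⟨H, hH⟩ := N.ne
    refine ⟨_, Sys.mem_Ms h1 (hs_relN hH (fun _ => Sys.hs_check _ _)
      (fun D => hs_setN hN (hsym _ D.2)) fun g _ => ⟨1, fperm hinv g.1.1, fun n => by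
        rw [ax_check]
        exact Eqv.refl _, fun D => ax_setN g D.1, fun n D => hRl k n _ _ D.2⟩), fun z => ?_⟩
    rw [mem_relN (fun n => hnat n) (fun D => hset _ D.2)]
    constructor
    · rintro ⟨n, D, h2, h3⟩
      refine ⟨n, D.1, D.2, h2, ?_⟩
      rw [h3, hvn]
    · rintro ⟨n, D, hD, h2, h3⟩
      refine ⟨n, ⟨D, hD⟩, h2, ?_⟩
      rw [h3, hvn]
  · rintro _ ⟨x, ⟨hx, hxS⟩, rfl⟩
    obtain ⟨H, hH, e, hfx⟩ := sym_iffX.1 hxS.sym
    refine ⟨H, hH, e.image Prod.fst, fun γ hγ hγe r hr Q hQ => ?_⟩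
    have hγe' : ∀ d ∈ e, γ • d.1 = d.1 := fun d hd => hγe d.1 (Finset.mem_image_of_mem _ hd)
    obtain ⟨g, hg1, hg2⟩ := exists_gg_fix γ e hγe'
    -- the general step
    have key : ∀ y y' : PName (PX X), FxC Γ e y → y ∈ π.N → y' ∈ π.N → (SX X N).HS y →
        (SX X N).HS y' → Eqv (axg g y) y' → Q ((SX X N).Ms π) ![π.val x, π.val y, r] →
        Q ((SX X N).Ms π) ![π.val x, π.val y', r] := by
      intro y y' hy1 hy2 hy3 hy4 hy5 hy6 hq
      have t1 : ∀ i, FxC Γ e ((![x, y, check r] : Fin 3 → PName (PX X)) i) := by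
        intro i
        refine Fin.cases hfx.fxC (fun i => Fin.cases hy1 (fun i => Fin.cases
          (fxC_check _ _) (fun i => i.elim0) i) i) i
      have t2 : ∀ y : PName (PX X), y ∈ π.N → (SX X N).HS y → ∀ i,
          (![x, y, check r] : Fin 3 → PName (PX X)) i ∈ π.N ∧
          (SX X N).HS ((![x, y, check r] : Fin 3 → PName (PX X)) i) := by
        intro y h1 h2 i
        refine Fin.cases ⟨hx, hxS⟩ (fun i => Fin.cases ⟨h1, h2⟩ (fun i =>
          Fin.cases ⟨(hr.hat π).1, Sys.hs_check _ _⟩ (fun i => i.elim0) i) i) i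
      have t3 : ∀ i, Eqv (axg g ((![x, y, check r] : Fin 3 → PName (PX X)) i))
          ((![x, y', check r] : Fin 3 → PName (PX X)) i) := by
        intro i
        refine Fin.cases ?_ (fun i => Fin.cases ?_ (fun i => Fin.cases ?_ (fun i => i.elim0) i)
          i) i
        · exact hfx g (by rw [hg1]; exact hγ) hg2
        · exact hy6
        · change Eqv (axg g (check r)) (check r)
          rw [ax_check]
          exact Eqv.refl _
      have t4 : ∀ y : PName (PX X), (π.val ∘ (![x, y, check r] : Fin 3 → PName (PX X))) =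
          ![π.val x, π.val y, r] := by
        intro y
        funext i
        refine Fin.cases rfl (fun i => Fin.cases rfl (fun i => Fin.cases ?_ (fun i => i.elim0) i)
          i) i
        exact hat r hr
      have h1 := transfer (N := N) h.cl hQ t1 (t2 y hy2 hy4) (t2 y' hy3 hy5) g hg2 t3
        (by rw [t4]; exact hq)
      rw [t4] at h1
      exact h1
    constructor
    · intro a
      refine key (An a) (An (γ • a)) (fxC_An _ _) (h.an _) (h.an _) (hs_An hN _) (hs_An hN _) ?_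
      have h2 := ax_An g a
      rwa [hg1] at h2
    · intro D hD
      refine key (setN D) (setN (im' γ D)) (fxC_setN _ _) (hset _ hD) (hset _ (hinv γ D hD))
        (hs_setN hN (hsym D hD)) (hs_setN hN (hsym _ (hinv γ D hD))) ?_
      have h2 := ax_setN g D
      rwa [hg1] at h2

end Pool.Agent.Q211.AM
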