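import Pool.Agent.Q211.AM.Dya

/-!
# Remainders of discrete spaces: a convergent sequence
-/

set_option autoImplicit false
set_option linter.unusedSectionVars false
set_option linter.unreachableTactic false
set_option linter.unusedTactic false

namespace Pool.Agent.Q211.AM

open Pool.Agent.W868 Pool.Agent.W868.PName Pool.Agent.Q211.SY Pool.Agent.Q211.FS
open Pool.Agent.Q211.PA Pool.Agent.Q211.TP
open ZFSet (pair)

/-- In `M`, the space `(K, κ)` is a remainder of the discrete space with the set of points `A`: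
there are a compact Hausdorff space `(Y, τ)` and an injection `i` from `A` to `Y` such that the
range `B` of `i` is a dense and discrete subspace, and the subspace `Y \ B` is homeomorphic
to `(K, κ)`. -/
def RemIn (M : Set ZFSet.{0}) (A K κ : ZFSet.{0}) : Prop :=
  ∃ Y ∈ M, ∃ τ ∈ M, ∃ i ∈ M, ∃ B ∈ M, ∃ h ∈ M, IsTopIn M Y τ ∧ CompactIn M Y τ ∧
    (∀ a ∈ Y, ∀ b ∈ Y, a ≠ b → ∃ V ∈ τ, ∃ W ∈ τ, a ∈ V ∧ b ∈ W ∧ ∀ c ∈ V, c ∉ W) ∧
    IsInj A Y i ∧ (∀ y, y ∈ B ↔ ∃ a ∈ A, pair a y ∈ i) ∧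
    (∀ S ∈ M, S ⊆ B → S ∈ subTop τ B) ∧ (∀ U ∈ τ, (∃ y, y ∈ U) → ∃ y ∈ U, y ∈ B) ∧
    IsHomeo (Y \ B) (subTop τ (Y \ B)) K κ h

/-- In `M`, the space `(K, κ)` is the ordinal `ω + 1` with the order topology. -/
def IsOm1 (M : Set ZFSet.{0}) (K κ : ZFSet.{0}) : Prop :=
  (∀ z, z ∈ K ↔ z ∈ ZFSet.omega ∨ z = ZFSet.omega) ∧
    ∀ U, U ∈ κ ↔ U ∈ M ∧ U ⊆ K ∧
      (ZFSet.omega ∈ U → ∃ n ∈ ZFSet.omega, ∀ m ∈ ZFSet.omega, m ∉ n → m ∈ U)

/-- In `M`, the space `(N, ν)` is the Cantor cube `2 ^ ω`. -/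
def IsCube (M : Set ZFSet.{0}) (N ν : ZFSet.{0}) : Prop :=
  (∀ g, g ∈ N ↔ g ∈ M ∧ ZFSet.IsFunc ZFSet.omega (nat 2) g) ∧
    IsPowTop M (PM M (nat 2)) ZFSet.omega N ν

/-! ### The columns -/

/-- The columns, the sets of the first columns, and the set of all atoms. -/
def CT (m : ℕ) : Set (ℕ × ℕ) :=
  if m.unpair.1 = 0 then {x | x.1 = m.unpair.2}
  else if m.unpair.1 = 1 then {x | x.1 < m.unpair.2} else Set.univ

theorem CT_col (n : ℕ) : CT (Nat.pair 0 n) = {x | x.1 = n} := by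
  unfold CT
  rw [Nat.unpair_pair]
  simp

theorem CT_low (n : ℕ) : CT (Nat.pair 1 n) = {x | x.1 < n} := by
  unfold CT
  rw [Nat.unpair_pair]
  simp

theorem CT_univ : CT (Nat.pair 2 0) = Set.univ := by
  unfold CT
  rw [Nat.unpair_pair]
  simp

theorem CT_nice (m : ℕ) : ∃ n0 : ℕ, ∀ x y : ℕ × ℕ, (x.1 = y.1 ∨ (n0 ≤ x.1 ∧ n0 ≤ y.1)) →
    (x ∈ CT m ↔ y ∈ CT m) := by
  refine ⟨m.unpair.2 + 1, fun x y h => ?_⟩
  unfold CT
  split_ifs
  · change x.1 = _ ↔ y.1 = _
    omega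
  · change x.1 < _ ↔ y.1 < _
    omega
  · exact Iff.rfl

theorem univ_DA : Set.univ ∈ DA CT := ⟨Nat.pair 2 0, by
  rw [CT_univ]
  exact AE.refl _⟩

theorem col_infinite (n : ℕ) : {x : ℕ × ℕ | x.1 = n}.Infinite := by
  refine Set.infinite_of_injective_forall_mem (f := fun k : ℕ => ((n, k) : ℕ × ℕ)) ?_ fun k => rfl
  intro a b hab
  exact (Prod.ext_iff.1 hab).2

section

variable {M : Set ZFSet.{0}} {at' : ℕ × ℕ → ZFSet.{0}} {st : Set (ℕ × ℕ) → ZFSet.{0}}
  (h : AlmM CT cd2 M at' st)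

include h

/-- The space `ω + 1` is a remainder of the discrete space with the set of points `A`. -/
theorem rem_om1 : ∃ K ∈ M, ∃ κ ∈ M, IsOm1 M K κ ∧ RemIn M (st Set.univ) K κ := by
  classical
  have hM := h.zf
  have hB := hM.base
  have hom : ZFSet.omega ∈ M := hM.infinity
  have hu := univ_DA
  have hAM := h.stM _ hu
  have hmA : ∀ z, z ∈ st Set.univ ↔ ∃ x, z = at' x := by
    intro z
    rw [h.mst _ hu]
    simp
  have hatA : ∀ x, at' x ∈ st Set.univ := fun x => (hmA _).2 ⟨x, rfl⟩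
  obtain ⟨A, hA⟩ : ∃ A, A = st Set.univ := ⟨_, rfl⟩
  rw [← hA] at hAM hmA hatA ⊢
  have hPA := PM_mem hM hAM
  have hKM : insert ZFSet.omega ZFSet.omega ∈ M := hM.insert_mem hom hom
  obtain ⟨K, hK⟩ : ∃ K : ZFSet.{0}, K = insert ZFSet.omega ZFSet.omega := ⟨_, rfl⟩
  rw [← hK] at hKM
  have hmK : ∀ z, z ∈ K ↔ z ∈ ZFSet.omega ∨ z = ZFSet.omega := by
    intro z
    rw [hK, ZFSet.mem_insert_iff, or_comm]
  have hKP := PM_mem hM hKM
  have hκM : ZFSet.sep (fun U => ZFSet.omega ∈ U → ∃ n ∈ ZFSet.omega, ∀ m ∈ ZFSet.omega,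
      m ∉ n → m ∈ U) (PM M K) ∈ M := by
    refine hM.sep_mem (Q := fun U => ZFSet.omega ∈ U → ∃ n ∈ ZFSet.omega, ∀ m ∈ ZFSet.omega,
      m ∉ n → m ∈ U) ?_ hKP
    (repeat' first
      | assumption
      | exact DfnF.proj _
      | exact DfnF.const (by assumption)
      | exact DfnF.const' (by first | assumption | trivial) (by first | assumption | trivial)
      | exact Dfn.prop _
      | apply hB.isFunc' | apply hB.isInj' | apply hB.isBij' | apply hB.isOrdinal'
      | apply hB.subset' | apply hB.pair' | apply hB.insert'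
      | apply Dfn.not | apply Dfn.and | apply Dfn.or | apply Dfn.imp | apply Dfn.iff
      | apply hB.bex | apply hB.ball | apply Dfn.ex | apply Dfn.all
      | apply Dfn.eq | apply Dfn.mem)
  refine ⟨K, hKM, _, hκM, ⟨hmK, fun U => ?_⟩, ?_⟩
  · rw [ZFSet.mem_sep, mem_PM, and_assoc]
  -- the points of the remainder
  have hq : ∀ z, pair A z ∉ A := by
    intro z hz
    have h1 : ZFSet.rank ({A} : ZFSet.{0}) < ZFSet.rank (pair A z) := by
      refine ZFSet.rank_lt_of_mem ?_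
      rw [pair, ZFSet.mem_pair]
      exact Or.inl rfl
    have h2 : ZFSet.rank A < ZFSet.rank ({A} : ZFSet.{0}) :=
      ZFSet.rank_lt_of_mem (ZFSet.mem_singleton.2 rfl)
    exact absurd (ZFSet.rank_lt_of_mem hz) (not_lt.2 (h2.trans h1).le)
  have hRM : ZFSet.prod {A} K ∈ M := hM.prod_mem (hM.single_mem hAM) hKM
  have hmR : ∀ y, y ∈ ZFSet.prod {A} K ↔ ∃ z ∈ K, y = pair A z := by
    intro y
    rw [ZFSet.mem_prod]
    constructor
    · rintro ⟨a, ha, z, hz, rfl⟩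
      exact ⟨z, hz, by rw [ZFSet.mem_singleton.1 ha]⟩
    · rintro ⟨z, hz, rfl⟩
      exact ⟨A, ZFSet.mem_singleton.2 rfl, z, hz, rfl⟩
  have hYM : A ∪ ZFSet.prod {A} K ∈ M := hM.union_mem hAM hRM
  obtain ⟨Y, hY⟩ : ∃ Y, Y = A ∪ ZFSet.prod {A} K := ⟨_, rfl⟩
  rw [← hY] at hYM
  have hmY : ∀ y, y ∈ Y ↔ y ∈ A ∨ ∃ z ∈ K, y = pair A z := by
    intro y
    rw [hY, ZFSet.mem_union, hmR]
  have hYA : Y \ A = ZFSet.prod {A} K := by
    ext y
    rw [ZFSet.mem_sdiff, hmY, hmR]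
    constructor
    · rintro ⟨h1 | h1, h2⟩
      · exact absurd h1 h2
      · exact h1
    · rintro ⟨z, hz, rfl⟩
      exact ⟨Or.inr ⟨z, hz, rfl⟩, hq z⟩
  have hPY := PM_mem hM hYM
  -- the topology
  obtain ⟨F, hFM, hF⟩ := h.rl 0
  have hmF : ∀ n i : ℕ, ∀ S, pair (pair (nat n) (nat i)) S ∈ F ↔
      ∃ D, AE D (CT (Nat.pair n i)) ∧ S = st D := by
    intro n i S
    rw [hF]
    constructor
    · rintro ⟨m, D, -, hD, h1⟩
      obtain ⟨h2, h3⟩ := ZFSet.pair_inj.1 h1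
      rw [← cd2_pair] at h2
      have h4 := cd2_injective h2
      rw [h4]
      exact ⟨D, hD, h3⟩
    · rintro ⟨D, hD, rfl⟩
      exact ⟨Nat.pair n i, D, ⟨_, hD⟩, hD, by rw [cd2_pair]⟩
  have hstA : ∀ {D m}, AE D (CT m) → st D ∈ PM M A := by
    intro D m hD
    refine mem_PM.2 ⟨h.stM D ⟨_, hD⟩, fun z hz => ?_⟩
    obtain ⟨x, rfl⟩ := AlmM.atoms h ⟨_, hD⟩ z hz
    exact hatA x
  let P : ZFSet.{0} → Prop := fun U => (∀ n ∈ ZFSet.omega, pair A n ∈ U → ∃ S ∈ PM M A,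
      pair (pair (nat 0) n) S ∈ F ∧ ∀ a ∈ S, a ∈ U) ∧
    (pair A ZFSet.omega ∈ U → ∃ n ∈ ZFSet.omega, (∀ m ∈ ZFSet.omega, m ∉ n → pair A m ∈ U) ∧
      ∃ S ∈ PM M A, pair (pair (nat 1) n) S ∈ F ∧ ∀ a ∈ A, a ∉ S → a ∈ U)
  have hτM : ZFSet.sep P (PM M Y) ∈ M := by
    have h0 := hM.nat_mem 0
    have h1 := hM.nat_mem 1
    refine hM.sep_mem (Q := P) ?_ hPY
    simp only [P]
    generalize nat 0 = n0 at h0
    generalize nat 1 = n1 at h1
    generalize PM M A = PA at hPA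
    (repeat' first
      | assumption
      | exact DfnF.proj _
      | exact DfnF.const (by assumption)
      | exact DfnF.const' (by first | assumption | trivial) (by first | assumption | trivial)
      | exact Dfn.prop _
      | apply hB.isFunc' | apply hB.isInj' | apply hB.isBij' | apply hB.isOrdinal'
      | apply hB.subset' | apply hB.pair' | apply hB.insert'
      | apply Dfn.not | apply Dfn.and | apply Dfn.or | apply Dfn.imp | apply Dfn.iff
      | apply hB.bex | apply hB.ball | apply Dfn.ex | apply Dfn.all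
      | apply Dfn.eq | apply Dfn.mem)
  obtain ⟨τ, hτ⟩ : ∃ τ, τ = ZFSet.sep P (PM M Y) := ⟨_, rfl⟩
  rw [← hτ] at hτM
  have mτ : ∀ U, U ∈ τ ↔ U ∈ M ∧ U ⊆ Y ∧
      (∀ n : ℕ, pair A (nat n) ∈ U → {x : ℕ × ℕ | x.1 = n ∧ at' x ∉ U}.Finite) ∧
      (pair A ZFSet.omega ∈ U → ∃ n : ℕ, (∀ m : ℕ, n ≤ m → pair A (nat m) ∈ U) ∧
        {x : ℕ × ℕ | n ≤ x.1 ∧ at' x ∉ U}.Finite) := by
    intro U
    rw [hτ, ZFSet.mem_sep, mem_PM, and_assoc]
    refine and_congr_right fun hUM => and_congr_right fun hUY => and_congr ?_ ?_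
    · constructor
      · intro h1 n hn
        obtain ⟨S, -, h2, h3⟩ := h1 _ (mem_omega_iff.2 ⟨n, rfl⟩) hn
        obtain ⟨D, hD, rfl⟩ := (hmF _ _ _).1 h2
        have hD' := hD
        rw [CT_col] at hD'
        refine Set.Finite.subset hD' fun x hx h4 => hx.2 (h3 _ ?_)
        exact (AlmM.mem_st h ⟨_, hD⟩).2 (h4.2 hx.1)
      · intro h1 n hn hnU
        obtain ⟨n, rfl⟩ := mem_omega_iff.1 hn
        have hD : AE {x : ℕ × ℕ | x.1 = n ∧ at' x ∈ U} (CT (Nat.pair 0 n)) := by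
          rw [CT_col]
          refine Set.Finite.subset (h1 n hnU) fun x hx => ?_
          by_contra h2
          refine hx ⟨fun h3 => h3.1, fun h3 => ⟨h3, ?_⟩⟩
          by_contra h4
          exact h2 ⟨h3, h4⟩
        refine ⟨_, hstA hD, (hmF _ _ _).2 ⟨_, hD, rfl⟩, fun a ha => ?_⟩
        obtain ⟨x, rfl⟩ := AlmM.atoms h ⟨_, hD⟩ a ha
        exact ((AlmM.mem_st h ⟨_, hD⟩).1 ha).2
    · refine imp_congr_right fun _ => ?_
      constructor
      · rintro ⟨n, hn, h1, S, -, h2, h3⟩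
        obtain ⟨n, rfl⟩ := mem_omega_iff.1 hn
        obtain ⟨D, hD, rfl⟩ := (hmF _ _ _).1 h2
        have hD' := hD
        rw [CT_low] at hD'
        refine ⟨n, fun m hm => h1 _ (mem_omega_iff.2 ⟨m, rfl⟩) fun h4 =>
          absurd (nat_mem_nat.1 h4) (not_lt.2 hm), Set.Finite.subset hD' fun x hx h4 =>
          hx.2 (h3 _ (hatA x) fun h5 => ?_)⟩
        have h6 := h4.1 ((AlmM.mem_st h ⟨_, hD⟩).1 h5)
        exact absurd (show x.1 < n from h6) (not_lt.2 hx.1)
      · rintro ⟨n, h1, h2⟩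
        have hD : AE {x : ℕ × ℕ | x.1 < n ∨ (n ≤ x.1 ∧ at' x ∉ U)} (CT (Nat.pair 1 n)) := by
          rw [CT_low]
          refine Set.Finite.subset h2 fun x hx => ?_
          by_contra h3
          refine hx ⟨fun h4 => ?_, fun h4 => Or.inl h4⟩
          rcases h4 with h4 | h4
          · exact h4
          · exact absurd h4 h3
        refine ⟨nat n, mem_omega_iff.2 ⟨n, rfl⟩, fun m hm hmn => ?_, _, hstA hD,
          (hmF _ _ _).2 ⟨_, hD, rfl⟩, fun a ha haS => ?_⟩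
        · obtain ⟨m, rfl⟩ := mem_omega_iff.1 hm
          exact h1 m (not_lt.1 fun h4 => hmn (nat_mem_nat.2 h4))
        · obtain ⟨x, rfl⟩ := (hmA a).1 ha
          rw [AlmM.mem_st h ⟨_, hD⟩] at haS
          by_contra h4
          refine haS ?_
          rcases lt_or_ge x.1 n with h5 | h5
          · exact Or.inl h5
          · exact Or.inr ⟨h5, h4⟩
  have hatY : ∀ x, at' x ∈ Y := fun x => (hmY _).2 (Or.inl (hatA x))
  have hqY : ∀ n : ℕ, pair A (nat n) ∈ Y := fun n =>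
    (hmY _).2 (Or.inr ⟨_, (hmK _).2 (Or.inl (mem_omega_iff.2 ⟨n, rfl⟩)), rfl⟩)
  have hqoY : pair A ZFSet.omega ∈ Y := (hmY _).2 (Or.inr ⟨_, (hmK _).2 (Or.inr rfl), rfl⟩)
  have hatq : ∀ x z, at' x ≠ pair A z := fun x z h1 => hq z (h1 ▸ hatA x)
  have hqinj : ∀ z z', pair A z = pair A z' → z = z' := fun z z' h1 => (ZFSet.pair_inj.1 h1).2
  have hon : ∀ n, ZFSet.omega ≠ nat n := by
    intro n hn
    have h1 : nat n ∈ ZFSet.omega := mem_omega_iff.2 ⟨n, rfl⟩
    rw [hn] at h1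
    exact ZFSet.mem_irrefl _ h1
  have htop : IsTopIn M Y τ := by
    refine ⟨fun U hU => ((mτ U).1 hU).2.1, (mτ Y).2 ⟨hYM, fun _ h1 => h1, fun n _ => ?_,
      fun _ => ⟨0, fun m _ => hqY m, ?_⟩⟩, fun U hU V hV => ?_, fun C hC hCτ => ?_⟩
    · refine Set.Finite.subset Set.finite_empty fun x hx => ?_
      exact absurd (hatY x) hx.2
    · refine Set.Finite.subset Set.finite_empty fun x hx => ?_
      exact absurd (hatY x) hx.2
    · obtain ⟨u1, u2, u3, u4⟩ := (mτ U).1 hU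
      obtain ⟨v1, v2, v3, v4⟩ := (mτ V).1 hV
      have h8 : U ∩ V = ZFSet.sep (fun z => z ∈ V) U := by
        ext z
        rw [ZFSet.mem_inter, ZFSet.mem_sep]
      refine (mτ _).2 ⟨?_, fun z hz => u2 (ZFSet.mem_inter.1 hz).1, fun n hn => ?_, fun hn => ?_⟩
      · rw [h8]
        exact hM.sep_mem (Q := fun z => z ∈ V) (Dfn.mem (DfnF.proj 0) (DfnF.const v1)) u1
      · obtain ⟨h1, h2⟩ := ZFSet.mem_inter.1 hn
        refine ((u3 n h1).union (v3 n h2)).subset fun x hx => ?_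
        by_cases h3 : at' x ∈ U
        · exact Or.inr ⟨hx.1, fun h4 => hx.2 (ZFSet.mem_inter.2 ⟨h3, h4⟩)⟩
        · exact Or.inl ⟨hx.1, h3⟩
      · obtain ⟨h1, h2⟩ := ZFSet.mem_inter.1 hn
        obtain ⟨n, hn1, hn2⟩ := u4 h1
        obtain ⟨k, hk1, hk2⟩ := v4 h2
        refine ⟨max n k, fun m hm => ZFSet.mem_inter.2 ⟨hn1 m ((le_max_left _ _).trans hm),
          hk1 m ((le_max_right _ _).trans hm)⟩, (hn2.union hk2).subset fun x hx => ?_⟩
        by_cases h3 : at' x ∈ U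
        · exact Or.inr ⟨(le_max_right _ _).trans hx.1, fun h4 =>
            hx.2 (ZFSet.mem_inter.2 ⟨h3, h4⟩)⟩
        · exact Or.inl ⟨(le_max_left _ _).trans hx.1, h3⟩
    · refine (mτ _).2 ⟨hM.union _ hC, fun z hz => ?_, fun n hn => ?_, fun hn => ?_⟩
      · obtain ⟨U, hU, hz⟩ := ZFSet.mem_sUnion.1 hz
        exact ((mτ U).1 (hCτ hU)).2.1 hz
      · obtain ⟨U, hU, hz⟩ := ZFSet.mem_sUnion.1 hn
        refine (((mτ U).1 (hCτ hU)).2.2.1 n hz).subset fun x hx => ⟨hx.1, fun h1 => hx.2 ?_⟩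
        exact ZFSet.mem_sUnion.2 ⟨U, hU, h1⟩
      · obtain ⟨U, hU, hz⟩ := ZFSet.mem_sUnion.1 hn
        obtain ⟨n, hn1, hn2⟩ := ((mτ U).1 (hCτ hU)).2.2.2 hz
        exact ⟨n, fun m hm => ZFSet.mem_sUnion.2 ⟨U, hU, hn1 m hm⟩, hn2.subset fun x hx =>
          ⟨hx.1, fun h1 => hx.2 (ZFSet.mem_sUnion.2 ⟨U, hU, h1⟩)⟩⟩
  have hcpt : CompactIn M Y τ := by
    intro C hC hCτ hcov
    choose! u hu1 hu2 using hcov
    obtain ⟨n, hn1, hn2⟩ := ((mτ _).1 (hCτ (hu1 _ hqoY))).2.2.2 (hu2 _ hqoY)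
    have hfin : ({x : ℕ × ℕ | n ≤ x.1 ∧ at' x ∉ u (pair A ZFSet.omega)} ∪
        ⋃ m ∈ Finset.range n, {x : ℕ × ℕ | x.1 = m ∧ at' x ∉ u (pair A (nat m))}).Finite := by
      refine hn2.union (Set.Finite.biUnion (Finset.finite_toSet _) fun m _ => ?_)
      exact ((mτ _).1 (hCτ (hu1 _ (hqY m)))).2.2.1 m (hu2 _ (hqY m))
    refine ⟨{u (pair A ZFSet.omega)} ∪ ((Finset.range n).image fun m => u (pair A (nat m))) ∪
      hfin.toFinset.image fun x => u (at' x), fun U hU => ?_, fun y hy => ?_⟩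
    · rcases Finset.mem_union.1 hU with hU | hU
      · rcases Finset.mem_union.1 hU with hU | hU
        · rw [Finset.mem_singleton.1 hU]
          exact hu1 _ hqoY
        · obtain ⟨m, -, rfl⟩ := Finset.mem_image.1 hU
          exact hu1 _ (hqY m)
      · obtain ⟨x, -, rfl⟩ := Finset.mem_image.1 hU
        exact hu1 _ (hatY x)
    · rcases (hmY y).1 hy with hy | ⟨z, hz, rfl⟩
      · obtain ⟨x, rfl⟩ := (hmA y).1 hy
        by_cases hx : x ∈ ({x : ℕ × ℕ | n ≤ x.1 ∧ at' x ∉ u (pair A ZFSet.omega)} ∪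
          ⋃ m ∈ Finset.range n, {x : ℕ × ℕ | x.1 = m ∧ at' x ∉ u (pair A (nat m))})
        · exact ⟨_, Finset.mem_union_right _ (Finset.mem_image_of_mem _
            (hfin.mem_toFinset.2 hx)), hu2 _ (hatY x)⟩
        · rcases lt_or_ge x.1 n with h1 | h1
          · refine ⟨_, Finset.mem_union_left _ (Finset.mem_union_right _
              (Finset.mem_image_of_mem _ (Finset.mem_range.2 h1))), ?_⟩
            by_contra h2
            refine hx (Or.inr (Set.mem_biUnion (Finset.mem_range.2 h1) ⟨rfl, h2⟩))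
          · refine ⟨_, Finset.mem_union_left _ (Finset.mem_union_left _
              (Finset.mem_singleton_self _)), ?_⟩
            by_contra h2
            exact hx (Or.inl ⟨h1, h2⟩)
      · rcases (hmK z).1 hz with hz | rfl
        · obtain ⟨m, rfl⟩ := mem_omega_iff.1 hz
          rcases lt_or_ge m n with h1 | h1
          · exact ⟨_, Finset.mem_union_left _ (Finset.mem_union_right _
              (Finset.mem_image_of_mem _ (Finset.mem_range.2 h1))), hu2 _ (hqY m)⟩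
          · exact ⟨_, Finset.mem_union_left _ (Finset.mem_union_left _
              (Finset.mem_singleton_self _)), hn1 m h1⟩
        · exact ⟨_, Finset.mem_union_left _ (Finset.mem_union_left _
            (Finset.mem_singleton_self _)), hu2 _ hqoY⟩
  have hsd : ∀ S ∈ M, Y \ S ∈ M := by
    intro S hS
    have h8 : Y \ S = ZFSet.sep (fun z => z ∉ S) Y := by
      ext z
      rw [ZFSet.mem_sep, ZFSet.mem_sdiff]
    rw [h8]
    exact hM.sep_mem (Q := fun z => z ∉ S)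
      (Dfn.not (Dfn.mem (DfnF.proj 0) (DfnF.const hS))) hYM
  -- atoms are isolated
  have hatM : ∀ x, at' x ∈ M := fun x => hM.trans _ hAM _ (hatA x)
  have hone : ∀ x, ({at' x} : ZFSet.{0}) ∈ τ ∧ Y \ {at' x} ∈ τ := by
    intro x
    constructor
    · refine (mτ _).2 ⟨hM.single_mem (hatM x), fun z hz => ?_, fun n hn => ?_, fun hn => ?_⟩
      · rw [ZFSet.mem_singleton.1 hz]
        exact hatY x
      · exact absurd (ZFSet.mem_singleton.1 hn).symm (hatq x _)
      · exact absurd (ZFSet.mem_singleton.1 hn).symm (hatq x _)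
    · have h2 : ∀ y, at' y ∉ Y \ {at' x} → y = x := by
        intro y hy
        by_contra h1
        refine hy (ZFSet.mem_sdiff.2 ⟨hatY y, fun h2 => h1 (h.inj (ZFSet.mem_singleton.1 h2))⟩)
      refine (mτ _).2 ⟨hsd _ (hM.single_mem (hatM x)), fun z hz => (ZFSet.mem_sdiff.1 hz).1,
        fun n hn => ?_, fun hn => ⟨0, fun m _ => ZFSet.mem_sdiff.2 ⟨hqY m, fun h3 =>
          hatq x _ (ZFSet.mem_singleton.1 h3).symm⟩, ?_⟩⟩
      · exact (Set.finite_singleton x).subset fun y hy => h2 y hy.2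
      · exact (Set.finite_singleton x).subset fun y hy => h2 y hy.2
  have hcol : ∀ n : ℕ, ∃ V ∈ τ, Y \ V ∈ τ ∧ ∀ z, pair A z ∈ V ↔ z = nat n := by
    intro n
    have hD : AE {x : ℕ × ℕ | x.1 = n} (CT (Nat.pair 0 n)) := by
      rw [CT_col]
      exact AE.refl _
    have hDM := h.stM _ ⟨_, hD⟩
    have hmD : ∀ x, at' x ∈ st {x : ℕ × ℕ | x.1 = n} ↔ x.1 = n := fun x =>
      AlmM.mem_st h ⟨_, hD⟩
    have hqn : pair A (nat n) ∈ M := hM.pair_mem hAM (hM.nat_mem n)
    have hVM : insert (pair A (nat n)) (st {x : ℕ × ℕ | x.1 = n}) ∈ M := hM.insert_mem hqn hDM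
    have hmV : ∀ z, pair A z ∈ insert (pair A (nat n)) (st {x : ℕ × ℕ | x.1 = n}) ↔ z = nat n := by
      intro z
      rw [ZFSet.mem_insert_iff]
      constructor
      · rintro (h1 | h1)
        · exact hqinj _ _ h1
        · obtain ⟨x, hx⟩ := AlmM.atoms h ⟨_, hD⟩ _ h1
          exact absurd hx.symm (hatq x z)
      · rintro rfl
        exact Or.inl rfl
    have hmV' : ∀ x, at' x ∈ insert (pair A (nat n)) (st {x : ℕ × ℕ | x.1 = n}) ↔ x.1 = n := by
      intro x
      rw [ZFSet.mem_insert_iff, hmD]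
      constructor
      · rintro (h1 | h1)
        · exact absurd h1 (hatq x _)
        · exact h1
      · exact Or.inr
    refine ⟨_, (mτ _).2 ⟨hVM, fun z hz => ?_, fun m hm => ?_, fun hm => ?_⟩,
      (mτ _).2 ⟨hsd _ hVM, fun z hz => (ZFSet.mem_sdiff.1 hz).1, fun m hm => ?_, fun hm =>
        ⟨n + 1, fun m hm => ZFSet.mem_sdiff.2 ⟨hqY m, fun h1 => ?_⟩, ?_⟩⟩, hmV⟩
    · rcases ZFSet.mem_insert_iff.1 hz with rfl | hz
      · exact hqY n
      · obtain ⟨x, rfl⟩ := AlmM.atoms h ⟨_, hD⟩ z hz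
        exact hatY x
    · rw [hmV] at hm
      refine Set.finite_empty.subset fun x hx => ?_
      rw [Set.mem_setOf_eq, hmV', nat_injective hm] at hx
      exact hx.2 hx.1
    · rw [hmV] at hm
      exact absurd hm (hon n)
    · have h1 := (ZFSet.mem_sdiff.1 hm).2
      rw [hmV] at h1
      refine Set.finite_empty.subset fun x hx => ?_
      refine hx.2 (ZFSet.mem_sdiff.2 ⟨hatY x, fun h2 => h1 ?_⟩)
      rw [hmV'] at h2
      rw [← hx.1, h2]
    · rw [hmV] at h1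
      have := nat_injective h1
      omega
    · refine Set.finite_empty.subset fun x hx => ?_
      refine hx.2 (ZFSet.mem_sdiff.2 ⟨hatY x, fun h2 => ?_⟩)
      rw [hmV'] at h2
      have := hx.1
      omega
  have hhaus : ∀ a ∈ Y, ∀ b ∈ Y, a ≠ b → ∃ V ∈ τ, ∃ W ∈ τ, a ∈ V ∧ b ∈ W ∧ ∀ c ∈ V, c ∉ W := by
    intro a ha b hb hab
    rcases (hmY a).1 ha with ha' | ⟨z, hz, rfl⟩
    · obtain ⟨x, rfl⟩ := (hmA a).1 ha'
      exact ⟨_, (hone x).1, _, (hone x).2, ZFSet.mem_singleton.2 rfl, ZFSet.mem_sdiff.2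
        ⟨hb, fun h1 => hab (ZFSet.mem_singleton.1 h1).symm⟩, fun c hc h1 =>
        (ZFSet.mem_sdiff.1 h1).2 hc⟩
    · rcases (hmY b).1 hb with hb' | ⟨z', hz', rfl⟩
      · obtain ⟨x, rfl⟩ := (hmA b).1 hb'
        exact ⟨_, (hone x).2, _, (hone x).1, ZFSet.mem_sdiff.2
          ⟨ha, fun h1 => hab (ZFSet.mem_singleton.1 h1)⟩, ZFSet.mem_singleton.2 rfl, fun c hc h1 =>
          (ZFSet.mem_sdiff.1 hc).2 h1⟩
      · have hzz : z ≠ z' := fun h1 => hab (by rw [h1])
        rcases (hmK z).1 hz with hz1 | rfl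
        · obtain ⟨n, rfl⟩ := mem_omega_iff.1 hz1
          obtain ⟨V, hV, hV', h1⟩ := hcol n
          exact ⟨V, hV, _, hV', (h1 _).2 rfl, ZFSet.mem_sdiff.2 ⟨hb, fun h2 =>
            hzz ((h1 _).1 h2).symm⟩, fun c hc h2 => (ZFSet.mem_sdiff.1 h2).2 hc⟩
        · rcases (hmK z').1 hz' with hz1 | rfl
          · obtain ⟨n, rfl⟩ := mem_omega_iff.1 hz1
            obtain ⟨V, hV, hV', h1⟩ := hcol n
            exact ⟨_, hV', V, hV, ZFSet.mem_sdiff.2 ⟨ha, fun h2 => hzz ((h1 _).1 h2)⟩,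
              (h1 _).2 rfl, fun c hc h2 => (ZFSet.mem_sdiff.1 hc).2 h2⟩
          · exact absurd rfl hzz
  -- the embedding
  have hiM : ZFSet.sep (fun p => ∃ a ∈ A, p = pair a a) (ZFSet.prod A Y) ∈ M := by
    refine hM.sep_mem (Q := fun p => ∃ a ∈ A, p = pair a a) ?_ (hM.prod_mem hAM hYM)
    (repeat' first
      | assumption
      | exact DfnF.proj _
      | exact DfnF.const (by assumption)
      | exact DfnF.const' (by first | assumption | trivial) (by first | assumption | trivial)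
      | exact Dfn.prop _
      | apply hB.isFunc' | apply hB.isInj' | apply hB.isBij' | apply hB.isOrdinal'
      | apply hB.subset' | apply hB.pair' | apply hB.insert'
      | apply Dfn.not | apply Dfn.and | apply Dfn.or | apply Dfn.imp | apply Dfn.iff
      | apply hB.bex | apply hB.ball | apply Dfn.ex | apply Dfn.all
      | apply Dfn.eq | apply Dfn.mem)
  have hmi : ∀ a b, pair a b ∈ ZFSet.sep (fun p => ∃ a ∈ A, p = pair a a) (ZFSet.prod A Y) ↔
      a ∈ A ∧ b = a := by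
    intro a b
    rw [ZFSet.mem_sep, ZFSet.pair_mem_prod]
    constructor
    · rintro ⟨-, c, hc, h1⟩
      obtain ⟨rfl, rfl⟩ := ZFSet.pair_inj.1 h1
      exact ⟨hc, rfl⟩
    · rintro ⟨ha, rfl⟩
      exact ⟨⟨ha, (hmY b).2 (Or.inl ha)⟩, b, ha, rfl⟩
  -- the homeomorphism
  have hhM : ZFSet.sep (fun p => ∃ z ∈ K, p = pair (pair A z) z) (ZFSet.prod (ZFSet.prod {A} K) K)
      ∈ M := by
    have hpr := hM.prod_mem hRM hKM
    refine hM.sep_mem (Q := fun p => ∃ z ∈ K, p = pair (pair A z) z) ?_ hpr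
    (repeat' first
      | assumption
      | exact DfnF.proj _
      | exact DfnF.const (by assumption)
      | exact DfnF.const' (by first | assumption | trivial) (by first | assumption | trivial)
      | exact Dfn.prop _
      | apply hB.isFunc' | apply hB.isInj' | apply hB.isBij' | apply hB.isOrdinal'
      | apply hB.subset' | apply hB.pair' | apply hB.insert'
      | apply Dfn.not | apply Dfn.and | apply Dfn.or | apply Dfn.imp | apply Dfn.iff
      | apply hB.bex | apply hB.ball | apply Dfn.ex | apply Dfn.all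
      | apply Dfn.eq | apply Dfn.mem)
  have hmh : ∀ y z, pair y z ∈ ZFSet.sep (fun p => ∃ z ∈ K, p = pair (pair A z) z)
      (ZFSet.prod (ZFSet.prod {A} K) K) ↔ z ∈ K ∧ y = pair A z := by
    intro y z
    rw [ZFSet.mem_sep, ZFSet.pair_mem_prod]
    constructor
    · rintro ⟨-, c, hc, h1⟩
      obtain ⟨rfl, rfl⟩ := ZFSet.pair_inj.1 h1
      exact ⟨hc, rfl⟩
    · rintro ⟨hz, rfl⟩
      exact ⟨⟨(hmR _).2 ⟨z, hz, rfl⟩, hz⟩, z, hz, rfl⟩
  refine ⟨Y, hYM, τ, hτM, _, hiM, A, hAM, _, hhM, htop, hcpt, hhaus, ⟨⟨fun z hz =>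
    (ZFSet.mem_sep.1 hz).1, fun a ha => ⟨a, (hmi _ _).2 ⟨ha, rfl⟩, fun b hb =>
    ((hmi _ _).1 hb).2⟩⟩, fun a b c ha hb => ?_⟩, fun y => ?_, fun S hS hSA => ?_,
    fun U hU hne => ?_, ?_⟩
  · rw [← ((hmi _ _).1 ha).2, ← ((hmi _ _).1 hb).2]
  · constructor
    · intro hy
      exact ⟨y, hy, (hmi _ _).2 ⟨hy, rfl⟩⟩
    · rintro ⟨a, ha, h1⟩
      rw [((hmi _ _).1 h1).2]
      exact ha
  · refine mem_subTop.2 ⟨S, (mτ S).2 ⟨hS, fun z hz => (hmY z).2 (Or.inl (hSA hz)), fun n hn =>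
      absurd (hSA hn) (hq _), fun hn => absurd (hSA hn) (hq _)⟩, ?_⟩
    ext z
    rw [ZFSet.mem_inter]
    exact ⟨fun h1 => ⟨h1, hSA h1⟩, fun h1 => h1.1⟩
  · obtain ⟨y, hy⟩ := hne
    obtain ⟨u1, u2, u3, u4⟩ := (mτ U).1 hU
    have hex : ∀ n : ℕ, {x : ℕ × ℕ | x.1 = n ∧ at' x ∉ U}.Finite → ∃ y ∈ U, y ∈ A := by
      intro n hn
      obtain ⟨x, hx, hx'⟩ := (col_infinite n).exists_notMem_finite hn
      refine ⟨at' x, ?_, hatA x⟩
      by_contra h1
      exact hx' ⟨hx, h1⟩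
    rcases (hmY y).1 (u2 hy) with h1 | ⟨z, hz, rfl⟩
    · exact ⟨y, hy, h1⟩
    · rcases (hmK z).1 hz with hz | rfl
      · obtain ⟨n, rfl⟩ := mem_omega_iff.1 hz
        exact hex n (u3 n hy)
      · obtain ⟨n, hn1, hn2⟩ := u4 hy
        exact hex n (hn2.subset fun x hx => ⟨hx.1.ge, hx.2⟩)
  · rw [hYA]
    refine ⟨⟨⟨⟨fun p hp => (ZFSet.mem_sep.1 hp).1, fun y hy => ?_⟩, fun a b c ha hb => ?_⟩,
      fun z hz => ?_⟩, fun U hU => ?_⟩
    · obtain ⟨z, hz, rfl⟩ := (hmR y).1 hy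
      exact ⟨z, (hmh _ _).2 ⟨hz, rfl⟩, fun z' hz' => (hqinj _ _ ((hmh _ _).1 hz').2).symm⟩
    · rw [((hmh _ _).1 ha).2, ((hmh _ _).1 hb).2]
    · exact ⟨pair A z, (hmR _).2 ⟨z, hz, rfl⟩, (hmh _ _).2 ⟨hz, rfl⟩⟩
    · have hmU : ∀ z, z ∈ ZFSet.sep (fun y => ∃ x ∈ U, pair x y ∈ ZFSet.sep (fun p => ∃ z ∈ K,
          p = pair (pair A z) z) (ZFSet.prod (ZFSet.prod {A} K) K)) K ↔ z ∈ K ∧ pair A z ∈ U := by
        intro z
        rw [ZFSet.mem_sep]
        refine and_congr_right fun hz => ?_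
        constructor
        · rintro ⟨y, hy, h1⟩
          rw [← ((hmh _ _).1 h1).2]
          exact hy
        · intro h1
          exact ⟨_, h1, (hmh _ _).2 ⟨hz, rfl⟩⟩
      rw [mem_subTop, ZFSet.mem_sep, mem_PM]
      constructor
      · rintro ⟨W, hW, hUW⟩
        obtain ⟨w1, w2, w3, w4⟩ := (mτ W).1 hW
        have hUM : U ∈ M := by
          have h8 : U = ZFSet.sep (fun z => z ∈ W) (ZFSet.prod {A} K) := by
            rw [hUW]
            ext z
            rw [ZFSet.mem_inter, ZFSet.mem_sep, and_comm]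
          rw [h8]
          exact hM.sep_mem (Q := fun z => z ∈ W) (Dfn.mem (DfnF.proj 0) (DfnF.const w1)) hRM
        refine ⟨⟨?_, fun z hz => (ZFSet.mem_sep.1 hz).1⟩, fun hz => ?_⟩
        · refine hM.sep_mem (Q := fun y => ∃ x ∈ U, pair x y ∈ ZFSet.sep (fun p => ∃ z ∈ K,
            p = pair (pair A z) z) (ZFSet.prod (ZFSet.prod {A} K) K)) ?_ hKM
          generalize ZFSet.sep (fun p => ∃ z ∈ K, p = pair (pair A z) z)
            (ZFSet.prod (ZFSet.prod {A} K) K) = H at hhM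
          (repeat' first
            | assumption
            | exact DfnF.proj _
            | exact DfnF.const (by assumption)
            | exact DfnF.const' (by first | assumption | trivial) (by first | assumption | trivial)
            | exact Dfn.prop _
            | apply hB.isFunc' | apply hB.isInj' | apply hB.isBij' | apply hB.isOrdinal'
            | apply hB.subset' | apply hB.pair' | apply hB.insert'
            | apply Dfn.not | apply Dfn.and | apply Dfn.or | apply Dfn.imp | apply Dfn.iff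
            | apply hB.bex | apply hB.ball | apply Dfn.ex | apply Dfn.all
            | apply Dfn.eq | apply Dfn.mem)
        · rw [hmU] at hz
          rw [hUW] at hz
          obtain ⟨n, hn1, -⟩ := w4 (ZFSet.mem_inter.1 hz.2).1
          refine ⟨nat n, mem_omega_iff.2 ⟨n, rfl⟩, fun m hm hmn => ?_⟩
          obtain ⟨m, rfl⟩ := mem_omega_iff.1 hm
          have hmK' : nat m ∈ K := (hmK _).2 (Or.inl hm)
          rw [hmU, hUW]
          exact ⟨hmK', ZFSet.mem_inter.2 ⟨hn1 m (not_lt.1 fun h4 => hmn (nat_mem_nat.2 h4)),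
            (hmR _).2 ⟨_, hmK', rfl⟩⟩⟩
      · rintro ⟨⟨h1, -⟩, h2⟩
        have hUM : U ∈ M := by
          have h8 : U = ZFSet.sep (fun y => ∃ z ∈ ZFSet.sep (fun y => ∃ x ∈ U,
              pair x y ∈ ZFSet.sep (fun p => ∃ z ∈ K, p = pair (pair A z) z)
              (ZFSet.prod (ZFSet.prod {A} K) K)) K, y = pair A z) (ZFSet.prod {A} K) := by
            ext y
            rw [ZFSet.mem_sep]
            constructor
            · intro hy
              obtain ⟨z, hz, rfl⟩ := (hmR y).1 (hU hy)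
              exact ⟨hU hy, z, (hmU z).2 ⟨hz, hy⟩, rfl⟩
            · rintro ⟨-, z, hz, rfl⟩
              exact ((hmU z).1 hz).2
          rw [h8]
          generalize ZFSet.sep (fun y => ∃ x ∈ U, pair x y ∈ ZFSet.sep (fun p => ∃ z ∈ K,
            p = pair (pair A z) z) (ZFSet.prod (ZFSet.prod {A} K) K)) K = U' at h1
          refine hM.sep_mem (Q := fun y => ∃ z ∈ U', y = pair A z) ?_ hRM
          (repeat' first
            | assumption
            | exact DfnF.proj _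
            | exact DfnF.const (by assumption)
            | exact DfnF.const' (by first | assumption | trivial) (by first | assumption | trivial)
            | exact Dfn.prop _
            | apply hB.isFunc' | apply hB.isInj' | apply hB.isBij' | apply hB.isOrdinal'
            | apply hB.subset' | apply hB.pair' | apply hB.insert'
            | apply Dfn.not | apply Dfn.and | apply Dfn.or | apply Dfn.imp | apply Dfn.iff
            | apply hB.bex | apply hB.ball | apply Dfn.ex | apply Dfn.all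
            | apply Dfn.eq | apply Dfn.mem)
        refine ⟨A ∪ U, (mτ _).2 ⟨hM.union_mem hAM hUM, fun z hz => ?_, fun n hn => ?_,
          fun hn => ?_⟩, ?_⟩
        · rcases ZFSet.mem_union.1 hz with hz | hz
          · exact (hmY z).2 (Or.inl hz)
          · exact (hmY z).2 (Or.inr ((hmR z).1 (hU hz)))
        · refine Set.finite_empty.subset fun x hx => ?_
          exact hx.2 (ZFSet.mem_union.2 (Or.inl (hatA x)))
        · have h3 : pair A ZFSet.omega ∈ U := by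
            rcases ZFSet.mem_union.1 hn with h3 | h3
            · exact absurd h3 (hq _)
            · exact h3
          obtain ⟨n, hn1, hn2⟩ := h2 ((hmU _).2 ⟨(hmK _).2 (Or.inr rfl), h3⟩)
          obtain ⟨n, rfl⟩ := mem_omega_iff.1 hn1
          refine ⟨n, fun m hm => ZFSet.mem_union.2 (Or.inr ?_), ?_⟩
          · exact ((hmU _).1 (hn2 (nat m) (mem_omega_iff.2 ⟨m, rfl⟩) fun h4 =>
              absurd (nat_mem_nat.1 h4) (not_lt.2 hm))).2
          · refine Set.finite_empty.subset fun x hx => ?_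
            exact hx.2 (ZFSet.mem_union.2 (Or.inl (hatA x)))
        · ext y
          rw [ZFSet.mem_inter, ZFSet.mem_union]
          constructor
          · intro hy
            exact ⟨Or.inr hy, hU hy⟩
          · rintro ⟨h3 | h3, h4⟩
            · obtain ⟨z, -, rfl⟩ := (hmR y).1 h4
              exact absurd h3 (hq z)
            · exact h3

end

end Pool.Agent.Q211.AM
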