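import Pool.Agent.Q211.AM.P3

/-!
# Ramsey theorems for pairs in transitive models
-/

set_option autoImplicit false
set_option linter.unusedSectionVars false
set_option linter.unreachableTactic false
set_option linter.unusedTactic false

namespace Pool.Agent.Q211.AM

open Pool.Agent.W868 Pool.Agent.W868.PName Pool.Agent.Q211.SY Pool.Agent.Q211.FS
open Pool.Agent.Q211.PA Pool.Agent.Q211.TP
open ZFSet (pair)

/-- The set of the subsets of `X` with exactly two elements. -/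
noncomputable def Pr2 (X : ZFSet.{0}) : ZFSet.{0} :=
  ZFSet.sep (fun z => ∃ x ∈ X, ∃ y ∈ X, x ≠ y ∧ z = {x, y}) (ZFSet.powerset X)

theorem mem_Pr2 {X z : ZFSet.{0}} : z ∈ Pr2 X ↔ ∃ x ∈ X, ∃ y ∈ X, x ≠ y ∧ z = {x, y} := by
  rw [Pr2, ZFSet.mem_sep, ZFSet.mem_powerset]
  constructor
  · intro h
    exact h.2
  · rintro ⟨x, hx, y, hy, hxy, rfl⟩
    refine ⟨fun t ht => ?_, x, hx, y, hy, hxy, rfl⟩
    rcases ZFSet.mem_pair.1 ht with rfl | rfl
    · exact hx
    · exact hy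

theorem Pr2_mem {M : Set ZFSet.{0}} (hM : IsZF M) {X : ZFSet.{0}} (hX : X ∈ M) : Pr2 X ∈ M := by
  have hB := hM.base
  have h1 : ZFSet.sep (fun z => ∃ x ∈ X, ∃ y ∈ X, x ≠ y ∧ x ∈ z ∧ y ∈ z ∧ ∀ t ∈ z, t = x ∨ t = y)
      (PM M X) ∈ M := by
    refine hM.sep_mem (Q := fun z => ∃ x ∈ X, ∃ y ∈ X, x ≠ y ∧ x ∈ z ∧ y ∈ z ∧
      ∀ t ∈ z, t = x ∨ t = y) ?_ (PM_mem hM hX)
    (repeat' first
      | assumption
      | exact DfnF.proj _
      | exact DfnF.const (by assumption)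
      | exact DfnF.const' (by first | assumption | trivial) (by first | assumption | trivial)
      | exact Dfn.prop _
      | apply hB.isFunc' | apply hB.isInj' | apply hB.isBij' | apply hB.isOrdinal'
      | apply hB.subset' | apply hB.pair' | apply hB.insert'
      | apply Dfn.not | apply Dfn.and | apply Dfn.or | apply Dfn.imp | apply Dfn.iff
      | apply hB.bex | apply hB.ball | apply Dfn.ex | apply Dfn.all
      | apply Dfn.eq | apply Dfn.mem)
  have h2 : ZFSet.sep (fun z => ∃ x ∈ X, ∃ y ∈ X, x ≠ y ∧ x ∈ z ∧ y ∈ z ∧ ∀ t ∈ z, t = x ∨ t = y)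
      (PM M X) = Pr2 X := by
    ext z
    rw [ZFSet.mem_sep, mem_Pr2, mem_PM]
    constructor
    · rintro ⟨-, x, hx, y, hy, hxy, h3, h4, h5⟩
      refine ⟨x, hx, y, hy, hxy, ?_⟩
      ext t
      rw [ZFSet.mem_pair]
      constructor
      · exact fun h => h5 t h
      · rintro (rfl | rfl)
        · exact h3
        · exact h4
    · rintro ⟨x, hx, y, hy, hxy, rfl⟩
      refine ⟨⟨hM.pairing _ (hM.trans _ hX _ hx) _ (hM.trans _ hX _ hy), fun t ht => ?_⟩,
        x, hx, y, hy, hxy, ZFSet.mem_pair.2 (Or.inl rfl), ZFSet.mem_pair.2 (Or.inr rfl),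
        fun t ht => ZFSet.mem_pair.1 ht⟩
      rcases ZFSet.mem_pair.1 ht with rfl | rfl
      · exact hx
      · exact hy
  rwa [h2] at h1

/-- In `M`, every colouring of the pairs of elements of `X` with `n` colours has an infinite
homogeneous set. -/
def RT2 (M : Set ZFSet.{0}) (n X : ZFSet.{0}) : Prop :=
  ∀ c ∈ M, ZFSet.IsFunc (Pr2 X) n c → ∃ Y ∈ M, Y ⊆ X ∧ ¬ FinIn M Y ∧
    ∃ i ∈ n, ∀ z ∈ Pr2 Y, pair z i ∈ c

/-- The set `L` is a strict linear order on `Y`. -/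
structure IsLin (Y L : ZFSet.{0}) : Prop where
  sub : L ⊆ Y.prod Y
  irr : ∀ x, pair x x ∉ L
  tr : ∀ x y z, pair x y ∈ L → pair y z ∈ L → pair x z ∈ L
  tot : ∀ x ∈ Y, ∀ y ∈ Y, x ≠ y → pair x y ∈ L ∨ pair y x ∈ L

/-- The function `f` has the same value at `{a, b}` and `{a', b'}`. -/
def SameV (f a b a' b' : ZFSet.{0}) : Prop :=
  ∃ c, pair ({a, b} : ZFSet.{0}) c ∈ f ∧ pair ({a', b'} : ZFSet.{0}) c ∈ f

/-- The function `f` is canonical on the set that is linearly ordered by `L`. -/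
def Canon (f L : ZFSet.{0}) : Prop :=
  (∀ a b a' b', pair a b ∈ L → pair a' b' ∈ L → SameV f a b a' b') ∨
  (∀ a b a' b', pair a b ∈ L → pair a' b' ∈ L → (SameV f a b a' b' ↔ a = a')) ∨
  (∀ a b a' b', pair a b ∈ L → pair a' b' ∈ L → (SameV f a b a' b' ↔ b = b')) ∨
  (∀ a b a' b', pair a b ∈ L → pair a' b' ∈ L → (SameV f a b a' b' ↔ a = a' ∧ b = b'))

/-- In `M`, the canonical Ramsey theorem for pairs holds for the set `X`. -/
def CRT2 (M : Set ZFSet.{0}) (X : ZFSet.{0}) : Prop :=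
  ∀ C ∈ M, ∀ f ∈ M, ZFSet.IsFunc (Pr2 X) C f → ∃ Y ∈ M, Y ⊆ X ∧ ¬ FinIn M Y ∧
    ∃ L ∈ M, IsLin Y L ∧ Canon f L

/-- The finite sets and their complements. -/
def FCo (X : Type) : Set (Set X) := {D | D.Finite ∨ Dᶜ.Finite}

theorem countable_FCo {X : Type} [Countable X] : (FCo X).Countable := by
  have h1 : ({D : Set X | D.Finite}).Countable :=
    (Set.countable_setOf_finite_subset (Set.countable_univ (α := X))).mono
      fun D hD => And.intro hD (Set.subset_univ _)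
  refine (h1.union (h1.image compl)).mono ?_
  rintro D (hD | hD)
  · exact Or.inl hD
  · exact Or.inr ⟨Dᶜ, hD, compl_compl D⟩

section

variable {X Γ : Type} [Group Γ] [MulAction Γ X]

theorem im'_eq_image (γ : Γ) (D : Set X) : im' γ D = (fun x => γ • x) '' D := by
  ext x
  rw [mem_im']
  constructor
  · intro h
    exact ⟨_, h, smul_inv_smul _ _⟩
  · rintro ⟨y, hy, rfl⟩
    rwa [inv_smul_smul]

theorem im'_compl (γ : Γ) (D : Set X) : im' γ Dᶜ = (im' γ D)ᶜ := rfl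

theorem im'_finite {γ : Γ} {D : Set X} (h : D.Finite) : (im' γ D).Finite := by
  rw [im'_eq_image]
  exact h.image _

theorem im'_FCo (γ : Γ) {D : Set X} (h : D ∈ FCo X) : im' γ D ∈ FCo X := by
  rcases h with h | h
  · exact Or.inl (im'_finite h)
  · refine Or.inr ?_
    rw [← im'_compl]
    exact im'_finite h

theorem im'_fix {γ : Γ} {D : Set X} (h : ∀ x ∈ D, γ • x = x) : im' γ D = D := by
  ext x
  rw [mem_im']
  constructor
  · intro h1
    have h2 := h _ h1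
    rw [smul_inv_smul] at h2
    rw [h2]
    exact h1
  · intro h1
    have h2 : γ⁻¹ • x = x := by
      rw [inv_smul_eq_iff]
      exact (h x h1).symm
    rw [h2]
    exact h1

theorem sym_FCo {D : Set X} (h : D ∈ FCo X) : ∃ H ∈ (NFin X Γ).F, ∀ g ∈ H, im' g D = D := by
  have key : ∀ D : Set X, D.Finite → ∃ H ∈ (NFin X Γ).F, ∀ g ∈ H, im' g D = D := by
    intro D hD
    refine ⟨fixingSubgroup Γ ((hD.toFinset : Finset X) : Set X), ⟨hD.toFinset, fun k => ?_⟩,
      fun k hk => ?_⟩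
    · rw [mem_fixingSubgroup_iff]
      rfl
    · rw [mem_fixingSubgroup_iff] at hk
      refine im'_fix fun x hx => hk x ?_
      simpa using hx
  rcases h with h | h
  · exact key D h
  · obtain ⟨H, hH, h1⟩ := key _ h
    refine ⟨H, hH, fun g hg => ?_⟩
    have h2 := h1 g hg
    rw [im'_compl] at h2
    exact compl_injective h2

end

/-- The basic Fraenkel model. -/
abbrev FrM (M : Set ZFSet.{0}) (at' : ℕ → ZFSet.{0}) (st : Set ℕ → ZFSet.{0})
    (fam : Set (Set ℕ) → ZFSet.{0}) : Prop :=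
  PM3 (NFin ℕ (Equiv.Perm ℕ)) (FCo ℕ) ∅ nat (fun _ _ _ => False) M at' st fam

theorem exists_fr : ∃ M at' st fam, FrM M at' st fam :=
  exists_pm3 pt_NFin (FCo ℕ) countable_FCo (fun γ _ hD => im'_FCo γ hD) (fun _ hD => sym_FCo hD)
    ∅ Set.countable_empty (fun φ h => absurd h (Set.notMem_empty φ))
    (fun _ φ h => absurd h (Set.notMem_empty φ)) (fun φ h => absurd h (Set.notMem_empty φ))
    nat (fun n => .nat n) _ fun _ _ _ _ _ => Iff.rfl

theorem exists_perm2 {E : Finset ℕ} {a b x y : ℕ} (ha : a ∉ E) (hb : b ∉ E) (hx : x ∉ E)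
    (hy : y ∉ E) (hab : a ≠ b) (hxy : x ≠ y) : ∃ γ : Equiv.Perm ℕ, (∀ z ∈ E, γ z = z) ∧
      γ a = x ∧ γ b = y := by
  let γ₁ := Equiv.swap a x
  have h1 : γ₁ a = x := Equiv.swap_apply_left _ _
  have h2 : γ₁ b ≠ x := fun h => hab (γ₁.injective (h1.trans h.symm))
  have h3 : γ₁ b ∉ E := by
    by_cases h : b = x
    · rw [h, Equiv.swap_apply_right]
      exact ha
    · rw [Equiv.swap_apply_of_ne_of_ne (Ne.symm hab) h]
      exact hb
  refine ⟨γ₁.trans (Equiv.swap (γ₁ b) y), fun z hz => ?_, ?_, ?_⟩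
  · have h4 : γ₁ z = z := Equiv.swap_apply_of_ne_of_ne (fun h => ha (h ▸ hz))
      fun h => hx (h ▸ hz)
    rw [Equiv.trans_apply, h4]
    exact Equiv.swap_apply_of_ne_of_ne (fun h => h3 (h ▸ hz)) fun h => hy (h ▸ hz)
  · rw [Equiv.trans_apply, h1]
    exact Equiv.swap_apply_of_ne_of_ne h2.symm hxy
  · rw [Equiv.trans_apply]
    exact Equiv.swap_apply_left _ _

theorem ud_app : UD fun _ (v : Fin 3 → ZFSet.{0}) => pair (v 2) (v 1) ∈ v 0 := by
  (repeat' first
    | assumption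
    | exact UF.proj _
    | exact UF.om
    | exact UD.prop _
    | apply UD.not | apply UD.and | apply UD.or | apply UD.imp | apply UD.iff
    | apply UD.bex | apply UD.ball | apply UD.ex | apply UD.all
    | apply UD.eq | apply UD.mem | apply UF.pair)

theorem ud_rel : UD fun _ (v : Fin 4 → ZFSet.{0}) => pair (v 2) (v 3) ∈ v 0 := by
  (repeat' first
    | assumption
    | exact UF.proj _
    | exact UF.om
    | exact UD.prop _
    | apply UD.not | apply UD.and | apply UD.or | apply UD.imp | apply UD.iff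
    | apply UD.bex | apply UD.ball | apply UD.ex | apply UD.all
    | apply UD.eq | apply UD.mem | apply UF.pair)

namespace FrM

variable {M : Set ZFSet.{0}} {at' : ℕ → ZFSet.{0}} {st : Set ℕ → ZFSet.{0}}
  {fam : Set (Set ℕ) → ZFSet.{0}} (h : FrM M at' st fam)

include h

theorem fix_mem {H : Subgroup (Equiv.Perm ℕ)} (hH : H ∈ (NFin ℕ (Equiv.Perm ℕ)).F) :
    ∃ E : Finset ℕ, ∀ g : Equiv.Perm ℕ, (∀ x ∈ E, g x = x) → g ∈ H := by
  obtain ⟨E, hE⟩ := hH
  exact ⟨E, fun g hg => (hE g).2 hg⟩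

theorem st_pair {x y : ℕ} : st {x, y} = {at' x, at' y} := by
  have h1 : ({x, y} : Set ℕ) ∈ FCo ℕ := Or.inl (Set.toFinite _)
  refine (h.st_ext h1 (fun z hz => ?_) fun z => ?_).symm
  · rcases ZFSet.mem_pair.1 hz with rfl | rfl
    · exact ⟨x, rfl⟩
    · exact ⟨y, rfl⟩
  · rw [ZFSet.mem_pair]
    constructor
    · rintro (h2 | h2)
      · exact Or.inl (h.inj h2)
      · exact Or.inr (h.inj h2)
    · rintro (h2 | h2)
      · exact Or.inl (congrArg at' h2)
      · exact Or.inr (congrArg at' h2)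

/-- Ramsey's theorem for pairs holds for the set of the atoms. -/
theorem rt2 {n : ℕ} : RT2 M (nat n) (st Set.univ) := by
  classical
  intro c hc hcf
  have hu : (Set.univ : Set ℕ) ∈ FCo ℕ := Or.inr (by simp)
  obtain ⟨H, hH, e, h1⟩ := h.inv1 hc
  obtain ⟨E, hE⟩ := fix_mem h hH
  let F := E ∪ e
  obtain ⟨a, ha⟩ := Infinite.exists_notMem_finset F
  obtain ⟨b, hb⟩ := Infinite.exists_notMem_finset (insert a F)
  rw [Finset.mem_insert, not_or] at hb
  have hab : a ≠ b := fun h => hb.1 h.symm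
  have hpr : ∀ x y, x ≠ y → ({at' x, at' y} : ZFSet.{0}) ∈ Pr2 (st Set.univ) := fun x y hxy =>
    mem_Pr2.2 ⟨_, (h.mem_st hu).2 trivial, _, (h.mem_st hu).2 trivial, fun h1 => hxy (h.inj h1),
      rfl⟩
  obtain ⟨i, hi, -⟩ := hcf.2 _ (hpr a b hab)
  have hin : i ∈ nat n := (ZFSet.pair_mem_prod.1 (hcf.1 hi)).2
  have hcd : Cd i := by
    obtain ⟨k, -, rfl⟩ := mem_nat_iff.1 hin
    exact .nat k
  have hco : ((F : Set ℕ)ᶜ) ∈ FCo ℕ := Or.inr (by rw [compl_compl]; exact F.finite_toSet)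
  refine ⟨st ((F : Set ℕ)ᶜ), h.stM _ hco, fun z hz => ?_, fun hf => ?_, i, hin, fun z hz => ?_⟩
  · obtain ⟨x, -, rfl⟩ := (h.mst _ hco z).1 hz
    exact (h.mem_st hu).2 trivial
  · rw [h.fin_iff (h.atoms hco) (h.stM _ hco)] at hf
    refine Set.infinite_univ (α := ℕ) ((hf.union F.finite_toSet).subset fun x _ => ?_)
    by_cases hx : x ∈ (F : Set ℕ)
    · exact Or.inr hx
    · exact Or.inl ((h.mem_st hco).2 hx)
  · obtain ⟨u, hu', v, hv, huv, rfl⟩ := mem_Pr2.1 hz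
    obtain ⟨x, hx, rfl⟩ := (h.mst _ hco u).1 hu'
    obtain ⟨y, hy, rfl⟩ := (h.mst _ hco v).1 hv
    have hxF : x ∉ F := fun h1 => hx (Finset.mem_coe.2 h1)
    have hyF : y ∉ F := fun h1 => hy (Finset.mem_coe.2 h1)
    obtain ⟨γ, h2, h3, h4⟩ := exists_perm2 ha hb.2 hxF hyF hab fun h1 => huv (congrArg at' h1)
    have h5 := h1 γ (hE γ fun z hz => h2 z (Finset.mem_union_left _ hz))
      (fun z hz => h2 z (Finset.mem_union_right _ hz)) i hcd _ ud_app
      (Sum.inr (Sum.inl {a, b})) (Or.inl (Set.toFinite _)) (by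
        change pair (st {a, b}) i ∈ c
        rw [st_pair h]
        exact hi)
    have h6 : im' γ ({a, b} : Set ℕ) = {x, y} := by
      rw [im'_eq_image, Set.image_pair]
      change {γ a, γ b} = _
      rw [h3, h4]
    change pair (st (im' γ {a, b})) i ∈ c at h5
    rw [h6, st_pair h] at h5
    exact h5

/-- No infinite set of atoms has a linear order. -/
theorem no_lin {Y L : ZFSet.{0}} (hY : Y ∈ M) (hYA : Y ⊆ st Set.univ) (hinf : ¬ FinIn M Y)
    (hL : L ∈ M) (hlin : IsLin Y L) : False := by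
  classical
  have hu : (Set.univ : Set ℕ) ∈ FCo ℕ := Or.inr (by simp)
  obtain ⟨H, hH, e, h1⟩ := h.inv2 hL
  obtain ⟨E, hE⟩ := fix_mem h hH
  rw [h.fin_iff (fun z hz => h.atoms hu z (hYA hz)) hY] at hinf
  have h2 : ({x | at' x ∈ Y} \ ((E ∪ e : Finset ℕ) : Set ℕ)).Infinite :=
    Set.Infinite.diff hinf (Finset.finite_toSet _)
  obtain ⟨a, ha, b, hb, hab⟩ := h2.nontrivial
  have haF : a ∉ E ∪ e := fun h3 => ha.2 (Finset.mem_coe.2 h3)
  have hbF : b ∉ E ∪ e := fun h3 => hb.2 (Finset.mem_coe.2 h3)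
  have key : ∀ a b, a ∉ E ∪ e → b ∉ E ∪ e → a ≠ b → pair (at' a) (at' b) ∈ L → False := by
    intro a b ha hb hab h3
    obtain ⟨γ, h4, h5, h6⟩ := exists_perm2 ha hb hb ha hab hab.symm
    have h7 := h1 γ (hE γ fun z hz => h4 z (Finset.mem_union_left _ hz))
      (fun z hz => h4 z (Finset.mem_union_right _ hz)) (nat 0) (.nat 0) _ ud_rel
      (Sum.inl a) (Sum.inl b) trivial trivial h3
    change pair (at' (γ a)) (at' (γ b)) ∈ L at h7
    rw [h5, h6] at h7
    exact hlin.irr _ (hlin.tr _ _ _ h3 h7)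
  rcases hlin.tot _ ha.1 _ hb.1 fun h3 => hab (h.inj h3) with h3 | h3
  · exact key a b haF hbF hab h3
  · exact key b a hbF haF hab.symm h3

/-- The canonical Ramsey theorem fails for the set of the atoms. -/
theorem not_crt : ¬ CRT2 M (st Set.univ) := by
  intro hc
  have hu : (Set.univ : Set ℕ) ∈ FCo ℕ := Or.inr (by simp)
  have hA := h.stM _ hu
  have hP := Pr2_mem h.zf hA
  obtain ⟨Y, hY, hYA, hinf, L, hL, hlin, -⟩ := hc (nat 1) (h.zf.nat_mem 1)
    ((Pr2 (st Set.univ)).prod (nat 1)) (h.zf.prod_mem hP (h.zf.nat_mem 1))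
    ⟨fun z hz => hz, fun z hz => ⟨nat 0, ZFSet.pair_mem_prod.2 ⟨hz, mem_nat_iff.2 ⟨0, by omega, rfl⟩⟩,
      fun w hw => by
        obtain ⟨i, hi, rfl⟩ := mem_nat_iff.1 (ZFSet.pair_mem_prod.1 hw).2
        have : i = 0 := by omega
        rw [this]⟩⟩
  exact no_lin h hY hYA hinf hL hlin

end FrM

end Pool.Agent.Q211.AM
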