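import Pool.Agent.Q211.AM.Vq

/-!
# Partitions in transitive models: finitely many blocks against finite blocks
-/

set_option autoImplicit false
set_option linter.unusedSectionVars false
set_option linter.unreachableTactic false
set_option linter.unusedTactic false

namespace Pool.Agent.Q211.AM

open Pool.Agent.W868 Pool.Agent.W868.PName Pool.Agent.Q211.SY Pool.Agent.Q211.FS
open Pool.Agent.Q211.PA Pool.Agent.Q211.TP
open ZFSet (pair)
open XX

/-- `P` is a partition of `A`: a set of nonempty, pairwise disjoint subsets of `A` with union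
`A`. -/
def IsPart (A P : ZFSet.{0}) : Prop :=
  (∀ b ∈ P, b ⊆ A ∧ ∃ x, x ∈ b) ∧ ∀ x ∈ A, ∃ b ∈ P, x ∈ b ∧ ∀ c ∈ P, x ∈ c → c = b

/-- In `M`, the set of the partitions of `A` with finitely many blocks. -/
noncomputable def PartFin (M : Set ZFSet.{0}) (A : ZFSet.{0}) : ZFSet.{0} :=
  ZFSet.sep (fun P => IsPart A P ∧ FinIn M P) (PM M (PM M A))

/-- In `M`, the set of the finitary partitions of `A`: all blocks are finite. -/
noncomputable def FinPart (M : Set ZFSet.{0}) (A : ZFSet.{0}) : ZFSet.{0} :=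
  ZFSet.sep (fun P => IsPart A P ∧ ∀ b ∈ P, FinIn M b) (PM M (PM M A))

theorem mem_PPM {M : Set ZFSet.{0}} (hM : IsZF M) {A P : ZFSet.{0}} (hA : A ∈ M)
    (hP : IsPart A P) : P ∈ PM M (PM M A) ↔ P ∈ M := by
  rw [mem_PM]
  constructor
  · exact fun h => h.1
  · exact fun h => ⟨h, fun b hb => mem_PM.2 ⟨hM.trans _ h _ hb, (hP.1 b hb).1⟩⟩

theorem mem_PartFin {M : Set ZFSet.{0}} (hM : IsZF M) {A P : ZFSet.{0}} (hA : A ∈ M) :
    P ∈ PartFin M A ↔ P ∈ M ∧ IsPart A P ∧ FinIn M P := by
  rw [PartFin, ZFSet.mem_sep]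
  constructor
  · rintro ⟨h1, h2, h3⟩
    exact ⟨(mem_PPM hM hA h2).1 h1, h2, h3⟩
  · rintro ⟨h1, h2, h3⟩
    exact ⟨(mem_PPM hM hA h2).2 h1, h2, h3⟩

theorem mem_FinPart {M : Set ZFSet.{0}} (hM : IsZF M) {A P : ZFSet.{0}} (hA : A ∈ M) :
    P ∈ FinPart M A ↔ P ∈ M ∧ IsPart A P ∧ ∀ b ∈ P, FinIn M b := by
  rw [FinPart, ZFSet.mem_sep]
  constructor
  · rintro ⟨h1, h2, h3⟩
    exact ⟨(mem_PPM hM hA h2).1 h1, h2, h3⟩
  · rintro ⟨h1, h2, h3⟩
    exact ⟨(mem_PPM hM hA h2).2 h1, h2, h3⟩

section dfn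

variable {M : Set ZFSet.{0}} (hM : IsZF M)

include hM

theorem dfn_part {A : ZFSet.{0}} (hA : A ∈ M) :
    Dfn M M fun w : Fin 1 → ZFSet.{0} => IsPart A (w 0) := by
  have hB := hM.base
  have h1 : Dfn M M fun w : Fin 1 → ZFSet.{0} => (∀ b ∈ w 0, b ⊆ A ∧ ∃ x ∈ b, True) ∧
      ∀ x ∈ A, ∃ b ∈ w 0, x ∈ b ∧ ∀ c ∈ w 0, x ∈ c → c = b := by
    (repeat' first
      | assumption
      | exact DfnF.proj _
      | exact DfnF.const (by assumption)
      | exact DfnF.const' (by first | assumption | trivial) (by first | assumption | trivial)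
      | exact Dfn.prop _
      | apply hB.isFunc' | apply hB.isInj' | apply hB.isBij' | apply hB.isOrdinal'
      | apply hB.subset' | apply hB.pair' | apply hB.insert'
      | apply Dfn.not | apply Dfn.and | apply Dfn.or | apply Dfn.imp | apply Dfn.iff
      | apply hB.bex | apply hB.ball | apply Dfn.ex | apply Dfn.all
      | apply Dfn.eq | apply Dfn.mem)
  refine h1.congr fun w _ => ?_
  unfold IsPart
  simp

theorem dfn_fin : Dfn M M fun w : Fin 1 → ZFSet.{0} => FinIn M (w 0) := by
  have hB := hM.base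
  have hω := hM.infinity
  unfold FinIn
  (repeat' first
    | assumption
    | exact DfnF.proj _
    | exact DfnF.const (by assumption)
    | exact DfnF.const' (by first | assumption | trivial) (by first | assumption | trivial)
    | exact Dfn.prop _
    | apply hB.isFunc' | apply hB.isInj' | apply hB.isBij' | apply hB.isOrdinal'
    | apply hB.subset' | apply hB.pair' | apply hB.insert'
    | apply Dfn.not | apply Dfn.and | apply Dfn.or | apply Dfn.imp | apply Dfn.iff
    | apply hB.bex | apply hB.ball | apply Dfn.ex | apply Dfn.all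
    | apply Dfn.eq | apply Dfn.mem)

theorem PartFin_mem {A : ZFSet.{0}} (hA : A ∈ M) : PartFin M A ∈ M := by
  have hB := hM.base
  have h1 := dfn_part hM hA
  have h2 := dfn_fin hM
  refine hM.sep_mem (Q := fun P => IsPart A P ∧ FinIn M P) ?_ (PM_mem hM (PM_mem hM hA))
  (repeat' first
    | first | apply Dfn.comp1 (Q := fun a => IsPart A a) h1 | apply Dfn.comp1 (Q := fun a => FinIn M a) h2
    | assumption
    | exact DfnF.proj _
    | exact DfnF.const (by assumption)
    | exact DfnF.const' (by first | assumption | trivial) (by first | assumption | trivial)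
    | exact Dfn.prop _
    | apply hB.isFunc' | apply hB.isInj' | apply hB.isBij' | apply hB.isOrdinal'
    | apply hB.subset' | apply hB.pair' | apply hB.insert'
    | apply Dfn.not | apply Dfn.and | apply Dfn.or | apply Dfn.imp | apply Dfn.iff
    | apply hB.bex | apply hB.ball | apply Dfn.ex | apply Dfn.all
    | apply Dfn.eq | apply Dfn.mem)

theorem FinPart_mem {A : ZFSet.{0}} (hA : A ∈ M) : FinPart M A ∈ M := by
  have hB := hM.base
  have h1 := dfn_part hM hA
  have h2 := dfn_fin hM
  refine hM.sep_mem (Q := fun P => IsPart A P ∧ ∀ b ∈ P, FinIn M b) ?_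
    (PM_mem hM (PM_mem hM hA))
  (repeat' first
    | first | apply Dfn.comp1 (Q := fun a => IsPart A a) h1 | apply Dfn.comp1 (Q := fun a => FinIn M a) h2
    | assumption
    | exact DfnF.proj _
    | exact DfnF.const (by assumption)
    | exact DfnF.const' (by first | assumption | trivial) (by first | assumption | trivial)
    | exact Dfn.prop _
    | apply hB.isFunc' | apply hB.isInj' | apply hB.isBij' | apply hB.isOrdinal'
    | apply hB.subset' | apply hB.pair' | apply hB.insert'
    | apply Dfn.not | apply Dfn.and | apply Dfn.or | apply Dfn.imp | apply Dfn.iff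
    | apply hB.bex | apply hB.ball | apply Dfn.ex | apply Dfn.all
    | apply Dfn.eq | apply Dfn.mem)

end dfn

/-- The elements are in the same block. -/
def SmR (Q a b : ZFSet.{0}) : Prop := ∃ c ∈ Q, a ∈ c ∧ b ∈ c

theorem part_ext {A P P' : ZFSet.{0}} (hP : IsPart A P) (hP' : IsPart A P')
    (h : ∀ x ∈ A, ∀ y ∈ A, SmR P x y ↔ SmR P' x y) : P = P' := by
  have key : ∀ P P', IsPart A P → IsPart A P' →
      (∀ x ∈ A, ∀ y ∈ A, SmR P x y ↔ SmR P' x y) → ∀ b ∈ P, b ∈ P' := by
    intro P P' hP hP' h b hb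
    obtain ⟨hbA, x, hx⟩ := hP.1 b hb
    have hxA := hbA hx
    obtain ⟨b', hb', hxb', hu⟩ := hP'.2 x hxA
    obtain ⟨b₁, -, -, hu₁⟩ := hP.2 x hxA
    have h1 : b = b' := by
      ext y
      constructor
      · intro hy
        obtain ⟨c, hc, h2, h3⟩ := (h x hxA y (hbA hy)).1 ⟨b, hb, hx, hy⟩
        rw [hu c hc h2] at h3
        exact h3
      · intro hy
        obtain ⟨c, hc, h2, h3⟩ := (h x hxA y ((hP'.1 b' hb').1 hy)).2 ⟨b', hb', hxb', hy⟩
        rw [hu₁ c hc h2, ← hu₁ b hb hx] at h3
        exact h3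
    rw [h1]
    exact hb'
  ext b
  exact ⟨key P P' hP hP' h b, key P' P hP' hP (fun x hx y hy => (h x hx y hy).symm) b⟩

/-- The element is generic. -/
def GnR (M : Set ZFSet.{0}) (S Q a : ZFSet.{0}) : Prop :=
  a ∈ S ∧ ∃ F ∈ M, FinIn M F ∧ ∀ b ∈ S, SmR Q a b ∨ b ∈ F

/-- A relation that is coded by `F`. -/
def TnR (M : Set ZFSet.{0}) (F i a : ZFSet.{0}) : Prop :=
  ∃ c ∈ M, ∃ s ∈ M, pair (pair i c) s ∈ F ∧ a ∈ s

/-- A relation that is coded by `F`. -/
def TpR (M : Set ZFSet.{0}) (F i j a : ZFSet.{0}) : Prop :=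
  ∃ n ∈ M, ∃ s ∈ M, pair (pair n (pair i j)) s ∈ F ∧ a ∈ s

/-- The parameters. -/
structure Pm where
  M : Set ZFSet.{0}
  A : ZFSet.{0}
  X : ZFSet.{0}
  V : ZFSet.{0}
  F0 : ZFSet.{0}
  F1 : ZFSet.{0}
  F2 : ZFSet.{0}
  F3 : ZFSet.{0}
  u : ZFSet.{0}

namespace Pm

variable (p : Pm)

/-- The element `a` represents the index `i`. -/
def Rp (Q i a : ZFSet.{0}) : Prop :=
  (i = nat 0 ∧ GnR p.M p.X Q a) ∨ (i = nat 1 ∧ GnR p.M p.V Q a) ∨ TnR p.M p.F0 i a

/-- The index `i` is a label of the class of `a`. -/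
def Lb (Q i a : ZFSet.{0}) : Prop := ∃ b ∈ p.A, p.Rp Q i b ∧ SmR Q b a

/-- The least label. -/
def Lm (Q i a : ZFSet.{0}) : Prop := p.Lb Q i a ∧ ∀ j ∈ i, ¬ p.Lb Q j a

/-- The exceptional elements. -/
def Nn (Q a : ZFSet.{0}) : Prop :=
  (a ∈ p.X ∨ a ∈ p.V) ∧ ¬ GnR p.M p.X Q a ∧ ¬ GnR p.M p.V Q a

/-- The singletons without label. -/
def Un (Q a : ZFSet.{0}) : Prop :=
  (∀ i ∈ ZFSet.omega, ¬ p.Lb Q i a) ∧ ∀ b ∈ p.A, SmR Q a b → b = a

/-- Linked indices. -/
def Lk (Q i j : ZFSet.{0}) : Prop :=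
  ∃ a ∈ p.A, ∃ b ∈ p.A, p.Rp Q i a ∧ p.Rp Q j b ∧ SmR Q a b

/-- The coding relation. -/
def Pr (Q a b : ZFSet.{0}) : Prop :=
  a = b ∨ (p.Nn Q a ∧ p.Nn Q b ∧ (SmR Q a b ∨ (p.Un Q a ∧ p.Un Q b))) ∨
    (p.Nn Q a ∧ ∃ i ∈ ZFSet.omega, p.Lm Q i a ∧ TnR p.M p.F1 i b) ∨
    (p.Nn Q b ∧ ∃ i ∈ ZFSet.omega, p.Lm Q i b ∧ TnR p.M p.F1 i a) ∨
    (p.Nn Q a ∧ p.Un Q a ∧ b = p.u) ∨ (p.Nn Q b ∧ p.Un Q b ∧ a = p.u) ∨
    ∃ i ∈ ZFSet.omega, ∃ j ∈ ZFSet.omega, p.Lk Q i j ∧
      ((TpR p.M p.F2 i j a ∧ TpR p.M p.F3 i j b) ∨ (TpR p.M p.F2 i j b ∧ TpR p.M p.F3 i j a))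

/-- The parameters are in the model. -/
structure Ok : Prop where
  zf : IsZF p.M
  A : p.A ∈ p.M
  X : p.X ∈ p.M
  V : p.V ∈ p.M
  F0 : p.F0 ∈ p.M
  F1 : p.F1 ∈ p.M
  F2 : p.F2 ∈ p.M
  F3 : p.F3 ∈ p.M
  u : p.u ∈ p.M

variable {p} (h : p.Ok)

theorem dfn_sm {M : Set ZFSet.{0}} (hM : IsZF M) :
    Dfn M M fun w : Fin 3 → ZFSet.{0} => SmR (w 0) (w 1) (w 2) := by
  have hB := hM.base
  unfold SmR
  (repeat' first
    | assumption
    | exact DfnF.proj _
    | exact DfnF.const (by assumption)
    | exact DfnF.const' (by first | assumption | trivial) (by first | assumption | trivial)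
    | exact Dfn.prop _
    | apply hB.isFunc' | apply hB.isInj' | apply hB.isBij' | apply hB.isOrdinal'
    | apply hB.subset' | apply hB.pair' | apply hB.insert'
    | apply Dfn.not | apply Dfn.and | apply Dfn.or | apply Dfn.imp | apply Dfn.iff
    | apply hB.bex | apply hB.ball | apply Dfn.ex | apply Dfn.all
    | apply Dfn.eq | apply Dfn.mem)

theorem dfn_gn {M : Set ZFSet.{0}} (hM : IsZF M) {S : ZFSet.{0}} (hS : S ∈ M) :
    Dfn M M fun w : Fin 2 → ZFSet.{0} => GnR M S (w 0) (w 1) := by
  have hB := hM.base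
  have h1 := dfn_sm hM
  have h2 := dfn_fin hM
  unfold GnR
  (repeat' first
    | first | apply Dfn.comp3 (Q := fun a b c => SmR a b c) h1 | apply Dfn.comp1 (Q := fun a => FinIn M a) h2
    | assumption
    | exact DfnF.proj _
    | exact DfnF.const (by assumption)
    | exact DfnF.const' (by first | assumption | trivial) (by first | assumption | trivial)
    | exact Dfn.prop _
    | apply hB.isFunc' | apply hB.isInj' | apply hB.isBij' | apply hB.isOrdinal'
    | apply hB.subset' | apply hB.pair' | apply hB.insert'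
    | apply Dfn.not | apply Dfn.and | apply Dfn.or | apply Dfn.imp | apply Dfn.iff
    | apply hB.bex | apply hB.ball | apply Dfn.ex | apply Dfn.all
    | apply Dfn.eq | apply Dfn.mem)

theorem dfn_tn {M : Set ZFSet.{0}} (hM : IsZF M) {F : ZFSet.{0}} (hF : F ∈ M) :
    Dfn M M fun w : Fin 2 → ZFSet.{0} => TnR M F (w 0) (w 1) := by
  have hB := hM.base
  unfold TnR
  (repeat' first
    | assumption
    | exact DfnF.proj _
    | exact DfnF.const (by assumption)
    | exact DfnF.const' (by first | assumption | trivial) (by first | assumption | trivial)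
    | exact Dfn.prop _
    | apply hB.isFunc' | apply hB.isInj' | apply hB.isBij' | apply hB.isOrdinal'
    | apply hB.subset' | apply hB.pair' | apply hB.insert'
    | apply Dfn.not | apply Dfn.and | apply Dfn.or | apply Dfn.imp | apply Dfn.iff
    | apply hB.bex | apply hB.ball | apply Dfn.ex | apply Dfn.all
    | apply Dfn.eq | apply Dfn.mem)

theorem dfn_tp {M : Set ZFSet.{0}} (hM : IsZF M) {F : ZFSet.{0}} (hF : F ∈ M) :
    Dfn M M fun w : Fin 3 → ZFSet.{0} => TpR M F (w 0) (w 1) (w 2) := by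
  have hB := hM.base
  unfold TpR
  (repeat' first
    | assumption
    | exact DfnF.proj _
    | exact DfnF.const (by assumption)
    | exact DfnF.const' (by first | assumption | trivial) (by first | assumption | trivial)
    | exact Dfn.prop _
    | apply hB.isFunc' | apply hB.isInj' | apply hB.isBij' | apply hB.isOrdinal'
    | apply hB.subset' | apply hB.pair' | apply hB.insert'
    | apply Dfn.not | apply Dfn.and | apply Dfn.or | apply Dfn.imp | apply Dfn.iff
    | apply hB.bex | apply hB.ball | apply Dfn.ex | apply Dfn.all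
    | apply Dfn.eq | apply Dfn.mem)

include h

theorem dfn_rp : Dfn p.M p.M fun w : Fin 3 → ZFSet.{0} => p.Rp (w 0) (w 1) (w 2) := by
  have hM := h.zf
  have hB := hM.base
  have h0 := hM.nat_mem 0
  have h1 := hM.nat_mem 1
  have g1 := dfn_gn hM h.X
  have g2 := dfn_gn hM h.V
  have g3 := dfn_tn hM h.F0
  unfold Rp
  (repeat' first
    | first | apply Dfn.comp2 (Q := fun a b => GnR p.M p.X a b) g1 | apply Dfn.comp2 (Q := fun a b => GnR p.M p.V a b) g2 | apply Dfn.comp2 (Q := fun a b => TnR p.M p.F0 a b) g3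
    | assumption
    | exact DfnF.proj _
    | exact DfnF.const (by assumption)
    | exact DfnF.const' (by first | assumption | trivial) (by first | assumption | trivial)
    | exact Dfn.prop _
    | apply hB.isFunc' | apply hB.isInj' | apply hB.isBij' | apply hB.isOrdinal'
    | apply hB.subset' | apply hB.pair' | apply hB.insert'
    | apply Dfn.not | apply Dfn.and | apply Dfn.or | apply Dfn.imp | apply Dfn.iff
    | apply hB.bex | apply hB.ball | apply Dfn.ex | apply Dfn.all
    | apply Dfn.eq | apply Dfn.mem)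

theorem dfn_lb : Dfn p.M p.M fun w : Fin 3 → ZFSet.{0} => p.Lb (w 0) (w 1) (w 2) := by
  have hM := h.zf
  have hB := hM.base
  have hA := h.A
  have g1 := dfn_rp h
  have g2 := dfn_sm hM
  unfold Lb
  (repeat' first
    | first | apply Dfn.comp3 (Q := fun a b c => p.Rp a b c) g1 | apply Dfn.comp3 (Q := fun a b c => SmR a b c) g2
    | assumption
    | exact DfnF.proj _
    | exact DfnF.const (by assumption)
    | exact DfnF.const' (by first | assumption | trivial) (by first | assumption | trivial)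
    | exact Dfn.prop _
    | apply hB.isFunc' | apply hB.isInj' | apply hB.isBij' | apply hB.isOrdinal'
    | apply hB.subset' | apply hB.pair' | apply hB.insert'
    | apply Dfn.not | apply Dfn.and | apply Dfn.or | apply Dfn.imp | apply Dfn.iff
    | apply hB.bex | apply hB.ball | apply Dfn.ex | apply Dfn.all
    | apply Dfn.eq | apply Dfn.mem)

theorem dfn_lm : Dfn p.M p.M fun w : Fin 3 → ZFSet.{0} => p.Lm (w 0) (w 1) (w 2) := by
  have hM := h.zf
  have hB := hM.base
  have g1 := dfn_lb h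
  unfold Lm
  (repeat' first
    | first | apply Dfn.comp3 (Q := fun a b c => p.Lb a b c) g1
    | assumption
    | exact DfnF.proj _
    | exact DfnF.const (by assumption)
    | exact DfnF.const' (by first | assumption | trivial) (by first | assumption | trivial)
    | exact Dfn.prop _
    | apply hB.isFunc' | apply hB.isInj' | apply hB.isBij' | apply hB.isOrdinal'
    | apply hB.subset' | apply hB.pair' | apply hB.insert'
    | apply Dfn.not | apply Dfn.and | apply Dfn.or | apply Dfn.imp | apply Dfn.iff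
    | apply hB.bex | apply hB.ball | apply Dfn.ex | apply Dfn.all
    | apply Dfn.eq | apply Dfn.mem)

theorem dfn_nn : Dfn p.M p.M fun w : Fin 2 → ZFSet.{0} => p.Nn (w 0) (w 1) := by
  have hM := h.zf
  have hB := hM.base
  have hX := h.X
  have hV := h.V
  have g1 := dfn_gn hM h.X
  have g2 := dfn_gn hM h.V
  unfold Nn
  (repeat' first
    | first | apply Dfn.comp2 (Q := fun a b => GnR p.M p.X a b) g1 | apply Dfn.comp2 (Q := fun a b => GnR p.M p.V a b) g2
    | assumption
    | exact DfnF.proj _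
    | exact DfnF.const (by assumption)
    | exact DfnF.const' (by first | assumption | trivial) (by first | assumption | trivial)
    | exact Dfn.prop _
    | apply hB.isFunc' | apply hB.isInj' | apply hB.isBij' | apply hB.isOrdinal'
    | apply hB.subset' | apply hB.pair' | apply hB.insert'
    | apply Dfn.not | apply Dfn.and | apply Dfn.or | apply Dfn.imp | apply Dfn.iff
    | apply hB.bex | apply hB.ball | apply Dfn.ex | apply Dfn.all
    | apply Dfn.eq | apply Dfn.mem)

theorem dfn_un : Dfn p.M p.M fun w : Fin 2 → ZFSet.{0} => p.Un (w 0) (w 1) := by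
  have hM := h.zf
  have hB := hM.base
  have hA := h.A
  have hω := hM.infinity
  have g1 := dfn_lb h
  have g2 := dfn_sm hM
  unfold Un
  (repeat' first
    | first | apply Dfn.comp3 (Q := fun a b c => p.Lb a b c) g1 | apply Dfn.comp3 (Q := fun a b c => SmR a b c) g2
    | assumption
    | exact DfnF.proj _
    | exact DfnF.const (by assumption)
    | exact DfnF.const' (by first | assumption | trivial) (by first | assumption | trivial)
    | exact Dfn.prop _
    | apply hB.isFunc' | apply hB.isInj' | apply hB.isBij' | apply hB.isOrdinal'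
    | apply hB.subset' | apply hB.pair' | apply hB.insert'
    | apply Dfn.not | apply Dfn.and | apply Dfn.or | apply Dfn.imp | apply Dfn.iff
    | apply hB.bex | apply hB.ball | apply Dfn.ex | apply Dfn.all
    | apply Dfn.eq | apply Dfn.mem)

theorem dfn_lk : Dfn p.M p.M fun w : Fin 3 → ZFSet.{0} => p.Lk (w 0) (w 1) (w 2) := by
  have hM := h.zf
  have hB := hM.base
  have hA := h.A
  have g1 := dfn_rp h
  have g2 := dfn_sm hM
  unfold Lk
  (repeat' first
    | first | apply Dfn.comp3 (Q := fun a b c => p.Rp a b c) g1 | apply Dfn.comp3 (Q := fun a b c => SmR a b c) g2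
    | assumption
    | exact DfnF.proj _
    | exact DfnF.const (by assumption)
    | exact DfnF.const' (by first | assumption | trivial) (by first | assumption | trivial)
    | exact Dfn.prop _
    | apply hB.isFunc' | apply hB.isInj' | apply hB.isBij' | apply hB.isOrdinal'
    | apply hB.subset' | apply hB.pair' | apply hB.insert'
    | apply Dfn.not | apply Dfn.and | apply Dfn.or | apply Dfn.imp | apply Dfn.iff
    | apply hB.bex | apply hB.ball | apply Dfn.ex | apply Dfn.all
    | apply Dfn.eq | apply Dfn.mem)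

theorem dfn_pr : Dfn p.M p.M fun w : Fin 3 → ZFSet.{0} => p.Pr (w 0) (w 1) (w 2) := by
  have hM := h.zf
  have hB := hM.base
  have hA := h.A
  have hω := hM.infinity
  have hu := h.u
  have g1 := dfn_nn h
  have g2 := dfn_sm hM
  have g3 := dfn_un h
  have g4 := dfn_lm h
  have g5 := dfn_lk h
  have g6 := dfn_tn hM h.F1
  have g7 := dfn_tp hM h.F2
  have g8 := dfn_tp hM h.F3
  unfold Pr
  (repeat' first
    | first | apply Dfn.comp2 (Q := fun a b => p.Nn a b) g1 | apply Dfn.comp3 (Q := fun a b c => SmR a b c) g2 | apply Dfn.comp2 (Q := fun a b => p.Un a b) g3 | apply Dfn.comp3 (Q := fun a b c => p.Lm a b c) g4 | apply Dfn.comp3 (Q := fun a b c => p.Lk a b c) g5 | apply Dfn.comp2 (Q := fun a b => TnR p.M p.F1 a b) g6 | apply Dfn.comp3 (Q := fun a b c => TpR p.M p.F2 a b c) g7 | apply Dfn.comp3 (Q := fun a b c => TpR p.M p.F3 a b c) g8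
    | assumption
    | exact DfnF.proj _
    | exact DfnF.const (by assumption)
    | exact DfnF.const' (by first | assumption | trivial) (by first | assumption | trivial)
    | exact Dfn.prop _
    | apply hB.isFunc' | apply hB.isInj' | apply hB.isBij' | apply hB.isOrdinal'
    | apply hB.subset' | apply hB.pair' | apply hB.insert'
    | apply Dfn.not | apply Dfn.and | apply Dfn.or | apply Dfn.imp | apply Dfn.iff
    | apply hB.bex | apply hB.ball | apply Dfn.ex | apply Dfn.all
    | apply Dfn.eq | apply Dfn.mem)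

end Pm

end Pool.Agent.Q211.AM
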