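import Pool.Agent.Q211.AM.Vm

/-!
# The injection of the partitions with finitely many blocks into the finitary partitions
-/

set_option autoImplicit false
set_option linter.unusedSectionVars false
set_option linter.unreachableTactic false
set_option linter.unusedTactic false

namespace Pool.Agent.Q211.AM

open Pool.Agent.W868 Pool.Agent.W868.PName Pool.Agent.Q211.SY Pool.Agent.Q211.FS
open Pool.Agent.Q211.PA Pool.Agent.Q211.TP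
open ZFSet (pair)
open XX

/-- The relation given by a partition. -/
def qr (at' : XX → ZFSet.{0}) (Q : ZFSet.{0}) (x y : XX) : Prop := SmR Q (at' x) (at' y)

namespace VxM

variable {M : Set ZFSet.{0}} {at' : XX → ZFSet.{0}} {st : Set XX → ZFSet.{0}}
  {fam : Set (Set XX) → ZFSet.{0}} (h : VxM M at' st fam)

include h

theorem exA {P : ZFSet.{0} → Prop} : (∃ b ∈ st Set.univ, P b) ↔ ∃ y, P (at' y) := by
  constructor
  · rintro ⟨b, hb, h1⟩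
    obtain ⟨y, -, rfl⟩ := (h.mst _ univ_DX b).1 hb
    exact ⟨y, h1⟩
  · rintro ⟨y, h1⟩
    exact ⟨_, (h.mem_st univ_DX).2 trivial, h1⟩

theorem allA {P : ZFSet.{0} → Prop} : (∀ b ∈ st Set.univ, P b) ↔ ∀ y, P (at' y) := by
  constructor
  · intro h1 y
    exact h1 _ ((h.mem_st univ_DX).2 trivial)
  · intro h1 b hb
    obtain ⟨y, -, rfl⟩ := (h.mst _ univ_DX b).1 hb
    exact h1 y

theorem memX {z : XX} : at' z ∈ st XP ↔ ∃ x, z = xa x := by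
  rw [h.mem_st XP_DX]
  exact ⟨fun ⟨x, hx⟩ => ⟨x, hx.symm⟩, fun ⟨x, hx⟩ => ⟨x, hx.symm⟩⟩

theorem memV {z : XX} : at' z ∈ st VP ↔ ∃ x, z = va x := by
  rw [h.mem_st VP_DX]
  exact ⟨fun ⟨x, hx⟩ => ⟨x, hx.symm⟩, fun ⟨x, hx⟩ => ⟨x, hx.symm⟩⟩

theorem tn_iff {k : ℕ} {F : ZFSet.{0}}
    (hF : ∀ z, z ∈ F ↔ ∃ n : ℕ, ∃ D ∈ DX, RlX k n D ∧ z = pair (cdX n) (st D)) {i : ℕ} {x : XX} :
    TnR M F (nat i) (at' x) ↔ ∃ D ∈ DX, RlX k i D ∧ x ∈ D := by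
  constructor
  · rintro ⟨c, -, s, -, h1, h2⟩
    obtain ⟨n, D, hD, h3, h4⟩ := (hF _).1 h1
    obtain ⟨h5, rfl⟩ := ZFSet.pair_injective h4
    obtain ⟨h6, -⟩ := ZFSet.pair_injective h5
    obtain rfl := nat_injective h6
    exact ⟨D, hD, h3, (h.mem_st hD).1 h2⟩
  · rintro ⟨D, hD, h1, h2⟩
    have hM := h.zf
    exact ⟨_, hM.pair_mem (hM.nat_mem _) (hM.nat_mem _), st D, h.stM _ hD,
      (hF _).2 ⟨i, D, hD, h1, rfl⟩, (h.mem_st hD).2 h2⟩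

theorem tp_iff {k : ℕ} {F : ZFSet.{0}}
    (hF : ∀ z, z ∈ F ↔ ∃ n : ℕ, ∃ D ∈ DX, RlX k n D ∧ z = pair (cdX n) (st D)) {i j : ℕ} {x : XX} :
    TpR M F (nat i) (nat j) (at' x) ↔ ∃ D ∈ DX, RlX k (Nat.pair i j) D ∧ x ∈ D := by
  constructor
  · rintro ⟨m, -, s, -, h1, h2⟩
    obtain ⟨n, D, hD, h3, h4⟩ := (hF _).1 h1
    obtain ⟨h5, rfl⟩ := ZFSet.pair_injective h4
    obtain ⟨-, h6⟩ := ZFSet.pair_injective h5
    obtain ⟨h7, h8⟩ := ZFSet.pair_injective h6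
    have h9 : Nat.pair i j = n := by
      rw [nat_injective h7, nat_injective h8, Nat.pair_unpair]
    rw [h9]
    exact ⟨D, hD, h3, (h.mem_st hD).1 h2⟩
  · rintro ⟨D, hD, h1, h2⟩
    have hM := h.zf
    refine ⟨nat (Nat.pair i j), hM.nat_mem _, st D, h.stM _ hD,
      (hF _).2 ⟨Nat.pair i j, D, hD, h1, ?_⟩, (h.mem_st hD).2 h2⟩
    unfold cdX
    rw [Nat.unpair_pair]

theorem tn0 {F : ZFSet.{0}}
    (hF : ∀ z, z ∈ F ↔ ∃ n : ℕ, ∃ D ∈ DX, RlX 0 n D ∧ z = pair (cdX n) (st D)) {i : ℕ} {x : XX} :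
    TnR M F (nat i) (at' x) ↔ ∃ m, i = m + 2 ∧ x = ca m := by
  rw [tn_iff h hF]
  constructor
  · rintro ⟨D, hD, ⟨-, m, rfl, rfl⟩ | ⟨h1, -⟩ | ⟨h1, -⟩ | ⟨h1, -⟩, h2⟩
    · exact ⟨m, rfl, h2⟩
    · omega
    · omega
    · omega
  · rintro ⟨m, rfl, rfl⟩
    exact ⟨{ca m}, finite_DX (Set.finite_singleton _), Or.inl ⟨rfl, m, rfl, rfl⟩, rfl⟩

theorem tn1 {F : ZFSet.{0}}
    (hF : ∀ z, z ∈ F ↔ ∃ n : ℕ, ∃ D ∈ DX, RlX 1 n D ∧ z = pair (cdX n) (st D)) {i : ℕ} {x : XX} :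
    TnR M F (nat i) (at' x) ↔ x = ca (4 * i) := by
  rw [tn_iff h hF]
  constructor
  · rintro ⟨D, hD, ⟨h1, -⟩ | ⟨-, rfl⟩ | ⟨h1, -⟩ | ⟨h1, -⟩, h2⟩
    · omega
    · exact h2
    · omega
    · omega
  · rintro rfl
    exact ⟨{ca (4 * i)}, finite_DX (Set.finite_singleton _), Or.inr (Or.inl ⟨rfl, rfl⟩), rfl⟩

theorem tp2 {F : ZFSet.{0}}
    (hF : ∀ z, z ∈ F ↔ ∃ n : ℕ, ∃ D ∈ DX, RlX 2 n D ∧ z = pair (cdX n) (st D)) {i j : ℕ} {x : XX} :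
    TpR M F (nat i) (nat j) (at' x) ↔ x = ca (4 * Nat.pair i j + 1) := by
  rw [tp_iff h hF]
  constructor
  · rintro ⟨D, hD, ⟨h1, -⟩ | ⟨h1, -⟩ | ⟨-, rfl⟩ | ⟨h1, -⟩, h2⟩
    · omega
    · omega
    · exact h2
    · omega
  · rintro rfl
    exact ⟨{ca (4 * Nat.pair i j + 1)}, finite_DX (Set.finite_singleton _),
      Or.inr (Or.inr (Or.inl ⟨rfl, rfl⟩)), rfl⟩

theorem tp3 {F : ZFSet.{0}}
    (hF : ∀ z, z ∈ F ↔ ∃ n : ℕ, ∃ D ∈ DX, RlX 3 n D ∧ z = pair (cdX n) (st D)) {i j : ℕ} {x : XX} :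
    TpR M F (nat i) (nat j) (at' x) ↔ x = ca (4 * Nat.pair i j + 2) := by
  rw [tp_iff h hF]
  constructor
  · rintro ⟨D, hD, ⟨h1, -⟩ | ⟨h1, -⟩ | ⟨h1, -⟩ | ⟨-, rfl⟩, h2⟩
    · omega
    · omega
    · omega
    · exact h2
  · rintro rfl
    exact ⟨{ca (4 * Nat.pair i j + 2)}, finite_DX (Set.finite_singleton _),
      Or.inr (Or.inr (Or.inr ⟨rfl, rfl⟩)), rfl⟩

theorem gnX {Q : ZFSet.{0}} {z : XX} : GnR M (st XP) Q (at' z) ↔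
    (∃ x, z = xa x) ∧ gen (qr at' Q) z := by
  constructor
  · rintro ⟨h1, F, hFM, hF, h2⟩
    obtain ⟨x, rfl⟩ := (memX h).1 h1
    refine ⟨⟨x, rfl⟩, ?_⟩
    have h3 : {z | z ∈ F}.Finite := (finite_iff h.zf hFM).2 hF
    have h4 : Function.Injective fun y => at' (xa y) := fun a b hab => xa_inj.1 (h.inj hab)
    refine (h3.preimage h4.injOn).subset fun y hy => ?_
    rcases h2 (at' (xa y)) ((memX h).2 ⟨y, rfl⟩) with h5 | h5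
    · exact absurd h5 hy
    · exact h5
  · rintro ⟨⟨x, rfl⟩, h1⟩
    have h2 : {y | ¬ qr at' Q (xa x) (xa y)}.Finite := h1
    have h3 : (xa '' {y | ¬ qr at' Q (xa x) (xa y)}) ∈ DX := finite_DX (h2.image _)
    refine ⟨(memX h).2 ⟨x, rfl⟩, st (xa '' {y | ¬ qr at' Q (xa x) (xa y)}), h.stM _ h3, ?_, ?_⟩
    · rw [h.fin_iff (h.atoms h3) (h.stM _ h3)]
      refine (h2.image xa).subset fun y hy => ?_
      exact (h.mem_st h3).1 hy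
    · intro b hb
      obtain ⟨z, ⟨y, rfl⟩, rfl⟩ := (h.mst _ XP_DX b).1 hb
      by_cases h4 : qr at' Q (xa x) (xa y)
      · exact Or.inl h4
      · exact Or.inr ((h.mem_st h3).2 ⟨y, h4, rfl⟩)

theorem gnV {Q : ZFSet.{0}} {z : XX} : GnR M (st VP) Q (at' z) ↔
    (∃ x, z = va x) ∧ gen (qr at' Q) z := by
  constructor
  · rintro ⟨h1, F, hFM, hF, h2⟩
    obtain ⟨x, rfl⟩ := (memV h).1 h1
    refine ⟨⟨x, rfl⟩, ?_⟩
    have h3 : {z | z ∈ F}.Finite := (finite_iff h.zf hFM).2 hF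
    have h4 : Function.Injective fun y => at' (va y) := fun a b hab => va_inj.1 (h.inj hab)
    refine (h3.preimage h4.injOn).subset fun y hy => ?_
    rcases h2 (at' (va y)) ((memV h).2 ⟨y, rfl⟩) with h5 | h5
    · exact absurd h5 hy
    · exact h5
  · rintro ⟨⟨x, rfl⟩, h1⟩
    have h2 : {y | ¬ qr at' Q (va x) (va y)}.Finite := h1
    have h3 : (va '' {y | ¬ qr at' Q (va x) (va y)}) ∈ DX := finite_DX (h2.image _)
    refine ⟨(memV h).2 ⟨x, rfl⟩, st (va '' {y | ¬ qr at' Q (va x) (va y)}), h.stM _ h3, ?_, ?_⟩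
    · rw [h.fin_iff (h.atoms h3) (h.stM _ h3)]
      refine (h2.image va).subset fun y hy => ?_
      exact (h.mem_st h3).1 hy
    · intro b hb
      obtain ⟨z, ⟨y, rfl⟩, rfl⟩ := (h.mst _ VP_DX b).1 hb
      by_cases h4 : qr at' Q (va x) (va y)
      · exact Or.inl h4
      · exact Or.inr ((h.mem_st h3).2 ⟨y, h4, rfl⟩)

end VxM

/-- The parameters are the intended ones. -/
structure PmOk (p : Pm) (at' : XX → ZFSet.{0}) (st : Set XX → ZFSet.{0})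
    (fam : Set (Set XX) → ZFSet.{0}) : Prop where
  h : VxM p.M at' st fam
  A : p.A = st Set.univ
  X : p.X = st XP
  V : p.V = st VP
  u : p.u = at' (ca 3)
  F0M : p.F0 ∈ p.M
  F1M : p.F1 ∈ p.M
  F2M : p.F2 ∈ p.M
  F3M : p.F3 ∈ p.M
  F0 : ∀ z, z ∈ p.F0 ↔ ∃ n : ℕ, ∃ D ∈ DX, RlX 0 n D ∧ z = pair (cdX n) (st D)
  F1 : ∀ z, z ∈ p.F1 ↔ ∃ n : ℕ, ∃ D ∈ DX, RlX 1 n D ∧ z = pair (cdX n) (st D)
  F2 : ∀ z, z ∈ p.F2 ↔ ∃ n : ℕ, ∃ D ∈ DX, RlX 2 n D ∧ z = pair (cdX n) (st D)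
  F3 : ∀ z, z ∈ p.F3 ↔ ∃ n : ℕ, ∃ D ∈ DX, RlX 3 n D ∧ z = pair (cdX n) (st D)

theorem exists_pm {M : Set ZFSet.{0}} {at' : XX → ZFSet.{0}} {st : Set XX → ZFSet.{0}}
    {fam : Set (Set XX) → ZFSet.{0}} (h : VxM M at' st fam) :
    ∃ p : Pm, p.M = M ∧ PmOk p at' st fam := by
  obtain ⟨F0, hF0, h0⟩ := h.rl 0
  obtain ⟨F1, hF1, h1⟩ := h.rl 1
  obtain ⟨F2, hF2, h2⟩ := h.rl 2
  obtain ⟨F3, hF3, h3⟩ := h.rl 3
  exact ⟨⟨M, st Set.univ, st XP, st VP, F0, F1, F2, F3, at' (ca 3)⟩, rfl,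
    ⟨h, rfl, rfl, rfl, rfl, hF0, hF1, hF2, hF3, h0, h1, h2, h3⟩⟩

namespace PmOk

variable {p : Pm} {at' : XX → ZFSet.{0}} {st : Set XX → ZFSet.{0}}
  {fam : Set (Set XX) → ZFSet.{0}} (ok : PmOk p at' st fam)

include ok

theorem ok' : p.Ok where
  zf := ok.h.zf
  A := by rw [ok.A]; exact ok.h.stM _ univ_DX
  X := by rw [ok.X]; exact ok.h.stM _ XP_DX
  V := by rw [ok.V]; exact ok.h.stM _ VP_DX
  F0 := ok.F0M
  F1 := ok.F1M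
  F2 := ok.F2M
  F3 := ok.F3M
  u := by rw [ok.u]; exact ok.h.atM _

variable {Q : ZFSet.{0}}

theorem rp_iff {i : ℕ} {z : XX} : p.Rp Q (nat i) (at' z) ↔ rep (qr at' Q) i z := by
  unfold Pm.Rp rep
  rw [ok.X, ok.V, VxM.gnX ok.h, VxM.gnV ok.h, VxM.tn0 ok.h ok.F0]
  have h1 : ∀ j, nat i = nat j ↔ i = j := fun j =>
    ⟨fun h => nat_injective h, fun h => congrArg nat h⟩
  rw [h1, h1]

theorem lb_iff {i : ℕ} {z : XX} : p.Lb Q (nat i) (at' z) ↔ LL (qr at' Q) i z := by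
  unfold Pm.Lb LL
  rw [ok.A, VxM.exA ok.h]
  exact exists_congr fun y => and_congr (rp_iff ok) Iff.rfl

theorem lm_iff {i : ℕ} {z : XX} : p.Lm Q (nat i) (at' z) ↔ LM (qr at' Q) i z := by
  unfold Pm.Lm LM
  rw [lb_iff ok]
  refine and_congr_right fun _ => ?_
  constructor
  · intro h1 j hj h2
    exact h1 (nat j) (mem_nat_iff.2 ⟨j, hj, rfl⟩) ((lb_iff ok).2 h2)
  · intro h1 j hj h2
    obtain ⟨k, hk, rfl⟩ := mem_nat_iff.1 hj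
    exact h1 k hk ((lb_iff ok).1 h2)

theorem nn_iff {z : XX} : p.Nn Q (at' z) ↔ NN (qr at' Q) z := by
  unfold Pm.Nn NN
  rw [ok.X, ok.V, VxM.gnX ok.h, VxM.gnV ok.h, VxM.memX ok.h, VxM.memV ok.h]
  rcases z with z | z | z
  · constructor
    · rintro ⟨-, h1, -⟩
      exact ⟨fun n hn => (by cases hn), fun h2 => h1 ⟨⟨z, rfl⟩, h2⟩⟩
    · rintro ⟨-, h1⟩
      exact ⟨Or.inl ⟨z, rfl⟩, fun h2 => h1 h2.2, fun h2 => h1 h2.2⟩
  · constructor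
    · rintro ⟨-, -, h1⟩
      exact ⟨fun n hn => (by cases hn), fun h2 => h1 ⟨⟨z, rfl⟩, h2⟩⟩
    · rintro ⟨-, h1⟩
      exact ⟨Or.inr ⟨z, rfl⟩, fun h2 => h1 h2.2, fun h2 => h1 h2.2⟩
  · constructor
    · rintro ⟨⟨x, hx⟩ | ⟨x, hx⟩, -⟩ <;> cases hx
    · rintro ⟨h1, -⟩
      exact absurd rfl (h1 z)

theorem un_iff {z : XX} : p.Un Q (at' z) ↔ UN (qr at' Q) z := by
  unfold Pm.Un UN
  rw [ok.A, VxM.allA ok.h]
  refine and_congr ?_ (forall_congr' fun y => imp_congr Iff.rfl ok.h.inj.eq_iff)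
  constructor
  · intro h1 i hi
    exact h1 (nat i) (mem_omega_iff.2 ⟨i, rfl⟩) ((lb_iff ok).2 hi)
  · intro h1 i hi h2
    obtain ⟨i, rfl⟩ := mem_omega_iff.1 hi
    exact h1 i ((lb_iff ok).1 h2)

theorem lk_iff {i j : ℕ} : p.Lk Q (nat i) (nat j) ↔ LK (qr at' Q) i j := by
  unfold Pm.Lk LK
  rw [ok.A, VxM.exA ok.h]
  refine exists_congr fun x => ?_
  rw [VxM.exA ok.h]
  exact exists_congr fun y => and_congr (rp_iff ok) (and_congr (rp_iff ok) Iff.rfl)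

theorem exω {P : ZFSet.{0} → Prop} : (∃ i ∈ ZFSet.omega, P i) ↔ ∃ i : ℕ, P (nat i) := by
  constructor
  · rintro ⟨i, hi, h1⟩
    obtain ⟨i, rfl⟩ := mem_omega_iff.1 hi
    exact ⟨i, h1⟩
  · rintro ⟨i, h1⟩
    exact ⟨_, mem_omega_iff.2 ⟨i, rfl⟩, h1⟩

theorem pr_iff {x y : XX} : p.Pr Q (at' x) (at' y) ↔ pf (qr at' Q) x y := by
  unfold Pm.Pr pf
  rw [ok.u]
  refine or_congr ok.h.inj.eq_iff (or_congr ?_ (or_congr ?_ (or_congr ?_ (or_congr ?_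
    (or_congr ?_ ?_)))))
  · rw [nn_iff ok, nn_iff ok, un_iff ok, un_iff ok]
    exact Iff.rfl
  · rw [nn_iff ok, exω ok]
    refine and_congr_right fun _ => exists_congr fun i => ?_
    rw [lm_iff ok, VxM.tn1 ok.h ok.F1]
  · rw [nn_iff ok, exω ok]
    refine and_congr_right fun _ => exists_congr fun i => ?_
    rw [lm_iff ok, VxM.tn1 ok.h ok.F1]
  · rw [nn_iff ok, un_iff ok, ok.h.inj.eq_iff]
  · rw [nn_iff ok, un_iff ok, ok.h.inj.eq_iff]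
  · rw [exω ok]
    refine exists_congr fun i => ?_
    rw [exω ok]
    refine exists_congr fun j => ?_
    rw [lk_iff ok, VxM.tp2 ok.h ok.F2, VxM.tp2 ok.h ok.F2, VxM.tp3 ok.h ok.F3,
      VxM.tp3 ok.h ok.F3]

end PmOk

end Pool.Agent.Q211.AM
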