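import Pool.Agent.Q211.AM.Vm2

/-!
# The injection of the partitions with finitely many blocks into the finitary partitions, 2
-/

set_option autoImplicit false
set_option linter.unusedSectionVars false
set_option linter.unreachableTactic false
set_option linter.unusedTactic false

namespace Pool.Agent.Q211.AM

open Pool.Agent.W868 Pool.Agent.W868.PName Pool.Agent.Q211.SY Pool.Agent.Q211.FS
open Pool.Agent.Q211.PA Pool.Agent.Q211.TP
open ZFSet (pair)
open XX

theorem ud_mem' : UD fun _ (v : Fin 3 → ZFSet.{0}) => v 2 ∈ v 0 := by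
  (repeat' first
    | assumption
    | exact UF.proj _
    | exact UF.om
    | exact UD.prop _
    | apply UD.not | apply UD.and | apply UD.or | apply UD.imp | apply UD.iff
    | apply UD.bex | apply UD.ball | apply UD.ex | apply UD.all
    | apply UD.eq | apply UD.mem | apply UF.pair)

/-- Finite subspaces. -/
theorem exists_fin_sub (s : Set VV) (hs : s.Finite) : ∃ S : Submodule (ZMod 2) VV,
    s ⊆ S ∧ (S : Set VV).Finite := by
  refine ⟨Submodule.span (ZMod 2) s, Submodule.subset_span, ?_⟩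
  have h1 : Module.Finite (ZMod 2) (Submodule.span (ZMod 2) s) :=
    Module.Finite.iff_fg.2 (Submodule.fg_span hs)
  have h2 : Finite (Submodule.span (ZMod 2) s) := Module.finite_of_finite (ZMod 2)
  exact Set.toFinite _

namespace VxM

variable {M : Set ZFSet.{0}} {at' : XX → ZFSet.{0}} {st : Set XX → ZFSet.{0}}
  {fam : Set (Set XX) → ZFSet.{0}} (h : VxM M at' st fam)

include h

/-- Supports. -/
theorem supp {f : ZFSet.{0}} (hf : f ∈ M) : ∃ S : Submodule (ZMod 2) VV, (S : Set VV).Finite ∧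
    ∀ γ : GX, (∀ x ∈ S, γ.1 x = x ∧ γ.2 x = x) → ∀ r, Cd r →
    ∀ (k : ℕ) (Q : Set ZFSet.{0} → (Fin (k + 2) → ZFSet.{0}) → Prop), UD Q →
      ∀ o : Fin k → Ob XX, (∀ i, okO DX FX (o i)) →
      Q M (Fin.cons f (Fin.cons r fun i => vO at' st fam (o i))) →
      Q M (Fin.cons f (Fin.cons r fun i => vO at' st fam (acO γ (o i)))) := by
  classical
  obtain ⟨H, ⟨E, hE⟩, e, h1⟩ := h.inv f hf
  obtain ⟨S, hS, hSf⟩ := exists_fin_sub
    ({x | xa x ∈ E ∪ e} ∪ {x | va x ∈ E ∪ e}) (by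
      refine Set.Finite.union ?_ ?_
      · exact (E ∪ e).finite_toSet.preimage (f := xa) fun a _ b _ hab => xa_inj.1 hab
      · exact (E ∪ e).finite_toSet.preimage (f := va) fun a _ b _ hab => va_inj.1 hab)
  refine ⟨S, hSf, fun γ hγ => ?_⟩
  have h2 : ∀ z ∈ E ∪ e, γ • z = z := by
    intro z hz
    rcases z with z | z | z
    · rw [smul_xa, (hγ z (hS (Or.inl hz))).1]
    · rw [smul_va, (hγ z (hS (Or.inr hz))).2]
    · rfl
  exact h1 γ ((hE γ).2 fun x hx => h2 x (Finset.mem_union_left _ hx))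
    fun x hx => h2 x (Finset.mem_union_right _ hx)

/-- Subsets of the model. -/
theorem mem_supp {b : ZFSet.{0}} (hb : b ∈ M) : ∃ S : Submodule (ZMod 2) VV,
    (S : Set VV).Finite ∧ ∀ γ : GX, (∀ x ∈ S, γ.1 x = x ∧ γ.2 x = x) → ∀ z, at' z ∈ b →
      at' (γ • z) ∈ b := by
  obtain ⟨S, hS, h1⟩ := supp h hb
  refine ⟨S, hS, fun γ hγ z hz => ?_⟩
  have h2 := h1 γ hγ (nat 0) (.nat 0) 1 _ ud_mem' (fun _ => Sum.inl z) (fun _ => trivial) hz
  exact h2

theorem amX {b : ZFSet.{0}} (hb : b ∈ M) (hi : {x | at' (xa x) ∈ b}.Infinite) :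
    {x | at' (xa x) ∉ b}.Finite := by
  classical
  obtain ⟨S, hS, h1⟩ := mem_supp h hb
  obtain ⟨u, hu, huS⟩ := hi.exists_notMem_finset hS.toFinset
  refine hS.subset fun x hx => ?_
  by_contra hxS
  refine hx ?_
  have h2 := h1 (Equiv.swap u x, 1) (fun y hy => ⟨?_, rfl⟩) (xa u) hu
  · rw [smul_xa] at h2
    change at' (xa (Equiv.swap u x u)) ∈ b at h2
    rwa [Equiv.swap_apply_left] at h2
  · refine Equiv.swap_apply_of_ne_of_ne (fun h3 => ?_) fun h3 => ?_
    · rw [h3] at hy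
      exact huS (hS.mem_toFinset.2 hy)
    · rw [h3] at hy
      exact hxS hy

theorem amV {b : ZFSet.{0}} (hb : b ∈ M) (hi : {x | at' (va x) ∈ b}.Infinite) :
    {x | at' (va x) ∉ b}.Finite := by
  classical
  obtain ⟨S, hS, h1⟩ := mem_supp h hb
  obtain ⟨u, hu, huS⟩ := hi.exists_notMem_finset hS.toFinset
  refine hS.subset fun x hx => ?_
  by_contra hxS
  refine hx ?_
  have huS' : u ∉ S := fun h3 => huS (hS.mem_toFinset.2 h3)
  obtain ⟨α, h2, h3, -⟩ := exists_tv S huS' hxS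
  have h4 := h1 ((1 : Equiv.Perm VV), α) (fun y hy => ⟨rfl, h2 y hy⟩) (va u) hu
  rw [smul_va] at h4
  change at' (va (α u)) ∈ b at h4
  rwa [h3] at h4

variable {Q : ZFSet.{0}}

theorem qr_refl (hQ : IsPart (st Set.univ) Q) (x : XX) : qr at' Q x x := by
  obtain ⟨b, hb, h1, -⟩ := hQ.2 _ ((h.mem_st univ_DX (x := x)).2 trivial)
  exact ⟨b, hb, h1, h1⟩

theorem qr_symm {x y : XX} (h1 : qr at' Q x y) : qr at' Q y x := by
  obtain ⟨b, hb, h2, h3⟩ := h1
  exact ⟨b, hb, h3, h2⟩

theorem qr_trans (hQ : IsPart (st Set.univ) Q) {x y z : XX} (h1 : qr at' Q x y)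
    (h2 : qr at' Q y z) : qr at' Q x z := by
  obtain ⟨b, hb, h3, h4⟩ := h1
  obtain ⟨c, hc, h5, h6⟩ := h2
  obtain ⟨d, -, -, hu⟩ := hQ.2 _ ((h.mem_st univ_DX (x := y)).2 trivial)
  rw [hu c hc h5, ← hu b hb h4] at h6
  exact ⟨b, hb, h3, h6⟩

theorem nq (hQM : Q ∈ M) (hQ : IsPart (st Set.univ) Q) (hf : FinIn M Q) : NQ (qr at' Q) := by
  classical
  have hfin : {b | b ∈ Q}.Finite := (finite_iff h.zf hQM).2 hf
  have key : ∀ c : VV → XX, (∀ b ∈ M, {x | at' (c x) ∈ b}.Infinite →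
      {x | at' (c x) ∉ b}.Finite) → ∃ x, {y | ¬ qr at' Q (c x) (c y)}.Finite := by
    intro c hc
    have h1 : ∃ b ∈ Q, {x | at' (c x) ∈ b}.Infinite := by
      by_contra hn
      push Not at hn
      have h2 : (⋃ b ∈ {b | b ∈ Q}, {x | at' (c x) ∈ b}).Finite :=
        hfin.biUnion fun b hb => Set.not_infinite.1 (by simpa using hn b hb)
      refine Set.infinite_univ (α := VV) (h2.subset fun x _ => ?_)
      obtain ⟨b, hb, h3, -⟩ := hQ.2 _ ((h.mem_st univ_DX (x := c x)).2 trivial)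
      exact Set.mem_biUnion hb h3
    obtain ⟨b, hb, h1⟩ := h1
    obtain ⟨x, hx⟩ := h1.nonempty
    refine ⟨x, (hc b (h.zf.trans _ hQM _ hb) h1).subset fun y hy h2 => hy ?_⟩
    exact ⟨b, hb, hx, h2⟩
  exact ⟨qr_refl h hQ, fun x y => qr_symm h, fun x y z => qr_trans h hQ, key xa fun b hb =>
    amX h hb, key va fun b hb => amV h hb⟩

/-- The injection. -/
theorem exists_inj : ∃ f ∈ M, IsInj (PartFin M (st Set.univ)) (FinPart M (st Set.univ)) f := by
  classical
  obtain ⟨p, hp, ok⟩ := exists_pm h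
  obtain rfl := hp
  have hZ := h.zf
  have hB := hZ.base
  have hAM := h.stM _ univ_DX
  have g1 := Pm.dfn_pr (PmOk.ok' ok)
  have g2 := Pm.dfn_sm hZ
  set A := st Set.univ with hA
  obtain ⟨f, hf, hsub, hiff⟩ := hZ.rel_mem (PartFin_mem hZ hAM) (FinPart_mem hZ hAM)
    (Q := fun Q P => ∀ x ∈ A, ∀ y ∈ A, (SmR P x y ↔ p.Pr Q x y)) (by
      (repeat' first
        | first | apply Dfn.comp3 (Q := fun a b c => p.Pr a b c) g1 | apply Dfn.comp3 (Q := fun a b c => SmR a b c) g2
        | assumption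
        | exact DfnF.proj _
        | exact DfnF.const (by assumption)
        | exact DfnF.const' (by first | assumption | trivial) (by first | assumption | trivial)
        | exact Dfn.prop _
        | apply hB.isFunc' | apply hB.isInj' | apply hB.isBij' | apply hB.isOrdinal'
        | apply hB.subset' | apply hB.pair' | apply hB.insert'
        | apply Dfn.not | apply Dfn.and | apply Dfn.or | apply Dfn.imp | apply Dfn.iff
        | apply hB.bex | apply hB.ball | apply Dfn.ex | apply Dfn.all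
        | apply Dfn.eq | apply Dfn.mem))
  refine ⟨f, hf, ⟨hsub, fun Q hQ => ?_⟩, fun Q Q' P h1 h2 => ?_⟩
  · obtain ⟨hQM, hQp, hQf⟩ := (mem_PartFin hZ hAM).1 hQ
    have hn := nq h hQM hQp hQf
    -- the blocks
    have hblk : ∀ x, ∃ b ∈ p.M, b ⊆ A ∧ ∀ y, at' y ∈ b ↔ bt (qr at' Q) x = bt (qr at' Q) y := by
      intro x
      have hxM := h.atM x
      refine ⟨ZFSet.sep (fun y => p.Pr Q (at' x) y) A, hZ.sep_mem
        (Q := fun y => p.Pr Q (at' x) y) ?_ hAM, fun z hz => (ZFSet.mem_sep.1 hz).1, fun y => ?_⟩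
      · (repeat' first
          | first | apply Dfn.comp3 (Q := fun a b c => p.Pr a b c) g1
          | assumption
          | exact DfnF.proj _
          | exact DfnF.const (by assumption)
          | exact DfnF.const' (by first | assumption | trivial) (by first | assumption | trivial)
          | exact Dfn.prop _
          | apply hB.isFunc' | apply hB.isInj' | apply hB.isBij' | apply hB.isOrdinal'
          | apply hB.subset' | apply hB.pair' | apply hB.insert'
          | apply Dfn.not | apply Dfn.and | apply Dfn.or | apply Dfn.imp | apply Dfn.iff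
          | apply hB.bex | apply hB.ball | apply Dfn.ex | apply Dfn.all
          | apply Dfn.eq | apply Dfn.mem)
      · rw [ZFSet.mem_sep, PmOk.pr_iff ok, pf_iff hn]
        exact ⟨fun h => h.2, fun h' => ⟨(h.mem_st univ_DX).2 trivial, h'⟩⟩
    have hPM : ZFSet.sep (fun b => ∃ x ∈ A, ∀ y ∈ A, (y ∈ b ↔ p.Pr Q x y)) (PM p.M A) ∈ p.M := by
      refine hZ.sep_mem (Q := fun b => ∃ x ∈ A, ∀ y ∈ A, (y ∈ b ↔ p.Pr Q x y)) ?_
        (PM_mem hZ hAM)
      (repeat' first
        | first | apply Dfn.comp3 (Q := fun a b c => p.Pr a b c) g1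
        | assumption
        | exact DfnF.proj _
        | exact DfnF.const (by assumption)
        | exact DfnF.const' (by first | assumption | trivial) (by first | assumption | trivial)
        | exact Dfn.prop _
        | apply hB.isFunc' | apply hB.isInj' | apply hB.isBij' | apply hB.isOrdinal'
        | apply hB.subset' | apply hB.pair' | apply hB.insert'
        | apply Dfn.not | apply Dfn.and | apply Dfn.or | apply Dfn.imp | apply Dfn.iff
        | apply hB.bex | apply hB.ball | apply Dfn.ex | apply Dfn.all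
        | apply Dfn.eq | apply Dfn.mem)
    set P := ZFSet.sep (fun b => ∃ x ∈ A, ∀ y ∈ A, (y ∈ b ↔ p.Pr Q x y)) (PM p.M A) with hPdef
    have hPiff : ∀ b, b ∈ P ↔ b ∈ p.M ∧ b ⊆ A ∧ ∃ x, ∀ y, at' y ∈ b ↔
        bt (qr at' Q) x = bt (qr at' Q) y := by
      intro b
      rw [hPdef, ZFSet.mem_sep, mem_PM, and_assoc]
      refine and_congr_right fun _ => and_congr_right fun _ => ?_
      rw [exA h]
      refine exists_congr fun x => ?_
      rw [allA h]
      refine forall_congr' fun y => ?_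
      rw [PmOk.pr_iff ok, pf_iff hn]
    have hSm : ∀ x y, SmR P (at' x) (at' y) ↔ bt (qr at' Q) x = bt (qr at' Q) y := by
      intro x y
      constructor
      · rintro ⟨b, hb, h1, h2⟩
        obtain ⟨-, -, z, hz⟩ := (hPiff b).1 hb
        exact ((hz x).1 h1).symm.trans ((hz y).1 h2)
      · intro h1
        obtain ⟨b, hb, hbA, h2⟩ := hblk x
        exact ⟨b, (hPiff b).2 ⟨hb, hbA, x, h2⟩, (h2 x).2 rfl, (h2 y).2 h1⟩
    have hPart : IsPart A P := by
      refine ⟨fun b hb => ?_, fun a ha => ?_⟩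
      · obtain ⟨-, h1, x, h2⟩ := (hPiff b).1 hb
        exact ⟨h1, at' x, (h2 x).2 rfl⟩
      · obtain ⟨x, -, rfl⟩ := (h.mst _ univ_DX a).1 ha
        obtain ⟨b, hb, hbA, h2⟩ := hblk x
        refine ⟨b, (hPiff b).2 ⟨hb, hbA, x, h2⟩, (h2 x).2 rfl, fun c hc hxc => ?_⟩
        obtain ⟨-, h3, z, h4⟩ := (hPiff c).1 hc
        have h5 := (h4 x).1 hxc
        ext t
        constructor
        · intro ht
          obtain ⟨y, -, rfl⟩ := (h.mst _ univ_DX t).1 (h3 ht)
          rw [h2, ← h5]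
          exact (h4 y).1 ht
        · intro ht
          obtain ⟨y, -, rfl⟩ := (h.mst _ univ_DX t).1 (hbA ht)
          rw [h4, h5]
          exact (h2 y).1 ht
    have hfin : ∀ b ∈ P, FinIn p.M b := by
      intro b hb
      obtain ⟨hbM, h1, x, h2⟩ := (hPiff b).1 hb
      rw [h.fin_iff (fun z hz => h.atoms univ_DX z (h1 hz)) hbM]
      refine (fin_bt hn (bt (qr at' Q) x)).subset fun y hy => ?_
      exact ((h2 y).1 hy).symm
    have hPB : P ∈ FinPart p.M A := (mem_FinPart hZ hAM).2 ⟨hPM, hPart, hfin⟩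
    refine ⟨P, (hiff Q P).2 ⟨hQ, hPB, ?_⟩, fun P' hP' => ?_⟩
    · rw [allA h]
      intro x
      rw [allA h]
      intro y
      rw [hSm, PmOk.pr_iff ok, pf_iff hn]
    · obtain ⟨-, hP'B, h1⟩ := (hiff Q P').1 hP'
      refine part_ext ((mem_FinPart hZ hAM).1 hP'B).2.1 hPart fun a ha b hb => ?_
      rw [h1 a ha b hb]
      obtain ⟨x, -, rfl⟩ := (h.mst _ univ_DX a).1 ha
      obtain ⟨y, -, rfl⟩ := (h.mst _ univ_DX b).1 hb
      rw [hSm, PmOk.pr_iff ok, pf_iff hn]
  · obtain ⟨hQ, hP, h3⟩ := (hiff Q P).1 h1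
    obtain ⟨hQ', -, h4⟩ := (hiff Q' P).1 h2
    obtain ⟨hQM, hQp, hQf⟩ := (mem_PartFin hZ hAM).1 hQ
    obtain ⟨hQM', hQp', hQf'⟩ := (mem_PartFin hZ hAM).1 hQ'
    have h5 := pf_injective (nq h hQM hQp hQf) (nq h hQM' hQp' hQf') fun x y => by
      rw [← PmOk.pr_iff ok, ← PmOk.pr_iff ok]
      have hx := (h.mem_st univ_DX (x := x)).2 trivial
      have hy := (h.mem_st univ_DX (x := y)).2 trivial
      rw [← h3 _ hx _ hy, ← h4 _ hx _ hy]
    refine part_ext hQp hQp' fun a ha b hb => ?_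
    obtain ⟨x, -, rfl⟩ := (h.mst _ univ_DX a).1 ha
    obtain ⟨y, -, rfl⟩ := (h.mst _ univ_DX b).1 hb
    exact h5 x y

end VxM

end Pool.Agent.Q211.AM
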