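import Pool.Agent.Q211.AM.Vm3

/-!
# There is no injection of the finitary partitions into the partitions with finitely many blocks
-/

set_option autoImplicit false
set_option linter.unusedSectionVars false
set_option linter.unreachableTactic false
set_option linter.unusedTactic false

namespace Pool.Agent.Q211.AM

open Pool.Agent.W868 Pool.Agent.W868.PName Pool.Agent.Q211.SY Pool.Agent.Q211.FS
open Pool.Agent.Q211.PA Pool.Agent.Q211.TP
open ZFSet (pair)
open XX

theorem ud_img : UD fun M (v : Fin 5 → ZFSet.{0}) =>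
    ∃ R ∈ M, pair (v 2) R ∈ v 0 ∧ ∃ c ∈ R, v 3 ∈ c ∧ v 4 ∈ c := by
  (repeat' first
    | assumption
    | exact UF.proj _
    | exact UF.om
    | exact UD.prop _
    | apply UD.not | apply UD.and | apply UD.or | apply UD.imp | apply UD.iff
    | apply UD.bex | apply UD.ball | apply UD.ex | apply UD.all
    | apply UD.eq | apply UD.mem | apply UF.pair)

theorem ud_nimg : UD fun M (v : Fin 5 → ZFSet.{0}) =>
    ¬ ∃ R ∈ M, pair (v 2) R ∈ v 0 ∧ ∃ c ∈ R, v 3 ∈ c ∧ v 4 ∈ c := by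
  (repeat' first
    | assumption
    | exact UF.proj _
    | exact UF.om
    | exact UD.prop _
    | apply UD.not | apply UD.and | apply UD.or | apply UD.imp | apply UD.iff
    | apply UD.bex | apply UD.ball | apply UD.ex | apply UD.all
    | apply UD.eq | apply UD.mem | apply UF.pair)

/-- The relation is an equivalence relation. -/
structure IsEq (r : XX → XX → Prop) : Prop where
  refl : ∀ x, r x x
  symm : ∀ x y, r x y → r y x
  trans : ∀ x y z, r x y → r y z → r x z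

theorem IsEq.smul {E : Finset (VV × VV)} {U : Finset VV} (h : IsEq (rl2 E U)) (g : GX) :
    IsEq (rl2 (imE g E) (imU g U)) := by
  have key : ∀ x y, rl2 (imE g E) (imU g U) x y ↔ rl2 E U (g⁻¹ • x) (g⁻¹ • y) := by
    intro x y
    have h1 := rl2_smul g E U (g⁻¹ • x) (g⁻¹ • y)
    rwa [smul_inv_smul, smul_inv_smul] at h1
  exact ⟨fun x => (key x x).2 (h.refl _), fun x y h1 => (key y x).2 (h.symm _ _ ((key x y).1 h1)),
    fun x y z h1 h2 => (key x z).2 (h.trans _ _ _ ((key x y).1 h1) ((key y z).1 h2))⟩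

namespace VxM

variable {M : Set ZFSet.{0}} {at' : XX → ZFSet.{0}} {st : Set XX → ZFSet.{0}}
  {fam : Set (Set XX) → ZFSet.{0}} (h : VxM M at' st fam)

include h

theorem sm_fam {E : Finset (VV × VV)} {U : Finset VV} (he : IsEq (rl2 E U)) (x y : XX) :
    SmR (fam (blk (rl2 E U))) (at' x) (at' y) ↔ rl2 E U x y := by
  have hm := h.mfam _ (blk_FX E U)
  have hD : ∀ z, {y | rl2 E U z y} ∈ DX := fun z => finite_DX (finite_rl2 E U z)
  constructor
  · rintro ⟨c, hc, h1, h2⟩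
    obtain ⟨D, ⟨z, rfl⟩, rfl⟩ := (hm c).1 hc
    have h3 : rl2 E U z x := (h.mem_st (hD z)).1 h1
    have h4 : rl2 E U z y := (h.mem_st (hD z)).1 h2
    exact he.trans _ _ _ (he.symm _ _ h3) h4
  · intro h1
    refine ⟨st {y | rl2 E U x y}, (hm _).2 ⟨_, ⟨x, rfl⟩, rfl⟩, (h.mem_st (hD x)).2 (he.refl x),
      (h.mem_st (hD x)).2 h1⟩

theorem fam_mem {E : Finset (VV × VV)} {U : Finset VV} (he : IsEq (rl2 E U)) :
    fam (blk (rl2 E U)) ∈ FinPart M (st Set.univ) := by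
  have hm := h.mfam _ (blk_FX E U)
  have hD : ∀ z, {y | rl2 E U z y} ∈ DX := fun z => finite_DX (finite_rl2 E U z)
  refine (mem_FinPart h.zf (h.stM _ univ_DX)).2 ⟨h.famM _ (blk_FX E U), ⟨fun b hb => ?_,
    fun a ha => ?_⟩, fun b hb => ?_⟩
  · obtain ⟨D, ⟨z, rfl⟩, rfl⟩ := (hm b).1 hb
    refine ⟨fun t ht => ?_, at' z, (h.mem_st (hD z)).2 (he.refl z)⟩
    obtain ⟨x, -, rfl⟩ := (h.mst _ (hD z) t).1 ht
    exact (h.mem_st univ_DX).2 trivial
  · obtain ⟨x, -, rfl⟩ := (h.mst _ univ_DX a).1 ha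
    refine ⟨st {y | rl2 E U x y}, (hm _).2 ⟨_, ⟨x, rfl⟩, rfl⟩, (h.mem_st (hD x)).2 (he.refl x),
      fun c hc hxc => ?_⟩
    obtain ⟨D, ⟨z, rfl⟩, rfl⟩ := (hm c).1 hc
    have h1 : rl2 E U z x := (h.mem_st (hD z)).1 hxc
    have h2 : {y | rl2 E U z y} = {y | rl2 E U x y} := by
      ext y
      exact ⟨fun h2 => he.trans _ _ _ (he.symm _ _ h1) h2, fun h2 => he.trans _ _ _ h1 h2⟩
    rw [h2]
  · obtain ⟨D, ⟨z, rfl⟩, rfl⟩ := (hm b).1 hb
    rw [h.fin_iff (h.atoms (hD z)) (h.stM _ (hD z))]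
    refine (finite_rl2 E U z).subset fun y hy => ?_
    exact (h.mem_st (hD z)).1 hy

end VxM

/-- The configuration. -/
structure Cfg (W₀ W' W : Submodule (ZMod 2) VV) (E : Finset (VV × VV)) (U : Finset VV)
    (q : XX → XX → Prop) : Prop where
  le₀ : W₀ ≤ W'
  le' : W' ≤ W
  fin : (W : Set VV).Finite
  ne₀ : ∃ w ∈ W₀, w ≠ 0
  u : ∃ u ∈ W', u ∉ W₀
  v : ∃ v ∈ W, v ∉ W'
  mE : ∀ p, p ∈ E ↔ p.1 = p.2 ∧ p.1 ∈ W
  mU : ∀ x, x ∈ U ↔ x ∈ W'
  nq : NQ q
  inv : ∀ γ : GX, (∀ x ∈ W₀, γ.1 x = x ∧ γ.2 x = x) → imE γ E = E → imU γ U = U →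
    ∀ x y, q x y ↔ q (γ • x) (γ • y)
  key : ∀ γ : GX, (∀ x ∈ W₀, γ.1 x = x ∧ γ.2 x = x) → (∀ x y, q x y ↔ q (γ • x) (γ • y)) →
    ∀ x y, rl2 E U x y → rl2 E U (γ • x) (γ • y)

theorem isEq_rl2 {W' W : Submodule (ZMod 2) VV} {E : Finset (VV × VV)} {U : Finset VV}
    (hE : ∀ p, p ∈ E ↔ p.1 = p.2 ∧ p.1 ∈ W) (hU : ∀ x, x ∈ U ↔ x ∈ W') : IsEq (rl2 E U) := by
  have hno : ∀ v, (∀ p ∈ E, p.2 ≠ v) ↔ v ∉ W := by
    intro v
    constructor
    · intro h hv
      exact h (v, v) ((hE _).2 ⟨rfl, hv⟩) rfl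
    · rintro h p hp rfl
      obtain ⟨h1, h2⟩ := (hE p).1 hp
      rw [h1] at h2
      exact h h2
  refine ⟨?_, ?_, ?_⟩
  · rintro (x | x | x)
    · exact rfl
    · exact Or.inl rfl
    · exact rfl
  · rintro (x | x | x) (y | y | y) h1
    · exact Eq.symm h1
    · exact h1
    · exact h1
    · exact h1
    · rcases h1 with h1 | ⟨h1, h2, h3⟩
      · exact Or.inl h1.symm
      · exact Or.inr ⟨h2, h1, by rwa [add_comm]⟩
    · exact h1
    · exact h1
    · exact h1
    · exact Eq.symm h1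
  · rintro (x | x | x) (y | y | y) (z | z | z) h1 h2
    · exact Eq.trans h1 h2
    · have h3 : x = y := h1
      rw [h3]
      exact h2
    · exact absurd h2 id
    · have h3 := (hE _).1 h1
      have h4 := (hE _).1 h2
      change x = z
      exact h3.1.trans h4.1.symm
    · rcases h2 with h2 | ⟨h2, -, -⟩
      · rw [← h2]
        exact h1
      · exact absurd rfl (h2 _ h1)
    · exact absurd h2 id
    · exact absurd h1 id
    · exact absurd h1 id
    · exact absurd h1 id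
    · have h3 : y = z := h2
      rw [← h3]
      exact h1
    · have h3 := (hE _).1 h1
      have h4 := (hE _).1 h2
      exact Or.inl (h3.1.symm.trans h4.1)
    · exact absurd h2 id
    · rcases h1 with h1 | ⟨-, h1, -⟩
      · rw [h1]
        exact h2
      · exact absurd rfl (h1 _ h2)
    · rcases h1 with h1 | ⟨h1, h1', h1''⟩
      · rw [h1]
        exact h2
      · rcases h2 with h2 | ⟨h2, h2', h2''⟩
        · rw [← h2]
          exact Or.inr ⟨h1, h1', h1''⟩
        · refine Or.inr ⟨h1, h2', (hU _).2 ?_⟩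
          have h3 := W'.add_mem ((hU _).1 h1'') ((hU _).1 h2'')
          have h4 : x + y + (y + z) = x + z := by
            rw [add_assoc, add_cancel2]
          rwa [h4] at h3
    · exact absurd h2 id
    · exact absurd h1 id
    · exact absurd h1 id
    · exact absurd h1 id
    · exact absurd h1 id
    · exact absurd h1 id
    · exact absurd h1 id
    · exact absurd h1 id
    · exact absurd h1 id
    · exact absurd h1 id
    · exact absurd h2 id
    · exact absurd h2 id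
    · exact Eq.trans h1 h2

/-- The diagonal element. -/
noncomputable def dg (α : VV ≃ₗ[ZMod 2] VV) : GX := (α.toEquiv, α)

namespace Cfg

variable {W₀ W' W : Submodule (ZMod 2) VV} {E : Finset (VV × VV)} {U : Finset VV}
  {q : XX → XX → Prop} (c : Cfg W₀ W' W E U q)

include c

theorem inv_dg (α : VV ≃ₗ[ZMod 2] VV) (h0 : ∀ x ∈ W₀, α x = x) (h1 : ∀ x, α x ∈ W' ↔ x ∈ W')
    (h2 : ∀ x, α x ∈ W ↔ x ∈ W) (x y : XX) : q x y ↔ q (dg α • x) (dg α • y) := by
  refine c.inv (dg α) (fun x hx => ⟨h0 x hx, h0 x hx⟩) ?_ ?_ x y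
  · ext ⟨a, b⟩
    have h3 : ((dg α).1 (α.symm a), (dg α).2 (α.symm b)) = (a, b) :=
      Prod.ext (α.apply_symm_apply a) (α.apply_symm_apply b)
    rw [← h3, mem_imE, h3, c.mE, c.mE]
    have h4 := h2 (α.symm a)
    rw [α.apply_symm_apply] at h4
    refine and_congr ?_ h4.symm
    exact ⟨fun h => α.symm.injective h, fun h => congrArg α.symm h⟩
  · ext a
    have h3 : (dg α).2 (α.symm a) = a := α.apply_symm_apply a
    rw [← h3, mem_imU, h3, c.mU, c.mU]
    have h4 := h1 (α.symm a)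
    rw [α.apply_symm_apply] at h4
    exact h4.symm

theorem notMem_add {w x : VV} (hw : w ∈ W₀) (hx : x ∉ W₀) : x + w ∉ W₀ := fun h => by
  rw [W₀.add_mem_iff_left hw] at h
  exact hx h

/-- A nontrivial element that fixes the configuration. -/
theorem exists_mv {x : VV} (hx : x ∈ W) (hx0 : x ∉ W₀) : ∃ x' ∈ W, x' ∉ W₀ ∧ x' ≠ x ∧
    ∃ α : VV ≃ₗ[ZMod 2] VV, (∀ y ∈ W₀, α y = y) ∧ (∀ x, α x ∈ W' ↔ x ∈ W') ∧
      (∀ x, α x ∈ W ↔ x ∈ W) ∧ α x = x' := by
  obtain ⟨w, hw, hw0⟩ := c.ne₀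
  have h1 := notMem_add c hw hx0
  obtain ⟨α, h2, h3, h4⟩ := exists_tv W₀ hx0 h1
  rw [add_cancel2] at h4
  refine ⟨x + w, W.add_mem hx (c.le' (c.le₀ hw)), h1, fun h5 => hw0 ?_, α, h2,
    h4 W' (c.le₀ hw), h4 W (c.le' (c.le₀ hw)), h3⟩
  have h6 := add_cancel2 x w
  rw [h5, two_smul'] at h6
  exact h6.symm

theorem gen_va {v : VV} (hv : v ∉ W) : gen q (va v) := by
  classical
  obtain ⟨v₀, hv₀⟩ := c.nq.finV
  obtain ⟨v₁, hv₁⟩ := (hv₀.union c.fin).exists_notMem
  rw [Set.mem_union, not_or, Set.mem_setOf_eq, not_not] at hv₁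
  have h1 : gen q (va v₁) := hv₀.subset fun y hy h2 => hy (c.nq.trans _ _ _ (c.nq.symm _ _ hv₁.1) h2)
  obtain ⟨α, h2, h3, -⟩ := exists_tv W hv₁.2 hv
  have h4 : ∀ T : Submodule (ZMod 2) VV, T ≤ W → ∀ x, α x ∈ T ↔ x ∈ T := by
    intro T hT x
    constructor
    · intro hx
      have h5 := h2 _ (hT hx)
      rw [α.injective h5] at hx
      exact hx
    · intro hx
      rw [h2 _ (hT hx)]
      exact hx
  have h5 := inv_dg c α (fun x hx => h2 x (c.le' (c.le₀ hx))) (h4 W' c.le') (h4 W le_rfl)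
  change {y | ¬ q (va v) (va y)}.Finite
  refine (Set.Finite.image α h1).subset fun y hy => ⟨α.symm y, fun h6 => hy ?_,
    α.apply_symm_apply y⟩
  have h7 := (h5 _ _).1 h6
  have h8 : dg α • va v₁ = va v := by
    rw [smul_va]
    exact congrArg va h3
  have h9 : dg α • va (α.symm y) = va y := by
    rw [smul_va]
    exact congrArg va (α.apply_symm_apply y)
  rwa [h8, h9] at h7

theorem q_va {v w : VV} (hv : v ∉ W) (hw : w ∉ W) : q (va v) (va w) :=
  rep_q c.nq (i := 1) (Or.inr (Or.inl ⟨rfl, ⟨v, rfl⟩, gen_va c hv⟩))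
    (Or.inr (Or.inl ⟨rfl, ⟨w, rfl⟩, gen_va c hw⟩))

/-- The transposition. -/
theorem no_swap {x z : VV} (hx : x ∈ W) (hx0 : x ∉ W₀) (hz0 : z ∉ W₀) (hxz : z ≠ x)
    (hq : ∀ a b, q a b ↔ q (((Equiv.swap x z, 1) : GX) • a) (((Equiv.swap x z, 1) : GX) • b)) :
    False := by
  have h1 := c.key (Equiv.swap x z, 1) (fun y hy => ⟨Equiv.swap_apply_of_ne_of_ne
    (fun h => hx0 (h ▸ hy)) (fun h => hz0 (h ▸ hy)), rfl⟩) hq (xa x) (va x)
    ((c.mE _).2 ⟨rfl, hx⟩)
  rw [smul_xa, smul_va] at h1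
  change rl2 E U (xa (Equiv.swap x z x)) (va x) at h1
  rw [Equiv.swap_apply_left] at h1
  exact hxz ((c.mE _).1 h1).1

theorem no_xa {x z : VV} (hx : x ∈ W) (hx0 : x ∉ W₀) (hz0 : z ∉ W₀) (hxz : z ≠ x) :
    ¬ q (xa x) (xa z) := by
  intro h1
  have h2 : ∀ a, q a (((Equiv.swap x z, 1) : GX) • a) := by
    rintro (a | a | a)
    · rw [smul_xa]
      change q (xa a) (xa (Equiv.swap x z a))
      by_cases h3 : a = x
      · rw [h3, Equiv.swap_apply_left]
        exact h1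
      · by_cases h4 : a = z
        · rw [h4, Equiv.swap_apply_right]
          exact c.nq.symm _ _ h1
        · rw [Equiv.swap_apply_of_ne_of_ne h3 h4]
          exact c.nq.refl _
    · exact c.nq.refl _
    · exact c.nq.refl _
  refine no_swap c hx hx0 hz0 hxz fun a b => ⟨fun h3 => ?_, fun h3 => ?_⟩
  · exact c.nq.trans _ _ _ (c.nq.symm _ _ (h2 a)) (c.nq.trans _ _ _ h3 (h2 b))
  · exact c.nq.trans _ _ _ (h2 a) (c.nq.trans _ _ _ h3 (c.nq.symm _ _ (h2 b)))

theorem not_single {x : VV} (hx : x ∈ W) (hx0 : x ∉ W₀) : ∃ y, y ≠ xa x ∧ q (xa x) y := by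
  by_contra hn
  push Not at hn
  have h1 : ∀ y, q (xa x) y → y = xa x := by
    intro y hy
    by_contra h2
    exact hn y h2 hy
  obtain ⟨x', hx', hx0', hne, α, h2, h3, h4, h5⟩ := exists_mv c hx hx0
  have h6 := inv_dg c α h2 h3 h4
  have h7 : ∀ y, q (xa x') y → y = xa x' := by
    intro y hy
    have h8 : dg α • xa x = xa x' := by
      rw [smul_xa]
      exact congrArg xa h5
    have h9 := (h6 (xa x) ((dg α)⁻¹ • y)).2 (by rw [h8, smul_inv_smul]; exact hy)
    have h10 := h1 _ h9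
    rw [inv_smul_eq_iff, h8] at h10
    exact h10
  let γ : GX := (Equiv.swap x x', 1)
  have g1 : γ • xa x = xa x' := by
    rw [smul_xa]
    exact congrArg xa (Equiv.swap_apply_left _ _)
  have g2 : γ • xa x' = xa x := by
    rw [smul_xa]
    exact congrArg xa (Equiv.swap_apply_right _ _)
  have g3 : ∀ a, a ≠ xa x → a ≠ xa x' → γ • a = a := by
    rintro (a | a | a) h8 h9
    · rw [smul_xa]
      exact congrArg xa (Equiv.swap_apply_of_ne_of_ne (fun h => h8 (congrArg xa h))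
        fun h => h9 (congrArg xa h))
    · rfl
    · rfl
  have g4 : ∀ a b, q a b → q (γ • a) (γ • b) := by
    intro a b hab
    by_cases ha : a = xa x
    · rw [ha] at hab
      rw [h1 b hab, ha]
      exact c.nq.refl _
    · by_cases ha' : a = xa x'
      · rw [ha'] at hab
        rw [h7 b hab, ha']
        exact c.nq.refl _
      · have hb : b ≠ xa x := fun hb => ha (h1 a (hb ▸ c.nq.symm _ _ hab))
        have hb' : b ≠ xa x' := fun hb => ha' (h7 a (hb ▸ c.nq.symm _ _ hab))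
        rw [g3 a ha ha', g3 b hb hb']
        exact hab
  have g5 : ∀ a : XX, γ • γ • a = a := by
    intro a
    by_cases ha : a = xa x
    · rw [ha, g1, g2]
    · by_cases ha' : a = xa x'
      · rw [ha', g2, g1]
      · rw [g3 a ha ha', g3 a ha ha']
  refine no_swap c hx hx0 hx0' hne fun a b => ⟨g4 a b, fun h8 => ?_⟩
  have h9 := g4 _ _ h8
  change q (γ • γ • a) (γ • γ • b) at h9
  rwa [g5, g5] at h9

theorem class_xa {x : VV} (hx : x ∈ W) (hx0 : x ∉ W₀) {y : XX} (hy : y ≠ xa x)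
    (hq : q (xa x) y) : ∃ v ∈ W, v ∉ W₀ ∧ y = va v := by
  obtain ⟨x', hx', hx0', hne, α, h2, h3, h4, h5⟩ := exists_mv c hx hx0
  have h6 := inv_dg c α h2 h3 h4
  have h8 : dg α • xa x = xa x' := by
    rw [smul_xa]
    exact congrArg xa h5
  have h9 := (h6 _ _).1 hq
  rw [h8] at h9
  -- it is impossible that the image of `y` is equivalent to `y`
  have h10 : ¬ q y (dg α • y) := fun h10 => no_xa c hx hx0 hx0' hne
    (c.nq.trans _ _ _ hq (c.nq.trans _ _ _ h10 (c.nq.symm _ _ h9)))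
  rcases y with z | z | z
  · exfalso
    have hzx : z ≠ x := fun h => hy (congrArg xa h)
    by_cases hz : z ∈ W₀
    · refine h10 ?_
      rw [smul_xa]
      have h11 : (dg α).1 z = z := h2 z hz
      rw [h11]
      exact c.nq.refl _
    · exact no_xa c hx hx0 hz hzx hq
  · by_cases hzW : z ∈ W
    · refine ⟨z, hzW, fun hz => h10 ?_, rfl⟩
      rw [smul_va]
      have h11 : (dg α).2 z = z := h2 z hz
      rw [h11]
      exact c.nq.refl _
    · exact absurd (q_va c hzW fun h11 => hzW ((h4 z).1 h11)) h10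
  · exact absurd (c.nq.refl _) h10

theorem false : False := by
  classical
  let T : Type := {x : VV // x ∈ W ∧ x ∉ W₀}
  have hTf : Finite T := (c.fin.subset fun x (hx : x ∈ W ∧ x ∉ W₀) => hx.1).to_subtype
  have h1 : ∀ x : T, ∃ v : T, q (xa x.1) (va v.1) := by
    intro x
    obtain ⟨y, hy, hq⟩ := not_single c x.2.1 x.2.2
    obtain ⟨v, hv, hv0, rfl⟩ := class_xa c x.2.1 x.2.2 hy hq
    exact ⟨⟨v, hv, hv0⟩, hq⟩
  choose f hf using h1
  have hfi : Function.Injective f := by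
    intro x x' hxx'
    by_contra hne
    have h2 := hf x'
    rw [← hxx'] at h2
    exact no_xa c x.2.1 x.2.2 x'.2.2 (fun h => hne (Subtype.ext h.symm))
      (c.nq.trans _ _ _ (hf x) (c.nq.symm _ _ h2))
  have hfb : Function.Bijective f := Finite.injective_iff_bijective.1 hfi
  let F : Equiv.Perm T := Equiv.ofBijective f hfb
  have hcl : ∀ (x : T) (y : XX), q (xa x.1) y → y = xa x.1 ∨ y = va (f x).1 := by
    intro x y hq
    by_cases hy : y = xa x.1
    · exact Or.inl hy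
    · obtain ⟨v, hv, hv0, rfl⟩ := class_xa c x.2.1 x.2.2 hy hq
      obtain ⟨x', hx'⟩ := hfb.2 ⟨v, hv, hv0⟩
      have h2 := hf x'
      rw [hx'] at h2
      have h3 : x' = x := by
        by_contra hne
        exact no_xa c x.2.1 x.2.2 x'.2.2 (fun h => hne (Subtype.ext h))
          (c.nq.trans _ _ _ hq (c.nq.symm _ _ h2))
      rw [h3] at hx'
      right
      rw [hx']
  obtain ⟨u, hu, hu0⟩ := c.u
  obtain ⟨v, hv, hv'⟩ := c.v
  have hv0 : v ∉ W₀ := fun h => hv' (c.le₀ h)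
  obtain ⟨α, ha0, hau, haT⟩ := exists_tv W₀ hu0 hv0
  have haW := haT W (W.add_mem (c.le' hu) hv)
  have haW0 : ∀ x, α x ∈ W₀ ↔ x ∈ W₀ := by
    intro x
    constructor
    · intro hx
      have h5 := ha0 _ hx
      rw [α.injective h5] at hx
      exact hx
    · intro hx
      rw [ha0 _ hx]
      exact hx
  let aT : Equiv.Perm T := α.toEquiv.subtypeEquiv fun x => by
    change x ∈ W ∧ x ∉ W₀ ↔ α x ∈ W ∧ α x ∉ W₀
    rw [haW, haW0]
  let sT : Equiv.Perm T := F.trans (aT.trans F.symm)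
  let σ : Equiv.Perm VV := Equiv.Perm.ofSubtype sT
  have hσ : ∀ x : T, σ x.1 = (sT x).1 := fun x => Equiv.Perm.ofSubtype_apply_coe sT x
  have hσ' : ∀ x, ¬ (x ∈ W ∧ x ∉ W₀) → σ x = x := fun x hx =>
    Equiv.Perm.ofSubtype_apply_of_not_mem sT hx
  have hfs : ∀ x : T, (f (sT x)).1 = α (f x).1 := by
    intro x
    have h2 : F (sT x) = aT (F x) := F.apply_symm_apply _
    have h3 : f (sT x) = aT (f x) := h2
    rw [h3]
    rfl
  let γ : GX := (σ, α)
  -- special points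
  let C : T → XX → Prop := fun x a => a = xa x.1 ∨ a = va (f x).1
  have hC : ∀ x a b, C x a → C x b → q a b := by
    rintro x a b (rfl | rfl) (rfl | rfl)
    · exact c.nq.refl _
    · exact hf x
    · exact c.nq.symm _ _ (hf x)
    · exact c.nq.refl _
  have hCq : ∀ x a b, C x a → q a b → C x b := by
    intro x a b ha hab
    exact hcl x b (c.nq.trans _ _ _ (hC x _ _ (Or.inl rfl) ha) hab)
  have hCγ : ∀ x a, C x a → C (sT x) (γ • a) := by
    rintro x a (rfl | rfl)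
    · left
      rw [smul_xa]
      exact congrArg xa (hσ x)
    · right
      rw [smul_va]
      exact congrArg va (hfs x).symm
  have hCγ' : ∀ x a, C x (γ • a) → C (sT.symm x) a := by
    intro x a ha
    obtain ⟨y, rfl⟩ := sT.surjective x
    rw [sT.symm_apply_apply]
    rcases ha with ha | ha
    · left
      have h2 : γ • xa y.1 = xa (sT y).1 := by
        rw [smul_xa]
        exact congrArg xa (hσ y)
      rw [← h2] at ha
      exact (MulAction.injective γ) ha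
    · right
      have h2 : γ • va (f y).1 = va (f (sT y)).1 := by
        rw [smul_va]
        exact congrArg va (hfs y).symm
      rw [← h2] at ha
      exact (MulAction.injective γ) ha
  have hns : ∀ a, (∀ x, ¬ C x a) → q a (γ • a) := by
    rintro (a | a | a) ha
    · rw [smul_xa]
      have h2 : ¬ (a ∈ W ∧ a ∉ W₀) := fun h2 => ha ⟨a, h2⟩ (Or.inl rfl)
      have h3 : γ.1 a = a := hσ' a h2
      rw [h3]
      exact c.nq.refl _
    · rw [smul_va]
      by_cases h2 : a ∈ W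
      · have h3 : a ∈ W₀ := by
          by_contra h3
          obtain ⟨x, hx⟩ := hfb.2 ⟨a, h2, h3⟩
          exact ha x (Or.inr (congrArg va (by rw [hx])))
        have h4 : γ.2 a = a := ha0 a h3
        rw [h4]
        exact c.nq.refl _
      · exact q_va c h2 fun h3 => h2 ((haW a).1 h3)
    · exact c.nq.refl _
  have hq : ∀ a b, q a b ↔ q (γ • a) (γ • b) := by
    intro a b
    constructor
    · intro hab
      by_cases ha : ∃ x, C x a
      · obtain ⟨x, hx⟩ := ha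
        exact hC _ _ _ (hCγ x a hx) (hCγ x b (hCq x a b hx hab))
      · push Not at ha
        have hb : ∀ x, ¬ C x b := fun x hx => ha x (hCq x b a hx (c.nq.symm _ _ hab))
        exact c.nq.trans _ _ _ (c.nq.symm _ _ (hns a ha)) (c.nq.trans _ _ _ hab (hns b hb))
    · intro hab
      by_cases ha : ∃ x, C x (γ • a)
      · obtain ⟨x, hx⟩ := ha
        exact hC _ _ _ (hCγ' x a hx) (hCγ' x b (hCq x _ _ hx hab))
      · push Not at ha
        have hb : ∀ x, ¬ C x (γ • b) := fun x hx => ha x (hCq x _ _ hx (c.nq.symm _ _ hab))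
        have ha' : ∀ x, ¬ C x a := fun x hx => ha _ (hCγ x a hx)
        have hb' : ∀ x, ¬ C x b := fun x hx => hb _ (hCγ x b hx)
        exact c.nq.trans _ _ _ (hns a ha') (c.nq.trans _ _ _ hab (c.nq.symm _ _ (hns b hb')))
  obtain ⟨y, hy⟩ := c.fin.exists_notMem
  have hyW : y ∉ W := hy
  have hno : ∀ v, v ∉ W → ∀ p ∈ E, p.2 ≠ v := by
    rintro v h p hp rfl
    obtain ⟨h1, h2⟩ := (c.mE p).1 hp
    rw [h1] at h2
    exact h h2
  have hyu : y + u ∉ W := fun h2 => hyW ((W.add_mem_iff_left (c.le' hu)).1 h2)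
  have h2 : rl2 E U (va y) (va (y + u)) :=
    Or.inr ⟨hno y hyW, hno _ hyu, (c.mU _).2 (by rw [add_cancel2]; exact hu)⟩
  have h3 := c.key γ (fun x hx => ⟨hσ' x fun h => h.2 hx, ha0 x hx⟩) hq _ _ h2
  rw [smul_va, smul_va] at h3
  rcases h3 with h3 | ⟨-, -, h3⟩
  · have h4 : y = y + u := α.injective h3
    have h5 := add_cancel2 y u
    rw [← h4, two_smul'] at h5
    exact hu0 (h5 ▸ W₀.zero_mem)
  · have h4 : γ.2 y + γ.2 (y + u) = α u := by
      change α y + α (y + u) = α u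
      rw [← map_add, add_cancel2]
    rw [h4, hau, c.mU] at h3
    exact hv' h3

end Cfg

namespace VxM

variable {M : Set ZFSet.{0}} {at' : XX → ZFSet.{0}} {st : Set XX → ZFSet.{0}}
  {fam : Set (Set XX) → ZFSet.{0}} (h : VxM M at' st fam)

include h

/-- There is no injection in the other direction. -/
theorem no_inj : ¬ ∃ g ∈ M, IsInj (FinPart M (st Set.univ)) (PartFin M (st Set.univ)) g := by
  classical
  rintro ⟨g, hg, hgf, hgi⟩
  have hZ := h.zf
  have hAM := h.stM _ univ_DX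
  obtain ⟨S, hSf, hS⟩ := supp h hg
  obtain ⟨w, hw⟩ := (Set.finite_singleton (0 : VV)).exists_notMem
  obtain ⟨W₀, hW₀, hW₀f⟩ := exists_fin_sub ((S : Set VV) ∪ {w}) (hSf.union (Set.finite_singleton _))
  obtain ⟨u, hu⟩ := hW₀f.exists_notMem
  obtain ⟨W', hW', hWf'⟩ := exists_fin_sub ((W₀ : Set VV) ∪ {u}) (hW₀f.union (Set.finite_singleton _))
  obtain ⟨v, hv⟩ := hWf'.exists_notMem
  obtain ⟨W, hW, hWf⟩ := exists_fin_sub ((W' : Set VV) ∪ {v}) (hWf'.union (Set.finite_singleton _))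
  let E : Finset (VV × VV) := hWf.toFinset.image fun x => (x, x)
  let U : Finset VV := hWf'.toFinset
  have hE : ∀ p, p ∈ E ↔ p.1 = p.2 ∧ p.1 ∈ W := by
    rintro ⟨a, b⟩
    rw [Finset.mem_image]
    constructor
    · rintro ⟨x, hx, h1⟩
      have h2 : x = a := congrArg Prod.fst h1
      have h3 : x = b := congrArg Prod.snd h1
      rw [← h2, ← h3]
      exact ⟨rfl, hWf.mem_toFinset.1 hx⟩
    · rintro ⟨h1, h2⟩
      have h1' : a = b := h1
      refine ⟨a, hWf.mem_toFinset.2 h2, ?_⟩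
      rw [h1']
  have hU : ∀ x, x ∈ U ↔ x ∈ W' := fun x => hWf'.mem_toFinset
  have he := isEq_rl2 hE hU
  have hval : ∀ P ∈ FinPart M (st Set.univ), ∃ Q ∈ M, pair P Q ∈ g ∧ IsPart (st Set.univ) Q ∧
      FinIn M Q ∧ ∀ Q', pair P Q' ∈ g → Q' = Q := by
    intro P hP
    obtain ⟨Q, hQ, hu⟩ := hgf.2 P hP
    obtain ⟨h1, h2, h3⟩ := (mem_PartFin hZ hAM).1 (ZFSet.pair_mem_prod.1 (hgf.1 hQ)).2
    exact ⟨Q, h1, hQ, h2, h3, hu⟩
  obtain ⟨Q, hQM, hPQ, hQp, hQf, hQu⟩ := hval _ (fam_mem h he)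
  have key : ∀ γ : GX, (∀ x ∈ W₀, γ.1 x = x ∧ γ.2 x = x) → ∀ Q₁,
      pair (fam (blk (rl2 (imE γ E) (imU γ U)))) Q₁ ∈ g →
      (∀ Q', pair (fam (blk (rl2 (imE γ E) (imU γ U)))) Q' ∈ g → Q' = Q₁) →
      ∀ x y, qr at' Q x y ↔ qr at' Q₁ (γ • x) (γ • y) := by
    intro γ hγ Q₁ hQ₁ hQ₁u x y
    have h1 := hS γ (fun x hx => hγ x (hW₀ (Or.inl hx))) (nat 0) (.nat 0) 3
    let o : Fin 3 → Ob XX := ![Sum.inr (Sum.inr (blk (rl2 E U))), Sum.inl x, Sum.inl y]
    have ho : ∀ i, okO DX FX (o i) := by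
      intro i
      refine Fin.cases (blk_FX E U) (fun i => Fin.cases trivial (fun i => Fin.cases trivial
        (fun i => i.elim0) i) i) i
    constructor
    · intro hxy
      obtain ⟨R, -, h2, h3⟩ := h1 _ ud_img o ho ⟨Q, hQM, hPQ, hxy⟩
      have h4 : pair (fam (imF γ (blk (rl2 E U)))) R ∈ g := h2
      rw [imF_blk] at h4
      rw [hQ₁u R h4] at h3
      exact h3
    · intro hxy
      by_contra hn
      have h2 := h1 _ ud_nimg o ho (by
        rintro ⟨R, -, h2, h3⟩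
        have h4 : pair (fam (blk (rl2 E U))) R ∈ g := h2
        rw [hQu R h4] at h3
        exact hn h3)
      refine h2 ⟨Q₁, (hZ.of_pair_mem (hZ.trans _ hg _ hQ₁)).2, ?_, hxy⟩
      change pair (fam (imF γ (blk (rl2 E U)))) Q₁ ∈ g
      rw [imF_blk]
      exact hQ₁
  refine Cfg.false (W₀ := W₀) (W' := W') (W := W) (E := E) (U := U) (q := qr at' Q)
    ⟨fun x hx => hW' (Or.inl hx), fun x hx => hW (Or.inl hx), hWf, ⟨w, hW₀ (Or.inr rfl), hw⟩,
      ⟨u, hW' (Or.inr rfl), hu⟩, ⟨v, hW (Or.inr rfl), hv⟩, hE, hU, nq h hQM hQp hQf, ?_, ?_⟩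
  · intro γ hγ h1 h2
    have h3 := key γ hγ Q
    rw [h1, h2] at h3
    exact h3 hPQ hQu
  · intro γ hγ hq x y hxy
    have he' := he.smul γ
    obtain ⟨Q₁, hQ₁M, hPQ₁, hQ₁p, hQ₁f, hQ₁u⟩ := hval _ (fam_mem h he')
    have h1 := key γ hγ Q₁ hPQ₁ hQ₁u
    have h2 : Q₁ = Q := by
      refine part_ext hQ₁p hQp fun a ha b hb => ?_
      obtain ⟨x, -, rfl⟩ := (h.mst _ univ_DX a).1 ha
      obtain ⟨y, -, rfl⟩ := (h.mst _ univ_DX b).1 hb
      have h3 := h1 (γ⁻¹ • x) (γ⁻¹ • y)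
      have h4 := hq (γ⁻¹ • x) (γ⁻¹ • y)
      rw [smul_inv_smul, smul_inv_smul] at h3 h4
      exact h3.symm.trans h4
    rw [h2] at hPQ₁
    have h3 := hgi _ _ _ hPQ₁ hPQ
    rw [← sm_fam h he, ← h3, sm_fam h he', rl2_smul]
    exact hxy

end VxM

end Pool.Agent.Q211.AM
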