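import Pool.Agent.Q211.AM.Vm4

/-!
# Strict inequality
-/

set_option autoImplicit false

namespace Pool.Agent.Q211.AM

open Pool.Agent.W868 Pool.Agent.W868.PName Pool.Agent.Q211.SY Pool.Agent.Q211.FS
open Pool.Agent.Q211.PA Pool.Agent.Q211.TP
open ZFSet (pair)
open XX

/-- In `M`, the cardinality of `X` is strictly smaller than that of `Y`: there is an injection of
`X` into `Y`, and there is no bijection. -/
def CardLt (M : Set ZFSet.{0}) (X Y : ZFSet.{0}) : Prop :=
  (∃ f ∈ M, IsInj X Y f) ∧ ¬ ∃ f ∈ M, IsBij X Y f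

/-- The inverse of a bijection. -/
theorem exists_inv {M : Set ZFSet.{0}} (hM : IsZF M) {X Y f : ZFSet.{0}} (hX : X ∈ M)
    (hY : Y ∈ M) (hf : f ∈ M) (h : IsBij X Y f) : ∃ g ∈ M, IsInj Y X g := by
  have hB := hM.base
  obtain ⟨g, hg, hsub, hiff⟩ := hM.rel_mem hY hX (Q := fun y x => pair x y ∈ f) (by
    (repeat' first
      | assumption
      | exact DfnF.proj _
      | exact DfnF.const (by assumption)
      | exact DfnF.const' (by first | assumption | trivial) (by first | assumption | trivial)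
      | exact Dfn.prop _
      | apply hB.isFunc' | apply hB.isInj' | apply hB.isBij' | apply hB.isOrdinal'
      | apply hB.subset' | apply hB.pair' | apply hB.insert'
      | apply Dfn.not | apply Dfn.and | apply Dfn.or | apply Dfn.imp | apply Dfn.iff
      | apply hB.bex | apply hB.ball | apply Dfn.ex | apply Dfn.all
      | apply Dfn.eq | apply Dfn.mem))
  have hmem : ∀ x y, pair x y ∈ f → x ∈ X ∧ y ∈ Y := fun x y hxy =>
    ZFSet.pair_mem_prod.1 (h.1.1.1 hxy)
  refine ⟨g, hg, ⟨hsub, fun y hy => ?_⟩, fun y y' x h1 h2 => ?_⟩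
  · obtain ⟨x, hx, hxy⟩ := h.2 y hy
    refine ⟨x, (hiff y x).2 ⟨hy, hx, hxy⟩, fun x' hx' => ?_⟩
    exact h.1.2 _ _ _ ((hiff y x').1 hx').2.2 hxy
  · have h3 := ((hiff y x).1 h1).2.2
    have h4 := ((hiff y' x).1 h2).2.2
    obtain ⟨z, -, hz⟩ := h.1.1.2 x (hmem _ _ h3).1
    rw [hz y h3, hz y' h4]

theorem VxM.lt {M : Set ZFSet.{0}} {at' : XX → ZFSet.{0}} {st : Set XX → ZFSet.{0}}
    {fam : Set (Set XX) → ZFSet.{0}} (h : VxM M at' st fam) :
    CardLt M (PartFin M (st Set.univ)) (FinPart M (st Set.univ)) := by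
  have hA := h.stM _ univ_DX
  refine ⟨VxM.exists_inj h, ?_⟩
  rintro ⟨f, hf, hb⟩
  exact VxM.no_inj h (exists_inv h.zf (PartFin_mem h.zf hA) (FinPart_mem h.zf hA) hf hb)

theorem VxM.inf {M : Set ZFSet.{0}} {at' : XX → ZFSet.{0}} {st : Set XX → ZFSet.{0}}
    {fam : Set (Set XX) → ZFSet.{0}} (h : VxM M at' st fam) : ¬ FinIn M (st Set.univ) := by
  rw [h.fin_iff (h.atoms univ_DX) (h.stM _ univ_DX)]
  intro h1
  have h2 : {x | at' x ∈ st Set.univ} = Set.univ :=
    Set.eq_univ_of_forall fun x => (h.mem_st univ_DX).2 trivial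
  rw [h2] at h1
  have h3 : Function.Injective ca := fun a b hab => ca_inj.1 hab
  exact Set.infinite_univ (α := ℕ) ((h1.preimage h3.injOn).subset fun x _ => trivial)

end Pool.Agent.Q211.AM
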