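import Pool.Agent.Q211.AM.Vx

/-!
# Coding equivalence relations with finitely many classes by those with finite classes
-/

set_option autoImplicit false
set_option linter.unusedSectionVars false
set_option linter.unreachableTactic false
set_option linter.unusedTactic false

namespace Pool.Agent.Q211.AM

open XX

/-- The equivalence relations that occur. -/
structure NQ (q : XX → XX → Prop) : Prop where
  refl : ∀ x, q x x
  symm : ∀ x y, q x y → q y x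
  trans : ∀ x y z, q x y → q y z → q x z
  finX : ∃ x, {y | ¬ q (xa x) (xa y)}.Finite
  finV : ∃ x, {y | ¬ q (va x) (va y)}.Finite

/-- The class contains almost all points of the same kind. -/
def gen (q : XX → XX → Prop) : XX → Prop
  | xa x => {y | ¬ q (xa x) (xa y)}.Finite
  | va x => {y | ¬ q (va x) (va y)}.Finite
  | ca _ => False

/-- The finitely many exceptional points. -/
def NN (q : XX → XX → Prop) (z : XX) : Prop := (∀ n, z ≠ ca n) ∧ ¬ gen q z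

/-- The point `z` represents the index `i`. -/
def rep (q : XX → XX → Prop) (i : ℕ) (z : XX) : Prop :=
  (i = 0 ∧ (∃ x, z = xa x) ∧ gen q z) ∨ (i = 1 ∧ (∃ x, z = va x) ∧ gen q z) ∨
    ∃ n, i = n + 2 ∧ z = ca n

/-- The index `i` is a label of the class of `z`. -/
def LL (q : XX → XX → Prop) (i : ℕ) (z : XX) : Prop := ∃ y, rep q i y ∧ q y z

/-- The least label. -/
def LM (q : XX → XX → Prop) (i : ℕ) (z : XX) : Prop := LL q i z ∧ ∀ j < i, ¬ LL q j z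

/-- The class of `z` is a singleton without a label. -/
def UN (q : XX → XX → Prop) (z : XX) : Prop := (∀ i, ¬ LL q i z) ∧ ∀ y, q z y → y = z

/-- The indices are labels of the same class. -/
def LK (q : XX → XX → Prop) (i j : ℕ) : Prop := ∃ x y, rep q i x ∧ rep q j y ∧ q x y

/-- The keys. -/
inductive Key : Type
  | sg : XX → Key
  | lab : ℕ → Key
  | un : Key
  | cl : Set XX → Key
  | bit : ℕ → Key

open Key

open Classical in
/-- The key of a point that is not of the form `ca n`. -/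
noncomputable def btn (q : XX → XX → Prop) (z : XX) : Key :=
  if gen q z then sg z else if h : ∃ i, LL q i z then lab (Nat.find h) else
    if ∀ y, q z y → y = z then un else cl {y | q z y}

open Classical in
/-- The key of a point. -/
noncomputable def bt (q : XX → XX → Prop) : XX → Key
  | xa x => btn q (xa x)
  | va x => btn q (va x)
  | ca m => if m % 4 = 0 then lab (m / 4) else if m % 4 = 3 then (if m = 3 then un else sg (ca m))
      else if LK q (Nat.unpair (m / 4)).1 (Nat.unpair (m / 4)).2 then bit (m / 4) else sg (ca m)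

theorem bt_btn {q : XX → XX → Prop} {z : XX} (h : ∀ n, z ≠ ca n) : bt q z = btn q z := by
  rcases z with z | z | z
  · rfl
  · rfl
  · exact absurd rfl (h z)

theorem LM_unique {q : XX → XX → Prop} {i j : ℕ} {z : XX} (h : LM q i z) (h' : LM q j z) :
    i = j := by
  rcases lt_trichotomy i j with h1 | h1 | h1
  · exact absurd h.1 (h'.2 i h1)
  · exact h1
  · exact absurd h'.1 (h.2 j h1)

theorem bt_gen {q : XX → XX → Prop} {z : XX} (h : ∀ n, z ≠ ca n) (hg : gen q z) :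
    bt q z = sg z := by
  rw [bt_btn h, btn, if_pos hg]

theorem bt_lab {q : XX → XX → Prop} {z : XX} {i : ℕ} (h : NN q z) (hg : LM q i z) :
    bt q z = lab i := by
  classical
  have h1 : ∃ i, LL q i z := ⟨i, hg.1⟩
  rw [bt_btn h.1, btn, if_neg h.2, dif_pos h1]
  refine congrArg lab (LM_unique (z := z) (q := q) ⟨Nat.find_spec h1, fun j hj => ?_⟩ hg)
  exact Nat.find_min h1 hj

theorem bt_un {q : XX → XX → Prop} {z : XX} (h : NN q z) (hu : UN q z) : bt q z = un := by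
  have h1 : ¬ ∃ i, LL q i z := fun ⟨i, hi⟩ => hu.1 i hi
  rw [bt_btn h.1, btn, if_neg h.2, dif_neg h1, if_pos hu.2]

theorem bt_cl {q : XX → XX → Prop} {z : XX} (h : NN q z) (h1 : ∀ i, ¬ LL q i z)
    (h2 : ¬ ∀ y, q z y → y = z) : bt q z = cl {y | q z y} := by
  have h3 : ¬ ∃ i, LL q i z := fun ⟨i, hi⟩ => h1 i hi
  rw [bt_btn h.1, btn, if_neg h.2, dif_neg h3, if_neg h2]

theorem bt_ca0 {q : XX → XX → Prop} (i : ℕ) : bt q (ca (4 * i)) = lab i := by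
  have h1 : (4 * i) % 4 = 0 := by omega
  have h2 : (4 * i) / 4 = i := by omega
  simp only [bt, h1, h2, if_true]

theorem bt_ca3 {q : XX → XX → Prop} : bt q (ca 3) = un := by
  simp [bt]

theorem bt_bit {q : XX → XX → Prop} {k m : ℕ}
    (h : LK q (Nat.unpair k).1 (Nat.unpair k).2) (hm : m = 4 * k + 1 ∨ m = 4 * k + 2) :
    bt q (ca m) = bit k := by
  have h1 : m % 4 ≠ 0 := by omega
  have h2 : m % 4 ≠ 3 := by omega
  have h3 : m / 4 = k := by omega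
  simp only [bt, h1, h2, h3, if_false, h, if_true]

theorem bt_nbit {q : XX → XX → Prop} {k m : ℕ}
    (h : ¬ LK q (Nat.unpair k).1 (Nat.unpair k).2) (hm : m = 4 * k + 1 ∨ m = 4 * k + 2) :
    bt q (ca m) = sg (ca m) := by
  have h1 : m % 4 ≠ 0 := by omega
  have h2 : m % 4 ≠ 3 := by omega
  have h3 : m / 4 = k := by omega
  simp only [bt, h1, h2, h3, if_false, h]

theorem bt_ca' {q : XX → XX → Prop} {m : ℕ} (h : m % 4 = 3) (hm : m ≠ 3) :
    bt q (ca m) = sg (ca m) := by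
  simp [bt, h, hm]

theorem bt_cases (q : XX → XX → Prop) (z : XX) :
    ((∀ n, z ≠ ca n) ∧ gen q z ∧ bt q z = sg z) ∨ (NN q z ∧ ∃ i, LM q i z ∧ bt q z = lab i) ∨
    (NN q z ∧ UN q z ∧ bt q z = un) ∨
    (NN q z ∧ (∀ i, ¬ LL q i z) ∧ (¬ ∀ y, q z y → y = z) ∧ bt q z = cl {y | q z y}) ∨
    (∃ i, z = ca (4 * i) ∧ bt q z = lab i) ∨ (z = ca 3 ∧ bt q z = un) ∨
    (∃ k, LK q (Nat.unpair k).1 (Nat.unpair k).2 ∧ (z = ca (4 * k + 1) ∨ z = ca (4 * k + 2)) ∧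
      bt q z = bit k) ∨ ((∃ m, z = ca m) ∧ bt q z = sg z) := by
  classical
  by_cases hz : ∀ n, z ≠ ca n
  · by_cases hg : gen q z
    · exact Or.inl ⟨hz, hg, bt_gen hz hg⟩
    · have hn : NN q z := ⟨hz, hg⟩
      by_cases hl : ∃ i, LL q i z
      · have hm : LM q (Nat.find hl) z := ⟨Nat.find_spec hl, fun j hj => Nat.find_min hl hj⟩
        exact Or.inr (Or.inl ⟨hn, _, hm, bt_lab hn hm⟩)
      · have hl' : ∀ i, ¬ LL q i z := fun i hi => hl ⟨i, hi⟩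
        by_cases hs : ∀ y, q z y → y = z
        · exact Or.inr (Or.inr (Or.inl ⟨hn, ⟨hl', hs⟩, bt_un hn ⟨hl', hs⟩⟩))
        · exact Or.inr (Or.inr (Or.inr (Or.inl ⟨hn, hl', hs, bt_cl hn hl' hs⟩)))
  · push Not at hz
    obtain ⟨m, rfl⟩ := hz
    refine Or.inr (Or.inr (Or.inr (Or.inr ?_)))
    have h4 : m % 4 = 0 ∨ m % 4 = 1 ∨ m % 4 = 2 ∨ m % 4 = 3 := by omega
    rcases h4 with h4 | h4 | h4 | h4
    · refine Or.inl ⟨m / 4, ?_, ?_⟩
      · rw [show 4 * (m / 4) = m by omega]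
      · have h5 := bt_ca0 (q := q) (m / 4)
        rwa [show 4 * (m / 4) = m by omega] at h5
    · by_cases h5 : LK q (Nat.unpair (m / 4)).1 (Nat.unpair (m / 4)).2
      · refine Or.inr (Or.inr (Or.inl ⟨m / 4, h5, Or.inl ?_, bt_bit h5 (Or.inl (by omega))⟩))
        rw [show 4 * (m / 4) + 1 = m by omega]
      · exact Or.inr (Or.inr (Or.inr ⟨⟨m, rfl⟩, bt_nbit h5 (Or.inl (by omega))⟩))
    · by_cases h5 : LK q (Nat.unpair (m / 4)).1 (Nat.unpair (m / 4)).2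
      · refine Or.inr (Or.inr (Or.inl ⟨m / 4, h5, Or.inr ?_, bt_bit h5 (Or.inr (by omega))⟩))
        rw [show 4 * (m / 4) + 2 = m by omega]
      · exact Or.inr (Or.inr (Or.inr ⟨⟨m, rfl⟩, bt_nbit h5 (Or.inr (by omega))⟩))
    · by_cases h5 : m = 3
      · rw [h5]
        exact Or.inr (Or.inl ⟨rfl, bt_ca3⟩)
      · exact Or.inr (Or.inr (Or.inr ⟨⟨m, rfl⟩, bt_ca' h4 h5⟩))

/-- The coding relation. -/
def pf (q : XX → XX → Prop) (x y : XX) : Prop :=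
  x = y ∨ (NN q x ∧ NN q y ∧ (q x y ∨ (UN q x ∧ UN q y))) ∨
    (NN q x ∧ ∃ i, LM q i x ∧ y = ca (4 * i)) ∨ (NN q y ∧ ∃ i, LM q i y ∧ x = ca (4 * i)) ∨
    (NN q x ∧ UN q x ∧ y = ca 3) ∨ (NN q y ∧ UN q y ∧ x = ca 3) ∨
    ∃ i j, LK q i j ∧ ((x = ca (4 * Nat.pair i j + 1) ∧ y = ca (4 * Nat.pair i j + 2)) ∨
      (y = ca (4 * Nat.pair i j + 1) ∧ x = ca (4 * Nat.pair i j + 2)))

section

variable {q : XX → XX → Prop} (h : NQ q)

include h

theorem LL_congr {i : ℕ} {x y : XX} (hxy : q x y) : LL q i x ↔ LL q i y := by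
  constructor
  · rintro ⟨z, h1, h2⟩
    exact ⟨z, h1, h.trans _ _ _ h2 hxy⟩
  · rintro ⟨z, h1, h2⟩
    exact ⟨z, h1, h.trans _ _ _ h2 (h.symm _ _ hxy)⟩

theorem LM_congr {i : ℕ} {x y : XX} (hxy : q x y) : LM q i x ↔ LM q i y := by
  unfold LM
  rw [LL_congr h hxy]
  refine and_congr_right fun _ => forall_congr' fun j => imp_congr_right fun _ => ?_
  rw [LL_congr h hxy]

theorem pf_imp {x y : XX} (hp : pf q x y) : bt q x = bt q y := by
  rcases hp with rfl | ⟨h1, h2, h3 | ⟨h3, h4⟩⟩ | ⟨h1, i, h2, rfl⟩ | ⟨h1, i, h2, rfl⟩ |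
    ⟨h1, h2, rfl⟩ | ⟨h1, h2, rfl⟩ | ⟨i, j, h1, ⟨rfl, rfl⟩ | ⟨rfl, rfl⟩⟩
  · rfl
  · rcases bt_cases q x with h4 | ⟨-, i, h4, h5⟩ | ⟨-, h4, -⟩ | ⟨-, h4, h5, h6⟩ | ⟨i, h4, -⟩ |
      ⟨h4, -⟩ | ⟨k, -, h4 | h4, -⟩ | ⟨⟨m, h4⟩, -⟩
    · exact absurd h4.2.1 h1.2
    · rw [h5, bt_lab h2 ((LM_congr h h3).1 h4)]
    · rw [h4.2 y h3]
    · have h7 : ∀ i, ¬ LL q i y := fun i hi => h4 i ((LL_congr h h3).2 hi)
      have h8 : ¬ ∀ z, q y z → z = y := by
        intro h8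
        refine h5 fun z hz => ?_
        rw [h8 z (h.trans _ _ _ (h.symm _ _ h3) hz), h8 x (h.symm _ _ h3)]
      rw [h6, bt_cl h2 h7 h8]
      refine congrArg cl (Set.ext fun z => ?_)
      exact ⟨fun hz => h.trans _ _ _ (h.symm _ _ h3) hz, fun hz => h.trans _ _ _ h3 hz⟩
    · exact absurd h4 (h1.1 _)
    · exact absurd h4 (h1.1 _)
    · exact absurd h4 (h1.1 _)
    · exact absurd h4 (h1.1 _)
    · exact absurd h4 (h1.1 _)
  · rw [bt_un h1 h3, bt_un h2 h4]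
  · rw [bt_lab h1 h2, bt_ca0]
  · rw [bt_lab h1 h2, bt_ca0]
  · rw [bt_un h1 h2, bt_ca3]
  · rw [bt_un h1 h2, bt_ca3]
  · have h2 : LK q (Nat.unpair (Nat.pair i j)).1 (Nat.unpair (Nat.pair i j)).2 := by
      rw [Nat.unpair_pair]
      exact h1
    rw [bt_bit h2 (Or.inl rfl), bt_bit h2 (Or.inr rfl)]
  · have h2 : LK q (Nat.unpair (Nat.pair i j)).1 (Nat.unpair (Nat.pair i j)).2 := by
      rw [Nat.unpair_pair]
      exact h1
    rw [bt_bit h2 (Or.inl rfl), bt_bit h2 (Or.inr rfl)]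

theorem imp_pf {x y : XX} (hb : bt q x = bt q y) : pf q x y := by
  have hpk : ∀ k, Nat.pair (Nat.unpair k).1 (Nat.unpair k).2 = k := Nat.pair_unpair
  rcases bt_cases q x with ⟨h1, h2, h3⟩ | ⟨h1, i, h2, h3⟩ | ⟨h1, h2, h3⟩ | ⟨h1, h2, h2', h3⟩ |
    ⟨i, h2, h3⟩ | ⟨h2, h3⟩ | ⟨k, h1, h2, h3⟩ | ⟨h1, h3⟩ <;>
  rcases bt_cases q y with ⟨g1, g2, g3⟩ | ⟨g1, j, g2, g3⟩ | ⟨g1, g2, g3⟩ | ⟨g1, g2, g2', g3⟩ |
    ⟨j, g2, g3⟩ | ⟨g2, g3⟩ | ⟨l, g1, g2, g3⟩ | ⟨g1, g3⟩ <;>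
  rw [h3, g3] at hb <;> try (cases hb; done)
  · exact Or.inl (Key.sg.inj hb)
  · exact Or.inl (Key.sg.inj hb)
  · -- both have a label
    obtain rfl := Key.lab.inj hb
    refine Or.inr (Or.inl ⟨h1, g1, Or.inl ?_⟩)
    obtain ⟨a, ha, ha'⟩ := h2.1
    obtain ⟨b, hb, hb'⟩ := g2.1
    have key : q a b := by
      rcases ha with ⟨h4, ⟨u, rfl⟩, h5⟩ | ⟨h4, ⟨u, rfl⟩, h5⟩ | ⟨n, h4, rfl⟩ <;>
      rcases hb with ⟨g4, ⟨v, rfl⟩, g5⟩ | ⟨g4, ⟨v, rfl⟩, g5⟩ | ⟨m, g4, rfl⟩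
      · have h6 : ({y | ¬ q (xa u) (xa y)} ∪ {y | ¬ q (xa v) (xa y)}).Finite := h5.union g5
        obtain ⟨w, hw⟩ := h6.exists_notMem
        rw [Set.mem_union, not_or, Set.mem_setOf_eq, Set.mem_setOf_eq, not_not, not_not] at hw
        exact h.trans _ _ _ hw.1 (h.symm _ _ hw.2)
      · omega
      · omega
      · omega
      · have h6 : ({y | ¬ q (va u) (va y)} ∪ {y | ¬ q (va v) (va y)}).Finite := h5.union g5
        obtain ⟨w, hw⟩ := h6.exists_notMem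
        rw [Set.mem_union, not_or, Set.mem_setOf_eq, Set.mem_setOf_eq, not_not, not_not] at hw
        exact h.trans _ _ _ hw.1 (h.symm _ _ hw.2)
      · omega
      · omega
      · omega
      · have : n = m := by omega
        rw [this]
        exact h.refl _
    exact h.trans _ _ _ (h.symm _ _ ha') (h.trans _ _ _ key hb')
  · obtain rfl := Key.lab.inj hb
    exact Or.inr (Or.inr (Or.inl ⟨h1, i, h2, g2⟩))
  · exact Or.inr (Or.inl ⟨h1, g1, Or.inr ⟨h2, g2⟩⟩)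
  · exact Or.inr (Or.inr (Or.inr (Or.inr (Or.inl ⟨h1, h2, g2⟩))))
  · refine Or.inr (Or.inl ⟨h1, g1, Or.inl ?_⟩)
    have h4 := Key.cl.inj hb
    have h5 : y ∈ {z | q y z} := h.refl y
    rw [← h4] at h5
    exact h5
  · obtain rfl := Key.lab.inj hb
    exact Or.inr (Or.inr (Or.inr (Or.inl ⟨g1, i, g2, h2⟩)))
  · obtain rfl := Key.lab.inj hb
    exact Or.inl (h2.trans g2.symm)
  · exact Or.inr (Or.inr (Or.inr (Or.inr (Or.inr (Or.inl ⟨g1, g2, h2⟩)))))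
  · exact Or.inl (h2.trans g2.symm)
  · obtain rfl := Key.bit.inj hb
    rcases h2 with rfl | rfl <;> rcases g2 with rfl | rfl
    · exact Or.inl rfl
    · refine Or.inr (Or.inr (Or.inr (Or.inr (Or.inr (Or.inr ⟨_, _, h1, Or.inl ?_⟩)))))
      rw [hpk]
      exact ⟨rfl, rfl⟩
    · refine Or.inr (Or.inr (Or.inr (Or.inr (Or.inr (Or.inr ⟨_, _, h1, Or.inr ?_⟩)))))
      rw [hpk]
      exact ⟨rfl, rfl⟩
    · exact Or.inl rfl
  · exact Or.inl (Key.sg.inj hb)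
  · exact Or.inl (Key.sg.inj hb)

theorem pf_iff {x y : XX} : pf q x y ↔ bt q x = bt q y := ⟨pf_imp h, imp_pf h⟩

theorem fin_NN : {z | NN q z}.Finite := by
  obtain ⟨x₀, hx₀⟩ := h.finX
  obtain ⟨v₀, hv₀⟩ := h.finV
  refine ((hx₀.image xa).union (hv₀.image va)).subset ?_
  rintro (x | x | x) ⟨h1, h2⟩
  · refine Or.inl ⟨x, fun h3 => h2 ?_, rfl⟩
    exact hx₀.subset fun y hy h4 => hy (h.trans _ _ _ (h.symm _ _ h3) h4)
  · refine Or.inr ⟨x, fun h3 => h2 ?_, rfl⟩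
    exact hv₀.subset fun y hy h4 => hy (h.trans _ _ _ (h.symm _ _ h3) h4)
  · exact absurd rfl (h1 x)

theorem fin_bt (k : Key) : {z | bt q z = k}.Finite := by
  have h0 := fin_NN h
  rcases k with w | i | - | s | k
  · refine (Set.finite_singleton w).subset fun z hz => ?_
    rw [Set.mem_setOf_eq] at hz
    rcases bt_cases q z with ⟨g1, g2, g3⟩ | ⟨g1, j, g2, g3⟩ | ⟨g1, g2, g3⟩ | ⟨g1, g2, g2', g3⟩ |
      ⟨j, g2, g3⟩ | ⟨g2, g3⟩ | ⟨l, g1, g2, g3⟩ | ⟨g1, g3⟩ <;> rw [g3] at hz <;>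
      try (cases hz; done)
    · exact Key.sg.inj hz
    · exact Key.sg.inj hz
  · refine (h0.union (Set.finite_singleton (ca (4 * i)))).subset fun z hz => ?_
    rw [Set.mem_setOf_eq] at hz
    rcases bt_cases q z with ⟨g1, g2, g3⟩ | ⟨g1, j, g2, g3⟩ | ⟨g1, g2, g3⟩ | ⟨g1, g2, g2', g3⟩ |
      ⟨j, g2, g3⟩ | ⟨g2, g3⟩ | ⟨l, g1, g2, g3⟩ | ⟨g1, g3⟩ <;> rw [g3] at hz <;>
      try (cases hz; done)
    · exact Or.inl g1
    · obtain rfl := Key.lab.inj hz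
      exact Or.inr g2
  · refine (h0.union (Set.finite_singleton (ca 3))).subset fun z hz => ?_
    rw [Set.mem_setOf_eq] at hz
    rcases bt_cases q z with ⟨g1, g2, g3⟩ | ⟨g1, j, g2, g3⟩ | ⟨g1, g2, g3⟩ | ⟨g1, g2, g2', g3⟩ |
      ⟨j, g2, g3⟩ | ⟨g2, g3⟩ | ⟨l, g1, g2, g3⟩ | ⟨g1, g3⟩ <;> rw [g3] at hz <;>
      try (cases hz; done)
    · exact Or.inl g1
    · exact Or.inr g2
  · refine h0.subset fun z hz => ?_
    rw [Set.mem_setOf_eq] at hz
    rcases bt_cases q z with ⟨g1, g2, g3⟩ | ⟨g1, j, g2, g3⟩ | ⟨g1, g2, g3⟩ | ⟨g1, g2, g2', g3⟩ |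
      ⟨j, g2, g3⟩ | ⟨g2, g3⟩ | ⟨l, g1, g2, g3⟩ | ⟨g1, g3⟩ <;> rw [g3] at hz <;>
      try (cases hz; done)
    exact g1
  · refine (Set.toFinite {ca (4 * k + 1), ca (4 * k + 2)}).subset fun z hz => ?_
    rw [Set.mem_setOf_eq] at hz
    rcases bt_cases q z with ⟨g1, g2, g3⟩ | ⟨g1, j, g2, g3⟩ | ⟨g1, g2, g3⟩ | ⟨g1, g2, g2', g3⟩ |
      ⟨j, g2, g3⟩ | ⟨g2, g3⟩ | ⟨l, g1, g2, g3⟩ | ⟨g1, g3⟩ <;> rw [g3] at hz <;>
      try (cases hz; done)
    obtain rfl := Key.bit.inj hz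
    exact g2

theorem rep_q {i : ℕ} {a b : XX} (ha : rep q i a) (hb : rep q i b) : q a b := by
  rcases ha with ⟨h4, ⟨u, rfl⟩, h5⟩ | ⟨h4, ⟨u, rfl⟩, h5⟩ | ⟨n, h4, rfl⟩ <;>
  rcases hb with ⟨g4, ⟨v, rfl⟩, g5⟩ | ⟨g4, ⟨v, rfl⟩, g5⟩ | ⟨m, g4, rfl⟩
  · have h6 : ({y | ¬ q (xa u) (xa y)} ∪ {y | ¬ q (xa v) (xa y)}).Finite := h5.union g5
    obtain ⟨w, hw⟩ := h6.exists_notMem
    rw [Set.mem_union, not_or, Set.mem_setOf_eq, Set.mem_setOf_eq, not_not, not_not] at hw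
    exact h.trans _ _ _ hw.1 (h.symm _ _ hw.2)
  · omega
  · omega
  · omega
  · have h6 : ({y | ¬ q (va u) (va y)} ∪ {y | ¬ q (va v) (va y)}).Finite := h5.union g5
    obtain ⟨w, hw⟩ := h6.exists_notMem
    rw [Set.mem_union, not_or, Set.mem_setOf_eq, Set.mem_setOf_eq, not_not, not_not] at hw
    exact h.trans _ _ _ hw.1 (h.symm _ _ hw.2)
  · omega
  · omega
  · omega
  · have : n = m := by omega
    rw [this]
    exact h.refl _

theorem NN_iff {z : XX} (hz : ∀ n, z ≠ ca n) : NN q z ↔ ∃ y, y ≠ z ∧ bt q z = bt q y := by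
  constructor
  · intro h1
    rcases bt_cases q z with ⟨g1, g2, g3⟩ | ⟨g1, j, g2, g3⟩ | ⟨g1, g2, g3⟩ | ⟨g1, g2, g2', g3⟩ |
      ⟨j, g2, g3⟩ | ⟨g2, g3⟩ | ⟨l, g1, g2 | g2, g3⟩ | ⟨⟨m, g1⟩, g3⟩
    · exact absurd g2 h1.2
    · exact ⟨ca (4 * j), (hz _).symm, by rw [g3, bt_ca0]⟩
    · exact ⟨ca 3, (hz _).symm, by rw [g3, bt_ca3]⟩
    · push Not at g2'
      obtain ⟨y, h2, h3⟩ := g2'
      refine ⟨y, h3, pf_imp h (Or.inr (Or.inl ⟨g1, ⟨fun n hn => ?_, fun hg => ?_⟩, Or.inl h2⟩))⟩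
      · refine g2 (n + 2) ⟨ca n, Or.inr (Or.inr ⟨n, rfl, rfl⟩), ?_⟩
        rw [← hn]
        exact h.symm _ _ h2
      · rcases y with y | y | y
        · exact g2 0 ⟨xa y, Or.inl ⟨rfl, ⟨y, rfl⟩, hg⟩, h.symm _ _ h2⟩
        · exact g2 1 ⟨va y, Or.inr (Or.inl ⟨rfl, ⟨y, rfl⟩, hg⟩), h.symm _ _ h2⟩
        · exact hg
    · exact absurd g2 (hz _)
    · exact absurd g2 (hz _)
    · exact absurd g2 (hz _)
    · exact absurd g2 (hz _)
    · exact absurd g1 (hz _)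
  · rintro ⟨y, h1, h2⟩
    refine ⟨hz, fun hg => h1 ?_⟩
    rcases imp_pf h h2 with h3 | ⟨h3, -⟩ | ⟨h3, -⟩ | ⟨-, i, -, h3⟩ | ⟨h3, -⟩ | ⟨-, -, h3⟩ |
      ⟨i, j, -, ⟨h3, -⟩ | ⟨-, h3⟩⟩
    · exact h3.symm
    · exact absurd hg h3.2
    · exact absurd hg h3.2
    · exact absurd h3 (hz _)
    · exact absurd hg h3.2
    · exact absurd h3 (hz _)
    · exact absurd h3 (hz _)
    · exact absurd h3 (hz _)

theorem LK_iff {i j : ℕ} : LK q i j ↔
    bt q (ca (4 * Nat.pair i j + 1)) = bt q (ca (4 * Nat.pair i j + 2)) := by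
  constructor
  · intro h1
    exact pf_imp h (Or.inr (Or.inr (Or.inr (Or.inr (Or.inr (Or.inr ⟨i, j, h1,
      Or.inl ⟨rfl, rfl⟩⟩))))))
  · intro h1
    by_contra h2
    have h3 : ¬ LK q (Nat.unpair (Nat.pair i j)).1 (Nat.unpair (Nat.pair i j)).2 := by
      rw [Nat.unpair_pair]
      exact h2
    rw [bt_nbit h3 (Or.inl rfl), bt_nbit h3 (Or.inr rfl)] at h1
    have h4 := ca_inj.1 (Key.sg.inj h1)
    omega

theorem LM_iff {i : ℕ} {z : XX} (hz : NN q z) : LM q i z ↔ bt q z = bt q (ca (4 * i)) := by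
  rw [bt_ca0]
  constructor
  · exact fun h1 => bt_lab hz h1
  · intro h1
    rcases bt_cases q z with ⟨g1, g2, g3⟩ | ⟨g1, j, g2, g3⟩ | ⟨g1, g2, g3⟩ | ⟨g1, g2, g2', g3⟩ |
      ⟨j, g2, g3⟩ | ⟨g2, g3⟩ | ⟨l, g1, g2, g3⟩ | ⟨g1, g3⟩ <;> rw [g3] at h1 <;>
      try (cases h1; done)
    · obtain rfl := Key.lab.inj h1
      exact g2
    · exact absurd g2 (hz.1 _)

theorem UN_iff {z : XX} (hz : NN q z) : UN q z ↔ bt q z = bt q (ca 3) := by
  rw [bt_ca3]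
  constructor
  · exact fun h1 => bt_un hz h1
  · intro h1
    rcases bt_cases q z with ⟨g1, g2, g3⟩ | ⟨g1, j, g2, g3⟩ | ⟨g1, g2, g3⟩ | ⟨g1, g2, g2', g3⟩ |
      ⟨j, g2, g3⟩ | ⟨g2, g3⟩ | ⟨l, g1, g2, g3⟩ | ⟨g1, g3⟩ <;> rw [g3] at h1 <;>
      try (cases h1; done)
    · exact g2
    · exact absurd g2 (hz.1 _)

theorem exists_LM {i : ℕ} {z : XX} (hl : LL q i z) : ∃ j, LM q j z := by
  classical
  have h1 : ∃ i, LL q i z := ⟨i, hl⟩
  exact ⟨Nat.find h1, Nat.find_spec h1, fun j hj => Nat.find_min h1 hj⟩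

end

/-- The coding is injective. -/
theorem pf_injective {q q' : XX → XX → Prop} (h : NQ q) (h' : NQ q')
    (hp : ∀ x y, pf q x y ↔ pf q' x y) : ∀ x y, q x y ↔ q' x y := by
  have hb : ∀ x y, bt q x = bt q y ↔ bt q' x = bt q' y := fun x y => by
    rw [← pf_iff h, ← pf_iff h', hp]
  have hN : ∀ z, NN q z ↔ NN q' z := by
    intro z
    by_cases hz : ∀ n, z ≠ ca n
    · rw [NN_iff h hz, NN_iff h' hz]
      simp only [hb]
    · exact ⟨fun h1 => absurd h1.1 hz, fun h1 => absurd h1.1 hz⟩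
  have hg : ∀ z, gen q z ↔ gen q' z := by
    intro z
    by_cases hz : ∀ n, z ≠ ca n
    · have h1 := hN z
      unfold NN at h1
      simp only [hz, not_false_eq_true, implies_true, true_and, ne_eq] at h1
      exact not_iff_not.1 h1
    · push Not at hz
      obtain ⟨n, rfl⟩ := hz
      exact Iff.rfl
  have hrep : ∀ i z, rep q i z ↔ rep q' i z := by
    intro i z
    unfold rep
    rw [hg]
  have hK : ∀ i j, LK q i j ↔ LK q' i j := by
    intro i j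
    rw [LK_iff h, LK_iff h', hb]
  have hM : ∀ i z, NN q z → (LM q i z ↔ LM q' i z) := by
    intro i z hz
    rw [LM_iff h hz, LM_iff h' ((hN z).1 hz), hb]
  have hU : ∀ z, NN q z → (UN q z ↔ UN q' z) := by
    intro z hz
    rw [UN_iff h hz, UN_iff h' ((hN z).1 hz), hb]
  have hidx : ∀ z, ¬ NN q z → ∃ i, rep q i z := by
    intro z hz
    rcases z with z | z | z
    · have h1 : gen q (xa z) := by
        by_contra h1
        exact hz ⟨fun n hn => (by cases hn), h1⟩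
      exact ⟨0, Or.inl ⟨rfl, ⟨z, rfl⟩, h1⟩⟩
    · have h1 : gen q (va z) := by
        by_contra h1
        exact hz ⟨fun n hn => (by cases hn), h1⟩
      exact ⟨1, Or.inr (Or.inl ⟨rfl, ⟨z, rfl⟩, h1⟩)⟩
    · exact ⟨z + 2, Or.inr (Or.inr ⟨z, rfl, rfl⟩)⟩
  -- one direction of the mixed case
  have mix : ∀ {q q' : XX → XX → Prop}, NQ q → NQ q' → (∀ i z, rep q i z ↔ rep q' i z) →
      (∀ i j, LK q i j ↔ LK q' i j) → (∀ i z, NN q z → (LM q i z ↔ LM q' i z)) →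
      ∀ x y i, NN q x → rep q i y → q x y → q' x y := by
    intro q q' h h' hrep hK hM x y i hx hy hxy
    have h1 : LL q i x := ⟨y, hy, h.symm _ _ hxy⟩
    obtain ⟨j, hj⟩ := exists_LM h h1
    obtain ⟨z, h2, h3⟩ := hj.1
    have h4 : LK q j i := ⟨z, y, h2, hy, h.trans _ _ _ h3 hxy⟩
    obtain ⟨a, b, h5, h6, h7⟩ := (hK j i).1 h4
    obtain ⟨c, h8, h9⟩ := ((hM j x hx).1 hj).1
    have h10 : q' a c := rep_q h' h5 h8
    have h11 : q' b y := rep_q h' h6 ((hrep i y).1 hy)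
    exact h'.trans _ _ _ (h'.symm _ _ h9) (h'.trans _ _ _ (h'.symm _ _ h10)
      (h'.trans _ _ _ h7 h11))
  have hM' : ∀ i z, NN q' z → (LM q' i z ↔ LM q i z) := fun i z hz =>
    (hM i z ((hN z).2 hz)).symm
  -- one direction of the case of two exceptional points
  have exc : ∀ {q q' : XX → XX → Prop}, NQ q → NQ q' →
      (∀ x y, bt q x = bt q y ↔ bt q' x = bt q' y) → (∀ z, NN q z ↔ NN q' z) →
      (∀ z, NN q z → (UN q z ↔ UN q' z)) →
      ∀ x y, NN q x → NN q y → q x y → q' x y := by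
    intro q q' h h' hb hN hU x y hx hy hxy
    by_cases hxy' : x = y
    · rw [hxy']
      exact h'.refl _
    have h1 := imp_pf h' ((hb x y).1 (pf_imp h (Or.inr (Or.inl ⟨hx, hy, Or.inl hxy⟩))))
    rcases h1 with h3 | ⟨h3, -, h4 | ⟨h4, -⟩⟩ | ⟨-, i, -, h3⟩ | ⟨-, i, -, h3⟩ | ⟨-, -, h3⟩ |
      ⟨-, -, h3⟩ | ⟨i, j, -, ⟨h3, -⟩ | ⟨-, h3⟩⟩
    · exact absurd h3 hxy'
    · exact h4
    · exact absurd (((hU x hx).2 h4).2 y hxy).symm hxy'
    · exact absurd h3 (hy.1 _)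
    · exact absurd h3 (hx.1 _)
    · exact absurd h3 (hy.1 _)
    · exact absurd h3 (hx.1 _)
    · exact absurd h3 (hx.1 _)
    · exact absurd h3 (hx.1 _)
  intro x y
  by_cases hx : NN q x <;> by_cases hy : NN q y
  · exact ⟨exc h h' hb hN hU x y hx hy, exc h' h (fun x y => (hb x y).symm)
      (fun z => (hN z).symm) (fun z hz => (hU z ((hN z).2 hz)).symm) x y ((hN x).1 hx)
      ((hN y).1 hy)⟩
  · obtain ⟨i, hi⟩ := hidx y hy
    exact ⟨mix h h' hrep hK hM x y i hx hi, mix h' h (fun i z => (hrep i z).symm)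
      (fun i j => (hK i j).symm) hM' x y i ((hN x).1 hx) ((hrep i y).1 hi)⟩
  · obtain ⟨i, hi⟩ := hidx x hx
    constructor
    · intro h1
      exact h'.symm _ _ (mix h h' hrep hK hM y x i hy hi (h.symm _ _ h1))
    · intro h1
      exact h.symm _ _ (mix h' h (fun i z => (hrep i z).symm)
        (fun i j => (hK i j).symm) hM' y x i ((hN y).1 hy) ((hrep i x).1 hi) (h'.symm _ _ h1))
  · obtain ⟨i, hi⟩ := hidx x hx
    obtain ⟨j, hj⟩ := hidx y hy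
    constructor
    · intro h1
      obtain ⟨a, b, h2, h3, h4⟩ := (hK i j).1 ⟨x, y, hi, hj, h1⟩
      exact h'.trans _ _ _ (rep_q h' ((hrep i x).1 hi) h2) (h'.trans _ _ _ h4
        (rep_q h' h3 ((hrep j y).1 hj)))
    · intro h1
      obtain ⟨a, b, h2, h3, h4⟩ := (hK i j).2 ⟨x, y, (hrep i x).1 hi, (hrep j y).1 hj, h1⟩
      exact h.trans _ _ _ (rep_q h hi h2) (h.trans _ _ _ h4 (rep_q h h3 hj))

end Pool.Agent.Q211.AM
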