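import Pool.Agent.Q211.AM.Rt

/-!
# A pure set, a vector space and a countable set

The points are `xa x` and `va x` for `x` in a countable vector space over the field with two
elements, and `ca n` for natural numbers `n`. The group acts on the points `xa x` by arbitrary
permutations, on the points `va x` by linear bijections, and it fixes the points `ca n`.
-/

set_option autoImplicit false
set_option linter.unusedSectionVars false
set_option linter.unreachableTactic false
set_option linter.unusedTactic false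

namespace Pool.Agent.Q211.AM

open Pool.Agent.W868 Pool.Agent.W868.PName Pool.Agent.Q211.SY Pool.Agent.Q211.FS
open Pool.Agent.Q211.PA Pool.Agent.Q211.TP
open ZFSet (pair)

/-- The vector space. -/
abbrev VV : Type := ℕ →₀ ZMod 2

/-- The points. -/
inductive XX : Type
  | xa : VV → XX
  | va : VV → XX
  | ca : ℕ → XX

namespace XX

theorem xa_inj {x y : VV} : xa x = xa y ↔ x = y := ⟨fun h => by cases h; rfl, fun h => by rw [h]⟩

theorem va_inj {x y : VV} : va x = va y ↔ x = y := ⟨fun h => by cases h; rfl, fun h => by rw [h]⟩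

theorem ca_inj {x y : ℕ} : ca x = ca y ↔ x = y := ⟨fun h => by cases h; rfl, fun h => by rw [h]⟩

/-- The points as a sum. -/
def toSum : XX → VV ⊕ (VV ⊕ ℕ)
  | xa x => .inl x
  | va x => .inr (.inl x)
  | ca n => .inr (.inr n)

theorem toSum_inj : Function.Injective toSum := by
  rintro (x | x | x) (y | y | y) h
  · rw [Sum.inl.inj h]
  · exact absurd h (by simp [toSum])
  · exact absurd h (by simp [toSum])
  · exact absurd h (by simp [toSum])
  · rw [Sum.inl.inj (Sum.inr.inj h)]
  · exact absurd h (by simp [toSum])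
  · exact absurd h (by simp [toSum])
  · exact absurd h (by simp [toSum])
  · rw [Sum.inr.inj (Sum.inr.inj h)]

instance : Countable XX := toSum_inj.countable

end XX

open XX

/-- The group. -/
abbrev GX : Type := Equiv.Perm VV × (VV ≃ₗ[ZMod 2] VV)

/-- The action of the group on the points. -/
noncomputable def actX (g : GX) : XX → XX
  | xa x => xa (g.1 x)
  | va x => va (g.2 x)
  | ca n => ca n

noncomputable instance : MulAction GX XX where
  smul := actX
  one_smul := by
    rintro (x | x | x) <;> rfl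
  mul_smul := by
    rintro g h (x | x | x) <;> rfl

theorem smul_xa (g : GX) (x : VV) : g • xa x = xa (g.1 x) := rfl

theorem smul_va (g : GX) (x : VV) : g • va x = va (g.2 x) := rfl

theorem smul_ca (g : GX) (n : ℕ) : g • ca n = ca n := rfl

theorem two_smul' (x : VV) : x + x = 0 := by
  have h : (2 : ZMod 2) • x = x + x := two_smul _ x
  rw [← h, show (2 : ZMod 2) = 0 from rfl, zero_smul]

theorem add_cancel2 (x y : VV) : x + (x + y) = y := by
  rw [← add_assoc, two_smul', zero_add]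

theorem zmod2 (a : ZMod 2) : a = 0 ∨ a = 1 := by
  fin_cases a
  · exact Or.inl rfl
  · exact Or.inr rfl

/-- A functional. -/
theorem exists_functional (S : Submodule (ZMod 2) VV) {u v : VV} (hu : u ∉ S) (hv : v ∉ S) :
    ∃ l : VV →ₗ[ZMod 2] ZMod 2, (∀ x ∈ S, l x = 0) ∧ l u = 1 ∧ l v = 1 := by
  have key : ∀ w, w ∉ S → ∃ l : VV →ₗ[ZMod 2] ZMod 2, (∀ x ∈ S, l x = 0) ∧ l w = 1 := by
    intro w hw
    obtain ⟨f, hf, hf'⟩ := Submodule.exists_le_ker_of_notMem hw
    refine ⟨f, fun x hx => hf' hx, ?_⟩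
    rcases zmod2 (f w) with h | h
    · exact absurd h hf
    · exact h
  obtain ⟨f, hf, hfu⟩ := key u hu
  obtain ⟨g, hg, hgv⟩ := key v hv
  rcases zmod2 (f v) with h1 | h1
  · rcases zmod2 (g u) with h2 | h2
    · refine ⟨f + g, fun x hx => ?_, ?_, ?_⟩
      · rw [LinearMap.add_apply, hf x hx, hg x hx, add_zero]
      · rw [LinearMap.add_apply, hfu, h2, add_zero]
      · rw [LinearMap.add_apply, h1, hgv, zero_add]
    · exact ⟨g, hg, h2, hgv⟩
  · exact ⟨f, hf, hfu, h1⟩

/-- Transvections. -/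
theorem exists_tv (S : Submodule (ZMod 2) VV) {u v : VV} (hu : u ∉ S) (hv : v ∉ S) :
    ∃ α : VV ≃ₗ[ZMod 2] VV, (∀ x ∈ S, α x = x) ∧ α u = v ∧
      ∀ T : Submodule (ZMod 2) VV, u + v ∈ T → ∀ x, α x ∈ T ↔ x ∈ T := by
  obtain ⟨l, h1, h2, h3⟩ := exists_functional S hu hv
  have h4 : l (u + v) = 0 := by
    rw [map_add, h2, h3]
    rfl
  let f : VV →ₗ[ZMod 2] VV := LinearMap.id + l.smulRight (u + v)
  have hf : ∀ x, f x = x + l x • (u + v) := fun x => rfl
  have hff : ∀ x, f (f x) = x := by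
    intro x
    rw [hf, hf, map_add, map_smul, h4, smul_zero, add_zero, add_assoc, two_smul', add_zero]
  refine ⟨LinearEquiv.ofLinear f f (LinearMap.ext hff) (LinearMap.ext hff), fun x hx => ?_, ?_,
    fun T hT x => ?_⟩
  · change f x = x
    rw [hf, h1 x hx, zero_smul, add_zero]
  · change f u = v
    rw [hf, h2, one_smul, add_cancel2]
  · change f x ∈ T ↔ x ∈ T
    rw [hf]
    exact T.add_mem_iff_left (T.smul_mem _ hT)

/-- The relation given by a finite relation and a finite set of vectors. -/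
def rl2 (E : Finset (VV × VV)) (U : Finset VV) : XX → XX → Prop
  | xa x, xa y => x = y
  | xa x, va v => (x, v) ∈ E
  | va v, xa x => (x, v) ∈ E
  | va v, va w => v = w ∨ ((∀ p ∈ E, p.2 ≠ v) ∧ (∀ p ∈ E, p.2 ≠ w) ∧ v + w ∈ U)
  | ca n, ca m => n = m
  | _, _ => False

/-- The family of the blocks. -/
def blk (r : XX → XX → Prop) : Set (Set XX) := {D | ∃ x, D = {y | r x y}}

/-- The image of a finite relation. -/
noncomputable def imE (g : GX) (E : Finset (VV × VV)) : Finset (VV × VV) :=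
  E.map ((Equiv.prodCongr g.1 g.2.toEquiv).toEmbedding)

/-- The image of a finite set of vectors. -/
noncomputable def imU (g : GX) (U : Finset VV) : Finset VV := U.map g.2.toEquiv.toEmbedding

theorem mem_imE {g : GX} {E : Finset (VV × VV)} {x y : VV} :
    (g.1 x, g.2 y) ∈ imE g E ↔ (x, y) ∈ E := by
  unfold imE
  rw [Finset.mem_map]
  constructor
  · rintro ⟨⟨a, b⟩, h1, h2⟩
    have h3 : g.1 a = g.1 x := congrArg Prod.fst h2
    have h4 : g.2 b = g.2 y := congrArg Prod.snd h2
    rw [← g.1.injective h3, ← g.2.injective h4]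
    exact h1
  · intro h
    exact ⟨(x, y), h, rfl⟩

theorem all_imE {g : GX} {E : Finset (VV × VV)} {v : VV} :
    (∀ p ∈ imE g E, p.2 ≠ g.2 v) ↔ ∀ p ∈ E, p.2 ≠ v := by
  constructor
  · intro h p hp hv
    refine h (g.1 p.1, g.2 p.2) (mem_imE.2 hp) ?_
    rw [← hv]
  · intro h p hp hv
    have h1 : (g.1 (g.1.symm p.1), g.2 v) ∈ imE g E := by
      rw [Equiv.apply_symm_apply, ← hv]
      exact hp
    rw [mem_imE] at h1
    exact h _ h1 rfl

theorem mem_imU {g : GX} {U : Finset VV} {v : VV} : g.2 v ∈ imU g U ↔ v ∈ U := by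
  unfold imU
  rw [Finset.mem_map]
  constructor
  · rintro ⟨a, h1, h2⟩
    have h3 : g.2 a = g.2 v := h2
    rw [← g.2.injective h3]
    exact h1
  · intro h
    exact ⟨v, h, rfl⟩

theorem rl2_smul (g : GX) (E : Finset (VV × VV)) (U : Finset VV) (x y : XX) :
    rl2 (imE g E) (imU g U) (g • x) (g • y) ↔ rl2 E U x y := by
  rcases x with x | x | x <;> rcases y with y | y | y
  · exact g.1.injective.eq_iff
  · exact mem_imE
  · exact Iff.rfl
  · exact mem_imE
  · change (g.2 x = g.2 y ∨ ((∀ p ∈ imE g E, p.2 ≠ g.2 x) ∧ (∀ p ∈ imE g E, p.2 ≠ g.2 y) ∧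
      g.2 x + g.2 y ∈ imU g U)) ↔ _
    rw [g.2.injective.eq_iff, all_imE, all_imE, ← map_add, mem_imU]
    exact Iff.rfl
  · exact Iff.rfl
  · exact Iff.rfl
  · exact Iff.rfl
  · exact Iff.rfl

theorem imF_blk (g : GX) (E : Finset (VV × VV)) (U : Finset VV) :
    imF g (blk (rl2 E U)) = blk (rl2 (imE g E) (imU g U)) := by
  ext D
  rw [mem_imF]
  constructor
  · rintro ⟨x, hx⟩
    refine ⟨g • x, ?_⟩
    have h1 : D = im' g (im' g⁻¹ D) := (im'_inv' g D).symm
    rw [h1, hx]
    ext y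
    rw [mem_im', Set.mem_setOf_eq, Set.mem_setOf_eq]
    have h2 := rl2_smul g E U x (g⁻¹ • y)
    rw [smul_inv_smul] at h2
    exact h2.symm
  · rintro ⟨x, rfl⟩
    refine ⟨g⁻¹ • x, ?_⟩
    ext y
    rw [mem_im', inv_inv, Set.mem_setOf_eq, Set.mem_setOf_eq]
    have h2 := rl2_smul g E U (g⁻¹ • x) y
    rwa [smul_inv_smul] at h2

theorem finite_rl2 (E : Finset (VV × VV)) (U : Finset VV) (x : XX) : {y | rl2 E U x y}.Finite := by
  classical
  rcases x with x | x | x
  · refine ((Set.finite_singleton (xa x)).union ((E.image fun p => va p.2).finite_toSet)).subset ?_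
    rintro (y | y | y) hy
    · exact Or.inl (congrArg xa (Eq.symm hy))
    · exact Or.inr (Finset.mem_coe.2 (Finset.mem_image.2 ⟨_, hy, rfl⟩))
    · exact absurd hy id
  · refine (((Set.finite_singleton (va x)).union ((E.image fun p => xa p.1).finite_toSet)).union
      ((U.image fun u => va (x + u)).finite_toSet)).subset ?_
    rintro (y | y | y) hy
    · exact Or.inl (Or.inr (Finset.mem_coe.2 (Finset.mem_image.2 ⟨_, hy, rfl⟩)))
    · rcases hy with hy | ⟨-, -, hy⟩
      · exact Or.inl (Or.inl (congrArg va (Eq.symm hy)))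
      · refine Or.inr (Finset.mem_coe.2 (Finset.mem_image.2 ⟨_, hy, ?_⟩))
        rw [add_cancel2]
    · exact absurd hy id
  · refine (Set.finite_singleton (ca x)).subset ?_
    rintro (y | y | y) hy
    · exact absurd hy id
    · exact absurd hy id
    · exact congrArg ca (Eq.symm hy)

/-- The points `xa x`. -/
def XP : Set XX := Set.range xa

/-- The points `va x`. -/
def VP : Set XX := Set.range va

/-- The admissible sets of points. -/
def DX : Set (Set XX) := {D | D.Finite} ∪ {Set.univ, XP, VP}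

/-- The admissible families. -/
def FX : Set (Set (Set XX)) :=
  Set.range fun p : Finset (VV × VV) × Finset VV => blk (rl2 p.1 p.2)

theorem im'_XP (g : GX) : im' g XP = XP := by
  ext x
  rw [mem_im']
  constructor
  · rintro ⟨y, hy⟩
    refine ⟨g.1 y, ?_⟩
    rw [← smul_xa, hy, smul_inv_smul]
  · rintro ⟨y, rfl⟩
    exact ⟨_, rfl⟩

theorem im'_VP (g : GX) : im' g VP = VP := by
  ext x
  rw [mem_im']
  constructor
  · rintro ⟨y, hy⟩
    refine ⟨g.2 y, ?_⟩
    rw [← smul_va, hy, smul_inv_smul]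
  · rintro ⟨y, rfl⟩
    exact ⟨_, rfl⟩

theorem im'_univ {X Γ : Type} [Group Γ] [MulAction Γ X] (g : Γ) :
    im' g (Set.univ : Set X) = Set.univ := rfl

theorem im'_DX (g : GX) {D : Set XX} (h : D ∈ DX) : im' g D ∈ DX := by
  rcases h with h | rfl | rfl | rfl
  · exact Or.inl (im'_finite h)
  · rw [im'_univ]
    exact Or.inr (Or.inl rfl)
  · rw [im'_XP]
    exact Or.inr (Or.inr (Or.inl rfl))
  · rw [im'_VP]
    exact Or.inr (Or.inr (Or.inr rfl))

theorem finite_DX {D : Set XX} (h : D.Finite) : D ∈ DX := Or.inl h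

theorem univ_DX : (Set.univ : Set XX) ∈ DX := Or.inr (Or.inl rfl)

theorem XP_DX : XP ∈ DX := Or.inr (Or.inr (Or.inl rfl))

theorem VP_DX : VP ∈ DX := Or.inr (Or.inr (Or.inr rfl))

theorem countable_DX : DX.Countable := by
  have h1 : ({D : Set XX | D.Finite}).Countable :=
    (Set.countable_setOf_finite_subset (Set.countable_univ (α := XX))).mono
      fun D hD => And.intro hD (Set.subset_univ _)
  exact h1.union (Set.toFinite _).countable

theorem fix_finite {D : Set XX} (hD : D.Finite) : ∃ H ∈ (NFin XX GX).F, ∀ g ∈ H, ∀ x ∈ D,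
    g • x = x := by
  refine ⟨fixingSubgroup GX ((hD.toFinset : Finset XX) : Set XX), ⟨hD.toFinset, fun k => ?_⟩,
    fun k hk => ?_⟩
  · rw [mem_fixingSubgroup_iff]
    rfl
  · rw [mem_fixingSubgroup_iff] at hk
    intro x hx
    exact hk x (by simpa using hx)

theorem sym_DX {D : Set XX} (h : D ∈ DX) : ∃ H ∈ (NFin XX GX).F, ∀ g ∈ H, im' g D = D := by
  rcases h with h | rfl | rfl | rfl
  · obtain ⟨H, hH, h1⟩ := fix_finite h
    exact ⟨H, hH, fun g hg => im'_fix (h1 g hg)⟩
  · obtain ⟨H, hH, -⟩ := fix_finite Set.finite_empty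
    exact ⟨H, hH, fun g _ => im'_univ g⟩
  · obtain ⟨H, hH, -⟩ := fix_finite Set.finite_empty
    exact ⟨H, hH, fun g _ => im'_XP g⟩
  · obtain ⟨H, hH, -⟩ := fix_finite Set.finite_empty
    exact ⟨H, hH, fun g _ => im'_VP g⟩

theorem blk_FX (E : Finset (VV × VV)) (U : Finset VV) : blk (rl2 E U) ∈ FX := ⟨(E, U), rfl⟩

theorem imF_FX (g : GX) {φ : Set (Set XX)} (h : φ ∈ FX) : imF g φ ∈ FX := by
  obtain ⟨⟨E, U⟩, rfl⟩ := h
  change imF g (blk (rl2 E U)) ∈ FX
  rw [imF_blk]
  exact blk_FX _ _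

theorem sub_FX {φ : Set (Set XX)} (h : φ ∈ FX) : φ ⊆ DX := by
  obtain ⟨⟨E, U⟩, rfl⟩ := h
  rintro _ ⟨x, rfl⟩
  exact Or.inl (finite_rl2 E U x)

theorem sym_FX {φ : Set (Set XX)} (h : φ ∈ FX) :
    ∃ H ∈ (NFin XX GX).F, ∀ g ∈ H, imF g φ = φ := by
  classical
  obtain ⟨⟨E, U⟩, rfl⟩ := h
  obtain ⟨H, hH, h1⟩ := fix_finite (D := (((E.image fun p => xa p.1) ∪ (E.image fun p => va p.2)) ∪
    (U.image fun u => va u) : Finset XX)) (Finset.finite_toSet _)
  refine ⟨H, hH, fun g hg => ?_⟩
  change imF g (blk (rl2 E U)) = blk (rl2 E U)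
  rw [imF_blk]
  have h2 : imE g E = E := by
    unfold imE
    have h3 : ∀ p ∈ E, (Equiv.prodCongr g.1 g.2.toEquiv) p = p := by
      intro p hp
      refine Prod.ext ?_ ?_
      · refine xa_inj.1 (h1 g hg (xa p.1) (Finset.mem_coe.2 ?_))
        exact Finset.mem_union_left _ (Finset.mem_union_left _ (Finset.mem_image.2 ⟨p, hp, rfl⟩))
      · refine va_inj.1 (h1 g hg (va p.2) (Finset.mem_coe.2 ?_))
        exact Finset.mem_union_left _ (Finset.mem_union_right _ (Finset.mem_image.2 ⟨p, hp, rfl⟩))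
    ext p
    rw [Finset.mem_map]
    constructor
    · rintro ⟨q, hq, rfl⟩
      change (Equiv.prodCongr g.1 g.2.toEquiv) q ∈ E
      rw [h3 q hq]
      exact hq
    · intro hp
      exact ⟨p, hp, h3 p hp⟩
  have h4 : imU g U = U := by
    unfold imU
    have h3 : ∀ p ∈ U, g.2 p = p := by
      intro p hp
      refine va_inj.1 (h1 g hg (va p) (Finset.mem_coe.2 ?_))
      exact Finset.mem_union_right _ (Finset.mem_image.2 ⟨p, hp, rfl⟩)
    ext p
    rw [Finset.mem_map]
    constructor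
    · rintro ⟨q, hq, rfl⟩
      change g.2 q ∈ U
      rw [h3 q hq]
      exact hq
    · intro hp
      exact ⟨p, hp, h3 p hp⟩
  rw [h2, h4]

/-- The codes. -/
noncomputable def cdX (n : ℕ) : ZFSet.{0} :=
  pair (nat n) (pair (nat (Nat.unpair n).1) (nat (Nat.unpair n).2))

theorem cdX_Cd (n : ℕ) : Cd (cdX n) := .pair (.nat _) (.pair (.nat _) (.nat _))

/-- The relations between numbers and sets of points. -/
def RlX (k n : ℕ) (D : Set XX) : Prop :=
  (k = 0 ∧ ∃ m, n = m + 2 ∧ D = {ca m}) ∨ (k = 1 ∧ D = {ca (4 * n)}) ∨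
    (k = 2 ∧ D = {ca (4 * n + 1)}) ∨ (k = 3 ∧ D = {ca (4 * n + 2)})

theorem im'_ca (g : GX) (D : Set XX) (m : ℕ) : im' g D = {ca m} ↔ D = {ca m} := by
  have h1 : ∀ g : GX, im' g ({ca m} : Set XX) = {ca m} := by
    intro g
    refine im'_fix fun x hx => ?_
    rw [Set.mem_singleton_iff] at hx
    rw [hx]
    rfl
  constructor
  · intro h
    have h2 := im'_inv g D
    rw [h, h1] at h2
    exact h2.symm
  · intro h
    rw [h, h1]

theorem RlX_smul (k n : ℕ) (g : GX) (D : Set XX) : RlX k n (im' g D) ↔ RlX k n D := by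
  unfold RlX
  simp only [im'_ca]

/-- The model. -/
abbrev VxM (M : Set ZFSet.{0}) (at' : XX → ZFSet.{0}) (st : Set XX → ZFSet.{0})
    (fam : Set (Set XX) → ZFSet.{0}) : Prop :=
  PM3 (NFin XX GX) DX FX cdX RlX M at' st fam

theorem exists_vx : ∃ M at' st fam, VxM M at' st fam :=
  exists_pm3 pt_NFin DX countable_DX (fun γ _ hD => im'_DX γ hD) (fun _ hD => sym_DX hD)
    FX (Set.countable_range _) (fun _ h => sub_FX h) (fun γ _ h => imF_FX γ h)
    (fun _ h => sym_FX h) cdX cdX_Cd RlX fun k n γ D _ => RlX_smul k n γ D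

end Pool.Agent.Q211.AM
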